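import Pool.Agent.Lib.MP_b07157_agV.H1
import Mathlib.RingTheory.Polynomial.Resultant.Basic
import Mathlib.FieldTheory.Perfect
import Mathlib.RingTheory.Polynomial.GaussLemma

/-!
# Squarefree polynomials in two variables have isolated singularities
-/

noncomputable section

namespace MPb07157

open MvPolynomial

namespace PC

open Polynomial in
theorem squarefree_map_fraction {R K : Type} [CommRing R] [IsDomain R] [NormalizedGCDMonoid R]
    [Field K] [Algebra R K] [IsFractionRing R K] {P : Polynomial R} (hP : Squarefree P) :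
    Squarefree (P.map (algebraMap R K)) := by
  have hinj := IsFractionRing.injective R K
  have hP0 : P ≠ 0 := hP.ne_zero
  have hPm : P.map (algebraMap R K) ≠ 0 := (Polynomial.map_ne_zero_iff hinj).2 hP0
  intro Q hQ
  have hQ0 : Q ≠ 0 := by
    rintro rfl
    apply hPm
    rw [zero_mul] at hQ
    exact zero_dvd_iff.1 hQ
  set Q₀ := (IsLocalization.integerNormalization (nonZeroDivisors R) Q).primPart with hQ₀
  have hprim : Q₀.IsPrimitive := Polynomial.isPrimitive_primPart _
  obtain ⟨c, hc, hcQ⟩ := IsLocalization.integerNormalization_spec (nonZeroDivisors R) Q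
  have hc0 : algebraMap R K c ≠ 0 := by
    intro h
    exact (nonZeroDivisors.ne_zero hc) ((map_eq_zero_iff _ hinj).1 h)
  have hdvd : Q₀.map (algebraMap R K) ∣ Q := by
    have h1 : Q₀.map (algebraMap R K) ∣ Polynomial.C (algebraMap R K c) * Q := by
      have h2 := (IsLocalization.integerNormalization (nonZeroDivisors R) Q).eq_C_content_mul_primPart
      have h3 := congrArg (Polynomial.map (algebraMap R K)) h2
      rw [hcQ, Polynomial.map_mul] at h3
      rw [← algebraMap_smul K c Q, Polynomial.smul_eq_C_mul] at h3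
      exact Dvd.intro_left _ h3.symm
    exact (IsUnit.dvd_mul_left ((Polynomial.isUnit_C).2 (isUnit_iff_ne_zero.2 hc0))).1 h1
  refine Polynomial.isUnit_or_eq_zero_of_isUnit_integerNormalization_primPart hQ0 (hP Q₀ ?_)
  refine (hprim.mul hprim).dvd_of_fraction_map_dvd_fraction_map (K := K) ?_
  rw [Polynomial.map_mul]
  exact (mul_dvd_mul hdvd hdvd).trans hQ

/-- Elimination. -/
theorem exists_elim {R : Type} [CommRing R] [IsDomain R] [NormalizedGCDMonoid R] [CharZero R]
    {P : Polynomial R} (hP : Squarefree P) :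
    ∃ r : R, r ≠ 0 ∧ ∃ a b : Polynomial R, P * a + Polynomial.derivative P * b =
      Polynomial.C r := by
  have hP0 : P ≠ 0 := hP.ne_zero
  by_cases hd : P.natDegree = 0
  · refine ⟨P.coeff 0, ?_, 1, 0, ?_⟩
    · intro h
      apply hP0
      rw [Polynomial.eq_C_of_natDegree_eq_zero hd, h, map_zero]
    · rw [mul_one, mul_zero, add_zero]
      exact Polynomial.eq_C_of_natDegree_eq_zero hd
  · let K := FractionRing R
    have hinj := IsFractionRing.injective R K
    have : CharZero K := charZero_of_injective_algebraMap hinj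
    obtain ⟨a, b, -, -, hab⟩ := Polynomial.exists_mul_add_mul_eq_C_resultant P
      (Polynomial.derivative P) le_rfl le_rfl (Or.inl hd)
    refine ⟨_, ?_, a, b, hab⟩
    intro h
    have h1 := Polynomial.resultant_map_map P (Polynomial.derivative P) P.natDegree
      (Polynomial.derivative P).natDegree (algebraMap R K)
    rw [h, map_zero] at h1
    have h2 : (P.map (algebraMap R K)).resultant ((Polynomial.derivative P).map
        (algebraMap R K)) = 0 := by
      rw [Polynomial.natDegree_map_eq_of_injective hinj,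
        Polynomial.natDegree_map_eq_of_injective hinj]
      exact h1
    rw [Polynomial.resultant_eq_zero_iff, ← Polynomial.derivative_map] at h2
    exact h2.2 (PerfectField.separable_iff_squarefree.2 (squarefree_map_fraction hP))

theorem finSuccEquiv_pderiv (g : MvPolynomial (Fin 2) ℂ) :
    finSuccEquiv ℂ 1 (pderiv 0 g) = Polynomial.derivative (finSuccEquiv ℂ 1 g) := by
  have hC : ∀ a : ℂ, finSuccEquiv ℂ 1 (C a) = Polynomial.C (C a) := fun a => by
    rw [← MvPolynomial.algebraMap_eq, AlgEquiv.commutes]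
    rfl
  induction g using MvPolynomial.induction_on with
  | C a => rw [pderiv_C, map_zero, hC, Polynomial.derivative_C]
  | add p q hp hq => rw [map_add, map_add, map_add, map_add, hp, hq]
  | mul_X p j hp =>
    rw [Derivation.leibniz, map_add, smul_eq_mul, smul_eq_mul, map_mul, map_mul, map_mul, hp,
      Polynomial.derivative_mul]
    rcases (show j = 0 ∨ j = 1 by omega) with rfl | rfl
    · rw [pderiv_X_self, map_one, finSuccEquiv_X_zero, Polynomial.derivative_X]
      ring
    · have h1 : finSuccEquiv ℂ 1 (X 1) = Polynomial.C (X 0) := finSuccEquiv_X_succ (j := 0)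
      rw [pderiv_X_of_ne (by decide), map_zero, h1, Polynomial.derivative_C]
      ring

theorem exists_elim_zero {g : MvPolynomial (Fin 2) ℂ} (hg : Squarefree g) :
    ∃ H a b : MvPolynomial (Fin 2) ℂ, H ≠ 0 ∧ (∀ v, coeff v H ≠ 0 → v 0 = 0) ∧
      g * a + pderiv 0 g * b = H := by
  let _ : StrongNormalizationMonoid (MvPolynomial (Fin 1) ℂ) :=
    UniqueFactorizationMonoid.strongNormalizationMonoid
  let _ : NormalizedGCDMonoid (MvPolynomial (Fin 1) ℂ) :=
    UniqueFactorizationMonoid.toNormalizedGCDMonoid _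
  have hsq : Squarefree (finSuccEquiv ℂ 1 g) := by
    intro Q hQ
    have h1 : (finSuccEquiv ℂ 1).symm Q * (finSuccEquiv ℂ 1).symm Q ∣ g := by
      have h2 := map_dvd (finSuccEquiv ℂ 1).symm hQ
      rwa [map_mul, AlgEquiv.symm_apply_apply] at h2
    have h3 := (hg _ h1).map (finSuccEquiv ℂ 1)
    rwa [AlgEquiv.apply_symm_apply] at h3
  obtain ⟨r, hr, a, b, hab⟩ := exists_elim hsq
  refine ⟨(finSuccEquiv ℂ 1).symm (Polynomial.C r), (finSuccEquiv ℂ 1).symm a,
    (finSuccEquiv ℂ 1).symm b, ?_, ?_, ?_⟩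
  · intro h
    apply hr
    have h1 := (map_eq_zero_iff _ (finSuccEquiv ℂ 1).symm.injective).1 h
    exact Polynomial.C_eq_zero.1 h1
  · intro v hv
    by_contra h0
    apply hv
    have h1 := finSuccEquiv_coeff_coeff (Finsupp.tail v)
      ((finSuccEquiv ℂ 1).symm (Polynomial.C r)) (v 0)
    rw [Finsupp.cons_tail, AlgEquiv.apply_symm_apply, Polynomial.coeff_C, if_neg h0,
      coeff_zero] at h1
    exact h1.symm
  · rw [← hab, ← finSuccEquiv_pderiv, map_add, map_mul, map_mul, AlgEquiv.symm_apply_apply,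
      AlgEquiv.symm_apply_apply]

theorem exists_elim_one {g : MvPolynomial (Fin 2) ℂ} (hg : Squarefree g) :
    ∃ H a b : MvPolynomial (Fin 2) ℂ, H ≠ 0 ∧ (∀ v, coeff v H ≠ 0 → v 1 = 0) ∧
      g * a + pderiv 1 g * b = H := by
  set e := renameEquiv ℂ (Equiv.swap (0 : Fin 2) 1) with he
  have hee : ∀ p, e (e p) = p := by
    intro p
    rw [he, renameEquiv_apply, renameEquiv_apply, rename_rename]
    have h1 : (⇑(Equiv.swap (0 : Fin 2) 1) ∘ ⇑(Equiv.swap (0 : Fin 2) 1)) = id := by
      funext i
      simp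
    rw [h1, rename_id]
    rfl
  have hsq : Squarefree (e g) := by
    intro Q hQ
    have h1 : e Q * e Q ∣ g := by
      have h2 := map_dvd e hQ
      rwa [map_mul, hee] at h2
    have h3 := (hg _ h1).map e
    rwa [hee] at h3
  obtain ⟨H, a, b, hH, hv, hab⟩ := exists_elim_zero hsq
  refine ⟨e H, e a, e b, ?_, ?_, ?_⟩
  · intro h
    exact hH ((map_eq_zero_iff _ e.injective).1 h)
  · intro v hv'
    rw [he, renameEquiv_apply] at hv'
    obtain ⟨u, rfl, hu⟩ := coeff_rename_ne_zero _ _ _ hv'
    have h2 := hv u hu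
    rw [Finsupp.mapDomain_equiv_apply]
    simpa using h2
  · rw [← hab, map_add, map_mul, map_mul, hee]
    have h1 := pderiv_rename (R := ℂ) (Equiv.swap (0 : Fin 2) 1).injective 1 g
    rw [Equiv.swap_apply_right] at h1
    have h2 : pderiv 0 (e g) = e (pderiv 1 g) := h1
    rw [h2, hee]

/-- A power series in one of the variables is a power of it times a unit. -/
theorem exists_unit_of_one_var {H : P2} (hH : H ≠ 0) {i j : Fin 2} (hij : i ≠ j)
    (hv : ∀ v, MvPowerSeries.coeff v H ≠ 0 → v i = 0) :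
    ∃ k U, IsUnit U ∧ H = MvPowerSeries.X j ^ k * U := by
  obtain ⟨k, ⟨U, hU⟩, hk2⟩ := exists_exactPow hH j
  refine ⟨k, U, ?_, hU⟩
  rw [MvPowerSeries.isUnit_iff_constantCoeff, isUnit_iff_ne_zero]
  intro h0
  apply hk2
  rw [hU, pow_succ]
  refine mul_dvd_mul_left _ ?_
  rw [MvPowerSeries.X_dvd_iff]
  intro v hvj
  by_cases hvi : v i = 0
  · have h1 : v = 0 := by
      ext l
      rcases (show l = i ∨ l = j by omega) with rfl | rfl
      · exact hvi
      · exact hvj
    rw [h1]
    exact h0
  · have h1 : MvPowerSeries.coeff (v + Finsupp.single j k) H = MvPowerSeries.coeff v U := by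
      rw [hU, MvPowerSeries.X_pow_eq, add_comm v, MvPowerSeries.coeff_add_monomial_mul, one_mul]
    rw [← h1]
    by_contra h2
    have h3 := hv _ h2
    rw [Finsupp.add_apply] at h3
    omega

theorem pderiv_coe_P2 (i : Fin 2) (g : MvPolynomial (Fin 2) ℂ) :
    ((pderiv i g : MvPolynomial (Fin 2) ℂ) : P2) = MvPowerSeries.pderiv ℂ i (g : P2) := by
  ext m
  rw [MvPolynomial.coeff_coe, MvPowerSeries.coeff_pderiv, MvPolynomial.coeff_coe,
    MvPolynomial.coeff_pderiv]

/-- A squarefree polynomial has (at most) an isolated singularity at the origin. -/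
theorem isoSing_of_squarefree {g : MvPolynomial (Fin 2) ℂ} (hg : Squarefree g) :
    IsoSing (g : P2) := by
  set I : Ideal P2 := Ideal.span {(g : P2), MvPowerSeries.pderiv ℂ 0 (g : P2),
    MvPowerSeries.pderiv ℂ 1 (g : P2)} with hI
  have key : ∀ (i j : Fin 2), i ≠ j → (∃ H a b : MvPolynomial (Fin 2) ℂ, H ≠ 0 ∧
      (∀ v, coeff v H ≠ 0 → v i = 0) ∧ g * a + pderiv i g * b = H) →
      ∃ k, (MvPowerSeries.X j : P2) ^ k ∈ I := by
    rintro i j hij ⟨H, a, b, hH, hv, hab⟩
    have hH' : (H : P2) ≠ 0 := by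
      intro h
      exact hH (MvPolynomial.coe_injective _ _ (by simpa using h))
    obtain ⟨k, U, hU, hk⟩ := exists_unit_of_one_var hH' hij
      (fun v h => hv v (by rwa [MvPolynomial.coeff_coe] at h))
    refine ⟨k, ?_⟩
    have h1 : (H : P2) ∈ I := by
      rw [← hab, MvPolynomial.coe_add, MvPolynomial.coe_mul, MvPolynomial.coe_mul, pderiv_coe_P2]
      refine I.add_mem (I.mul_mem_right _ (Ideal.subset_span (by simp)))
        (I.mul_mem_right _ (Ideal.subset_span ?_))
      rcases (show i = 0 ∨ i = 1 by omega) with rfl | rfl <;> simp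
    rw [hk] at h1
    exact (Ideal.mul_unit_mem_iff_mem I hU).1 h1
  obtain ⟨k1, hk1⟩ := key 0 1 (by decide) (exists_elim_zero hg)
  obtain ⟨k0, hk0⟩ := key 1 0 (by decide) (exists_elim_one hg)
  refine ⟨max k0 k1, fun i => ?_⟩
  rcases (show i = 0 ∨ i = 1 by omega) with rfl | rfl
  · exact I.mem_of_dvd (pow_dvd_pow _ (le_max_left _ _)) hk0
  · exact I.mem_of_dvd (pow_dvd_pow _ (le_max_right _ _)) hk1

end PC
end MPb07157
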