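import Pool.Agent.Lib.MP_b07157_agV.Defs

/-!
# Arcs and truncations of power series
-/

noncomputable section

namespace MPb07157

open MvPolynomial

namespace PC

/-- The truncation of a power series in total degree at most `d`. -/
theorem exists_trunc (F : P2) (d : ℕ) : ∃ P : MvPolynomial (Fin 2) ℂ,
    ∀ v : Fin 2 →₀ ℕ, MvPowerSeries.coeff v F = P.coeff v ∨ d < v 0 + v 1 ∧ P.coeff v = 0 := by
  refine ⟨MvPowerSeries.truncTotal (d + 1) F, fun v => ?_⟩
  rw [MvPowerSeries.coeff_truncTotal_eq_ite, Finsupp.degree_eq_sum, Fin.sum_univ_two]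
  by_cases h : v 0 + v 1 < d + 1
  · left
    rw [if_pos h]
  · right
    rw [if_neg h]
    exact ⟨by omega, rfl⟩

/-- The product of powers is divisible by the power of `t`. -/
theorem X_pow_dvd_finsupp_prod {w : Fin 2 → ℕ} {x : Fin 2 → PowerSeries ℂ}
    (hx : ∀ j, PowerSeries.X ^ w j ∣ x j) (v : Fin 2 →₀ ℕ) :
    (PowerSeries.X : PowerSeries ℂ) ^ wt w v ∣ v.prod fun s e => x s ^ e := by
  rw [Finsupp.prod_fintype _ _ (fun i => pow_zero _), wt, ← Finset.prod_pow_eq_pow_sum]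
  refine Finset.prod_dvd_prod_of_dvd _ _ fun i _ => ?_
  rw [pow_mul]
  exact pow_dvd_pow_of_dvd (hx i) _

theorem constantCoeff_of_dvd {w : Fin 2 → ℕ} (hw : ∀ j, 0 < w j) {x : Fin 2 → PowerSeries ℂ}
    (hx : ∀ j, PowerSeries.X ^ w j ∣ x j) (j : Fin 2) :
    MvPowerSeries.constantCoeff (σ := Unit) (R := ℂ) (x j) = 0 := by
  have h1 : (PowerSeries.X : PowerSeries ℂ) ∣ x j := (dvd_pow_self _ (hw j).ne').trans (hx j)
  exact PowerSeries.X_dvd_iff.1 h1

theorem hasSubst_of_dvd {w : Fin 2 → ℕ} (hw : ∀ j, 0 < w j) {x : Fin 2 → PowerSeries ℂ}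
    (hx : ∀ j, PowerSeries.X ^ w j ∣ x j) :
    MvPowerSeries.HasSubst (x : Fin 2 → MvPowerSeries Unit ℂ) :=
  MvPowerSeries.hasSubst_of_constantCoeff_zero (constantCoeff_of_dvd hw hx)

/-- If the `w`-weights of the terms of `F` are at least `r` and `ord x ≥ w₀`, `ord y ≥ w₁`, then
`ord F(x, y) ≥ r`. -/
theorem le_order_subst {F : P2} {w : Fin 2 → ℕ} {r : ℕ} (hw : ∀ j, 0 < w j)
    (hF : ∀ v : Fin 2 →₀ ℕ, wt w v < r → MvPowerSeries.coeff v F = 0)
    {x : Fin 2 → PowerSeries ℂ} (hx : ∀ j, PowerSeries.X ^ w j ∣ x j) :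
    PowerSeries.X ^ r ∣
      (MvPowerSeries.subst (x : Fin 2 → MvPowerSeries Unit ℂ) F : PowerSeries ℂ) := by
  rw [PowerSeries.X_pow_dvd_iff]
  intro k hk
  have h1 := MvPowerSeries.coeff_subst (hasSubst_of_dvd hw hx) F (Finsupp.single () k)
  have h2 : PowerSeries.coeff k
      (MvPowerSeries.subst (x : Fin 2 → MvPowerSeries Unit ℂ) F : PowerSeries ℂ) =
      MvPowerSeries.coeff (Finsupp.single () k)
        (MvPowerSeries.subst (x : Fin 2 → MvPowerSeries Unit ℂ) F) := rfl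
  rw [h2, h1]
  refine finsum_eq_zero_of_forall_eq_zero fun v => ?_
  by_cases hv : wt w v < r
  · rw [hF v hv, zero_smul]
  · have h3 : (PowerSeries.X : PowerSeries ℂ) ^ r ∣ v.prod fun s e => x s ^ e :=
      (pow_dvd_pow _ (not_lt.1 hv)).trans (X_pow_dvd_finsupp_prod hx v)
    have h4 := PowerSeries.X_pow_dvd_iff.1 h3 k hk
    have h5 : MvPowerSeries.coeff (Finsupp.single () k)
        (v.prod fun s e => (x s : MvPowerSeries Unit ℂ) ^ e) = 0 := h4
    rw [h5, smul_zero]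

/-- `F` minus a polynomial with the same terms of weight `< r`. -/
theorem subst_eq_add {F : P2} {w : Fin 2 → ℕ} {r : ℕ} (hw : ∀ j, 0 < w j)
    {P : MvPolynomial (Fin 2) ℂ}
    (hP : ∀ v : Fin 2 →₀ ℕ, wt w v < r → MvPowerSeries.coeff v F = P.coeff v)
    {x : Fin 2 → PowerSeries ℂ} (hx : ∀ j, PowerSeries.X ^ w j ∣ x j) :
    ∃ H : PowerSeries ℂ,
      (MvPowerSeries.subst (x : Fin 2 → MvPowerSeries Unit ℂ) F : PowerSeries ℂ) =
        aeval x P + PowerSeries.X ^ r * H := by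
  have h1 := le_order_subst hw (F := F - (P : P2)) (r := r) (fun v hv => by
    rw [map_sub, hP v hv, MvPolynomial.coeff_coe, sub_self]) hx
  obtain ⟨H, hH⟩ := h1
  refine ⟨H, ?_⟩
  rw [← hH, MvPowerSeries.subst_sub (hasSubst_of_dvd hw hx), MvPowerSeries.subst_coe]
  exact (add_sub_cancel _ _).symm

theorem aeval_X_pow_mul {w : Fin 2 → ℕ} {r : ℕ} {P : MvPolynomial (Fin 2) ℂ}
    (hP : ∀ v ∈ P.support, wt w v = r) (x : Fin 2 → PowerSeries ℂ) :
    aeval (fun j => PowerSeries.X ^ w j * x j) P = PowerSeries.X ^ r * (aeval x P : PowerSeries ℂ) := by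
  rw [aeval_def, aeval_def, eval₂_eq', eval₂_eq', Finset.mul_sum]
  refine Finset.sum_congr rfl fun v hv => ?_
  rw [← hP v hv, wt, ← Finset.prod_pow_eq_pow_sum]
  simp only [mul_pow, Finset.prod_mul_distrib, ← pow_mul]
  ring

theorem constantCoeff_aeval' (x : Fin 2 → PowerSeries ℂ) (P : MvPolynomial (Fin 2) ℂ) :
    PowerSeries.constantCoeff (aeval x P : PowerSeries ℂ) =
      eval (fun j => PowerSeries.constantCoeff (x j)) P := by
  have h1 := MvPolynomial.eval₂_comp_left (PowerSeries.constantCoeff : PowerSeries ℂ →+* ℂ)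
    (algebraMap ℂ (PowerSeries ℂ)) x P
  rw [aeval_def, h1, MvPolynomial.eval, coe_eval₂Hom]
  rfl

/-- The leading coefficient of `F(t^{w₀} x, t^{w₁} y)`. -/
theorem subst_init {F : P2} {w : Fin 2 → ℕ} {r : ℕ} {P : MvPolynomial (Fin 2) ℂ}
    (hw : ∀ j, 0 < w j) (hI : IsInit F w r P) (x : Fin 2 → PowerSeries ℂ) :
    ∃ G : PowerSeries ℂ,
      (MvPowerSeries.subst (fun j => PowerSeries.X ^ w j * x j : Fin 2 → MvPowerSeries Unit ℂ) F :
        PowerSeries ℂ) = PowerSeries.X ^ r * G ∧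
      PowerSeries.constantCoeff G = eval (fun j => PowerSeries.constantCoeff (x j)) P := by
  obtain ⟨H, hH⟩ := subst_eq_add (r := r + 1) hw (fun v hv => hI.2.2 v (by omega))
    (x := fun j => PowerSeries.X ^ w j * x j) (fun j => dvd_mul_right _ _)
  refine ⟨aeval x P + PowerSeries.X * H, ?_, ?_⟩
  · rw [aeval_X_pow_mul hI.2.1] at hH
    rw [mul_add, ← mul_assoc, ← pow_succ]
    exact hH
  · rw [map_add, map_mul, PowerSeries.constantCoeff_X, zero_mul, add_zero, constantCoeff_aeval']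

/-- The order in the definition of `arcsV` is the order of power series in one variable. -/
theorem mem_arcsV_iff {F : P2} {N m : ℕ} {γ : Fin 2 × Fin N → ℂ} :
    γ ∈ arcsV F N m ↔ γ ∈ Start 2 1 N ∧ PowerSeries.order
      (MvPowerSeries.subst (arc γ : Fin 2 → MvPowerSeries Unit ℂ) F : PowerSeries ℂ) = m := by
  rw [PowerSeries.order_eq_order]
  rfl

theorem order_eq_iff_of_dvd {A B : PowerSeries ℂ} {m : ℕ} {H : PowerSeries ℂ}
    (h : A = B + PowerSeries.X ^ (m + 1) * H) : A.order = m ↔ B.order = m := by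
  have h1 : ∀ k < m + 1, PowerSeries.coeff k A = PowerSeries.coeff k B := by
    intro k hk
    have h2 : PowerSeries.coeff k (PowerSeries.X ^ (m + 1) * H) = 0 :=
      PowerSeries.X_pow_dvd_iff.1 (dvd_mul_right _ _) k hk
    rw [h, map_add, h2, add_zero]
  rw [PowerSeries.order_eq_nat, PowerSeries.order_eq_nat, h1 m (by omega)]
  refine and_congr_right fun _ => forall₂_congr fun i hi => ?_
  rw [h1 i (by omega)]

theorem X_dvd_arc_of_mem_Start {N : ℕ} {γ : Fin 2 × Fin N → ℂ} (hγ : γ ∈ Start 2 1 N)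
    (j : Fin 2) : (PowerSeries.X : PowerSeries ℂ) ^ 1 ∣ arc γ j := by
  rw [PowerSeries.X_pow_dvd_iff]
  intro k hk
  rw [coeff_arc]
  split_ifs with h
  · exact hγ j ⟨k, h⟩ hk
  · rfl

/-- Only the terms of degree at most `m` matter for `ord F(γ) = m`. -/
theorem arcsV_eq {F : P2} {P : MvPolynomial (Fin 2) ℂ} {N m : ℕ} (hm : m < N)
    (hP : ∀ v : Fin 2 →₀ ℕ, v 0 + v 1 ≤ m → MvPowerSeries.coeff v F = P.coeff v) :
    arcsV F N m = arcs P N m ∩ Start 2 1 N := by
  ext γ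
  have key : γ ∈ Start 2 1 N →
      (PowerSeries.order
        (MvPowerSeries.subst (arc γ : Fin 2 → MvPowerSeries Unit ℂ) F : PowerSeries ℂ) = m ↔
        (aeval (arc γ) P : PowerSeries ℂ).order = m) := by
    intro hγ
    obtain ⟨H, hH⟩ := subst_eq_add (F := F) (P := P) (w := fun _ => 1) (r := m + 1)
      (fun _ => one_pos) (fun v hv => hP v (by
        rw [wt, Fin.sum_univ_two, one_mul, one_mul] at hv
        omega)) (X_dvd_arc_of_mem_Start hγ)
    exact order_eq_iff_of_dvd hH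
  rw [mem_arcsV_iff]
  constructor
  · rintro ⟨h1, h2⟩
    exact ⟨(key h1).1 h2, h1⟩
  · rintro ⟨h1, h2⟩
    exact ⟨h2, (key h2).2 h1⟩

theorem isConstr_arcsV (F : P2) {N m : ℕ} (hm : m < N) : IsConstr (arcsV F N m) := by
  obtain ⟨P, hP⟩ := exists_trunc F m
  rw [arcsV_eq hm fun v hv => (hP v).resolve_right fun h => by omega]
  exact (isConstr_arcs P N m).inter (isConstr_Start 2 1 N)

theorem isConstr_Xo (N i : ℕ) : IsConstr (Xo N i) := by
  have h1 : IsConstr {γ : Fin 2 × Fin N → ℂ | ∀ k ∈ (Finset.univ : Finset (Fin N)),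
      (k : ℕ) < i → γ (0, k) = 0} := by
    refine isConstr_forall_mem _ _ fun k _ => ?_
    refine isConstr_setOf_imp (isConstr_const _) ?_
    have := isConstr_eq_zero (X (0, k) : MvPolynomial (Fin 2 × Fin N) ℂ)
    simpa using this
  have h2 : IsConstr {γ : Fin 2 × Fin N → ℂ | ∀ h : i < N, γ (0, ⟨i, h⟩) ≠ 0} := by
    by_cases h : i < N
    · have := isConstr_ne_zero (X (0, ⟨i, h⟩) : MvPolynomial (Fin 2 × Fin N) ℂ)
      have h3 : {γ : Fin 2 × Fin N → ℂ | ∀ h : i < N, γ (0, ⟨i, h⟩) ≠ 0} =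
          {γ | eval γ (X (0, ⟨i, h⟩) : MvPolynomial (Fin 2 × Fin N) ℂ) ≠ 0} := by
        ext γ
        simp [h]
      rw [h3]
      exact this
    · have h3 : {γ : Fin 2 × Fin N → ℂ | ∀ h : i < N, γ (0, ⟨i, h⟩) ≠ 0} = Set.univ := by
        ext γ
        simp [h]
      rw [h3]
      exact IsConstr.univ
  have h4 : Xo N i = {γ : Fin 2 × Fin N → ℂ | ∀ k ∈ (Finset.univ : Finset (Fin N)),
      (k : ℕ) < i → γ (0, k) = 0} ∩ {γ : Fin 2 × Fin N → ℂ | ∀ h : i < N, γ (0, ⟨i, h⟩) ≠ 0} := by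
    ext γ
    simp [Xo]
  rw [h4]
  exact h1.inter h2

end PC

end MPb07157
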