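import Pool.Agent.Lib.MP_b07157_agV.W1

/-!
# Weighted zeta functions of non-degenerate polynomials: one bad ray, and the pole `-1`
-/

noncomputable section

namespace MPb07157

open MvPolynomial Finset

namespace W2

section Poly

variable {G ι : Type} [AddCommGroup G] [Fintype ι] (lam : ι → G →+ ℤ)

/-- Comparison of two polyhedral sets which differ by a shift of some facets. -/
theorem genF_sub_mem (mu nu : G →+ ℤ) (s₀ : ℚ) (E : Finset ι) [DecidableEq ι] :
    ∀ (N : ℕ) (c c' : ι → ℤ), (∀ k, c k ≤ c' k) → (∀ k ∈ E, c' k = c k) →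
      (∑ k, (c' k - c k)).toNat = N →
      (∀ z ∈ PSet lam c E, 0 ≤ mu z) → (∀ m : ℤ, {z ∈ PSet lam c E | mu z = m}.Finite) →
      (∀ (c'' : ι → ℤ) (k : ι), k ∉ E → c k < c' k → (∀ z ∈ PSet lam c'' (insert k E), 0 ≤ mu z) →
        (∀ m : ℤ, {z ∈ PSet lam c'' (insert k E) | mu z = m}.Finite) →
        genF mu nu (PSet lam c'' (insert k E)) ∈ regularAt s₀) →
      genF mu nu (PSet lam c E) - genF mu nu (PSet lam c' E) ∈ regularAt s₀ := by
  intro N
  induction N with
  | zero =>
    intro c c' hcc hE hN hpos hfin _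
    have h0 : ∑ k, (c' k - c k) ≤ 0 := by omega
    have h1 : ∀ k, c' k = c k := by
      intro k
      have h2 : c' k - c k ≤ ∑ k, (c' k - c k) :=
        Finset.single_le_sum (f := fun k => c' k - c k) (fun j _ => sub_nonneg.2 (hcc j))
          (Finset.mem_univ k)
      have := hcc k
      omega
    have h2 : c' = c := funext h1
    rw [h2, sub_self]
    exact zero_mem _
  | succ N ihN =>
    intro c c' hcc hE hN hpos hfin IH
    have h0 : ∃ k, c k < c' k := by
      by_contra hcon
      push Not at hcon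
      have h1 : ∑ k, (c' k - c k) ≤ 0 :=
        Finset.sum_nonpos fun k _ => by have := hcon k; omega
      omega
    obtain ⟨k, hk⟩ := h0
    have hkE : k ∉ E := fun h => by have := hE k h; omega
    have hsplit := PSet_split lam c E k hkE
    have hsub1 : PSet lam (Function.update c k (c k + 1)) E ⊆ PSet lam c E := by
      rw [hsplit]; exact Set.subset_union_left
    have hsub2 : PSet lam c (insert k E) ⊆ PSet lam c E := by
      conv_rhs => rw [hsplit]
      exact Set.subset_union_right
    have h3 := genF_union mu nu (PSet_split_disjoint lam c E k)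
      (fun m => (hfin m).subset fun z hz => ⟨hsub1 hz.1, hz.2⟩)
      (fun m => (hfin m).subset fun z hz => ⟨hsub2 hz.1, hz.2⟩)
    rw [← hsplit] at h3
    have h4 := ihN (Function.update c k (c k + 1)) c' (fun j => by
        by_cases hjk : j = k
        · subst hjk
          rw [Function.update_self]
          omega
        · rw [Function.update_of_ne hjk]
          exact hcc j) (fun j hj => by
        rw [Function.update_of_ne (by rintro rfl; exact hkE hj)]
        exact hE j hj) (by
        have h5 : ∑ j, (c' j - Function.update c k (c k + 1) j) = ∑ j, (c' j - c j) - 1 := by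
          rw [← Finset.add_sum_erase _ _ (Finset.mem_univ k),
            ← Finset.add_sum_erase (Finset.univ) (fun j => c' j - c j) (Finset.mem_univ k),
            Function.update_self, Finset.sum_congr rfl (g := fun j => c' j - c j)]
          · ring
          · intro j hj
            rw [Function.update_of_ne (Finset.ne_of_mem_erase hj)]
        omega) (fun z hz => hpos z (hsub1 hz))
      (fun m => (hfin m).subset fun z hz => ⟨hsub1 hz.1, hz.2⟩)
      (fun c'' j hj hjc h1 h2 => IH c'' j hj (by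
        by_cases hjk : j = k
        · subst hjk
          exact hk
        · rw [Function.update_of_ne hjk] at hjc
          exact hjc) h1 h2)
    have h5 := IH c k hkE hk (fun z hz => hpos z (hsub2 hz))
      (fun m => (hfin m).subset fun z hz => ⟨hsub2 hz.1, hz.2⟩)
    have h6 : genF mu nu (PSet lam c E) - genF mu nu (PSet lam c' E) =
        (genF mu nu (PSet lam (Function.update c k (c k + 1)) E) -
          genF mu nu (PSet lam c' E)) + genF mu nu (PSet lam c (insert k E)) := by
      rw [h3]; ring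
    rw [h6]
    exact add_mem h4 h5

/-- **One bad ray.** If all extremal rays that contribute the candidate pole `s₀` are multiples of
`w₀`, then `(1 - L^{-ν(w₀)} T^{μ(w₀)}) F` is regular at `s₀`. -/
theorem one_sub_mul_genF_mem (hinj : ∀ z, (∀ k, lam k z = 0) → z = 0) (mu nu : G →+ ℤ) (s₀ : ℚ)
    (c : ι → ℤ) (E : Finset ι)
    (hpos : ∀ z ∈ PSet lam c E, 0 ≤ mu z)
    (hfin : ∀ m : ℤ, {z ∈ PSet lam c E | mu z = m}.Finite)
    (w₀ : G) (hmu : 0 < mu w₀)
    (hray : ∀ z, MaxTight lam E z → (nu z : ℚ) = -s₀ * mu z →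
      ∃ a b : ℕ, 0 < a ∧ 0 < b ∧ a • z = b • w₀) :
    (1 - PowerSeries.C ((LU ^ (-(nu w₀)) : Motˣ) : Mot) * PowerSeries.X ^ (mu w₀).toNat) *
      genF mu nu (PSet lam c E) ∈ regularAt s₀ := by
  classical
  set u : PowerSeries Mot := PowerSeries.C ((LU ^ (-(nu w₀)) : Motˣ) : Mot) *
      PowerSeries.X ^ (mu w₀).toNat with hu
  have humem : u ∈ regularAt s₀ :=
    mul_mem (C_mem_regularAt _ _) (pow_mem (X_mem_regularAt _) _)
  have hw0 : w₀ ≠ 0 := by
    rintro rfl
    rw [map_zero] at hmu
    exact lt_irrefl _ hmu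
  by_cases hw : MaxTight lam E w₀
  · -- the shift by `w₀`
    have hwc := hw.2.1
    have hc' := genF_sub_mem lam mu nu s₀ E _ c (fun k => c k + lam k w₀) (fun k => by
        have := hwc.1 k
        simp only [Pi.zero_apply] at this
        omega) (fun k hk => by
        have := hwc.2 k hk
        simp only [Pi.zero_apply] at this
        rw [this, add_zero]) rfl hpos hfin (fun c'' k hk hck h1 h2 => by
        refine genF_mem_regularAt lam hinj mu nu s₀ c'' (insert k E) h1 h2 fun z hz hbad => ?_
        obtain ⟨a, b, ha, hb, hab⟩ := hray z (MaxTight.of_insert lam hz) hbad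
        have h3 : lam k z = 0 := by
          have := hz.2.1.2 k (Finset.mem_insert_self _ _)
          simpa using this
        have h4 : lam k (a • z) = lam k (b • w₀) := by rw [hab]
        rw [map_nsmul, map_nsmul, h3, nsmul_zero, nsmul_eq_mul] at h4
        have h5 : (0 : ℤ) < b := by exact_mod_cast hb
        have h6 : 0 < lam k w₀ := by omega
        have := mul_pos h5 h6
        omega)
    have hset : PSet lam (fun k => c k + lam k w₀) E = {z | z - w₀ ∈ PSet lam c E} := by
      ext z
      simp only [PSet, Set.mem_ofPred_eq, map_sub]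
      constructor
      · rintro ⟨h1, h2⟩
        exact ⟨fun k => by have := h1 k; omega, fun k hk => by have := h2 k hk; omega⟩
      · rintro ⟨h1, h2⟩
        exact ⟨fun k => by have := h1 k; omega, fun k hk => by have := h2 k hk; omega⟩
    rw [hset, genF_translate mu nu _ w₀ hmu.le hpos hfin, ← hu] at hc'
    have h7 : (1 - u) * genF mu nu (PSet lam c E) =
        genF mu nu (PSet lam c E) - u * genF mu nu (PSet lam c E) := by ring
    rw [h7]
    exact hc'
  · -- no bad ray
    refine mul_mem (sub_mem (one_mem _) humem)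
      (genF_mem_regularAt lam hinj mu nu s₀ c E hpos hfin fun z hz hbad => hw ?_)
    obtain ⟨a, b, ha, hb, hab⟩ := hray z hz hbad
    have ha' : (0 : ℤ) < a := by exact_mod_cast ha
    have hb' : (0 : ℤ) < b := by exact_mod_cast hb
    have hk : ∀ k, (a : ℤ) * lam k z = b * lam k w₀ := by
      intro k
      have h4 : lam k (a • z) = lam k (b • w₀) := by rw [hab]
      rwa [map_nsmul, map_nsmul, nsmul_eq_mul, nsmul_eq_mul] at h4
    have hz0 : ∀ k, lam k z = 0 ↔ lam k w₀ = 0 := by
      intro k
      have h1 := hk k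
      constructor
      · intro h
        rw [h, mul_zero] at h1
        exact (mul_eq_zero.1 h1.symm).resolve_left hb'.ne'
      · intro h
        rw [h, mul_zero] at h1
        exact (mul_eq_zero.1 h1).resolve_left ha'.ne'
    refine ⟨hw0, ⟨fun k => ?_, fun k hkE => ?_⟩, fun y hy hy0 hyt k hk0 => ?_⟩
    · have h1 := hz.2.1.1 k
      simp only [Pi.zero_apply] at h1 ⊢
      by_contra hneg
      push Not at hneg
      have h2 := mul_nonneg ha'.le h1
      have h3 := mul_neg_of_pos_of_neg hb' hneg
      have h4 := hk k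
      omega
    · have h1 := hz.2.1.2 k hkE
      simp only [Pi.zero_apply] at h1 ⊢
      exact (hz0 k).1 h1
    · exact (hz0 k).1 (hz.2.2 y hy hy0 (fun j hj => hyt j ((hz0 j).1 hj)) k hk0)

end Poly

open W1

/-- The extremal rays which contribute the candidate pole `s₀`. -/
theorem ray_bad {n : ℕ} {f : MvPolynomial (Fin n) ℂ} {K : ℕ} {I : Finset (Fin n →₀ ℕ)}
    {S : Finset (Fin n)} {ty : ℕ} {v₀ : Fin n →₀ ℕ} (hv₀ : v₀ ∈ f.support)
    {s₀ : ℚ} (hK : -s₀ < K) (c : Fin n → ℕ)
    (z : GG n) (hz : MaxTight (lamF f K v₀) (EF f I S ty) z)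
    (hbad : ((nuC v₀ c z : ℤ) : ℚ) = -s₀ * (muH n z : ℤ)) :
    (s₀ = -1 ∧ ty ≠ 0 ∧ ∃ m : ℕ, 0 < m ∧ z = m • ((0, 1) : GG n)) ∨
    ∃ (w : Fin n → ℕ) (N : ℕ), IsFacetWt f w N ∧ ((∑ j, (1 + c j) * w j : ℕ) : ℚ) = -s₀ * N ∧
      (∀ j, (w j : ℤ) = z.1 j) ∧ (N : ℤ) = z.2 ∧ (∀ v ∈ f.support, v ∈ I → wt w v = N) ∧
      wt w v₀ = N := by
  obtain ⟨hz0, hzC, hmax⟩ := hz
  have hC := mem_cone_iff.1 hzC
  obtain ⟨c1, c2, c3, c4, c5⟩ := hC
  have hdot : 0 ≤ dotH v₀ z := by
    rw [dotH_apply]
    exact Finset.sum_nonneg fun j _ => mul_nonneg (c1 j) (by positivity)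
  have hcz : 0 ≤ ∑ j, (c j : ℤ) * z.1 j :=
    Finset.sum_nonneg fun j _ => mul_nonneg (by positivity) (c1 j)
  have hm : 0 < z.2 := by
    rcases lt_or_eq_of_le (hdot.trans c4) with h | h
    · exact h
    · exfalso
      apply hz0
      refine Prod.ext ?_ h.symm
      funext j
      have := (c3 j).2
      rw [← h, mul_zero] at this
      exact le_antisymm this (c1 j)
  rw [nuC_apply, nuH_apply, muH_apply] at hbad
  by_cases hA : ∃ j, z.1 j = K * z.2
  · exfalso
    obtain ⟨j, hj⟩ := hA
    have h2 : z.1 j ≤ ∑ j, z.1 j := Finset.single_le_sum (fun i _ => c1 i) (Finset.mem_univ j)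
    have h3 : (K : ℤ) * z.2 ≤ ∑ j, z.1 j + (z.2 - dotH v₀ z) + ∑ j, (c j : ℤ) * z.1 j := by
      rw [hj] at h2; omega
    have h4 : ((K : ℚ)) * z.2 ≤
        ((∑ j, z.1 j + (z.2 - dotH v₀ z) + ∑ j, (c j : ℤ) * z.1 j : ℤ) : ℚ) := by
      exact_mod_cast h3
    have h5 : (0 : ℚ) < z.2 := by exact_mod_cast hm
    rw [hbad] at h4
    nlinarith
  push Not at hA
  rcases lt_or_eq_of_le c4 with hB | hB
  · -- the ray `(0, 1)`
    left
    have hty : ty ≠ 0 := fun h => by
      have := c5 h
      omega
    have hy : ((0, 1) : GG n) ∈ PSet (lamF f K v₀) 0 (EF f I S ty) := by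
      rw [mem_cone_iff]
      have hd : ∀ v : Fin n →₀ ℕ, dotH v ((0, 1) : GG n) = 0 := by
        intro v; rw [dotH_apply]; simp
      exact ⟨fun j => by simp, fun v hv => ⟨fun _ => by rw [hd, hd], by rw [hd, hd]⟩,
        fun j => ⟨fun hj => absurd ((c3 j).1 hj) (hA j), by simp⟩, by rw [hd]; simp,
        fun ht => absurd ht hty⟩
    have h2 := hmax _ hy (by
      intro h
      have := congrArg Prod.snd h
      simp at this) ?_
    · have hz1 : z.1 = 0 := by
        funext j
        exact h2 (.inl (.inl j)) rfl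
      have hd : dotH v₀ z = 0 := by rw [dotH_apply, hz1]; simp
      rw [hz1, hd] at hbad
      simp only [Pi.zero_apply, Finset.sum_const_zero, zero_add, sub_zero, mul_zero,
        add_zero] at hbad
      have h5 : (z.2 : ℚ) ≠ 0 := by exact_mod_cast hm.ne'
      have h6 : (z.2 : ℚ) * (1 + s₀) = 0 := by linear_combination hbad
      have h7 : s₀ = -1 := by
        have := (mul_eq_zero.1 h6).resolve_left h5
        linarith
      refine ⟨h7, hty, z.2.toNat, by omega, Prod.ext ?_ ?_⟩
      · rw [hz1]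
        simp
      · have h8 : ((z.2.toNat : ℕ) : ℤ) = z.2 := Int.toNat_of_nonneg hm.le
        rw [Prod.smul_snd, nsmul_eq_mul, mul_one, h8]
    · rintro ((j | v) | (j | _)) hk
      · simp [lamF, coordH_apply]
      · simp [lamF, dotH_apply]
      · exfalso
        apply hA j
        simp only [lamF, AddMonoidHom.sub_apply, AddMonoidHom.smul_apply, muH_apply,
          coordH_apply, smul_eq_mul] at hk
        omega
      · exfalso
        simp only [lamF, AddMonoidHom.sub_apply, muH_apply] at hk
        omega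
  · -- a facet weight
    right
    have hw : ∃ w : Fin n → ℕ, ∀ j, (w j : ℤ) = z.1 j :=
      ⟨fun j => (z.1 j).toNat, fun j => Int.toNat_of_nonneg (c1 j)⟩
    obtain ⟨w, hw⟩ := hw
    have hwt : ∀ v, (wt w v : ℤ) = dotH v z := by
      intro v
      rw [dotH_apply]
      unfold wt
      push_cast
      exact Finset.sum_congr rfl fun j _ => by rw [hw]
    obtain ⟨N, hN⟩ : ∃ N : ℕ, (N : ℤ) = z.2 := ⟨z.2.toNat, Int.toNat_of_nonneg hm.le⟩
    have hwv₀ : wt w v₀ = N := by
      have := hwt v₀
      omega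
    have hfw : IsFacetWt f w N := by
      refine ⟨⟨fun v hv => ?_, v₀, hv₀, hwv₀⟩, by omega, ?_⟩
      · have := (c2 v hv).2
        have := hwt v
        omega
      · intro y hy0 hyv
        have hyd : ∀ v : Fin n →₀ ℕ, dotH v ((y, 0) : GG n) = ∑ j, y j * (v j : ℤ) := fun v => rfl
        have hface : ∀ v ∈ f.support, dotH v z = dotH v₀ z → dotH v ((y, 0) : GG n) = 0 := by
          intro v hv h
          rw [hyd]
          refine hyv v (Finset.mem_filter.2 ⟨hv, ?_⟩)
          have := hwt v
          omega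
        obtain ⟨p, q, hp, hpq⟩ := MaxTight.proportional (lamF f K v₀) (lamF_inj f K v₀)
          ⟨hz0, hzC, hmax⟩ ((y, 0) : GG n) (by
            rintro ((j | v) | (j | _)) hk
            · refine hy0 j ?_
              have h3 : z.1 j = 0 := hk
              have := hw j
              omega
            · simp only [lamF, AddMonoidHom.sub_apply] at hk ⊢
              rw [hface v.1 v.2 (by omega), hface v₀ hv₀ rfl, sub_zero]
            · exfalso
              apply hA j
              simp only [lamF, AddMonoidHom.sub_apply, AddMonoidHom.smul_apply, muH_apply,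
                coordH_apply, smul_eq_mul] at hk
              omega
            · simp only [lamF, AddMonoidHom.sub_apply, muH_apply]
              rw [hface v₀ hv₀ rfl, sub_zero])
        have h3 : p * 0 = q * z.2 := congrArg Prod.snd hpq
        rw [mul_zero] at h3
        have h4 : q = 0 := by
          rcases mul_eq_zero.1 h3.symm with h | h
          · exact h
          · omega
        have h5 := congrArg Prod.fst hpq
        rw [h4, zero_smul] at h5
        change p • y = 0 at h5
        exact (smul_eq_zero.1 h5).resolve_left hp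
    refine ⟨w, N, hfw, ?_, hw, hN, fun v hv hvI => ?_, hwv₀⟩
    · have h4 : (∑ j, z.1 j + (z.2 - dotH v₀ z) + ∑ j, (c j : ℤ) * z.1 j : ℤ) =
          ((∑ j, (1 + c j) * w j : ℕ) : ℤ) := by
        rw [hB, sub_self, add_zero]
        push_cast
        rw [← Finset.sum_add_distrib]
        refine Finset.sum_congr rfl fun j _ => ?_
        rw [hw]
        ring
      rw [h4, ← hN] at hbad
      exact_mod_cast hbad
    · have := (c2 v hv).1 hvI
      have := hwt v
      have := hwt v₀
      omega

/-- The class of the zeros of a monomial in the torus. -/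
theorem c1_eq_zero {n : ℕ} {f : MvPolynomial (Fin n) ℂ} {v : Fin n →₀ ℕ} (hv : v ∈ f.support)
    {S : Finset (Fin n)} (hS : ∀ j ∈ S, v j = 0) : c1 f {v} S = 0 := by
  have h : XS f {v} S = ∅ := by
    rw [Set.eq_empty_iff_forall_notMem]
    rintro u ⟨hu, h0⟩
    unfold inForm at h0
    rw [Finset.sum_singleton, eval_monomial, Finsupp.prod_fintype _ _ (fun i => pow_zero _)] at h0
    rcases mul_eq_zero.1 h0 with h1 | h1
    · exact (mem_support_iff.1 hv) h1
    · obtain ⟨j, -, h2⟩ := Finset.prod_eq_zero_iff.1 h1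
      by_cases hj : j ∈ S
      · rw [hS j hj, pow_zero] at h2
        exact one_ne_zero h2
      · have h3 : ext0 S u j = u ⟨j, hj⟩ := by
          unfold ext0
          rw [dif_pos hj]
        rw [h3] at h2
        exact pow_ne_zero _ (hu _) h2
  unfold c1 clsM
  rw [h, cls_empty, map_zero, zero_mul, zero_mul]

/-- The polyhedral set is empty if a coordinate of the exponent belongs to `S`. -/
theorem PQ_eq_empty {n : ℕ} {f : MvPolynomial (Fin n) ℂ} {K ε ty : ℕ} (hK : 1 ≤ K)
    {v : Fin n →₀ ℕ} {S : Finset (Fin n)} {j : Fin n} (hj : j ∈ S) (hv : v j ≠ 0) :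
    PQ f K ε {v} S ty = ∅ := by
  have hv0 : v0 ({v} : Finset (Fin n →₀ ℕ)) = v :=
    Finset.mem_singleton.1 (v0_mem (Finset.singleton_nonempty v))
  rw [Set.eq_empty_iff_forall_notMem]
  intro z hz
  unfold PQ at hz
  rw [mem_PSet_iff, hv0] at hz
  obtain ⟨h1, -, h3, h4, -⟩ := hz
  have h5 := (h3 j).1 hj
  have h6 : z.1 j ≤ dotH v z := by
    rw [dotH_apply]
    have h7 : ∀ i ∈ (Finset.univ : Finset (Fin n)), 0 ≤ z.1 i * (v i : ℤ) := fun i _ =>
      mul_nonneg (le_trans (by positivity) (h1 i)) (by positivity)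
    refine le_trans ?_ (Finset.single_le_sum h7 (Finset.mem_univ j))
    have h8 : (1 : ℤ) ≤ v j := by exact_mod_cast Nat.pos_of_ne_zero hv
    have h9 : 0 ≤ z.1 j := le_trans (by positivity) (h1 j)
    nlinarith
  have h7 : 0 ≤ dotH v z := by
    rw [dotH_apply]
    exact Finset.sum_nonneg fun i _ => mul_nonneg (le_trans (by positivity) (h1 i)) (by positivity)
  have h8 : (1 : ℤ) ≤ K := by exact_mod_cast hK
  have h9 : (0 : ℤ) ≤ ty := by positivity
  have h10 : 0 ≤ z.2 := by omega
  have h11 := mul_le_mul_of_nonneg_right h8 h10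
  omega

end W2

open W1 W2 in
/-- The pole `-1` of the weighted zeta function of a non-degenerate polynomial in two variables is
simple, with denominator `1 - L⁻¹ T`, if it only comes from the curve itself and from the axes of
multiplicity one, and if these axes are not both components through the vertex. -/
theorem one_sub_mul_Zw_mem {f : MvPolynomial (Fin 2) ℂ} (hf : f ≠ 0)
    (hnd : ∀ a : Fin 2 → ℕ, (∀ j, 1 ≤ a j) → NondegAt f (face f a (nuf f a)))
    {K : ℕ} (hK : 2 ≤ K) (c : Fin 2 → ℕ)
    (hfac : ∀ w N, IsFacetWt f w N → ∑ j, (1 + c j) * w j = N →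
      ∃ j : Fin 2, w = Pi.single j N)
    (hxy : ¬ ((∃ v ∈ f.support, v 0 = 1 ∧ v 1 = 1) ∧ ∀ v ∈ f.support, 1 ≤ v 0 ∧ 1 ≤ v 1)) :
    (1 - PowerSeries.C ((LU ^ (-1 : ℤ) : Motˣ) : Mot) * PowerSeries.X) * Zw f 1 K c ∈
      regularAt (-1) := by
  classical
  have hK1 : 1 ≤ K := by omega
  have hKs : -(-1 : ℚ) < K := by
    rw [neg_neg]
    exact_mod_cast hK
  have hsum : Zw f 1 K c = ∑ p ∈ (f.support.powerset.filter Finset.Nonempty) ×ˢ
      (Finset.univ : Finset (Finset (Fin 2))),
      (c0 f p.1 p.2 • genF (muH 2) (nuC (v0 p.1) c) (PQ f K 1 p.1 p.2 0) +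
       c1 f p.1 p.2 • genF (muH 2) (nuC (v0 p.1) c) (PQ f K 1 p.1 p.2 1)) := by
    ext m
    rw [coeff_Zw hf hK1 hnd, map_sum]
    refine Finset.sum_congr rfl fun p _ => ?_
    rw [map_add, PowerSeries.coeff_smul, PowerSeries.coeff_smul, smul_eq_mul, smul_eq_mul]
  rw [hsum, Finset.mul_sum]
  refine Subalgebra.sum_mem _ fun p hp => ?_
  obtain ⟨I, S⟩ := p
  rw [Finset.mem_product, Finset.mem_filter, Finset.mem_powerset] at hp
  obtain ⟨⟨hIf, hI⟩, -⟩ := hp
  simp only at hIf hI ⊢
  have hv₀ := hIf (v0_mem hI)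
  set u : PowerSeries Mot := PowerSeries.C ((LU ^ (-1 : ℤ) : Motˣ) : Mot) * PowerSeries.X with hu
  have hpos : ∀ ty, ∀ z ∈ PSet (lamF f K (v0 I)) (cF f K 1 I S ty) (EF f I S ty),
      0 ≤ muH 2 z := by
    intro ty z hz
    rw [mem_PSet_iff] at hz
    obtain ⟨h1, -, -, h4, -⟩ := hz
    have hdot : 0 ≤ dotH (v0 I) z := by
      rw [dotH_apply]
      exact Finset.sum_nonneg fun j _ => mul_nonneg (le_trans (by positivity) (h1 j))
        (by positivity)
    rw [muH_apply]
    omega
  have hfin : ∀ (ty : ℕ) (m : ℤ),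
      {z ∈ PSet (lamF f K (v0 I)) (cF f K 1 I S ty) (EF f I S ty) | muH 2 z = m}.Finite := by
    intro ty m
    rcases lt_or_ge m 0 with hm | hm
    · refine Set.Finite.subset Set.finite_empty ?_
      rintro z ⟨h2, h3⟩
      have := hpos ty z h2
      omega
    · obtain ⟨m, rfl⟩ := Int.eq_ofNat_of_zero_le hm
      have := PQ_fiber (K := K) (ε := 1) hf hI hIf S ty m
      unfold PQ at this
      rw [this]
      exact Set.toFinite _
  -- a bad facet weight is an axis of multiplicity one
  have haxis : ∀ (w : Fin 2 → ℕ) (N : ℕ), IsFacetWt f w N →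
      ((∑ j, (1 + c j) * w j : ℕ) : ℚ) = -(-1 : ℚ) * N →
      ∃ j : Fin 2, w = Pi.single j N ∧ c j = 0 := by
    intro w N h1 h2
    rw [neg_neg, one_mul] at h2
    have h3 : ∑ j, (1 + c j) * w j = N := by exact_mod_cast h2
    obtain ⟨j, hj⟩ := hfac w N h1 h3
    refine ⟨j, hj, ?_⟩
    have hN := h1.2.1
    have h4 : ∑ i, (1 + c i) * w i = (1 + c j) * N := by
      rw [hj, Finset.sum_eq_single j]
      · rw [Pi.single_eq_same]
      · intro i _ hij
        rw [Pi.single_eq_of_ne hij, mul_zero]
      · simp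
    rw [h4] at h3
    have h5 : (1 + c j) * N = 1 * N := by rw [h3, one_mul]
    have := Nat.eq_of_mul_eq_mul_right hN h5
    omega
  have hwt : ∀ (j : Fin 2) (N : ℕ) (v : Fin 2 →₀ ℕ), wt (Pi.single j N) v = N * v j := by
    intro j N v
    unfold wt
    rw [Finset.sum_eq_single j]
    · rw [Pi.single_eq_same]
    · intro i _ hij
      rw [Pi.single_eq_of_ne hij, zero_mul]
    · simp
  -- type 0
  have key0 : (1 - u) * genF (muH 2) (nuC (v0 I) c) (PQ f K 1 I S 0) ∈ regularAt (-1) := by
    unfold PQ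
    -- the direction of the bad ray
    obtain ⟨j₀, hj₀⟩ : ∃ j₀ : Fin 2, ∀ z : GG 2, MaxTight (lamF f K (v0 I)) (EF f I S 0) z →
        ((nuC (v0 I) c z : ℤ) : ℚ) = -(-1 : ℚ) * (muH 2 z : ℤ) →
        c j₀ = 0 ∧ v0 I j₀ = 1 ∧
        ∃ N : ℕ, 0 < N ∧ z = N • ((Pi.single j₀ 1, 1) : GG 2) := by
      have hz : ∀ z : GG 2, MaxTight (lamF f K (v0 I)) (EF f I S 0) z →
        ((nuC (v0 I) c z : ℤ) : ℚ) = -(-1 : ℚ) * (muH 2 z : ℤ) →
        ∃ j : Fin 2, c j = 0 ∧ v0 I j = 1 ∧ (∀ v ∈ f.support, 1 ≤ v j) ∧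
        ∃ N : ℕ, 0 < N ∧ z = N • ((Pi.single j 1, 1) : GG 2) := by
        intro z hz hbad
        rcases ray_bad hv₀ hKs c z hz hbad with ⟨-, h, -⟩ | ⟨w, N, h1, h2, h3, h4, -, h6⟩
        · exact absurd rfl h
        · obtain ⟨j, hj, hcj⟩ := haxis w N h1 h2
          have hN := h1.2.1
          rw [hj, hwt] at h6
          have h7 : v0 I j = 1 := by
            have : N * v0 I j = N * 1 := by rw [h6, mul_one]
            exact Nat.eq_of_mul_eq_mul_left hN this
          refine ⟨j, hcj, h7, fun v hv => ?_, N, hN, ?_⟩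
          · have h8 := h1.1.1 v hv
            rw [hj, hwt] at h8
            by_contra h9
            have h10 : v j = 0 := by omega
            rw [h10, mul_zero] at h8
            omega
          · refine Prod.ext ?_ ?_
            · funext i
              rw [← h3 i, hj, Prod.smul_fst, Pi.smul_apply, nsmul_eq_mul]
              change (((Pi.single j N : Fin 2 → ℕ) i : ℕ) : ℤ) =
                (N : ℤ) * (Pi.single j (1 : ℤ) : Fin 2 → ℤ) i
              by_cases hij : i = j
              · subst hij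
                rw [Pi.single_eq_same, Pi.single_eq_same, mul_one]
              · rw [Pi.single_eq_of_ne hij, Pi.single_eq_of_ne hij, mul_zero]
                rfl
            · rw [← h4, Prod.smul_snd, nsmul_eq_mul, mul_one]
      by_cases hex : ∃ z : GG 2, MaxTight (lamF f K (v0 I)) (EF f I S 0) z ∧
          ((nuC (v0 I) c z : ℤ) : ℚ) = -(-1 : ℚ) * (muH 2 z : ℤ)
      · obtain ⟨z₁, hz₁, hb₁⟩ := hex
        obtain ⟨j₁, hc₁, hv₁, hs₁, -⟩ := hz z₁ hz₁ hb₁
        refine ⟨j₁, fun z hz' hb => ?_⟩
        obtain ⟨j, hc, hv, hs, hN⟩ := hz z hz' hb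
        by_cases hjj : j = j₁
        · subst hjj
          exact ⟨hc, hv, hN⟩
        · exfalso
          apply hxy
          have h01 : (j = 0 ∧ j₁ = 1) ∨ (j = 1 ∧ j₁ = 0) := by
            fin_cases j <;> fin_cases j₁ <;> simp_all
          rcases h01 with ⟨rfl, rfl⟩ | ⟨rfl, rfl⟩
          · exact ⟨⟨v0 I, hv₀, hv, hv₁⟩, fun v hv => ⟨hs v hv, hs₁ v hv⟩⟩
          · exact ⟨⟨v0 I, hv₀, hv₁, hv⟩, fun v hv => ⟨hs₁ v hv, hs v hv⟩⟩
      · exact ⟨0, fun z hz' hb => absurd ⟨z, hz', hb⟩ hex⟩
    by_cases hcv : c j₀ = 0 ∧ v0 I j₀ = 1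
    · have h1 := one_sub_mul_genF_mem (lamF f K (v0 I)) (lamF_inj f K (v0 I)) (muH 2)
        (nuC (v0 I) c) (-1) (cF f K 1 I S 0) (EF f I S 0) (hpos 0) (hfin 0)
        ((Pi.single j₀ 1, 1) : GG 2) (by rw [muH_apply]; exact one_pos)
        (fun z hz hbad => by
          obtain ⟨-, -, N, hN, h⟩ := hj₀ z hz hbad
          exact ⟨1, N, one_pos, hN, by rw [one_smul]; exact h⟩)
      have h2 : nuC (v0 I) c ((Pi.single j₀ 1, 1) : GG 2) = 1 := by
        rw [nuC_apply, nuH_apply, dotH_apply]
        have h3 : ∑ j, (Pi.single j₀ (1 : ℤ) : Fin 2 → ℤ) j = 1 := by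
          rw [Finset.sum_pi_single', if_pos (Finset.mem_univ _)]
        have h4 : ∑ j, (Pi.single j₀ (1 : ℤ) : Fin 2 → ℤ) j * (v0 I j : ℤ) = 1 := by
          rw [Finset.sum_eq_single j₀]
          · rw [Pi.single_eq_same, hcv.2]
            rfl
          · intro i _ hij
            rw [Pi.single_eq_of_ne hij, zero_mul]
          · simp
        have h5 : ∑ j, (c j : ℤ) * (Pi.single j₀ (1 : ℤ) : Fin 2 → ℤ) j = 0 := by
          rw [Finset.sum_eq_single j₀]
          · rw [Pi.single_eq_same, hcv.1]
            rfl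
          · intro i _ hij
            rw [Pi.single_eq_of_ne hij, mul_zero]
          · simp
        simp only
        rw [h3, h4, h5]
        rfl
      have h3 : (muH 2 ((Pi.single j₀ 1, 1) : GG 2)).toNat = 1 := by
        rw [muH_apply]
        rfl
      rw [h2, h3, pow_one] at h1
      exact h1
    · refine mul_mem (sub_mem (one_mem _) (mul_mem (C_mem_regularAt _ _) (X_mem_regularAt _)))
        (genF_mem_regularAt _ (lamF_inj f K (v0 I)) (muH 2) (nuC (v0 I) c) (-1) _ _
          (hpos 0) (hfin 0) fun z hz hbad => ?_)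
      obtain ⟨h1, h2, -⟩ := hj₀ z hz hbad
      exact hcv ⟨h1, h2⟩
  -- type 1
  have key1 : c1 f I S • ((1 - u) * genF (muH 2) (nuC (v0 I) c) (PQ f K 1 I S 1)) ∈
      regularAt (-1) := by
    by_cases hemp : PQ f K 1 I S 1 = ∅
    · rw [hemp, genF_empty, mul_zero, smul_zero]
      exact zero_mem _
    obtain ⟨z₀, hz₀⟩ := Set.nonempty_iff_ne_empty.2 hemp
    by_cases hcard : ∃ v, I = {v}
    · obtain ⟨v, rfl⟩ := hcard
      by_cases hS : ∀ j ∈ S, v j = 0
      · rw [c1_eq_zero (hIf (Finset.mem_singleton_self v)) hS, zero_smul]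
        exact zero_mem _
      · push Not at hS
        obtain ⟨j, hj, hvj⟩ := hS
        exact absurd (PQ_eq_empty hK1 hj hvj) hemp
    refine Subalgebra.smul_mem _ ?_ _
    unfold PQ at hz₀ ⊢
    have h1 := one_sub_mul_genF_mem (lamF f K (v0 I)) (lamF_inj f K (v0 I)) (muH 2)
      (nuC (v0 I) c) (-1) (cF f K 1 I S 1) (EF f I S 1) (hpos 1) (hfin 1)
      ((0, 1) : GG 2) (by rw [muH_apply]; exact one_pos)
      (fun z hz hbad => by
        rcases ray_bad hv₀ hKs c z hz hbad with ⟨-, -, m, hm, h⟩ | ⟨w, N, h1, h2, h3, h4, h5, h6⟩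
        · exact ⟨1, m, one_pos, hm, by rw [one_smul]; exact h⟩
        · exfalso
          obtain ⟨j, hj, -⟩ := haxis w N h1 h2
          have hN := h1.2.1
          rw [mem_PSet_iff] at hz₀
          obtain ⟨e1, e2, -, -, -⟩ := hz₀
          have hj1 : ∀ v ∈ I, v j = 1 := by
            intro v hv
            have := h5 v (hIf hv) hv
            rw [hj, hwt] at this
            have h7 : N * v j = N * 1 := by rw [this, mul_one]
            exact Nat.eq_of_mul_eq_mul_left hN h7
          apply hcard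
          refine ⟨v0 I, Finset.eq_singleton_iff_unique_mem.2 ⟨v0_mem hI, fun v hv => ?_⟩⟩
          have h7 := (e2 v (hIf hv)).1 hv
          rw [dotH_apply, dotH_apply, Fin.sum_univ_two, Fin.sum_univ_two] at h7
          have h8 := hj1 v hv
          have h9 := hj1 _ (v0_mem hI)
          have e10 := e1 0
          have e11 := e1 1
          ext i
          fin_cases j
          · simp only [Fin.zero_eta] at h8 h9
            fin_cases i
            · simp only [Fin.zero_eta]
              rw [h8, h9]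
            · simp only [Fin.mk_one]
              rw [h8, h9] at h7
              have h10 : z₀.1 1 * (v 1 : ℤ) = z₀.1 1 * (v0 I 1 : ℤ) := by linarith
              have h11 : (v 1 : ℤ) = v0 I 1 := mul_left_cancel₀ (by
                push_cast at e11
                omega) h10
              exact_mod_cast h11
          · simp only [Fin.mk_one] at h8 h9
            fin_cases i
            · simp only [Fin.zero_eta]
              rw [h8, h9] at h7
              have h10 : z₀.1 0 * (v 0 : ℤ) = z₀.1 0 * (v0 I 0 : ℤ) := by linarith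
              have h11 : (v 0 : ℤ) = v0 I 0 := mul_left_cancel₀ (by
                push_cast at e10
                omega) h10
              exact_mod_cast h11
            · simp only [Fin.mk_one]
              rw [h8, h9])
    have h2 : nuC (v0 I) c ((0, 1) : GG 2) = 1 := by
      rw [nuC_apply, nuH_apply, dotH_apply]
      simp
    have h3 : (muH 2 ((0, 1) : GG 2)).toNat = 1 := by
      rw [muH_apply]
      rfl
    rw [h2, h3, pow_one] at h1
    exact h1
  have h9 : (1 - u) * (c0 f I S • genF (muH 2) (nuC (v0 I) c) (PQ f K 1 I S 0) +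
       c1 f I S • genF (muH 2) (nuC (v0 I) c) (PQ f K 1 I S 1)) =
      c0 f I S • ((1 - u) * genF (muH 2) (nuC (v0 I) c) (PQ f K 1 I S 0)) +
       c1 f I S • ((1 - u) * genF (muH 2) (nuC (v0 I) c) (PQ f K 1 I S 1)) := by
    rw [mul_add, mul_smul_comm, mul_smul_comm]
  rw [h9]
  exact add_mem (Subalgebra.smul_mem _ key0 _) key1

end MPb07157
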