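import Pool.Agent.Lib.MP_b07157_agV.M1

/-!
# Factorization of quasi-homogeneous polynomials in two variables
-/

noncomputable section

namespace MPb07157

open MvPolynomial

namespace PC

theorem n2_ex_zero (i j : ℕ) : ex i j 0 = i := by
  simp [ex]

theorem n2_ex_one (i j : ℕ) : ex i j 1 = j := by
  simp [ex]

theorem n2_ex_inj {i j i' j' : ℕ} (h : ex i j = ex i' j') : i = i' ∧ j = j' := by
  refine ⟨?_, ?_⟩
  · have := DFunLike.congr_fun h 0
    rwa [n2_ex_zero, n2_ex_zero] at this
  · have := DFunLike.congr_fun h 1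
    rwa [n2_ex_one, n2_ex_one] at this

theorem n2_ex_eta (v : Fin 2 →₀ ℕ) : ex (v 0) (v 1) = v := by
  ext i
  fin_cases i
  · exact n2_ex_zero _ _
  · exact n2_ex_one _ _

theorem n2_wt (p q : ℕ) (v : Fin 2 →₀ ℕ) : wt ![p, q] v = p * v 0 + q * v 1 := by
  simp [wt, Fin.sum_univ_two]

/-- The quasi-homogeneous polynomial attached to a polynomial in one variable. -/
def n2qh (p q A B n : ℕ) (G : Polynomial ℂ) : MvPolynomial (Fin 2) ℂ :=
  ∑ kl ∈ Finset.HasAntidiagonal.antidiagonal n, monomial (ex (A + q * kl.2) (B + p * kl.1)) (G.coeff kl.1)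

theorem coeff_n2qh {p q A B n : ℕ} (hp : 0 < p) (G : Polynomial ℂ) {k l : ℕ}
    (hkl : k + l = n) :
    (n2qh p q A B n G).coeff (ex (A + q * l) (B + p * k)) = G.coeff k := by
  rw [n2qh, coeff_sum, Finset.sum_eq_single (k, l)]
  · simp
  · rintro ⟨a, b⟩ hab hne
    rw [coeff_monomial, if_neg]
    intro h
    have h1 := (n2_ex_inj h).2
    have h2 : a = k := by
      have h3 : p * a = p * k := by simpa using h1
      exact Nat.eq_of_mul_eq_mul_left hp h3
    rw [Finset.HasAntidiagonal.mem_antidiagonal] at hab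
    apply hne
    simp only at hab
    rw [h2]
    congr 1
    omega
  · intro h
    exact absurd (Finset.HasAntidiagonal.mem_antidiagonal.2 hkl) h

theorem mem_support_n2qh {p q A B n : ℕ} {G : Polynomial ℂ} {v : Fin 2 →₀ ℕ}
    (hv : v ∈ (n2qh p q A B n G).support) :
    ∃ k l, k + l = n ∧ v = ex (A + q * l) (B + p * k) := by
  rw [mem_support_iff, n2qh, coeff_sum] at hv
  obtain ⟨kl, hkl, h⟩ := Finset.exists_ne_zero_of_sum_ne_zero hv
  rw [coeff_monomial] at h
  refine ⟨kl.1, kl.2, Finset.HasAntidiagonal.mem_antidiagonal.1 hkl, ?_⟩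
  by_contra hne
  exact h (if_neg fun h' => hne h'.symm)

/-- The product of the binomials, expanded. -/
theorem edgeP_eq_n2qh (p q A B : ℕ) (lam : ℂ) (R : Finset ℂ) (μ : ℂ → ℕ) :
    edgeP p q A B lam R μ = n2qh p q A B (∑ c ∈ R, μ c)
      (Polynomial.C lam * ∏ c ∈ R, (Polynomial.X - Polynomial.C c) ^ μ c) := by
  have h1 : (Polynomial.homogenize
      (∏ c ∈ R, (Polynomial.X - Polynomial.C c : Polynomial ℂ) ^ μ c) (∑ c ∈ R, μ c)) =
      ∏ c ∈ R, (X 0 - C c * X 1 : MvPolynomial (Fin 2) ℂ) ^ μ c := by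
    rw [Polynomial.homogenize_finsetProd]
    · refine Finset.prod_congr rfl fun c _ => ?_
      have h2 : ∀ m : ℕ, Polynomial.homogenize
          ((Polynomial.X - Polynomial.C c : Polynomial ℂ) ^ m) m =
          (X 0 - C c * X 1 : MvPolynomial (Fin 2) ℂ) ^ m := by
        intro m
        induction m with
        | zero => simp
        | succ m ih =>
          rw [pow_succ, Polynomial.homogenize_mul, ih, pow_succ]
          · congr 1
            rw [Polynomial.homogenize_sub, Polynomial.homogenize_X one_ne_zero,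
              Polynomial.homogenize_C]
            simp
          · refine (Polynomial.natDegree_pow_le).trans ?_
            rw [Polynomial.natDegree_X_sub_C, mul_one]
          · rw [Polynomial.natDegree_X_sub_C]
      exact h2 _
    · intro c _
      refine (Polynomial.natDegree_pow_le).trans ?_
      rw [Polynomial.natDegree_X_sub_C, mul_one]
  have h3 := congrArg (aeval (![X 1 ^ p, X 0 ^ q] : Fin 2 → MvPolynomial (Fin 2) ℂ)) h1
  rw [map_prod] at h3
  have h4 : ∀ c : ℂ, aeval (![X 1 ^ p, X 0 ^ q] : Fin 2 → MvPolynomial (Fin 2) ℂ)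
      ((X 0 - C c * X 1 : MvPolynomial (Fin 2) ℂ) ^ μ c) = (X 1 ^ p - C c * X 0 ^ q) ^ μ c := by
    intro c
    simp [algebraMap_eq]
  rw [Finset.prod_congr rfl fun c _ => h4 c] at h3
  rw [edgeP, ← h3, Polynomial.homogenize, map_sum, n2qh, Finset.mul_sum]
  refine Finset.sum_congr rfl fun kl _ => ?_
  rw [aeval_monomial, Polynomial.coeff_C_mul]
  rw [Finsupp.prod_fintype _ _ (by simp)]
  simp only [Fin.prod_univ_two, algebraMap_eq]
  have h5 : (monomial (ex (A + q * kl.2) (B + p * kl.1)))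
      (lam * (∏ c ∈ R, (Polynomial.X - Polynomial.C c) ^ μ c).coeff kl.1) =
      C (lam * (∏ c ∈ R, (Polynomial.X - Polynomial.C c) ^ μ c).coeff kl.1) *
      (X 0 ^ (A + q * kl.2) * X 1 ^ (B + p * kl.1)) := by
    rw [ex, monomial_eq]
    congr 1
    rw [Finsupp.prod_fintype _ _ (by simp)]
    simp [Fin.prod_univ_two]
  rw [h5]
  simp
  ring

/-- A quasi-homogeneous polynomial in two variables is a monomial times a product of binomials. -/
theorem exists_edgeP {p q : ℕ} (hp : 0 < p) (hq : 0 < q) (hpq : Nat.Coprime p q) {N : ℕ}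
    {P : MvPolynomial (Fin 2) ℂ} (hP : P ≠ 0) (hPN : ∀ v ∈ P.support, wt ![p, q] v = N) :
    ∃ (A B : ℕ) (lam : ℂ) (R : Finset ℂ) (μ : ℂ → ℕ), lam ≠ 0 ∧ (0 : ℂ) ∉ R ∧
      (∀ c ∈ R, 0 < μ c) ∧ P = edgeP p q A B lam R μ ∧ N = edgeN p q A B R μ := by
  classical
  have hS : P.support.Nonempty := support_nonempty.2 hP
  obtain ⟨va, hva, hvamin⟩ := P.support.exists_min_image (fun v => v 0) hS
  obtain ⟨vb, hvb, hvbmin⟩ := P.support.exists_min_image (fun v => v 1) hS
  have hline : ∀ v ∈ P.support, p * v 0 + q * v 1 = N := fun v hv => by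
    rw [← n2_wt]; exact hPN v hv
  -- the terms of `P` lie on an arithmetic progression
  have hstep : ∀ v ∈ P.support, ∃ j, v 0 = va 0 + q * j ∧ va 1 = v 1 + p * j := by
    intro v hv
    have h1 := hline v hv
    have h2 := hline va hva
    have h3 : va 0 ≤ v 0 := hvamin v hv
    obtain ⟨d, hd⟩ := Nat.exists_eq_add_of_le h3
    have h4 : p * d + q * v 1 = q * va 1 := by
      rw [hd, mul_add] at h1
      omega
    have h5 : q ∣ p * d := by
      have h6 : q ∣ p * d + q * v 1 := ⟨va 1, h4⟩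
      exact (Nat.dvd_add_left (Dvd.intro _ rfl)).1 h6
    obtain ⟨j, hj⟩ := (Nat.Coprime.dvd_of_dvd_mul_left hpq.symm h5)
    refine ⟨j, by rw [hd, hj], ?_⟩
    have h7 : q * va 1 = q * (v 1 + p * j) := by
      rw [← h4, hj]; ring
    exact Nat.eq_of_mul_eq_mul_left hq h7
  obtain ⟨n, hn0, hn1⟩ := hstep vb hvb
  set A := va 0 with hA
  set B := vb 1 with hB
  have hterm : ∀ v ∈ P.support, ∃ k l, k + l = n ∧ v = ex (A + q * l) (B + p * k) := by
    intro v hv
    obtain ⟨j, hj0, hj1⟩ := hstep v hv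
    have h1 : B ≤ v 1 := hvbmin v hv
    have h2 : p * j ≤ p * n := by omega
    have h3 : j ≤ n := Nat.le_of_mul_le_mul_left h2 hp
    refine ⟨n - j, j, by omega, ?_⟩
    have h4 : v 1 = B + p * (n - j) := by
      rw [Nat.mul_sub]
      omega
    rw [← h4, ← hj0, n2_ex_eta]
  set G : Polynomial ℂ := ∑ k ∈ Finset.range (n + 1),
    Polynomial.monomial k (P.coeff (ex (A + q * (n - k)) (B + p * k))) with hG
  have hGc : ∀ k ≤ n, G.coeff k = P.coeff (ex (A + q * (n - k)) (B + p * k)) := by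
    intro k hk
    rw [hG, Polynomial.finset_sum_coeff, Finset.sum_eq_single k]
    · rw [Polynomial.coeff_monomial, if_pos rfl]
    · intro b _ hb
      rw [Polynomial.coeff_monomial, if_neg hb]
    · intro h
      exact absurd (Finset.mem_range.2 (by omega)) h
  have hGn : G.natDegree = n := by
    apply Polynomial.natDegree_eq_of_le_of_coeff_ne_zero
    · rw [hG]
      refine Polynomial.natDegree_sum_le_of_forall_le _ _ fun k hk => ?_
      refine (Polynomial.natDegree_monomial_le _).trans ?_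
      have := Finset.mem_range.1 hk
      omega
    · rw [hGc n le_rfl, Nat.sub_self, mul_zero, add_zero]
      have h1 : ex A (B + p * n) = va := by
        rw [← hn1, hA, n2_ex_eta]
      rw [h1]
      exact mem_support_iff.1 hva
  have hG0 : G.coeff 0 ≠ 0 := by
    rw [hGc 0 (Nat.zero_le _), Nat.sub_zero, mul_zero, add_zero, ← hn0, hB, n2_ex_eta]
    exact mem_support_iff.1 hvb
  have hGne : G ≠ 0 := by
    intro h
    rw [h] at hG0
    exact hG0 (Polynomial.coeff_zero 0)
  have hPq : P = n2qh p q A B n G := by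
    ext v
    by_cases hv : ∃ k l, k + l = n ∧ v = ex (A + q * l) (B + p * k)
    · obtain ⟨k, l, hkl, rfl⟩ := hv
      rw [coeff_n2qh hp G hkl, hGc k (by omega)]
      have : n - k = l := by omega
      rw [this]
    · have h1 : v ∉ P.support := fun h => hv (hterm v h)
      have h2 : v ∉ (n2qh p q A B n G).support := fun h => hv (mem_support_n2qh h)
      rw [notMem_support_iff.1 h1, notMem_support_iff.1 h2]
  have hsplit : G.roots.card = G.natDegree :=
    (IsAlgClosed.splits G).natDegree_eq_card_roots.symm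
  have hcard : ∑ c ∈ G.roots.toFinset, G.roots.count c = n := by
    rw [Multiset.toFinset_sum_count_eq, hsplit, hGn]
  have hprod : Polynomial.C G.leadingCoeff *
      ∏ c ∈ G.roots.toFinset, (Polynomial.X - Polynomial.C c) ^ G.roots.count c = G := by
    have h1 := Polynomial.C_leadingCoeff_mul_prod_multiset_X_sub_C hsplit
    rw [Finset.prod_multiset_map_count] at h1
    exact h1
  refine ⟨A, B, G.leadingCoeff, G.roots.toFinset, fun c => G.roots.count c,
    Polynomial.leadingCoeff_ne_zero.2 hGne, ?_, ?_, ?_, ?_⟩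
  · intro h
    rw [Multiset.mem_toFinset, Polynomial.mem_roots hGne, Polynomial.IsRoot.def] at h
    rw [Polynomial.coeff_zero_eq_eval_zero] at hG0
    exact hG0 h
  · intro c hc
    exact Multiset.count_pos.2 (Multiset.mem_toFinset.1 hc)
  · rw [edgeP_eq_n2qh, hcard, hprod]
    exact hPq
  · rw [edgeN, hcard]
    have h1 := hline va hva
    rw [hn1] at h1
    rw [← h1, hA]
    ring

/-- The extreme terms of `edgeP`. -/
theorem edgeP_support {p q A B : ℕ} (hp : 0 < p) (hq : 0 < q) {lam : ℂ} (hlam : lam ≠ 0)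
    {R : Finset ℂ} (hR0 : (0 : ℂ) ∉ R) (μ : ℂ → ℕ) :
    (edgeP p q A B lam R μ).coeff (ex A (B + p * ∑ c ∈ R, μ c)) ≠ 0 ∧
    (edgeP p q A B lam R μ).coeff (ex (A + q * ∑ c ∈ R, μ c) B) ≠ 0 ∧
    ∀ v ∈ (edgeP p q A B lam R μ).support, ∃ j ≤ ∑ c ∈ R, μ c,
      v = ex (A + q * j) (B + p * (∑ c ∈ R, μ c - j)) := by
  classical
  have hmon : (∏ c ∈ R, (Polynomial.X - Polynomial.C c) ^ μ c : Polynomial ℂ).Monic :=
    Polynomial.monic_prod_of_monic _ _ fun c _ => (Polynomial.monic_X_sub_C c).pow _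
  have hdeg : (∏ c ∈ R, (Polynomial.X - Polynomial.C c) ^ μ c : Polynomial ℂ).natDegree =
      ∑ c ∈ R, μ c := by
    rw [Polynomial.natDegree_prod_of_monic _ _ fun c _ => (Polynomial.monic_X_sub_C c).pow _]
    refine Finset.sum_congr rfl fun c _ => ?_
    rw [(Polynomial.monic_X_sub_C c).natDegree_pow, Polynomial.natDegree_X_sub_C, mul_one]
  rw [edgeP_eq_n2qh]
  refine ⟨?_, ?_, ?_⟩
  · have h1 := coeff_n2qh (q := q) (A := A) (B := B) hp
      (Polynomial.C lam * ∏ c ∈ R, (Polynomial.X - Polynomial.C c) ^ μ c)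
      (add_zero (∑ c ∈ R, μ c))
    rw [mul_zero, add_zero] at h1
    rw [h1, Polynomial.coeff_C_mul]
    refine mul_ne_zero hlam ?_
    have h2 := hmon.coeff_natDegree
    rw [hdeg] at h2
    rw [h2]
    exact one_ne_zero
  · have h1 := coeff_n2qh (q := q) (A := A) (B := B) hp
      (Polynomial.C lam * ∏ c ∈ R, (Polynomial.X - Polynomial.C c) ^ μ c)
      (zero_add (∑ c ∈ R, μ c))
    rw [mul_zero, add_zero] at h1
    rw [h1, Polynomial.coeff_C_mul]
    refine mul_ne_zero hlam ?_
    rw [Polynomial.coeff_zero_eq_eval_zero, Polynomial.eval_prod]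
    refine Finset.prod_ne_zero_iff.2 fun c hc => ?_
    rw [Polynomial.eval_pow, Polynomial.eval_sub, Polynomial.eval_X, Polynomial.eval_C, zero_sub]
    refine pow_ne_zero _ (neg_ne_zero.2 ?_)
    rintro rfl
    exact hR0 hc
  · intro v hv
    obtain ⟨k, l, hkl, rfl⟩ := mem_support_n2qh hv
    refine ⟨l, by omega, ?_⟩
    have : ∑ c ∈ R, μ c - l = k := by omega
    rw [this]

/-- Enumeration of the edges. -/
theorem exists_edges {F : P2} (hF : F ≠ 0) :
    ∃ (ι : Type) (_ : Fintype ι) (p q A B : ι → ℕ) (lam : ι → ℂ) (R : ι → Finset ℂ)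
      (μ : ι → ℂ → ℕ), (∀ i, IsEdge F (p i) (q i) (A i) (B i) (lam i) (R i) (μ i)) ∧
      (∀ i j, p i = p j → q i = q j → i = j) ∧
      ∀ w : Fin 2 → ℕ, (∀ j, 0 < w j) →
        (∃ r v l, IsInit F w r (monomial v l)) ∨
        ∃ i k, 0 < k ∧ w = ![k * p i, k * q i] := by
  classical
  set T := {x : ℕ × ℕ | 0 < x.1 ∧ 0 < x.2 ∧ Nat.Coprime x.1 x.2 ∧
      ∃ N P, IsInit F ![x.1, x.2] N P ∧ 2 ≤ P.support.card} with hT
  have hTf : T.Finite := finite_edges F
  have hedge : ∀ x : T, ∃ (A B : ℕ) (lam : ℂ) (R : Finset ℂ) (μ : ℂ → ℕ),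
      IsEdge F x.1.1 x.1.2 A B lam R μ := by
    rintro ⟨⟨p, q⟩, hp, hq, hpq, N, P, hI, hcard⟩
    simp only at hp hq hpq hI ⊢
    obtain ⟨A, B, lam, R, μ, hlam, hR0, hμ, hPe, hNe⟩ := exists_edgeP hp hq hpq hI.1 hI.2.1
    refine ⟨A, B, lam, R, μ, ⟨hp, hq, hpq, hlam, ?_, hR0, hμ, ?_⟩⟩
    · rw [Finset.nonempty_iff_ne_empty]
      rintro rfl
      have h1 : P.support ⊆ {ex A B} := by
        intro v hv
        rw [hPe] at hv
        obtain ⟨j, hj, hvj⟩ := (edgeP_support hp hq hlam hR0 μ).2.2 v hv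
        rw [Finset.sum_empty] at hj hvj
        have hj0 : j = 0 := Nat.le_zero.1 hj
        rw [hj0] at hvj
        rw [hvj]
        simp
      have h2 := Finset.card_le_card h1
      rw [Finset.card_singleton] at h2
      omega
    · rw [← hPe, ← hNe]
      exact hI
  choose A B lam R μ hE using hedge
  haveI : Fintype T := hTf.fintype
  refine ⟨T, inferInstance, fun x => x.1.1, fun x => x.1.2, A, B, lam, R, μ, hE, ?_, ?_⟩
  · intro i j h1 h2
    exact Subtype.ext (Prod.ext h1 h2)
  · intro w hw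
    obtain ⟨N, P, hI⟩ := exists_isInit hF hw
    by_cases hcard : 2 ≤ P.support.card
    · right
      have hk : 0 < Nat.gcd (w 0) (w 1) := Nat.gcd_pos_of_pos_left _ (hw 0)
      obtain ⟨p, hp⟩ := Nat.gcd_dvd_left (w 0) (w 1)
      obtain ⟨q, hq⟩ := Nat.gcd_dvd_right (w 0) (w 1)
      have hcop : Nat.Coprime p q := by
        have h1 := Nat.coprime_div_gcd_div_gcd hk
        have h2 : w 0 / Nat.gcd (w 0) (w 1) = p := Nat.div_eq_of_eq_mul_right hk hp
        have h3 : w 1 / Nat.gcd (w 0) (w 1) = q := Nat.div_eq_of_eq_mul_right hk hq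
        rwa [h2, h3] at h1
      set k := Nat.gcd (w 0) (w 1) with hkdef
      have hwe : w = ![k * p, k * q] := by
        ext j
        fin_cases j
        · exact hp
        · exact hq
      have hp0 : 0 < p := by
        rcases Nat.eq_zero_or_pos p with h | h
        · have := hw 0
          rw [hp, h, mul_zero] at this
          exact absurd this (lt_irrefl 0)
        · exact h
      have hq0 : 0 < q := by
        rcases Nat.eq_zero_or_pos q with h | h
        · have := hw 1
          rw [hq, h, mul_zero] at this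
          exact absurd this (lt_irrefl 0)
        · exact h
      rw [hwe] at hI
      obtain ⟨N', _, hI'⟩ := IsInit.of_smul hk hI
      exact ⟨⟨(p, q), hp0, hq0, hcop, N', P, hI', hcard⟩, k, hk, hwe⟩
    · left
      have h1 : 0 < P.support.card := Finset.card_pos.2 (support_nonempty.2 hI.1)
      have h2 : P.support.card = 1 := by omega
      obtain ⟨v, hv⟩ := Finset.card_eq_one.1 h2
      refine ⟨N, v, P.coeff v, ?_⟩
      have h3 : P = monomial v (P.coeff v) := by
        conv_lhs => rw [P.as_sum, hv, Finset.sum_singleton]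
      rw [← h3]
      exact hI

end PC

end MPb07157
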