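import Pool.Agent.Lib.MP_b07157_agV.Defs

/-!
# Rational functions: forms on the projective line which are not exact
-/

noncomputable section

namespace MPb07157

namespace PC

/-- The ring homomorphism `p ↦ p + p' ε`. -/
def dualHom : Polynomial ℂ →+* TrivSqZeroExt (RatFunc ℂ) (RatFunc ℂ) where
  toFun p := TrivSqZeroExt.inl (algebraMap (Polynomial ℂ) (RatFunc ℂ) p) +
    TrivSqZeroExt.inr (algebraMap (Polynomial ℂ) (RatFunc ℂ) (Polynomial.derivative p))
  map_one' := by
    ext <;> simp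
  map_mul' p q := by
    ext
    · simp
    · simp only [map_mul, Polynomial.derivative_mul, map_add, TrivSqZeroExt.snd_add,
        TrivSqZeroExt.snd_inl, TrivSqZeroExt.snd_inr, TrivSqZeroExt.snd_mul,
        TrivSqZeroExt.fst_add, TrivSqZeroExt.fst_inl, TrivSqZeroExt.fst_inr, smul_eq_mul,
        MulOpposite.smul_eq_mul_unop, MulOpposite.unop_op]
      ring
  map_zero' := by
    ext <;> simp
  map_add' p q := by
    ext
    · simp only [map_add, TrivSqZeroExt.fst_add, TrivSqZeroExt.fst_inl,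
        TrivSqZeroExt.fst_inr, add_zero]
    · simp only [map_add, TrivSqZeroExt.snd_add, TrivSqZeroExt.snd_inl,
        TrivSqZeroExt.snd_inr, zero_add]

theorem isUnit_dualHom (y : nonZeroDivisors (Polynomial ℂ)) :
    IsUnit (dualHom (y : Polynomial ℂ)) := by
  rw [TrivSqZeroExt.isUnit_iff_isUnit_fst]
  have h1 : (dualHom (y : Polynomial ℂ)).fst = algebraMap (Polynomial ℂ) (RatFunc ℂ) y := by
    simp [dualHom]
  rw [h1, isUnit_iff_ne_zero]
  intro h
  exact nonZeroDivisors.coe_ne_zero y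
    ((map_eq_zero_iff _ (RatFunc.algebraMap_injective ℂ)).1 h)

/-- The lift to rational functions. -/
def dualLift : RatFunc ℂ →+* TrivSqZeroExt (RatFunc ℂ) (RatFunc ℂ) :=
  IsLocalization.lift (M := nonZeroDivisors (Polynomial ℂ)) (g := dualHom) isUnit_dualHom

theorem dualLift_algebraMap (p : Polynomial ℂ) :
    dualLift (algebraMap (Polynomial ℂ) (RatFunc ℂ) p) = dualHom p :=
  IsLocalization.lift_eq _ _

theorem dualLift_fst (x : RatFunc ℂ) : (dualLift x).fst = x := by
  have h : ((TrivSqZeroExt.fstHom ℂ (RatFunc ℂ) (RatFunc ℂ)).toRingHom).comp dualLift =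
      RingHom.id (RatFunc ℂ) := by
    refine IsLocalization.ringHom_ext (nonZeroDivisors (Polynomial ℂ)) ?_
    refine RingHom.ext fun p => ?_
    change (dualLift (algebraMap (Polynomial ℂ) (RatFunc ℂ) p)).fst =
      algebraMap (Polynomial ℂ) (RatFunc ℂ) p
    rw [dualLift_algebraMap]
    change (TrivSqZeroExt.inl _ + TrivSqZeroExt.inr _ :
      TrivSqZeroExt (RatFunc ℂ) (RatFunc ℂ)).fst = _
    rw [TrivSqZeroExt.fst_add, TrivSqZeroExt.fst_inl, TrivSqZeroExt.fst_inr, add_zero]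
  exact congrFun (congrArg DFunLike.coe h) x

/-- The derivation `d/dz` of the field `ℂ(z)`. -/
theorem exists_deriv : ∃ δ : Derivation ℂ (RatFunc ℂ) (RatFunc ℂ),
    ∀ P : Polynomial ℂ, δ (algebraMap (Polynomial ℂ) (RatFunc ℂ) P) =
      algebraMap (Polynomial ℂ) (RatFunc ℂ) (Polynomial.derivative P) := by
  have key : ∀ P : Polynomial ℂ, (dualLift (algebraMap (Polynomial ℂ) (RatFunc ℂ) P)).snd =
      algebraMap (Polynomial ℂ) (RatFunc ℂ) (Polynomial.derivative P) := by
    intro P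
    rw [dualLift_algebraMap]
    change (TrivSqZeroExt.inl _ + TrivSqZeroExt.inr _ :
      TrivSqZeroExt (RatFunc ℂ) (RatFunc ℂ)).snd = _
    rw [TrivSqZeroExt.snd_add, TrivSqZeroExt.snd_inl, TrivSqZeroExt.snd_inr, zero_add]
  have hmul : ∀ a b : RatFunc ℂ, (dualLift (a * b)).snd =
      a * (dualLift b).snd + b * (dualLift a).snd := by
    intro a b
    rw [map_mul, TrivSqZeroExt.snd_mul, dualLift_fst, dualLift_fst, smul_eq_mul,
      MulOpposite.smul_eq_mul_unop, MulOpposite.unop_op, mul_comm b]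
  refine ⟨Derivation.mk'
    { toFun := fun x => (dualLift x).snd
      map_add' := fun a b => by rw [map_add, TrivSqZeroExt.snd_add]
      map_smul' := fun c a => ?_ } ?_, key⟩
  · have h1 : algebraMap ℂ (RatFunc ℂ) c =
        algebraMap (Polynomial ℂ) (RatFunc ℂ) (Polynomial.C c) := rfl
    rw [Algebra.smul_def, hmul, h1, key, Polynomial.derivative_C, map_zero, mul_zero, add_zero,
      RingHom.id_apply, ← h1, Algebra.smul_def]
  · intro a b
    exact hmul a b

open Polynomial in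
/-- A rational solution `P/Q` of `M ρ' + B ρ = R` has no poles. -/
theorem natDegree_den (M B P Q R : ℂ[X]) (hPQ : IsCoprime P Q) (hQ : Q ≠ 0)
    (hE : M * (derivative P * Q - P * derivative Q) + B * P * Q = R * Q ^ 2)
    (hM : ∀ a, M.eval a = 0 → ∀ k : ℕ, 0 < k → B.eval a ≠ k * (derivative M).eval a) :
    Q.natDegree = 0 := by
  by_contra hd
  obtain ⟨a, ha⟩ := IsAlgClosed.exists_root Q (by
    rw [degree_eq_natDegree hQ]
    exact_mod_cast hd)
  obtain ⟨Q1, hQ1, hnd⟩ := exists_eq_pow_rootMultiplicity_mul_and_not_dvd Q hQ a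
  have hk : 0 < rootMultiplicity a Q := (rootMultiplicity_pos hQ).2 ha
  obtain ⟨j, hj⟩ : ∃ j, rootMultiplicity a Q = j + 1 := ⟨_, (Nat.succ_pred_eq_of_pos hk).symm⟩
  rw [hj] at hQ1
  have hQ1a : Q1.eval a ≠ 0 := fun h => hnd (dvd_iff_isRoot.2 h)
  have hPa : P.eval a ≠ 0 := by
    intro h
    obtain ⟨u, v, huv⟩ := hPQ
    have h1 := congrArg (eval a) huv
    rw [eval_add, eval_mul, eval_mul, h, ha.eq_zero, mul_zero, mul_zero, add_zero, eval_one] at h1
    exact zero_ne_one h1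
  set t : ℂ[X] := X - C a with ht
  have ht0 : t ≠ 0 := X_sub_C_ne_zero a
  have hta : t.eval a = 0 := by rw [ht]; simp
  have hdt : derivative t = 1 := by rw [ht]; simp
  have hdQ : derivative Q = t ^ j * ((j + 1 : ℕ) * Q1 + t * derivative Q1) := by
    rw [hQ1, derivative_mul, derivative_pow, hdt, Nat.add_sub_cancel]
    simp only [map_natCast]
    push_cast
    ring
  have h1 : M * (derivative P * t * Q1 - P * ((j + 1 : ℕ) * Q1 + t * derivative Q1)) +
      B * P * t * Q1 = R * t ^ (j + 2) * Q1 ^ 2 := by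
    apply mul_left_cancel₀ (pow_ne_zero j ht0)
    rw [hdQ] at hE
    have h2 : t ^ j * (R * t ^ (j + 2) * Q1 ^ 2) = R * Q ^ 2 := by
      rw [hQ1]; ring
    rw [h2, ← hE, hQ1]
    ring
  have h2 : M.eval a = 0 := by
    have h3 := congrArg (eval a) h1
    simp only [eval_add, eval_mul, eval_sub, eval_pow, hta, eval_natCast] at h3
    have h4 : M.eval a * (P.eval a * (((j + 1 : ℕ) : ℂ) * Q1.eval a)) = 0 := by
      rw [zero_pow (by omega)] at h3
      linear_combination -h3
    have h5 : ((j + 1 : ℕ) : ℂ) ≠ 0 := by exact_mod_cast Nat.succ_ne_zero j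
    exact (mul_eq_zero.1 h4).resolve_right (mul_ne_zero hPa (mul_ne_zero h5 hQ1a))
  obtain ⟨M1, hM1⟩ := dvd_iff_isRoot.2 h2
  rw [← ht] at hM1
  have h3 : M1 * (derivative P * t * Q1 - P * ((j + 1 : ℕ) * Q1 + t * derivative Q1)) +
      B * P * Q1 = R * t ^ (j + 1) * Q1 ^ 2 := by
    apply mul_left_cancel₀ ht0
    have h4 : t * (R * t ^ (j + 1) * Q1 ^ 2) = R * t ^ (j + 2) * Q1 ^ 2 := by ring
    rw [h4, ← h1, hM1]
    ring
  have h4 : (derivative M).eval a = M1.eval a := by
    rw [hM1, derivative_mul, hdt]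
    simp only [eval_add, eval_mul, eval_one, hta]
    ring
  refine hM a h2 (j + 1) (Nat.succ_pos j) ?_
  rw [h4]
  have h5 := congrArg (eval a) h3
  simp only [eval_add, eval_mul, eval_sub, eval_pow, hta, eval_natCast] at h5
  rw [zero_pow (by omega)] at h5
  have h6 : P.eval a * Q1.eval a ≠ 0 := mul_ne_zero hPa hQ1a
  apply mul_left_cancel₀ h6
  linear_combination h5

open Polynomial in
/-- The count of zeros and the degree. -/
theorem poly_count {R : Finset ℂ} (hR0 : (0 : ℂ) ∉ R) {μ : ℂ → ℕ} {s κ₀ : ℚ} (hs : s < 0)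
    (hμ : ∀ c ∈ R, 0 < μ c) (h1 : -2 ≤ κ₀ + s * ∑ c ∈ R, (μ c : ℚ))
    {P : ℂ[X]} (hE : X * (∏ c ∈ R, (X - C c)) * derivative P +
      (C (κ₀ : ℂ) * (∏ c ∈ R, (X - C c)) + C (s : ℂ) * X *
        ∑ c ∈ R, C (μ c : ℂ) * ∏ d ∈ R.erase c, (X - C d)) * P = X * ∏ c ∈ R, (X - C c)) :
    R.card + (if κ₀ = 0 then 0 else 1) ≤ P.natDegree ∧
      P.natDegree ≤ 1 + (if κ₀ + s * ∑ c ∈ R, (μ c : ℚ) = -2 then 1 else 0) := by
  classical
  set T : ℂ[X] := ∏ c ∈ R, (X - C c) with hT
  set L : ℂ[X] := ∑ c ∈ R, C (μ c : ℂ) * ∏ d ∈ R.erase c, (X - C d) with hL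
  have hTm : T.Monic := monic_prod_of_monic _ _ fun c _ => monic_X_sub_C c
  have hTd : T.natDegree = R.card := by
    rw [hT, natDegree_prod_of_monic _ _ fun c _ => monic_X_sub_C c]
    simp
  have hTc : ∀ c ∈ R, T.eval c = 0 := by
    intro c hc
    rw [hT, eval_prod]
    exact Finset.prod_eq_zero hc (by simp)
  have hT0 : T.eval 0 ≠ 0 := by
    rw [hT, eval_prod]
    refine Finset.prod_ne_zero_iff.2 fun c hc => ?_
    simp only [eval_sub, eval_X, eval_C, zero_sub]
    refine neg_ne_zero.2 ?_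
    rintro rfl
    exact hR0 hc
  have hLc : ∀ c ∈ R, L.eval c ≠ 0 := by
    intro c hc
    rw [hL, eval_finsetSum, Finset.sum_eq_single c]
    · rw [eval_mul, eval_C, eval_prod]
      refine mul_ne_zero (by exact_mod_cast (hμ c hc).ne') (Finset.prod_ne_zero_iff.2 fun d hd => ?_)
      simp only [eval_sub, eval_X, eval_C]
      exact sub_ne_zero.2 (Ne.symm (Finset.ne_of_mem_erase hd))
    · intro d hd hdc
      rw [eval_mul, eval_prod, Finset.prod_eq_zero (Finset.mem_erase.2 ⟨Ne.symm hdc, hc⟩) (by simp),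
        mul_zero]
    · intro h
      exact absurd hc h
  have hP0 : P ≠ 0 := by
    rintro rfl
    rw [derivative_zero, mul_zero, mul_zero, add_zero] at hE
    exact mul_ne_zero X_ne_zero hTm.ne_zero hE.symm
  have hs0 : (s : ℂ) ≠ 0 := by exact_mod_cast hs.ne
  have hroot : ∀ c ∈ R, P.eval c = 0 := by
    intro c hc
    have h2 := congrArg (eval c) hE
    simp only [eval_add, eval_mul, eval_X, eval_C, hTc c hc, mul_zero, zero_mul, zero_add] at h2
    have hc0 : c ≠ 0 := by
      rintro rfl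
      exact hR0 hc
    exact (mul_eq_zero.1 h2).resolve_left (mul_ne_zero (mul_ne_zero hs0 hc0) (hLc c hc))
  have hroot0 : κ₀ ≠ 0 → P.eval 0 = 0 := by
    intro hκ0
    have h2 := congrArg (eval 0) hE
    simp only [eval_add, eval_mul, eval_X, eval_C, mul_zero, zero_mul, zero_add, add_zero] at h2
    have : (κ₀ : ℂ) ≠ 0 := by exact_mod_cast hκ0
    exact (mul_eq_zero.1 h2).resolve_left (mul_ne_zero this hT0)
  refine ⟨?_, ?_⟩
  · by_cases hκ0 : κ₀ = 0
    · rw [if_pos hκ0, add_zero]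
      exact card_le_degree_of_subset_roots (Multiset.subset_iff.2 fun c hc =>
        (mem_roots hP0).2 (hroot c hc))
    · rw [if_neg hκ0, ← Finset.card_insert_of_notMem hR0]
      refine card_le_degree_of_subset_roots (Multiset.subset_iff.2 fun c hc => ?_)
      rcases Finset.mem_insert.1 hc with rfl | hc
      · exact (mem_roots hP0).2 (hroot0 hκ0)
      · exact (mem_roots hP0).2 (hroot c hc)
  · by_contra hcon
    have hD : 2 ≤ P.natDegree := by
      split_ifs at hcon <;> omega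
    set D := P.natDegree with hDd
    have e1 : (X * T * derivative P).coeff ((R.card + 1) + (D - 1)) = D * P.coeff D := by
      rw [coeff_mul_add_eq_of_natDegree_le]
      · have h2 : (X * T).coeff (R.card + 1) = 1 := by
          rw [coeff_X_mul, ← hTd]
          exact hTm.coeff_natDegree
        rw [h2, one_mul, coeff_derivative, Nat.sub_add_cancel (by omega)]
        have h3 : ((D - 1 : ℕ) : ℂ) + 1 = D := by
          rw [Nat.cast_sub (by omega)]; push_cast; ring
        rw [h3, mul_comm]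
      · rw [natDegree_X_mul hTm.ne_zero, hTd]
      · exact natDegree_derivative_le P
    have hBd : ∀ c ∈ R, (X * ∏ d ∈ R.erase c, (X - C d) : ℂ[X]).natDegree = R.card ∧
        (X * ∏ d ∈ R.erase c, (X - C d) : ℂ[X]).coeff R.card = 1 := by
      intro c hc
      have hm : (∏ d ∈ R.erase c, (X - C d) : ℂ[X]).Monic :=
        monic_prod_of_monic _ _ fun c _ => monic_X_sub_C c
      have hd : (X * ∏ d ∈ R.erase c, (X - C d) : ℂ[X]).natDegree = R.card := by
        rw [natDegree_X_mul hm.ne_zero, natDegree_prod_of_monic _ _ fun c _ => monic_X_sub_C c]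
        simp only [natDegree_X_sub_C, Finset.sum_const, smul_eq_mul, mul_one]
        exact Finset.card_erase_add_one hc
      refine ⟨hd, ?_⟩
      have h2 := (monic_X.mul hm).coeff_natDegree
      rwa [hd] at h2
    have hXL : X * L = ∑ c ∈ R, C (μ c : ℂ) * (X * ∏ d ∈ R.erase c, (X - C d)) := by
      rw [hL, Finset.mul_sum]
      exact Finset.sum_congr rfl fun c _ => by ring
    have hBdeg : (C (κ₀ : ℂ) * T + C (s : ℂ) * X * L).natDegree ≤ R.card := by
      refine natDegree_add_le_of_degree_le ((natDegree_C_mul_le _ _).trans hTd.le) ?_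
      rw [mul_assoc, hXL]
      refine (natDegree_C_mul_le _ _).trans (natDegree_sum_le_of_forall_le _ _ fun c hc => ?_)
      exact (natDegree_C_mul_le _ _).trans (hBd c hc).1.le
    have hBco : (C (κ₀ : ℂ) * T + C (s : ℂ) * X * L).coeff R.card =
        ((κ₀ + s * ∑ c ∈ R, (μ c : ℚ) : ℚ) : ℂ) := by
      rw [coeff_add, coeff_C_mul, mul_assoc, coeff_C_mul, hXL, finsetSum_coeff]
      have h2 : T.coeff R.card = 1 := by
        rw [← hTd]
        exact hTm.coeff_natDegree
      rw [h2, mul_one, Finset.sum_congr rfl fun c hc => by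
        rw [coeff_C_mul, (hBd c hc).2, mul_one]]
      push_cast
      ring
    have e2 : ((C (κ₀ : ℂ) * T + C (s : ℂ) * X * L) * P).coeff (R.card + D) =
        ((κ₀ + s * ∑ c ∈ R, (μ c : ℚ) : ℚ) : ℂ) * P.coeff D := by
      rw [coeff_mul_add_eq_of_natDegree_le hBdeg le_rfl, hBco]
    have e3 : (X * T).coeff (R.card + D) = 0 := by
      refine coeff_eq_zero_of_natDegree_lt ?_
      rw [natDegree_X_mul hTm.ne_zero, hTd]
      omega
    have e4 := congrArg (fun p => coeff p (R.card + D)) hE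
    simp only [coeff_add] at e4
    rw [show R.card + D = (R.card + 1) + (D - 1) by omega] at e4
    rw [e1] at e4
    rw [show (R.card + 1) + (D - 1) = R.card + D by omega] at e4
    rw [e2, e3, ← add_mul] at e4
    have hPD : P.coeff D ≠ 0 := by
      rw [hDd, coeff_natDegree]
      exact leadingCoeff_ne_zero.2 hP0
    have e5 : ((D + (κ₀ + s * ∑ c ∈ R, (μ c : ℚ)) : ℚ) : ℂ) = 0 := by
      have := (mul_eq_zero.1 e4).resolve_right hPD
      push_cast at this ⊢
      exact this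
    have e6 : (D + (κ₀ + s * ∑ c ∈ R, (μ c : ℚ)) : ℚ) = 0 := by exact_mod_cast e5
    have e7 : (D : ℚ) ≤ 2 := by linarith
    have e8 : D = 2 := le_antisymm (by exact_mod_cast e7) hD
    have e9 : κ₀ + s * ∑ c ∈ R, (μ c : ℚ) = -2 := by
      rw [e8] at e6
      push_cast at e6
      linarith
    rw [if_pos e9, e8] at hcon
    exact hcon le_rfl

open Polynomial in
/-- The logarithmic derivative of a product. -/
theorem mul_deriv_prod (R : Finset ℂ) (μ : ℂ → ℕ) :
    (∏ c ∈ R, (X - C c)) * derivative (∏ c ∈ R, (X - C c) ^ μ c : ℂ[X]) =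
      (∑ c ∈ R, C (μ c : ℂ) * ∏ d ∈ R.erase c, (X - C d)) * ∏ c ∈ R, (X - C c) ^ μ c := by
  classical
  rw [derivative_prod_finset, Finset.mul_sum, Finset.sum_mul]
  refine Finset.sum_congr rfl fun c hc => ?_
  rw [derivative_pow, derivative_X_sub_C, mul_one,
    ← Finset.mul_prod_erase R (fun c => X - C c) hc,
    ← Finset.mul_prod_erase R (fun c => (X - C c) ^ μ c) hc]
  rcases Nat.eq_zero_or_pos (μ c) with h | h
  · rw [h]; simp
  · have h1 : (X - C c : ℂ[X]) ^ μ c = (X - C c) ^ (μ c - 1) * (X - C c) := by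
      rw [← pow_succ, Nat.sub_add_cancel h]
    rw [h1]
    ring

open Polynomial in
/-- The logarithmic derivative of `lam z^κ ∏ (z - c)^{μ_c}`. -/
theorem mul_deriv_f0 (R : Finset ℂ) (μ : ℂ → ℕ) (lam : ℂ) (κ : ℕ) :
    X * (∏ c ∈ R, (X - C c)) * derivative (C lam * X ^ κ * ∏ c ∈ R, (X - C c) ^ μ c : ℂ[X]) =
      (C (κ : ℂ) * (∏ c ∈ R, (X - C c)) + X * ∑ c ∈ R, C (μ c : ℂ) * ∏ d ∈ R.erase c, (X - C d)) *
        (C lam * X ^ κ * ∏ c ∈ R, (X - C c) ^ μ c) := by
  have h1 := mul_deriv_prod R μ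
  have h2 : X * derivative (X ^ κ : ℂ[X]) = C (κ : ℂ) * X ^ κ := by
    rcases κ with _ | κ
    · simp
    · rw [derivative_X_pow, Nat.add_sub_cancel]
      ring
  rw [derivative_mul, derivative_C_mul]
  linear_combination (C lam * (∏ c ∈ R, (X - C c)) * ∏ c ∈ R, (X - C c) ^ μ c) * h2 +
    (X * C lam * X ^ κ) * h1

/-- The form `z^{e + sκ} ∏ (z - c)^{s μ_c} dz` is not exact if it has at least three special points
and all `ε` are at most `1`. -/
theorem not_exact_of_le {δ : Derivation ℂ (RatFunc ℂ) (RatFunc ℂ)}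
    (hδ : ∀ P : Polynomial ℂ, δ (algebraMap (Polynomial ℂ) (RatFunc ℂ) P) =
      algebraMap (Polynomial ℂ) (RatFunc ℂ) (Polynomial.derivative P))
    {e κ : ℕ} {R : Finset ℂ} (hR0 : (0 : ℂ) ∉ R) {μ : ℂ → ℕ} {s : ℚ} (hs : s < 0)
    {ε₀ ε₁ : ℚ} (h₀ : ε₀ = e + 1 + s * κ) (h₁ : ε₁ = -(ε₀ + s * ∑ c ∈ R, (μ c : ℚ)))
    (h₀u : ε₀ ≤ 1) (h₁u : ε₁ ≤ 1) (hc : ∀ c ∈ R, 0 < μ c)
    (h3 : 3 ≤ R.card + (if ε₀ = 1 then 0 else 1) + (if ε₁ = 1 then 0 else 1))
    {w lam : ℂ} (hw : w ≠ 0) (hlam : lam ≠ 0) {f₀ : RatFunc ℂ}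
    (hf₀ : f₀ = algebraMap (Polynomial ℂ) (RatFunc ℂ)
      (Polynomial.C lam * Polynomial.X ^ κ * ∏ c ∈ R, (Polynomial.X - Polynomial.C c) ^ μ c)) :
    ¬ ∃ r : RatFunc ℂ, algebraMap (Polynomial ℂ) (RatFunc ℂ)
      (Polynomial.C w * Polynomial.X ^ e) = δ r + (s : RatFunc ℂ) * (δ f₀ / f₀) * r := by
  classical
  rintro ⟨r, hr⟩
  set φ := algebraMap (Polynomial ℂ) (RatFunc ℂ) with hφ
  have hinj : Function.Injective φ := RatFunc.algebraMap_injective ℂ
  have hne : ∀ {p : Polynomial ℂ}, p ≠ 0 → φ p ≠ 0 := fun hp h =>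
    hp ((map_eq_zero_iff _ hinj).1 h)
  set T : Polynomial ℂ := ∏ c ∈ R, (Polynomial.X - Polynomial.C c) with hT
  set L : Polynomial ℂ := ∑ c ∈ R, Polynomial.C (μ c : ℂ) *
    ∏ d ∈ R.erase c, (Polynomial.X - Polynomial.C d) with hL
  set g : Polynomial ℂ := Polynomial.C lam * Polynomial.X ^ κ *
    ∏ c ∈ R, (Polynomial.X - Polynomial.C c) ^ μ c with hg
  set κ₀ : ℚ := ε₀ - 1 with hκ₀
  set V : Polynomial ℂ := Polynomial.C w * Polynomial.X ^ e with hV
  have hg0 : g ≠ 0 := by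
    rw [hg]
    refine mul_ne_zero (mul_ne_zero (Polynomial.C_ne_zero.2 hlam)
      (pow_ne_zero _ Polynomial.X_ne_zero)) (Finset.prod_ne_zero_iff.2 fun c _ =>
      pow_ne_zero _ (Polynomial.X_sub_C_ne_zero c))
  have hV0 : V ≠ 0 := mul_ne_zero (Polynomial.C_ne_zero.2 hw) (pow_ne_zero _ Polynomial.X_ne_zero)
  have hT0 : T ≠ 0 := Finset.prod_ne_zero_iff.2 fun c _ => Polynomial.X_sub_C_ne_zero c
  have hVd : Polynomial.X * Polynomial.derivative V = Polynomial.C (e : ℂ) * V := by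
    rw [hV, Polynomial.derivative_C_mul]
    rcases e with _ | e
    · simp
    · rw [Polynomial.derivative_X_pow, Nat.add_sub_cancel]
      ring
  have hgd : φ (Polynomial.X * T) * δ f₀ = φ (Polynomial.C (κ : ℂ) * T + Polynomial.X * L) * f₀ := by
    rw [hf₀, hδ, ← map_mul, ← map_mul, mul_deriv_f0]
  have hf0 : f₀ ≠ 0 := by
    rw [hf₀]
    exact hne hg0
  have hfd : φ (Polynomial.X * T) * (δ f₀ / f₀) =
      φ (Polynomial.C (κ : ℂ) * T + Polynomial.X * L) := by
    rw [← mul_div_assoc, hgd, mul_div_assoc, div_self hf0, mul_one]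
  -- the reduced equation
  set ρ : RatFunc ℂ := r / φ V with hρ
  have hrρ : r = φ V * ρ := by
    rw [hρ, mul_div_cancel₀ _ (hne hV0)]
  have hsφ : (s : RatFunc ℂ) = φ (Polynomial.C (s : ℂ)) := by
    have h5 : φ (Polynomial.C (s : ℂ)) = algebraMap ℂ (RatFunc ℂ) (s : ℂ) := rfl
    rw [h5, map_ratCast]
  have hred : φ (Polynomial.X * T) = φ (Polynomial.X * T) * δ ρ +
      φ (Polynomial.C (κ₀ : ℂ) * T + Polynomial.C (s : ℂ) * Polynomial.X * L) * ρ := by
    have h5 : δ r = φ (Polynomial.derivative V) * ρ + φ V * δ ρ := by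
      rw [hrρ, Derivation.leibniz, hδ, smul_eq_mul, smul_eq_mul]
      ring
    have h6 : φ V * φ (Polynomial.X * T) = φ V * (φ (Polynomial.X * T) * δ ρ +
      φ (Polynomial.C (κ₀ : ℂ) * T + Polynomial.C (s : ℂ) * Polynomial.X * L) * ρ) := by
      have h7 : φ V * φ (Polynomial.X * T) = φ (T * (Polynomial.X * Polynomial.derivative V)) * ρ +
          φ V * φ (Polynomial.X * T) * δ ρ + (s : RatFunc ℂ) *
            (φ (Polynomial.X * T) * (δ f₀ / f₀)) * r := by
        simp only [map_mul]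
        linear_combination (φ Polynomial.X * φ T) * hr + (φ Polynomial.X * φ T) * h5
      rw [h7, hfd, hVd, hrρ, hsφ]
      have h8 : (κ₀ : ℂ) = (e : ℂ) + (s : ℂ) * (κ : ℂ) := by
        rw [hκ₀, h₀]
        push_cast
        ring
      rw [h8]
      simp only [map_mul, map_add]
      ring
    exact mul_left_cancel₀ (hne hV0) h6
  -- the polynomial equation
  set P := ρ.num with hP
  set Q := ρ.denom with hQ
  have hQ0 : Q ≠ 0 := ρ.denom_ne_zero
  have hPQ : φ P = ρ * φ Q := by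
    rw [hP, hQ, hφ]
    exact ((div_eq_iff (hne ρ.denom_ne_zero)).1 ρ.num_div_denom)
  have hdρ : δ ρ * φ Q ^ 2 = φ (Polynomial.derivative P * Q - P * Polynomial.derivative Q) := by
    have h5 := congrArg δ hPQ
    rw [Derivation.leibniz, hδ, hδ, smul_eq_mul, smul_eq_mul] at h5
    rw [map_sub, map_mul, map_mul, h5, hPQ]
    ring
  have hE : Polynomial.X * T * (Polynomial.derivative P * Q - P * Polynomial.derivative Q) +
      (Polynomial.C (κ₀ : ℂ) * T + Polynomial.C (s : ℂ) * Polynomial.X * L) * P * Q =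
        (Polynomial.X * T) * Q ^ 2 := by
    apply hinj
    rw [map_add, map_mul φ (Polynomial.X * T), ← hdρ,
      map_mul φ (Polynomial.X * T) (Q ^ 2), map_pow, hred,
      map_mul φ _ Q, map_mul φ _ P, hPQ, ← hred]
    linear_combination (-(φ Q ^ 2)) * hred
  have hTc : ∀ c ∈ R, T.eval c = 0 := by
    intro c hc
    rw [hT, Polynomial.eval_prod]
    exact Finset.prod_eq_zero hc (by simp)
  have hT0' : T.eval 0 ≠ 0 := by
    rw [hT, Polynomial.eval_prod]
    refine Finset.prod_ne_zero_iff.2 fun c hc => ?_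
    simp only [Polynomial.eval_sub, Polynomial.eval_X, Polynomial.eval_C, zero_sub]
    refine neg_ne_zero.2 ?_
    rintro rfl
    exact hR0 hc
  have hdeg : Q.natDegree = 0 := by
    refine natDegree_den _ _ P Q _ ρ.isCoprime_num_denom hQ0 hE ?_
    intro a ha k hk hak
    rw [Polynomial.derivative_mul, Polynomial.derivative_X, one_mul] at hak
    simp only [Polynomial.eval_add, Polynomial.eval_mul, Polynomial.eval_C,
      Polynomial.eval_X] at hak
    by_cases ha0 : a = 0
    · subst ha0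
      rw [mul_zero, zero_mul, add_zero, zero_mul, add_zero] at hak
      have h5 : (κ₀ : ℂ) = (k : ℂ) := mul_right_cancel₀ hT0' hak
      have h6 : κ₀ = k := by exact_mod_cast h5
      have h7 : (0 : ℚ) < k := by exact_mod_cast hk
      linarith
    · have hTa : T.eval a = 0 := by
        rw [Polynomial.eval_mul, Polynomial.eval_X] at ha
        exact (mul_eq_zero.1 ha).resolve_left ha0
      have haR : a ∈ R := by
        rw [hT, Polynomial.eval_prod] at hTa
        obtain ⟨c, hc, hca⟩ := Finset.prod_eq_zero_iff.1 hTa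
        simp only [Polynomial.eval_sub, Polynomial.eval_X, Polynomial.eval_C] at hca
        rw [sub_eq_zero.1 hca]
        exact hc
      set T1 : Polynomial ℂ := ∏ d ∈ R.erase a, (Polynomial.X - Polynomial.C d) with hT1
      have hTT : T = (Polynomial.X - Polynomial.C a) * T1 := by
        rw [hT, hT1, Finset.mul_prod_erase R (fun c => Polynomial.X - Polynomial.C c) haR]
      have hT1a : T1.eval a ≠ 0 := by
        rw [hT1, Polynomial.eval_prod]
        refine Finset.prod_ne_zero_iff.2 fun d hd => ?_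
        simp only [Polynomial.eval_sub, Polynomial.eval_X, Polynomial.eval_C]
        exact sub_ne_zero.2 (Ne.symm (Finset.ne_of_mem_erase hd))
      have hdT : (Polynomial.derivative T).eval a = T1.eval a := by
        rw [hTT, Polynomial.derivative_mul, Polynomial.derivative_X_sub_C]
        simp
      have hLa : L.eval a = μ a * T1.eval a := by
        rw [hL, Polynomial.eval_finsetSum, Finset.sum_eq_single a]
        · rw [Polynomial.eval_mul, Polynomial.eval_C]
        · intro d hd hda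
          rw [Polynomial.eval_mul, Polynomial.eval_prod,
            Finset.prod_eq_zero (Finset.mem_erase.2 ⟨Ne.symm hda, haR⟩) (by simp), mul_zero]
        · intro h
          exact absurd haR h
      rw [hTa, hdT, hLa, mul_zero, zero_add, zero_add] at hak
      have h5 : (s : ℂ) * (μ a : ℂ) = (k : ℂ) := by
        apply mul_right_cancel₀ (mul_ne_zero ha0 hT1a)
        linear_combination hak
      have h6 : s * (μ a : ℚ) = k := by exact_mod_cast h5
      have h7 : (0 : ℚ) < k := by exact_mod_cast hk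
      have h8 : (0 : ℚ) < μ a := by exact_mod_cast hc a haR
      nlinarith
  have hQ1 : Q = 1 := Polynomial.eq_one_of_monic_natDegree_zero (RatFunc.monic_denom ρ) hdeg
  rw [hQ1, Polynomial.derivative_one, mul_zero, sub_zero, mul_one, mul_one, one_pow,
    mul_one] at hE
  have hcount := poly_count hR0 hs hc (κ₀ := κ₀) (by rw [h₁] at h₁u; linarith) hE
  have h5 : (if κ₀ = 0 then 0 else 1) = (if ε₀ = 1 then 0 else 1) := by
    have : κ₀ = 0 ↔ ε₀ = 1 := by rw [hκ₀]; constructor <;> intro h <;> linarith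
    simp only [this]
  have h6 : (if κ₀ + s * ∑ c ∈ R, (μ c : ℚ) = -2 then 1 else 0) =
      (if ε₁ = 1 then 1 else 0) := by
    have : κ₀ + s * ∑ c ∈ R, (μ c : ℚ) = -2 ↔ ε₁ = 1 := by
      rw [hκ₀, h₁]; constructor <;> intro h <;> linarith
    simp only [this]
  rw [h5, h6] at hcount
  split_ifs at hcount h3 <;> omega

/-- The form `z^{e + sκ} ∏ (z - c)^{s μ_c} dz` is not exact if it has at least three special points
and all `ε` lie in `(-1, 1]`. -/
theorem not_exact {δ : Derivation ℂ (RatFunc ℂ) (RatFunc ℂ)}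
    (hδ : ∀ P : Polynomial ℂ, δ (algebraMap (Polynomial ℂ) (RatFunc ℂ) P) =
      algebraMap (Polynomial ℂ) (RatFunc ℂ) (Polynomial.derivative P))
    {e κ : ℕ} {R : Finset ℂ} (hR0 : (0 : ℂ) ∉ R) {μ : ℂ → ℕ} {s : ℚ} (hs : s < 0)
    {ε₀ ε₁ : ℚ} (h₀ : ε₀ = e + 1 + s * κ) (h₁ : ε₁ = -(ε₀ + s * ∑ c ∈ R, (μ c : ℚ)))
    (_h₀l : -1 < ε₀) (h₀u : ε₀ ≤ 1) (_h₁l : -1 < ε₁) (h₁u : ε₁ ≤ 1)
    (hc : ∀ c ∈ R, 0 < μ c ∧ -1 < 1 + s * μ c)
    (h3 : 3 ≤ R.card + (if ε₀ = 1 then 0 else 1) + (if ε₁ = 1 then 0 else 1))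
    {w lam : ℂ} (hw : w ≠ 0) (hlam : lam ≠ 0) {f₀ : RatFunc ℂ}
    (hf₀ : f₀ = algebraMap (Polynomial ℂ) (RatFunc ℂ)
      (Polynomial.C lam * Polynomial.X ^ κ * ∏ c ∈ R, (Polynomial.X - Polynomial.C c) ^ μ c)) :
    ¬ ∃ r : RatFunc ℂ, algebraMap (Polynomial ℂ) (RatFunc ℂ)
      (Polynomial.C w * Polynomial.X ^ e) = δ r + (s : RatFunc ℂ) * (δ f₀ / f₀) * r :=
  not_exact_of_le hδ hR0 hs h₀ h₁ h₀u h₁u (fun c hcR => (hc c hcR).1) h3 hw hlam hf₀

end PC

end MPb07157
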