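import Pool.Agent.Lib.MP_b07157_agV.R2
import Pool.Agent.Lib.MP_b07157_agV.R3
import Pool.Agent.Lib.MP_b07157_agV.N2

/-!
# The roots of the edges
-/

noncomputable section

namespace MPb07157

open MvPolynomial

namespace PC

section Kap

variable {K : Type} [Field K] [Algebra ℂ K]

/-- The substitution `(x u^p, y u^q)`. -/
def kapK (p q : ℕ) (x y : K) : Fin 2 → PowerSeries K :=
  ![PowerSeries.C x * PowerSeries.X ^ p, PowerSeries.C y * PowerSeries.X ^ q]

omit [Algebra ℂ K] in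
theorem constantCoeff_kapK {p q : ℕ} (hp : 0 < p) (hq : 0 < q) (x y : K) (i : Fin 2) :
    PowerSeries.constantCoeff (kapK p q x y i) = 0 := by
  rcases (show i = 0 ∨ i = 1 by omega) with rfl | rfl
  · simp [kapK, hp.ne']
  · simp [kapK, hq.ne']

omit [Algebra ℂ K] in
theorem hasSubst_kapK {p q : ℕ} (hp : 0 < p) (hq : 0 < q) (x y : K) :
    MvPowerSeries.HasSubst (kapK p q x y : Fin 2 → MvPowerSeries Unit K) :=
  MvPowerSeries.hasSubst_of_constantCoeff_zero fun i => constantCoeff_kapK hp hq x y i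

theorem X_pow_dvd_subst_kapK {p q : ℕ} (hp : 0 < p) (hq : 0 < q) (x y : K) {N : ℕ} {G : P2}
    (hG : ∀ v : Fin 2 →₀ ℕ, wt ![p, q] v < N → MvPowerSeries.coeff v G = 0) :
    (PowerSeries.X ^ N : PowerSeries K) ∣
      (MvPowerSeries.subst (kapK p q x y : Fin 2 → MvPowerSeries Unit K) G : PowerSeries K) := by
  rw [PowerSeries.X_pow_dvd_iff]
  intro m hm
  rw [PowerSeries.coeff_def (Finsupp.single_eq_same (a := ()) (b := m)),
    MvPowerSeries.coeff_subst (hasSubst_kapK hp hq x y)]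
  refine finsum_eq_zero_of_forall_eq_zero fun v => ?_
  by_cases hv : wt ![p, q] v < N
  · rw [hG v hv, zero_smul]
  · have h1 : (v.prod fun s e => (kapK p q x y s) ^ e : PowerSeries K) =
        PowerSeries.C (x ^ v 0 * y ^ v 1) * PowerSeries.X ^ (wt ![p, q] v) := by
      rw [Finsupp.prod_fintype _ _ (fun i => pow_zero _), Fin.prod_univ_two]
      simp only [kapK, Matrix.cons_val_zero, Matrix.cons_val_one, wt, Fin.sum_univ_two]
      rw [map_mul, map_pow, map_pow, pow_add, pow_mul, pow_mul]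
      ring
    have h2 : PowerSeries.coeff m (v.prod fun s e => (kapK p q x y s) ^ e : PowerSeries K) = 0 := by
      rw [h1, PowerSeries.coeff_C_mul, PowerSeries.coeff_X_pow, if_neg (by omega), mul_zero]
    rw [PowerSeries.coeff_def (Finsupp.single_eq_same (a := ()) (b := m))] at h2
    have h3 : MvPowerSeries.coeff (Finsupp.single () m)
        (v.prod fun s e => (kapK p q x y s : MvPowerSeries Unit K) ^ e) = 0 := h2
    rw [h3, smul_zero]

theorem X_dvd_subst {Θ : Fin 2 → PowerSeries K}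
    (h0 : ∀ i, PowerSeries.constantCoeff (Θ i) = 0) {W : P2}
    (hW : MvPowerSeries.constantCoeff W = 0) :
    (PowerSeries.X : PowerSeries K) ∣
      (MvPowerSeries.subst (Θ : Fin 2 → MvPowerSeries Unit K) W : PowerSeries K) := by
  rw [PowerSeries.X_dvd_iff]
  exact MvPowerSeries.constantCoeff_subst_eq_zero
    (MvPowerSeries.hasSubst_of_constantCoeff_zero fun i => h0 i) (fun i => h0 i) hW


theorem subst_kapK_edgeP {p q α β : ℕ} (hp : 0 < p) (hq : 0 < q) (hαβ : p * α = q * β + 1)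
    (z : K) (A B : ℕ) (lam : ℂ) (R : Finset ℂ) (μ : ℂ → ℕ) :
    (MvPowerSeries.subst (kapK p q (z ^ β) (z ^ α) : Fin 2 → MvPowerSeries Unit K)
      (edgeP p q A B lam R μ : P2) : PowerSeries K) =
    PowerSeries.X ^ edgeN p q A B R μ * PowerSeries.C (algebraMap ℂ K lam *
      z ^ (β * A + α * B + β * q * ∑ c ∈ R, μ c) * ∏ c ∈ R, (z - algebraMap ℂ K c) ^ μ c) := by
  have hk := hasSubst_kapK (K := K) hp hq (z ^ β) (z ^ α)
  have h1 : (MvPowerSeries.subst (kapK p q (z ^ β) (z ^ α) : Fin 2 → MvPowerSeries Unit K)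
      (edgeP p q A B lam R μ : P2) : PowerSeries K) =
      MvPolynomial.aeval (kapK p q (z ^ β) (z ^ α)) (edgeP p q A B lam R μ) :=
    MvPowerSeries.subst_coe (edgeP p q A B lam R μ)
  rw [h1]
  have hC : ∀ c : ℂ, algebraMap ℂ (PowerSeries K) c = PowerSeries.C (algebraMap ℂ K c) :=
    fun c => PowerSeries.algebraMap_apply
  have hprod : ∏ c ∈ R, (PowerSeries.X ^ (p * q) * (PowerSeries.C (z ^ (β * q)) *
      PowerSeries.C (z - algebraMap ℂ K c))) ^ μ c =
      PowerSeries.X ^ (p * q * ∑ c ∈ R, μ c) * (PowerSeries.C (z ^ (β * q * ∑ c ∈ R, μ c)) *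
        PowerSeries.C (∏ c ∈ R, (z - algebraMap ℂ K c) ^ μ c) : PowerSeries K) := by
    simp only [mul_pow]
    rw [Finset.prod_mul_distrib, Finset.prod_mul_distrib, Finset.prod_pow_eq_pow_sum,
      Finset.prod_pow_eq_pow_sum, map_prod, ← map_pow, ← pow_mul, ← pow_mul]
    simp only [map_pow]
  have hfac : ∀ c : ℂ, (MvPolynomial.aeval (kapK p q (z ^ β) (z ^ α)))
      (X 1 ^ p - C c * X 0 ^ q : MvPolynomial (Fin 2) ℂ) = PowerSeries.X ^ (p * q) *
        (PowerSeries.C (z ^ (β * q)) * PowerSeries.C (z - algebraMap ℂ K c)) := by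
    intro c
    rw [map_sub, map_mul, map_pow, map_pow, MvPolynomial.aeval_X, MvPolynomial.aeval_X,
      MvPolynomial.aeval_C, hC]
    simp only [kapK, Matrix.cons_val_zero, Matrix.cons_val_one]
    have h2 : (z ^ α) ^ p = z ^ (β * q) * z := by
      rw [← pow_mul, ← pow_succ]; congr 1; rw [mul_comm α p, hαβ, mul_comm q β]
    have h3 : PowerSeries.C (z ^ α) ^ p = PowerSeries.C (z ^ (β * q)) * PowerSeries.C z := by
      rw [← map_pow, h2, map_mul]
    have h4 : PowerSeries.C (z ^ β) ^ q = PowerSeries.C (z ^ (β * q)) := by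
      rw [← map_pow, ← pow_mul]
    rw [mul_pow, mul_pow, h3, h4, ← pow_mul, ← pow_mul, mul_comm q p, map_sub]
    ring
  unfold edgeP
  rw [map_mul, map_mul, map_mul, map_pow, map_pow, map_prod, MvPolynomial.aeval_C,
    MvPolynomial.aeval_X, MvPolynomial.aeval_X, hC]
  simp only [map_pow, hfac]
  simp only [map_pow] at hprod
  rw [hprod]
  simp only [kapK, Matrix.cons_val_zero, Matrix.cons_val_one]
  unfold edgeN
  simp only [map_mul, map_pow, mul_pow, pow_add, pow_mul]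
  ring

theorem subst_kapK_of_edge {p q α β : ℕ} (hαβ : p * α = q * β + 1)
    (z : K) {F : P2} {A B : ℕ} {lam : ℂ} {R : Finset ℂ} {μ : ℂ → ℕ}
    (hE : IsEdge F p q A B lam R μ) :
    ∃ F₁ : PowerSeries K,
    (MvPowerSeries.subst (kapK p q (z ^ β) (z ^ α) : Fin 2 → MvPowerSeries Unit K)
      F : PowerSeries K) =
    PowerSeries.X ^ edgeN p q A B R μ * (PowerSeries.C (algebraMap ℂ K lam *
      z ^ (β * A + α * B + β * q * ∑ c ∈ R, μ c) * ∏ c ∈ R, (z - algebraMap ℂ K c) ^ μ c) +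
      PowerSeries.X * F₁) := by
  have hk := hasSubst_kapK (K := K) hE.hp hE.hq (z ^ β) (z ^ α)
  have h1 := X_pow_dvd_subst_kapK (K := K) hE.hp hE.hq (z ^ β) (z ^ α)
    (N := edgeN p q A B R μ + 1) (G := F - (edgeP p q A B lam R μ : P2)) (by
      intro v hv
      rw [map_sub, hE.init.2.2 v (by omega), MvPolynomial.coeff_coe, sub_self])
  obtain ⟨F₁, hF₁⟩ := h1
  refine ⟨F₁, ?_⟩
  have h2 := MvPowerSeries.subst_sub hk F (edgeP p q A B lam R μ : P2)
  have h3 := subst_kapK_edgeP hE.hp hE.hq hαβ z A B lam R μ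
  rw [mul_add, ← h3]
  have h4 : (MvPowerSeries.subst (kapK p q (z ^ β) (z ^ α) : Fin 2 → MvPowerSeries Unit K)
      F : PowerSeries K) - (MvPowerSeries.subst
        (kapK p q (z ^ β) (z ^ α) : Fin 2 → MvPowerSeries Unit K)
      (edgeP p q A B lam R μ : P2) : PowerSeries K) =
      PowerSeries.X ^ (edgeN p q A B R μ + 1) * F₁ := h2.symm.trans hF₁
  linear_combination h4

theorem dvd_dz (δ : Derivation ℂ K K) (r : ℕ) (h : PowerSeries K)
    (hh : PowerSeries.X ^ (r + 1) ∣ h) : PowerSeries.X ^ r ∣ dz δ h := by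
  rw [PowerSeries.X_pow_dvd_iff] at hh ⊢
  intro m hm
  rw [coeff_dz, hh m (by omega), map_zero]

theorem dvd_du (r : ℕ) (h : PowerSeries K) (hh : PowerSeries.X ^ (r + 1) ∣ h) :
    PowerSeries.X ^ r ∣ (PowerSeries.derivative K).restrictScalars ℂ h := by
  rw [PowerSeries.X_pow_dvd_iff] at hh ⊢
  intro m hm
  rw [Derivation.restrictScalars_apply, PowerSeries.coeff_derivative, hh (m + 1) (by omega),
    zero_mul]

/-- The Jacobian of a composition. -/
theorem jacK_comp (δ : Derivation ℂ K K) {θ : Fin 2 → P2} {κ : Fin 2 → PowerSeries K}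
    (h0 : ∀ i, PowerSeries.constantCoeff (κ i) = 0) :
    jacK δ (fun i => (MvPowerSeries.subst (κ : Fin 2 → MvPowerSeries Unit K) (θ i) :
      PowerSeries K)) =
    (MvPowerSeries.subst (κ : Fin 2 → MvPowerSeries Unit K) (jac θ) : PowerSeries K) *
      jacK δ κ := by
  have hk : MvPowerSeries.HasSubst (κ : Fin 2 → MvPowerSeries Unit K) :=
    MvPowerSeries.hasSubst_of_constantCoeff_zero fun i => h0 i
  have hz : ∀ g : P2, dz δ (MvPowerSeries.subst (κ : Fin 2 → MvPowerSeries Unit K) g :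
      PowerSeries K) = _ := fun g => chain_rule h0 (dz δ) (dvd_dz δ) g
  have hu : ∀ g : P2, PowerSeries.derivative K (MvPowerSeries.subst
      (κ : Fin 2 → MvPowerSeries Unit K) g : PowerSeries K) = _ :=
    fun g => chain_rule h0 ((PowerSeries.derivative K).restrictScalars ℂ) dvd_du g
  unfold jacK jac
  rw [hz, hz, hu, hu, Fin.sum_univ_two, Fin.sum_univ_two, Fin.sum_univ_two, Fin.sum_univ_two,
    MvPowerSeries.subst_sub hk, MvPowerSeries.subst_mul hk, MvPowerSeries.subst_mul hk]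
  simp only [Derivation.restrictScalars_apply]
  ring

theorem dz_C_mul_X_pow (δ : Derivation ℂ K K) (x : K) (p : ℕ) :
    dz δ (PowerSeries.C x * PowerSeries.X ^ p) = PowerSeries.C (δ x) * PowerSeries.X ^ p := by
  ext n
  rw [coeff_dz, PowerSeries.coeff_C_mul, PowerSeries.coeff_C_mul, PowerSeries.coeff_X_pow]
  split_ifs <;> simp

theorem jacK_kapK (δ : Derivation ℂ K K) {z : K} (hz : δ z = 1) {p q α β : ℕ} (hp : 0 < p)
    (hq : 0 < q) (hαβ : p * α = q * β + 1) :
    jacK δ (kapK p q (z ^ β) (z ^ α)) =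
      PowerSeries.C (z ^ (β + α - 1)) * PowerSeries.X ^ (p + q - 1) := by
  obtain ⟨p, rfl⟩ : ∃ p', p = p' + 1 := ⟨p - 1, by omega⟩
  obtain ⟨q, rfl⟩ : ∃ q', q = q' + 1 := ⟨q - 1, by omega⟩
  obtain ⟨α, rfl⟩ : ∃ α', α = α' + 1 := by
    rcases α with _ | α
    · omega
    · exact ⟨α, rfl⟩
  have hβ : δ (z ^ β) * z = (β : K) * z ^ β := by
    rw [Derivation.leibniz_pow, hz, smul_eq_mul, mul_one, nsmul_eq_mul]
    rcases β with _ | β
    · simp
    · rw [Nat.add_sub_cancel]; ring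
  have hα : δ (z ^ (α + 1)) = ((α + 1 : ℕ) : K) * z ^ α := by
    rw [Derivation.leibniz_pow, hz, smul_eq_mul, mul_one, nsmul_eq_mul, Nat.add_sub_cancel]
  have hu : ∀ (x : K) (m : ℕ), PowerSeries.derivative K (PowerSeries.C x *
      PowerSeries.X ^ (m + 1)) = PowerSeries.C x * ((m : PowerSeries K) + 1) *
        PowerSeries.X ^ m := by
    intro x m
    rw [Derivation.leibniz, PowerSeries.derivative_C, smul_zero, add_zero, smul_eq_mul,
      PowerSeries.derivative_pow, PowerSeries.derivative_X, Nat.add_sub_cancel]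
    push_cast
    ring
  have hβC := congrArg (PowerSeries.C (R := K)) hβ
  rw [map_mul, map_mul, map_natCast] at hβC
  have hcast : ((p : PowerSeries K) + 1) * ((α : PowerSeries K) + 1) =
      ((q : PowerSeries K) + 1) * (β : PowerSeries K) + 1 := by
    exact_mod_cast congrArg (Nat.cast (R := PowerSeries K)) hαβ
  unfold jacK
  simp only [kapK, Matrix.cons_val_zero, Matrix.cons_val_one]
  rw [dz_C_mul_X_pow, dz_C_mul_X_pow, hu, hu, hα, map_mul, map_natCast]
  have e1 : β + (α + 1) - 1 = β + α := by omega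
  have e2 : p + 1 + (q + 1) - 1 = p + q + 1 := by omega
  have e3 : PowerSeries.C (z ^ (β + α)) = PowerSeries.C (z ^ β) * PowerSeries.C (z ^ α) := by
    rw [pow_add, map_mul]
  have e4 : PowerSeries.C (z ^ (α + 1)) = PowerSeries.C (z ^ α) * PowerSeries.C z := by
    rw [pow_succ, map_mul]
  rw [e1, e2, e3, e4]
  push_cast
  linear_combination (PowerSeries.C (z ^ β) * PowerSeries.C (z ^ α) * PowerSeries.X ^ (p + q + 1)) *
    hcast - (PowerSeries.C (z ^ α) * ((q : PowerSeries K) + 1) *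
      PowerSeries.X ^ (p + q + 1)) * hβC

theorem jacK_stage (δ : Derivation ℂ K K) {z : K} (hz : δ z = 1) {p q α β : ℕ} (hp : 0 < p)
    (hq : 0 < q) (hαβ : p * α = q * β + 1) {θ : Fin 2 → P2} {a : ℕ} (ha : 1 ≤ a) {W : P2}
    (hW : jac θ = MvPowerSeries.X 0 ^ (a - 1) * W) :
    ∃ J₁ : PowerSeries K, jacK δ (fun i => (MvPowerSeries.subst
      (kapK p q (z ^ β) (z ^ α) : Fin 2 → MvPowerSeries Unit K) (θ i) : PowerSeries K)) =
      PowerSeries.X ^ (a * p + q - 1) * (PowerSeries.C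
        (algebraMap ℂ K (MvPowerSeries.constantCoeff W) * z ^ (β * a + α - 1)) +
        PowerSeries.X * J₁) := by
  have h0 := fun i => constantCoeff_kapK (K := K) hp hq (z ^ β) (z ^ α) i
  have hk := hasSubst_kapK (K := K) hp hq (z ^ β) (z ^ α)
  obtain ⟨W₁, hW₁⟩ := X_dvd_subst h0 (W := W - MvPowerSeries.C (MvPowerSeries.constantCoeff W))
    (by rw [map_sub, MvPowerSeries.constantCoeff_C, sub_self])
  have h1 : (MvPowerSeries.subst (kapK p q (z ^ β) (z ^ α) : Fin 2 → MvPowerSeries Unit K) W :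
      PowerSeries K) = PowerSeries.C (algebraMap ℂ K (MvPowerSeries.constantCoeff W)) +
        PowerSeries.X * W₁ := by
    have h2 := MvPowerSeries.subst_sub hk W
      (MvPowerSeries.C (MvPowerSeries.constantCoeff W) : P2)
    have h3 : MvPowerSeries.subst (kapK p q (z ^ β) (z ^ α) : Fin 2 → MvPowerSeries Unit K)
        (MvPowerSeries.C (MvPowerSeries.constantCoeff W) : P2) =
        (PowerSeries.C (algebraMap ℂ K (MvPowerSeries.constantCoeff W)) : PowerSeries K) := by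
      rw [← MvPowerSeries.coe_substAlgHom hk]
      exact ((MvPowerSeries.substAlgHom hk).commutes _).trans PowerSeries.algebraMap_apply
    rw [h3] at h2
    have h4 : (MvPowerSeries.subst (kapK p q (z ^ β) (z ^ α) : Fin 2 → MvPowerSeries Unit K) W :
      PowerSeries K) - PowerSeries.C (algebraMap ℂ K (MvPowerSeries.constantCoeff W)) =
        PowerSeries.X * W₁ := h2.symm.trans hW₁
    linear_combination h4
  refine ⟨PowerSeries.C (z ^ (β * a + α - 1)) * W₁, ?_⟩
  rw [jacK_comp δ h0, jacK_kapK δ hz hp hq hαβ, hW, MvPowerSeries.subst_mul hk,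
    MvPowerSeries.subst_pow hk, MvPowerSeries.subst_X hk, h1]
  have hα : 0 < α := by
    rcases α with _ | α
    · omega
    · omega
  have h5 : kapK p q (z ^ β) (z ^ α) 0 = PowerSeries.C (z ^ β) * PowerSeries.X ^ p := rfl
  rw [h5]
  obtain ⟨a, rfl⟩ : ∃ a', a = a' + 1 := ⟨a - 1, by omega⟩
  have e1 : β * (a + 1) + α - 1 = β * a + (β + α - 1) := by
    rw [mul_add, mul_one]; omega
  have e2 : (a + 1) * p + q - 1 = p * a + (p + q - 1) := by
    rw [add_mul, one_mul, mul_comm a p]; omega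
  rw [e1, e2, Nat.add_sub_cancel, pow_add z, pow_mul z, pow_add PowerSeries.X (p * a), pow_mul]
  simp only [map_mul, map_pow, mul_pow]
  ring

end Kap

theorem exists_bezout {p q : ℕ} (hp : 0 < p) (hq : 0 < q) (h : Nat.Coprime p q) :
    ∃ α β : ℕ, p * α = q * β + 1 := by
  rcases (show q = 1 ∨ 1 < q by omega) with rfl | hq1
  · exact ⟨1, p - 1, by omega⟩
  · obtain ⟨m, hm⟩ := Nat.exists_mul_mod_eq_one_of_coprime h hq1
    refine ⟨m, p * m / q, ?_⟩
    have h1 := Nat.div_add_mod (p * m) q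
    omega

theorem algebraMap_polynomial_C (c : ℂ) :
    algebraMap (Polynomial ℂ) (RatFunc ℂ) (Polynomial.C c) = algebraMap ℂ (RatFunc ℂ) c :=
  (IsScalarTower.algebraMap_apply ℂ (Polynomial ℂ) (RatFunc ℂ) c).symm

/-- The conclusion of the residue lemma for the exponent `s` and the field `ℂ(z)`. -/
def Ex (f : P2) (s : ℂ) : Prop :=
  ∀ (δ : Derivation ℂ (RatFunc ℂ) (RatFunc ℂ)) (Θ : Fin 2 → PowerSeries (RatFunc ℂ)),
    (∀ i, PowerSeries.constantCoeff (Θ i) = 0) → ∀ ν N : ℕ, 0 < ν → 0 < N →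
    s = -((ν : ℂ) / N) → ∀ J₀ f₀ : RatFunc ℂ, f₀ ≠ 0 → ∀ J₁ F₁ : PowerSeries (RatFunc ℂ),
    jacK δ Θ = PowerSeries.X ^ (ν - 1) * (PowerSeries.C J₀ + PowerSeries.X * J₁) →
    (MvPowerSeries.subst (Θ : Fin 2 → MvPowerSeries Unit (RatFunc ℂ)) f :
      PowerSeries (RatFunc ℂ)) = PowerSeries.X ^ N * (PowerSeries.C f₀ + PowerSeries.X * F₁) →
    ∃ r : RatFunc ℂ, J₀ = δ r - ((ν : RatFunc ℂ) / N) * (δ f₀ / f₀) * r

theorem ex_of_isB {f : P2} {b : Polynomial ℂ} (hb : IsB f b) {s : ℂ} (hs : b.eval s ≠ 0) :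
    Ex f s := by
  intro δ Θ h0 ν N hν hN hsν J₀ f₀ hf₀ J₁ F₁ hJ hF
  rw [hsν] at hs
  exact residue_exact δ h0 hν hN hf₀ hJ hF hb hs

/-- **Key theorem, root side.** An edge with at least three special points is an obstruction for
the conclusion of the residue lemma. -/
theorem root_edge' {f : P2} {θ : Fin 2 → P2} {F : P2} {a : ℕ} (hst : IsStage f θ F a)
    {p q A B : ℕ} {lam : ℂ} {R : Finset ℂ} {μ : ℂ → ℕ} (hE : IsEdge F p q A B lam R μ)
    {s : ℚ} (hs : s = -((a * p + q : ℕ) : ℚ) / (edgeN p q A B R μ : ℕ))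
    (h₁' : (a + A * s) / q ≤ 1)
    (h3 : 3 ≤ R.card + (if p = 1 ∧ B = 0 then 0 else 1) +
      (if (a + A * s) / q = 1 then 0 else 1)) : ¬ Ex f (s : ℂ) := by
  intro hex
  obtain ⟨δ, hδ⟩ := exists_deriv
  have hz : δ (RatFunc.X : RatFunc ℂ) = 1 := by
    have h1 := hδ Polynomial.X
    rwa [RatFunc.algebraMap_X, Polynomial.derivative_X, map_one] at h1
  obtain ⟨α, β, hαβ⟩ := exists_bezout hE.hp hE.hq hE.hpq
  obtain ⟨W, hW0, hW⟩ := hst.hjac
  obtain ⟨J₁, hJ₁⟩ := jacK_stage δ hz hE.hp hE.hq hαβ hst.ha hW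
  obtain ⟨F₁, hF₁⟩ := subst_kapK_of_edge (K := RatFunc ℂ) hαβ RatFunc.X hE
  have hk := hasSubst_kapK (K := RatFunc ℂ) hE.hp hE.hq (RatFunc.X ^ β) (RatFunc.X ^ α)
  have h0k := fun i => constantCoeff_kapK (K := RatFunc ℂ) hE.hp hE.hq (RatFunc.X ^ β)
    (RatFunc.X ^ α) i
  have hθ := MvPowerSeries.hasSubst_of_constantCoeff_zero hst.h0
  set Θ : Fin 2 → PowerSeries (RatFunc ℂ) := fun i => (MvPowerSeries.subst
      (kapK p q (RatFunc.X ^ β) (RatFunc.X ^ α) : Fin 2 → MvPowerSeries Unit (RatFunc ℂ)) (θ i) :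
        PowerSeries (RatFunc ℂ)) with hΘ
  have h0Θ : ∀ i, PowerSeries.constantCoeff (Θ i) = 0 := fun i =>
    PowerSeries.X_dvd_iff.1 (X_dvd_subst h0k (hst.h0 i))
  have hcomp : (MvPowerSeries.subst (Θ : Fin 2 → MvPowerSeries Unit (RatFunc ℂ)) f :
      PowerSeries (RatFunc ℂ)) = (MvPowerSeries.subst
        (kapK p q (RatFunc.X ^ β) (RatFunc.X ^ α) : Fin 2 → MvPowerSeries Unit (RatFunc ℂ)) F :
          PowerSeries (RatFunc ℂ)) := by
    rw [hst.hF]
    exact (MvPowerSeries.subst_comp_subst_apply hθ hk f).symm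
  set κ := β * A + α * B + β * q * ∑ c ∈ R, μ c with hκ
  set e := β * a + α - 1 with he
  have hpol : (algebraMap ℂ (RatFunc ℂ) lam * RatFunc.X ^ κ *
      ∏ c ∈ R, (RatFunc.X - algebraMap ℂ (RatFunc ℂ) c) ^ μ c : RatFunc ℂ) =
      algebraMap (Polynomial ℂ) (RatFunc ℂ)
        (Polynomial.C lam * Polynomial.X ^ κ * ∏ c ∈ R, (Polynomial.X - Polynomial.C c) ^ μ c) := by
    rw [map_mul, map_mul, map_pow, map_prod, RatFunc.algebraMap_X, algebraMap_polynomial_C]
    congr 1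
    refine Finset.prod_congr rfl fun c _ => ?_
    rw [map_pow, map_sub, RatFunc.algebraMap_X, algebraMap_polynomial_C]
  have hpol2 : (algebraMap ℂ (RatFunc ℂ) (MvPowerSeries.constantCoeff W) * RatFunc.X ^ e :
      RatFunc ℂ) = algebraMap (Polynomial ℂ) (RatFunc ℂ)
        (Polynomial.C (MvPowerSeries.constantCoeff W) * Polynomial.X ^ e) := by
    rw [map_mul, map_pow, RatFunc.algebraMap_X, algebraMap_polynomial_C]
  rw [hpol] at hF₁
  rw [hpol2] at hJ₁
  set f₀ := algebraMap (Polynomial ℂ) (RatFunc ℂ)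
    (Polynomial.C lam * Polynomial.X ^ κ * ∏ c ∈ R, (Polynomial.X - Polynomial.C c) ^ μ c)
    with hf₀
  have hf₀0 : f₀ ≠ 0 := by
    rw [hf₀, Ne, map_eq_zero_iff _ (RatFunc.algebraMap_injective ℂ)]
    exact mul_ne_zero (mul_ne_zero (by simpa using hE.hlam) (pow_ne_zero _ Polynomial.X_ne_zero))
      (Finset.prod_ne_zero_iff.2 fun c _ => pow_ne_zero _ (Polynomial.X_sub_C_ne_zero c))
  have hS : 0 < ∑ c ∈ R, μ c := Finset.sum_pos hE.hm hE.hR
  have hN : 0 < edgeN p q A B R μ := by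
    unfold edgeN
    have := Nat.mul_pos (Nat.mul_pos hE.hp hE.hq) hS
    omega
  have hν : 0 < a * p + q := by
    have := hE.hq
    omega
  have hNQ : ((edgeN p q A B R μ : ℕ) : ℚ) ≠ 0 := by exact_mod_cast hN.ne'
  have hcast : ((s : ℚ) : ℂ) = -(((a * p + q : ℕ) : ℂ) / (edgeN p q A B R μ : ℕ)) := by
    rw [hs]
    push_cast
    ring
  obtain ⟨r, hr⟩ := hex δ Θ h0Θ _ _ hν hN hcast _ _ hf₀0 _ _ hJ₁ (hcomp.trans hF₁)
  have hpQ : (0 : ℚ) < p := by exact_mod_cast hE.hp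
  have hqQ : (0 : ℚ) < q := by exact_mod_cast hE.hq
  have hsneg : s < 0 := by
    rw [hs]
    have h1 : (0 : ℚ) < ((a * p + q : ℕ) : ℚ) := by exact_mod_cast hν
    have h2 : (0 : ℚ) < ((edgeN p q A B R μ : ℕ) : ℚ) := by exact_mod_cast hN
    rw [neg_div]
    exact neg_lt_zero.2 (div_pos h1 h2)
  have hsN : s * ((p : ℚ) * A + q * B + p * q * ∑ c ∈ R, (μ c : ℚ)) = -((a : ℚ) * p + q) := by
    have h1 : s * (edgeN p q A B R μ : ℕ) = -((a * p + q : ℕ) : ℚ) := by
      rw [hs]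
      field_simp
    unfold edgeN at h1
    push_cast at h1
    linarith
  have hαβQ : (p : ℚ) * α = q * β + 1 := by exact_mod_cast hαβ
  have hα1 : 1 ≤ α := by
    rcases α with _ | α
    · omega
    · omega
  have heQ : ((e : ℕ) : ℚ) = β * a + α - 1 := by
    rw [he, Nat.cast_sub (by omega)]
    push_cast
    ring
  have hε₀ : ((e : ℕ) : ℚ) + 1 + s * (κ : ℕ) = (1 + B * s) / p := by
    rw [heQ, hκ, eq_div_iff hpQ.ne']
    push_cast
    linear_combination (β : ℚ) * hsN + (1 + B * s) * hαβQ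
  have hε₁ : -((1 + B * s) / p + s * ∑ c ∈ R, (μ c : ℚ)) = (a + A * s) / q := by
    rw [eq_div_iff hqQ.ne']
    refine mul_left_cancel₀ hpQ.ne' ?_
    have h1 : (p : ℚ) * ((1 + B * s) / p) = 1 + B * s := mul_div_cancel₀ _ hpQ.ne'
    linear_combination (-(q : ℚ)) * h1 - hsN
  have hcastK : ((s : ℚ) : RatFunc ℂ) =
      -(((a * p + q : ℕ) : RatFunc ℂ) / (edgeN p q A B R μ : ℕ)) := by
    rw [hs]
    push_cast
    ring
  refine not_exact_of_le hδ hE.hR0 hsneg hε₀.symm hε₁.symm ?_ h₁' hE.hm ?_ hW0 hE.hlam hf₀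
    ⟨r, ?_⟩
  · rw [div_le_one hpQ]
    have h1 : (B : ℚ) * s ≤ 0 := mul_nonpos_of_nonneg_of_nonpos (Nat.cast_nonneg B) hsneg.le
    have h2 : (1 : ℚ) ≤ p := by exact_mod_cast hE.hp
    linarith
  · have h5 : (if p = 1 ∧ B = 0 then 0 else 1) ≤ (if (1 + B * s) / p = 1 then 0 else 1) := by
      by_cases h6 : (1 + B * s) / p = 1
      · rw [div_eq_one_iff_eq hpQ.ne'] at h6
        have h1 : (B : ℚ) * s ≤ 0 := mul_nonpos_of_nonneg_of_nonpos (Nat.cast_nonneg B) hsneg.le
        have h2 : (1 : ℚ) ≤ p := by exact_mod_cast hE.hp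
        have h7 : (B : ℚ) * s = 0 := by linarith
        have h8 : (p : ℚ) = 1 := by linarith
        have h9 : B = 0 := by
          rcases mul_eq_zero.1 h7 with h | h
          · exact_mod_cast h
          · exact absurd h hsneg.ne
        rw [if_pos ⟨by exact_mod_cast h8, h9⟩]
        exact Nat.zero_le _
      · rw [if_neg h6]
        split_ifs <;> omega
    omega
  · rw [hr, hcastK]
    ring

/-- An edge with at least three special points gives a root. -/
theorem root_edge {f : P2} {θ : Fin 2 → P2} {F : P2} {a : ℕ} (hst : IsStage f θ F a)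
    {p q A B : ℕ} {lam : ℂ} {R : Finset ℂ} {μ : ℂ → ℕ} (hE : IsEdge F p q A B lam R μ)
    {s : ℚ} (hs : s = -((a * p + q : ℕ) : ℚ) / (edgeN p q A B R μ : ℕ))
    (_h₀ : -1 < (1 + B * s) / p) (_h₁ : -1 < (a + A * s) / q) (h₁' : (a + A * s) / q ≤ 1)
    (_hc : ∀ c ∈ R, -1 < 1 + s * μ c)
    (h3 : 3 ≤ R.card + (if p = 1 ∧ B = 0 then 0 else 1) +
      (if (a + A * s) / q = 1 then 0 else 1))
    {b : Polynomial ℂ} (hb : IsB f b) : b.eval (s : ℂ) = 0 := by
  by_contra hb0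
  exact root_edge' hst hE hs h₁' h3 (ex_of_isB hb hb0)

end PC

end MPb07157
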