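import Pool.Agent.Lib.MP_b07157_agV.R4

/-!
# Isolated singularities: the multiplicities along the axes
-/

noncomputable section

namespace MPb07157

open MvPolynomial

namespace PC

/-- The Tjurina ideal of `g` contains powers of the variables. -/
def IsoSing (g : P2) : Prop :=
  ∃ k : ℕ, ∀ i : Fin 2, (MvPowerSeries.X i : P2) ^ k ∈
    Ideal.span {g, MvPowerSeries.pderiv ℂ 0 g, MvPowerSeries.pderiv ℂ 1 g}

theorem exactPow_le_one {g : P2} (hg : IsoSing g) {θ : Fin 2 → P2}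
    (h0 : ∀ i, MvPowerSeries.constantCoeff (θ i) = 0) {i : Fin 2}
    (hJ : ¬ MvPowerSeries.X i ∣ jac θ) {B : ℕ}
    (hB : ExactPow (MvPowerSeries.subst θ g) i B) : B ≤ 1 := by
  have hθ := MvPowerSeries.hasSubst_of_constantCoeff_zero h0
  have hpr := prime_X2 i
  by_contra hcon
  obtain ⟨c, hc⟩ := (pow_dvd_pow (MvPowerSeries.X i : P2) (show 2 ≤ B by omega)).trans hB.1
  have hd : ∀ j, MvPowerSeries.X i ∣ MvPowerSeries.pderiv ℂ j (MvPowerSeries.subst θ g) := by
    intro j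
    rw [hc, Derivation.leibniz, Derivation.leibniz_pow, smul_eq_mul, smul_eq_mul, smul_eq_mul,
      nsmul_eq_mul]
    exact ⟨MvPowerSeries.X i * MvPowerSeries.pderiv ℂ j c +
      c * (2 * MvPowerSeries.pderiv ℂ j (MvPowerSeries.X i)), by push_cast; ring⟩
  have hF : MvPowerSeries.X i ∣ MvPowerSeries.subst θ g := hc ▸ ⟨MvPowerSeries.X i * c, by ring⟩
  have hl : ∀ l, MvPowerSeries.X i ∣ MvPowerSeries.subst θ (MvPowerSeries.pderiv ℂ l g) := by
    intro l
    obtain ⟨a, ha⟩ := hd 0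
    obtain ⟨b, hb⟩ := hd 1
    rw [pderiv_subst h0, Fin.sum_univ_two] at ha hb
    refine (hpr.dvd_or_dvd ?_).resolve_left hJ
    unfold jac
    rcases (show l = 0 ∨ l = 1 by omega) with rfl | rfl
    · refine ⟨a * MvPowerSeries.pderiv ℂ 1 (θ 1) - b * MvPowerSeries.pderiv ℂ 0 (θ 1), ?_⟩
      linear_combination (MvPowerSeries.pderiv ℂ 1 (θ 1)) * ha -
        (MvPowerSeries.pderiv ℂ 0 (θ 1)) * hb
    · refine ⟨b * MvPowerSeries.pderiv ℂ 0 (θ 0) - a * MvPowerSeries.pderiv ℂ 1 (θ 0), ?_⟩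
      linear_combination (MvPowerSeries.pderiv ℂ 0 (θ 0)) * hb -
        (MvPowerSeries.pderiv ℂ 1 (θ 0)) * ha
  obtain ⟨k, hk⟩ := hg
  have hm : ∀ m, MvPowerSeries.X i ∣ θ m := by
    intro m
    have h1 : Ideal.span {g, MvPowerSeries.pderiv ℂ 0 g, MvPowerSeries.pderiv ℂ 1 g} ≤
        (Ideal.span {(MvPowerSeries.X i : P2)}).comap (MvPowerSeries.substAlgHom hθ) := by
      rw [Ideal.span_le]
      intro a ha
      rw [SetLike.mem_coe, Ideal.mem_comap, Ideal.mem_span_singleton, MvPowerSeries.coe_substAlgHom]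
      rcases ha with rfl | rfl | rfl
      · exact hF
      · exact hl 0
      · exact hl 1
    have h2 := h1 (hk m)
    rw [Ideal.mem_comap, Ideal.mem_span_singleton, map_pow, MvPowerSeries.substAlgHom_X] at h2
    exact hpr.dvd_of_dvd_pow h2
  have hder : ∀ j m, j ≠ i → MvPowerSeries.X i ∣ MvPowerSeries.pderiv ℂ j (θ m) := by
    intro j m hj
    obtain ⟨e, he⟩ := hm m
    rw [he, Derivation.leibniz, MvPowerSeries.pderiv_X_of_ne hj.symm, smul_zero, add_zero,
      smul_eq_mul]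
    exact dvd_mul_right _ _
  apply hJ
  unfold jac
  rcases (show i = 0 ∨ i = 1 by omega) with rfl | rfl
  · exact dvd_sub (Dvd.dvd.mul_left (hder 1 1 (by decide)) _)
      (Dvd.dvd.mul_right (hder 1 0 (by decide)) _)
  · exact dvd_sub (Dvd.dvd.mul_right (hder 0 0 (by decide)) _)
      (Dvd.dvd.mul_left (hder 0 1 (by decide)) _)

/-- For isolated singularities only `-1` can come from an axis. -/
theorem axis_ne {g : P2} (hg : IsoSing g) {θ : Fin 2 → P2}
    (h0 : ∀ i, MvPowerSeries.constantCoeff (θ i) = 0) {i : Fin 2}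
    (hJ : ¬ MvPowerSeries.X i ∣ jac θ) {B : ℕ} (hB0 : 0 < B)
    (hB : ExactPow (MvPowerSeries.subst θ g) i B) {s₀ : ℚ} (h1 : s₀ ≠ -1) :
    (1 : ℚ) ≠ -s₀ * B := by
  have h2 : B = 1 := le_antisymm (exactPow_le_one hg h0 hJ hB) hB0
  rw [h2]
  intro h
  apply h1
  push_cast at h
  linarith

end PC

end MPb07157
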