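import Pool.Agent.Lib.MP_b07157_agV.A1

/-!
# Arcs near a root of the initial form
-/

noncomputable section

namespace MPb07157

open MvPolynomial

namespace PC

/-- The arcs with `ord x = kp`, `ord y = kq` whose leading coefficients satisfy `η^p = c ξ^q`. -/
def Near (N p q k : ℕ) (c : ℂ) : Set (Fin 2 × Fin N → ℂ) :=
  {γ | γ ∈ Strat N ![k * p, k * q] ∧
    lead0 ![k * p, k * q] γ 1 ^ p = c * lead0 ![k * p, k * q] γ 0 ^ q}

namespace B1

/-! ### Shifts of truncated arcs -/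

/-- The truncation of `t^c Z(t)`. -/
def shA {n N : ℕ} (c : Fin n → ℕ) (Z : Fin n × Fin N → ℂ) : Fin n × Fin N → ℂ := fun p =>
  if (p.2 : ℕ) < c p.1 then 0
  else Z (p.1, ⟨(p.2 : ℕ) - c p.1, lt_of_le_of_lt (Nat.sub_le _ _) p.2.2⟩)

/-- The components of `shA`. -/
def shP {n N : ℕ} (c : Fin n → ℕ) (p : Fin n × Fin N) : MvPolynomial (Fin n × Fin N) ℂ :=
  if (p.2 : ℕ) < c p.1 then 0
  else X (p.1, ⟨(p.2 : ℕ) - c p.1, lt_of_le_of_lt (Nat.sub_le _ _) p.2.2⟩)

theorem polyMap_shP {n N : ℕ} (c : Fin n → ℕ) (Z : Fin n × Fin N → ℂ) :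
    polyMap (shP c) Z = shA c Z := by
  funext p
  unfold polyMap shP shA
  split_ifs with h
  · exact map_zero _
  · exact eval_X _

theorem isConstr_shA {n N : ℕ} (c : Fin n → ℕ) {S : Set (Fin n × Fin N → ℂ)} (hS : IsConstr S) :
    IsConstr {Z | shA c Z ∈ S} := by
  have h := hS.preimage (shP (N := N) c)
  have h2 : polyMap (shP c) ⁻¹' S = {Z | shA c Z ∈ S} := by
    ext Z
    rw [Set.mem_preimage, polyMap_shP]
    rfl
  rwa [h2] at h

theorem Vn_shA {n N : ℕ} (c : Fin n → ℕ) (Z : Fin n × Fin N → ℂ) : Vn c (shA c Z) := by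
  intro j k hk
  unfold shA
  rw [if_pos hk]

theorem arc_shA {n N : ℕ} (c : Fin n → ℕ) (Z : Fin n × Fin N → ℂ) (j : Fin n) :
    (PowerSeries.X : PowerSeries ℂ) ^ N ∣ arc (shA c Z) j - PowerSeries.X ^ c j * arc Z j := by
  rw [PowerSeries.X_pow_dvd_iff]
  intro k hk
  rw [map_sub, coeff_arc, dif_pos hk, PowerSeries.coeff_X_pow_mul', coeff_arc, sub_eq_zero]
  unfold shA
  by_cases h : k < c j
  · rw [if_pos h, if_neg (not_le.2 h)]
  · rw [if_neg h, if_pos (not_lt.1 h), dif_pos (lt_of_le_of_lt (Nat.sub_le _ _) hk)]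

theorem lead0_shA {n N : ℕ} {c : Fin n → ℕ} (Z : Fin n × Fin N → ℂ) {j : Fin n} (hj : c j < N) :
    lead0 c (shA c Z) j = PowerSeries.constantCoeff (arc Z j) := by
  rw [← PowerSeries.coeff_zero_eq_constantCoeff_apply, coeff_arc, dif_pos (by omega)]
  unfold lead0 shA
  rw [dif_pos hj, if_neg (lt_irrefl _)]
  congr 2
  ext
  exact Nat.sub_self _

theorem card_tail {n N : ℕ} {c : Fin n → ℕ} (hc : ∀ j, c j ≤ N) :
    Fintype.card {p : Fin n × Fin N // N ≤ (p.2 : ℕ) + c p.1} = ∑ j, c j := by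
  rw [← card_Zpos hc, ← Fintype.card_coe]
  refine Fintype.card_congr ((Equiv.prodCongr (Equiv.refl (Fin n)) Fin.revPerm).subtypeEquiv
    fun p => ?_)
  simp only [Zpos, Finset.mem_filter, Finset.mem_univ, true_and, Equiv.prodCongr_apply,
    Equiv.coe_refl, Prod.map_fst, Prod.map_snd, id_eq, Fin.revPerm_apply, Fin.val_rev]
  have := p.2.2
  omega

/-- A preimage of a truncated arc under `shA`, with prescribed last coefficients. -/
def unshA {n N : ℕ} (c : Fin n → ℕ)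
    (z : (Fin n × Fin N) ⊕ {p : Fin n × Fin N // N ≤ (p.2 : ℕ) + c p.1} → ℂ) :
    Fin n × Fin N → ℂ := fun p =>
  if h : (p.2 : ℕ) + c p.1 < N then z (Sum.inl (p.1, ⟨(p.2 : ℕ) + c p.1, h⟩))
  else z (Sum.inr ⟨p, not_lt.1 h⟩)

theorem shA_unshA {n N : ℕ} {c : Fin n → ℕ}
    {z : (Fin n × Fin N) ⊕ {p : Fin n × Fin N // N ≤ (p.2 : ℕ) + c p.1} → ℂ}
    (hz : Vn c (fun i => z (Sum.inl i))) : shA c (unshA c z) = fun i => z (Sum.inl i) := by
  funext p
  unfold shA
  by_cases h1 : (p.2 : ℕ) < c p.1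
  · rw [if_pos h1]
    exact (hz p.1 p.2 h1).symm
  · rw [if_neg h1]
    have h2 : (p.2 : ℕ) - c p.1 + c p.1 < N := by
      rw [Nat.sub_add_cancel (not_lt.1 h1)]
      exact p.2.2
    unfold unshA
    rw [dif_pos h2]
    exact congrArg (fun q => z (Sum.inl q)) (Prod.ext rfl (Fin.ext (Nat.sub_add_cancel
      (not_lt.1 h1))))

/-- The class of the set of all `Z` with `t^c Z ∈ S`. -/
theorem cls_shA {n N : ℕ} {c : Fin n → ℕ} (hc : ∀ j, c j ≤ N) {S : Set (Fin n × Fin N → ℂ)}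
    (hS : IsConstr S) (hSV : ∀ γ ∈ S, Vn c γ) :
    cls {Z | shA c Z ∈ S} = cls S * L ^ (∑ j, c j) := by
  rw [← card_tail hc, ← cls_univ_eq (σ := {p : Fin n × Fin N // N ≤ (p.2 : ℕ) + c p.1}),
    ← cls_prodSum hS IsConstr.univ]
  have hmap : ∀ Z : Fin n × Fin N → ℂ, polyMap (Sum.elim (shP c)
      (fun j : {p : Fin n × Fin N // N ≤ (p.2 : ℕ) + c p.1} => X j.1)) Z =
      Sum.elim (shA c Z) (fun j => Z j.1) := by
    intro Z
    funext k
    rcases k with i | j
    · exact congrFun (polyMap_shP c Z) i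
    · exact eval_X _
  refine cls_bijOn (isConstr_shA c hS) (isConstr_prodSum hS IsConstr.univ)
    (Sum.elim (shP c) (fun j => X j.1)) ⟨?_, ?_, ?_⟩
  · intro Z hZ
    rw [hmap]
    exact ⟨hZ, Set.mem_univ _⟩
  · intro Z _ Z' _ h
    rw [hmap, hmap] at h
    funext p
    by_cases hp : N ≤ (p.2 : ℕ) + c p.1
    · exact congrFun h (Sum.inr ⟨p, hp⟩)
    · have h1 := congrFun h (Sum.inl (p.1, ⟨(p.2 : ℕ) + c p.1, not_le.1 hp⟩))
      simp only [Sum.elim_inl, shA] at h1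
      rw [if_neg (by omega), if_neg (by omega)] at h1
      have h2 : ((p.1, ⟨(p.2 : ℕ) + c p.1 - c p.1, lt_of_le_of_lt (Nat.sub_le _ _)
          (not_le.1 hp)⟩) : Fin n × Fin N) = p := by
        ext
        · rfl
        · exact Nat.add_sub_cancel _ _
      rwa [h2] at h1
  · rintro z ⟨hz, -⟩
    have h1 : shA c (unshA c z) = fun i => z (Sum.inl i) := shA_unshA (hSV _ hz)
    refine ⟨unshA c z, ?_, ?_⟩
    · show shA c (unshA c z) ∈ S
      rw [h1]
      exact hz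
    · rw [hmap]
      funext k
      rcases k with p | j
      · exact congrFun h1 p
      · show unshA c z j.1 = _
        unfold unshA
        rw [dif_neg (not_lt.2 j.2)]

/-! ### Congruences -/

theorem subst_congr (F : P2) {N : ℕ} {x y : Fin 2 → PowerSeries ℂ}
    (hx : ∀ j, PowerSeries.constantCoeff (x j) = 0) (hy : ∀ j, PowerSeries.constantCoeff (y j) = 0)
    (h : ∀ j, (PowerSeries.X : PowerSeries ℂ) ^ N ∣ x j - y j) :
    (PowerSeries.X : PowerSeries ℂ) ^ N ∣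
      (MvPowerSeries.subst (x : Fin 2 → MvPowerSeries Unit ℂ) F : PowerSeries ℂ) -
        (MvPowerSeries.subst (y : Fin 2 → MvPowerSeries Unit ℂ) F : PowerSeries ℂ) := by
  obtain ⟨P, hP⟩ := exists_trunc F N
  have key : ∀ z : Fin 2 → PowerSeries ℂ, (∀ j, PowerSeries.constantCoeff (z j) = 0) →
      (PowerSeries.X : PowerSeries ℂ) ^ N ∣
        (MvPowerSeries.subst (z : Fin 2 → MvPowerSeries Unit ℂ) F : PowerSeries ℂ) -
          (aeval z P : PowerSeries ℂ) := by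
    intro z hz
    have hs : MvPowerSeries.HasSubst (z : Fin 2 → MvPowerSeries Unit ℂ) :=
      MvPowerSeries.hasSubst_of_constantCoeff_zero hz
    have h0 : ∀ v : Fin 2 →₀ ℕ, wt (fun _ => 1) v < N →
        MvPowerSeries.coeff v (F - (P : P2)) = 0 := by
      intro v hv
      rw [map_sub, MvPolynomial.coeff_coe, sub_eq_zero]
      rcases hP v with h1 | ⟨h1, -⟩
      · exact h1
      · exfalso
        rw [wt, Fin.sum_univ_two, one_mul, one_mul] at hv
        omega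
    have h1 := le_order_subst (F := F - (P : P2)) (w := fun _ => 1) (r := N)
      (fun _ => Nat.one_pos) h0
      (x := z) (fun j => by rw [pow_one]; exact PowerSeries.X_dvd_iff.2 (hz j))
    rw [MvPowerSeries.subst_sub hs, MvPowerSeries.subst_coe] at h1
    exact h1
  have h1 := dvd_add (dvd_sub (key x hx) (key y hy)) (aeval_congr_X_pow N P x y h)
  have h2 : ∀ a b d e : PowerSeries ℂ, a - d - (b - e) + (d - e) = a - b := by
    intro a b d e
    ring
  rwa [h2] at h1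

/-! ### The substitution -/

/-- The polynomials of `kap`. -/
def kapP (p q α β : ℕ) (c : ℂ) : Fin 2 → MvPolynomial (Fin 2) ℂ :=
  ![X 0 ^ p * (X 1 + C c) ^ β, X 0 ^ q * (X 1 + C c) ^ α]

theorem coe_kapP (p q α β : ℕ) (c : ℂ) (i : Fin 2) :
    (kapP p q α β c i : P2) = kap p q α β c i := by
  fin_cases i
  · show ((X 0 ^ p * (X 1 + C c) ^ β : MvPolynomial (Fin 2) ℂ) : P2) =
      MvPowerSeries.X 0 ^ p * (MvPowerSeries.X 1 + MvPowerSeries.C c) ^ β
    rw [coe_mul, coe_pow, coe_pow, coe_add, coe_X, coe_X, coe_C]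
  · show ((X 0 ^ q * (X 1 + C c) ^ α : MvPolynomial (Fin 2) ℂ) : P2) =
      MvPowerSeries.X 0 ^ q * (MvPowerSeries.X 1 + MvPowerSeries.C c) ^ α
    rw [coe_mul, coe_pow, coe_pow, coe_add, coe_X, coe_X, coe_C]

theorem aeval_kapP_zero (p q α β : ℕ) (c : ℂ) (b : Fin 2 → PowerSeries ℂ) :
    (aeval b (kapP p q α β c 0) : PowerSeries ℂ) = b 0 ^ p * (b 1 + PowerSeries.C c) ^ β := by
  show (aeval b (X 0 ^ p * (X 1 + C c) ^ β : MvPolynomial (Fin 2) ℂ) : PowerSeries ℂ) = _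
  rw [map_mul, map_pow, map_pow, map_add, aeval_X, aeval_X, aeval_C]
  rfl

theorem aeval_kapP_one (p q α β : ℕ) (c : ℂ) (b : Fin 2 → PowerSeries ℂ) :
    (aeval b (kapP p q α β c 1) : PowerSeries ℂ) = b 0 ^ q * (b 1 + PowerSeries.C c) ^ α := by
  show (aeval b (X 0 ^ q * (X 1 + C c) ^ α : MvPolynomial (Fin 2) ℂ) : PowerSeries ℂ) = _
  rw [map_mul, map_pow, map_pow, map_add, aeval_X, aeval_X, aeval_C]
  rfl

theorem constantCoeff_kap {p q : ℕ} (hp : 0 < p) (hq : 0 < q) (α β : ℕ) (c : ℂ) (i : Fin 2) :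
    MvPowerSeries.constantCoeff (kap p q α β c i) = 0 := by
  fin_cases i
  · show MvPowerSeries.constantCoeff (MvPowerSeries.X 0 ^ p *
      (MvPowerSeries.X 1 + MvPowerSeries.C c) ^ β : P2) = 0
    rw [map_mul, map_pow, MvPowerSeries.constantCoeff_X, zero_pow hp.ne', zero_mul]
  · show MvPowerSeries.constantCoeff (MvPowerSeries.X 0 ^ q *
      (MvPowerSeries.X 1 + MvPowerSeries.C c) ^ α : P2) = 0
    rw [map_mul, map_pow, MvPowerSeries.constantCoeff_X, zero_pow hq.ne', zero_mul]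

theorem subst_subst_kap (F : P2) {p q : ℕ} (hp : 0 < p) (hq : 0 < q) (α β : ℕ) (c : ℂ)
    {b : Fin 2 → PowerSeries ℂ} (hb : ∀ j, PowerSeries.constantCoeff (b j) = 0) :
    (MvPowerSeries.subst (b : Fin 2 → MvPowerSeries Unit ℂ)
      (MvPowerSeries.subst (kap p q α β c) F) : PowerSeries ℂ) =
      MvPowerSeries.subst (fun i => (aeval b (kapP p q α β c i) : PowerSeries ℂ) :
        Fin 2 → MvPowerSeries Unit ℂ) F := by
  have hs : MvPowerSeries.HasSubst (b : Fin 2 → MvPowerSeries Unit ℂ) :=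
    MvPowerSeries.hasSubst_of_constantCoeff_zero hb
  have hk : MvPowerSeries.HasSubst (kap p q α β c) :=
    MvPowerSeries.hasSubst_of_constantCoeff_zero (constantCoeff_kap hp hq α β c)
  rw [MvPowerSeries.subst_comp_subst_apply hk hs]
  congr 1
  funext i
  rw [← coe_kapP, MvPowerSeries.subst_coe]

/-! ### Truncations -/

theorem constantCoeff_congr {N : ℕ} (hN : 0 < N) {a b : PowerSeries ℂ}
    (h : (PowerSeries.X : PowerSeries ℂ) ^ N ∣ a - b) :
    PowerSeries.constantCoeff a = PowerSeries.constantCoeff b := by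
  have h1 := PowerSeries.X_dvd_iff.1 ((dvd_pow_self _ hN.ne').trans h)
  rwa [map_sub, sub_eq_zero] at h1

theorem eq_of_arc {N : ℕ} {Z Z' : Fin 2 × Fin N → ℂ}
    (h : ∀ j, (PowerSeries.X : PowerSeries ℂ) ^ N ∣ arc Z j - arc Z' j) : Z = Z' := by
  funext p
  have h1 := PowerSeries.X_pow_dvd_iff.1 (h p.1) p.2 p.2.2
  rw [map_sub, coeff_arc, coeff_arc, dif_pos p.2.2, dif_pos p.2.2, sub_eq_zero] at h1
  exact h1

/-- The truncation of a pair of power series. -/
def trA (N : ℕ) (x : Fin 2 → PowerSeries ℂ) : Fin 2 × Fin N → ℂ := fun p =>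
  PowerSeries.coeff (p.2 : ℕ) (x p.1)

theorem arc_trA (N : ℕ) (x : Fin 2 → PowerSeries ℂ) (j : Fin 2) :
    (PowerSeries.X : PowerSeries ℂ) ^ N ∣ arc (trA N x) j - x j := by
  rw [PowerSeries.X_pow_dvd_iff]
  intro k hk
  rw [map_sub, coeff_arc, dif_pos hk]
  exact sub_self _

/-! ### The monomial map on units -/

theorem kap_inj {p q α β : ℕ} (hab : p * α = q * β + 1) {U W U' W' : PowerSeries ℂ} {N : ℕ}
    (hU : PowerSeries.constantCoeff U ≠ 0) (hW : PowerSeries.constantCoeff W ≠ 0)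
    (h0 : (PowerSeries.X : PowerSeries ℂ) ^ N ∣ U ^ p * W ^ β - U' ^ p * W' ^ β)
    (h1 : (PowerSeries.X : PowerSeries ℂ) ^ N ∣ U ^ q * W ^ α - U' ^ q * W' ^ α) :
    (PowerSeries.X : PowerSeries ℂ) ^ N ∣ U - U' ∧ (PowerSeries.X : PowerSeries ℂ) ^ N ∣ W - W' := by
  have hu : IsUnit U := PowerSeries.isUnit_iff_constantCoeff.2 (IsUnit.mk0 _ hU)
  have hw : IsUnit W := PowerSeries.isUnit_iff_constantCoeff.2 (IsUnit.mk0 _ hW)
  have hW1 : ∀ a b : PowerSeries ℂ, b * (a ^ p * b ^ β) ^ q = (a ^ q * b ^ α) ^ p := by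
    intro a b
    have e : b * (a ^ p * b ^ β) ^ q = a ^ (p * q) * b ^ (q * β + 1) := by ring
    rw [e, ← hab]
    ring
  have hU1 : ∀ a b : PowerSeries ℂ, a * (a ^ q * b ^ α) ^ β = (a ^ p * b ^ β) ^ α := by
    intro a b
    have e : a * (a ^ q * b ^ α) ^ β = a ^ (q * β + 1) * b ^ (α * β) := by ring
    rw [e, ← hab]
    ring
  constructor
  · have hy : IsUnit ((U ^ q * W ^ α) ^ β) := ((hu.pow q).mul (hw.pow α)).pow β
    rw [← hy.dvd_mul_right]
    have e : (U - U') * (U ^ q * W ^ α) ^ β =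
        ((U ^ p * W ^ β) ^ α - (U' ^ p * W' ^ β) ^ α) -
          U' * ((U ^ q * W ^ α) ^ β - (U' ^ q * W' ^ α) ^ β) := by
      rw [← hU1 U W, ← hU1 U' W']
      ring
    rw [e]
    exact dvd_sub (h0.trans (sub_dvd_pow_sub_pow _ _ α))
      ((h1.trans (sub_dvd_pow_sub_pow _ _ β)).mul_left _)
  · have hx : IsUnit ((U ^ p * W ^ β) ^ q) := ((hu.pow p).mul (hw.pow β)).pow q
    rw [← hx.dvd_mul_right]
    have e : (W - W') * (U ^ p * W ^ β) ^ q =
        ((U ^ q * W ^ α) ^ p - (U' ^ q * W' ^ α) ^ p) -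
          W' * ((U ^ p * W ^ β) ^ q - (U' ^ p * W' ^ β) ^ q) := by
      rw [← hW1 U W, ← hW1 U' W']
      ring
    rw [e]
    exact dvd_sub (h1.trans (sub_dvd_pow_sub_pow _ _ p))
      ((h0.trans (sub_dvd_pow_sub_pow _ _ q)).mul_left _)

theorem kap_surj_aux {R : Type} [CommRing R] {p q α β : ℕ} (hab : p * α = q * β + 1)
    {x y x' y' : R} (hx : x * x' = 1) (hy : y * y' = 1) :
    (y ^ p * x' ^ q) * x ^ q = y ^ p ∧ (x ^ α * y' ^ β) ^ p * (y ^ p * x' ^ q) ^ β = x ∧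
      (x ^ α * y' ^ β) ^ q * (y ^ p * x' ^ q) ^ α = y := by
  refine ⟨?_, ?_, ?_⟩
  · calc (y ^ p * x' ^ q) * x ^ q = y ^ p * (x * x') ^ q := by ring
      _ = y ^ p := by rw [hx, one_pow, mul_one]
  · calc (x ^ α * y' ^ β) ^ p * (y ^ p * x' ^ q) ^ β
        = x ^ (p * α) * x' ^ (q * β) * (y * y') ^ (p * β) := by ring
      _ = x ^ (q * β + 1) * x' ^ (q * β) := by rw [hy, one_pow, hab, mul_one]
      _ = x * (x * x') ^ (q * β) := by ring
      _ = x := by rw [hx, one_pow, mul_one]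
  · calc (x ^ α * y' ^ β) ^ q * (y ^ p * x' ^ q) ^ α
        = y ^ (p * α) * y' ^ (q * β) * (x * x') ^ (q * α) := by ring
      _ = y ^ (q * β + 1) * y' ^ (q * β) := by rw [hx, one_pow, hab, mul_one]
      _ = y * (y * y') ^ (q * β) := by ring
      _ = y := by rw [hy, one_pow, mul_one]

theorem kap_surj {p q α β : ℕ} (hab : p * α = q * β + 1) {x y : PowerSeries ℂ}
    (hx : PowerSeries.constantCoeff x ≠ 0) (hy : PowerSeries.constantCoeff y ≠ 0) :
    ∃ U W : PowerSeries ℂ, W * x ^ q = y ^ p ∧ U ^ p * W ^ β = x ∧ U ^ q * W ^ α = y := by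
  obtain ⟨x', hx'⟩ := (PowerSeries.isUnit_iff_constantCoeff.2 (IsUnit.mk0 _ hx)).exists_right_inv
  obtain ⟨y', hy'⟩ := (PowerSeries.isUnit_iff_constantCoeff.2 (IsUnit.mk0 _ hy)).exists_right_inv
  exact ⟨x ^ α * y' ^ β, y ^ p * x' ^ q, kap_surj_aux hab hx' hy'⟩

/-! ### The map on truncated arcs -/

/-- The map `kap` on truncated arcs. -/
def phiA {N : ℕ} (p q α β : ℕ) (c : ℂ) (Z : Fin 2 × Fin N → ℂ) : Fin 2 × Fin N → ℂ :=
  polyMap (jetPoly (kapP p q α β c) N) Z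

theorem arc_phiA_zero {N : ℕ} (p q α β : ℕ) (c : ℂ) (Z : Fin 2 × Fin N → ℂ) :
    (PowerSeries.X : PowerSeries ℂ) ^ N ∣ arc (phiA p q α β c Z) 0 -
      arc Z 0 ^ p * (arc Z 1 + PowerSeries.C c) ^ β := by
  have h := arc_jetPoly (kapP p q α β c) Z 0
  rwa [aeval_kapP_zero] at h

theorem arc_phiA_one {N : ℕ} (p q α β : ℕ) (c : ℂ) (Z : Fin 2 × Fin N → ℂ) :
    (PowerSeries.X : PowerSeries ℂ) ^ N ∣ arc (phiA p q α β c Z) 1 -
      arc Z 0 ^ q * (arc Z 1 + PowerSeries.C c) ^ α := by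
  have h := arc_jetPoly (kapP p q α β c) Z 1
  rwa [aeval_kapP_one] at h

theorem constantCoeff_shA {n N : ℕ} (hN : 0 < N) {c : Fin n → ℕ} {j : Fin n} (hc : 0 < c j)
    (Z : Fin n × Fin N → ℂ) : PowerSeries.constantCoeff (arc (shA c Z) j) = 0 := by
  rw [constantCoeff_congr hN (arc_shA c Z j), map_mul, map_pow, PowerSeries.constantCoeff_X,
    zero_pow hc.ne', zero_mul]

theorem order_phiA (F : P2) {p q α β : ℕ} (hp : 0 < p) (hq : 0 < q) (c : ℂ) {k N m : ℕ}
    (hk : 0 < k) (hm : m < N) {Z : Fin 2 × Fin N → ℂ}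
    (hZ : PowerSeries.constantCoeff (arc Z 1) = 0) :
    (MvPowerSeries.subst (arc (shA ![k, 0] Z) : Fin 2 → MvPowerSeries Unit ℂ)
      (MvPowerSeries.subst (kap p q α β c) F) : PowerSeries ℂ).order = m ↔
    (MvPowerSeries.subst (arc (shA ![k * p, k * q] (phiA p q α β c Z)) :
      Fin 2 → MvPowerSeries Unit ℂ) F : PowerSeries ℂ).order = m := by
  have hN : 0 < N := lt_of_le_of_lt (Nat.zero_le m) hm
  have hb : ∀ j, PowerSeries.constantCoeff (arc (shA ![k, 0] Z) j) = 0 := by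
    intro j
    fin_cases j
    · exact constantCoeff_shA hN (c := ![k, 0]) (j := 0) hk Z
    · show PowerSeries.constantCoeff (arc (shA ![k, 0] Z) 1) = 0
      rw [constantCoeff_congr hN (arc_shA ![k, 0] Z 1)]
      show PowerSeries.constantCoeff ((PowerSeries.X : PowerSeries ℂ) ^ 0 * arc Z 1) = 0
      rw [pow_zero, one_mul, hZ]
  rw [subst_subst_kap F hp hq α β c hb]
  have hy : ∀ j, PowerSeries.constantCoeff (arc (shA ![k * p, k * q] (phiA p q α β c Z)) j) = 0 := by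
    intro j
    fin_cases j
    · exact constantCoeff_shA hN (c := ![k * p, k * q]) (j := 0) (Nat.mul_pos hk hp) _
    · exact constantCoeff_shA hN (c := ![k * p, k * q]) (j := 1) (Nat.mul_pos hk hq) _
  -- the arcs before the shift
  have hb' : ∀ j, (PowerSeries.X : PowerSeries ℂ) ^ N ∣ arc (shA ![k, 0] Z) j -
      (![PowerSeries.X ^ k * arc Z 0, arc Z 1] : Fin 2 → PowerSeries ℂ) j := by
    intro j
    fin_cases j
    · exact arc_shA ![k, 0] Z 0
    · have h := arc_shA ![k, 0] Z 1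
      have e : (PowerSeries.X : PowerSeries ℂ) ^ (![k, 0] : Fin 2 → ℕ) 1 * arc Z 1 = arc Z 1 := by
        show (PowerSeries.X : PowerSeries ℂ) ^ 0 * arc Z 1 = arc Z 1
        rw [pow_zero, one_mul]
      rw [e] at h
      exact h
  have key : ∀ j, (PowerSeries.X : PowerSeries ℂ) ^ N ∣
      (aeval (arc (shA ![k, 0] Z)) (kapP p q α β c j) : PowerSeries ℂ) -
        arc (shA ![k * p, k * q] (phiA p q α β c Z)) j := by
    intro j
    have h1 := aeval_congr_X_pow N (kapP p q α β c j) _ _ hb'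
    have h2 := arc_shA ![k * p, k * q] (phiA p q α β c Z) j
    fin_cases j
    · have h3 := (arc_phiA_zero p q α β c Z).mul_left (PowerSeries.X ^ (k * p))
      have h4 : (aeval (![PowerSeries.X ^ k * arc Z 0, arc Z 1] : Fin 2 → PowerSeries ℂ)
          (kapP p q α β c 0) : PowerSeries ℂ) =
          PowerSeries.X ^ (k * p) * (arc Z 0 ^ p * (arc Z 1 + PowerSeries.C c) ^ β) := by
        rw [aeval_kapP_zero]
        show (PowerSeries.X ^ k * arc Z 0) ^ p * (arc Z 1 + PowerSeries.C c) ^ β = _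
        ring
      have h5 := dvd_sub (dvd_sub h1 h3) h2
      have h6 : ∀ a b d e g : PowerSeries ℂ, b = PowerSeries.X ^ (k * p) * g →
          a - b - PowerSeries.X ^ (k * p) * (d - g) - (e - PowerSeries.X ^ (k * p) * d) =
            a - e := by
        intro a b d e g h
        rw [h]
        ring
      rw [← h6 _ _ _ _ _ h4]
      exact h5
    · have h3 := (arc_phiA_one p q α β c Z).mul_left (PowerSeries.X ^ (k * q))
      have h4 : (aeval (![PowerSeries.X ^ k * arc Z 0, arc Z 1] : Fin 2 → PowerSeries ℂ)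
          (kapP p q α β c 1) : PowerSeries ℂ) =
          PowerSeries.X ^ (k * q) * (arc Z 0 ^ q * (arc Z 1 + PowerSeries.C c) ^ α) := by
        rw [aeval_kapP_one]
        show (PowerSeries.X ^ k * arc Z 0) ^ q * (arc Z 1 + PowerSeries.C c) ^ α = _
        ring
      have h5 := dvd_sub (dvd_sub h1 h3) h2
      have h6 : ∀ a b d e g : PowerSeries ℂ, b = PowerSeries.X ^ (k * q) * g →
          a - b - PowerSeries.X ^ (k * q) * (d - g) - (e - PowerSeries.X ^ (k * q) * d) =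
            a - e := by
        intro a b d e g h
        rw [h]
        ring
      rw [← h6 _ _ _ _ _ h4]
      exact h5
  rw [← PowerSeries.order_eq_order, ← PowerSeries.order_eq_order]
  refine order_congr hm (subst_congr F (fun j => ?_) hy key)
  rw [constantCoeff_congr hN (key j)]
  exact hy j

/-! ### The two sets -/

theorem isConstr_Near_aux (N p q k : ℕ) (c : ℂ) : IsConstr {γ : Fin 2 × Fin N → ℂ |
    lead0 ![k * p, k * q] γ 1 ^ p = c * lead0 ![k * p, k * q] γ 0 ^ q} := by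
  have hl : ∀ j : Fin 2, ∃ P : MvPolynomial (Fin 2 × Fin N) ℂ, ∀ γ : Fin 2 × Fin N → ℂ,
      lead0 ![k * p, k * q] γ j = eval γ P := by
    intro j
    by_cases h : (![k * p, k * q] : Fin 2 → ℕ) j < N
    · refine ⟨X (j, ⟨_, h⟩), fun γ => ?_⟩
      rw [eval_X, lead0, dif_pos h]
    · refine ⟨0, fun γ => ?_⟩
      rw [map_zero, lead0, dif_neg h]
  obtain ⟨P0, hP0⟩ := hl 0
  obtain ⟨P1, hP1⟩ := hl 1
  have h := isConstr_eq_zero (P1 ^ p - C c * P0 ^ q)
  have h2 : {γ : Fin 2 × Fin N → ℂ | eval γ (P1 ^ p - C c * P0 ^ q) = 0} =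
      {γ : Fin 2 × Fin N → ℂ |
        lead0 ![k * p, k * q] γ 1 ^ p = c * lead0 ![k * p, k * q] γ 0 ^ q} := by
    ext γ
    rw [Set.mem_ofPred_eq, Set.mem_ofPred_eq, map_sub, map_mul, map_pow, map_pow, eval_C, ← hP0,
      ← hP1, sub_eq_zero]
  rwa [h2] at h

theorem mem_Xo_shA {N k : ℕ} (hkN : k < N) {Z : Fin 2 × Fin N → ℂ} :
    shA ![k, 0] Z ∈ Xo N k ↔ PowerSeries.constantCoeff (arc Z 0) ≠ 0 := by
  have h1 : shA ![k, 0] Z (0, ⟨k, hkN⟩) = PowerSeries.constantCoeff (arc Z 0) := by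
    rw [← lead0_shA (c := ![k, 0]) Z (j := 0) hkN]
    unfold lead0
    rw [dif_pos (show (![k, 0] : Fin 2 → ℕ) 0 < N from hkN)]
    rfl
  constructor
  · intro h
    rw [← h1]
    exact h.2 hkN
  · intro h
    refine ⟨fun i hi => Vn_shA ![k, 0] Z 0 i hi, fun _ => ?_⟩
    rw [h1]
    exact h

theorem mem_Start_shA {N k : ℕ} (hN : 0 < N) (hk : 0 < k) {Z : Fin 2 × Fin N → ℂ} :
    shA ![k, 0] Z ∈ Start 2 1 N ↔ PowerSeries.constantCoeff (arc Z 1) = 0 := by
  have h1 : shA ![k, 0] Z (1, ⟨0, hN⟩) = PowerSeries.constantCoeff (arc Z 1) := by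
    rw [← lead0_shA (c := ![k, 0]) Z (j := 1) hN]
    unfold lead0
    rw [dif_pos (show (![k, 0] : Fin 2 → ℕ) 1 < N from hN)]
    rfl
  constructor
  · intro h
    rw [← h1]
    exact h 1 _ Nat.one_pos
  · intro h j i hi
    fin_cases j
    · exact Vn_shA ![k, 0] Z 0 i (show (i : ℕ) < k by omega)
    · have h2 : i = ⟨0, hN⟩ := Fin.ext (by simpa using hi)
      rw [h2]
      exact h1.trans h

theorem mem_Near_shA {N p q k : ℕ} {c : ℂ} (hkp : k * p < N) (hkq : k * q < N)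
    {Z : Fin 2 × Fin N → ℂ} : shA ![k * p, k * q] Z ∈ Near N p q k c ↔
      (PowerSeries.constantCoeff (arc Z 0) ≠ 0 ∧ PowerSeries.constantCoeff (arc Z 1) ≠ 0) ∧
        PowerSeries.constantCoeff (arc Z 1) ^ p = c * PowerSeries.constantCoeff (arc Z 0) ^ q := by
  have h0 := lead0_shA (c := ![k * p, k * q]) Z (j := 0) hkp
  have h1 := lead0_shA (c := ![k * p, k * q]) Z (j := 1) hkq
  unfold Near
  rw [Set.mem_ofPred_eq, h0, h1]
  refine and_congr ⟨fun h => ?_, fun h => ?_⟩ Iff.rfl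
  · rw [← h0, ← h1]
    exact ⟨h.2 0 hkp, h.2 1 hkq⟩
  · refine ⟨Vn_shA _ _, fun j hj => ?_⟩
    fin_cases j
    · exact fun h2 => h.1 (h0.symm.trans h2)
    · exact fun h2 => h.2 (h1.symm.trans h2)

/-- The bijection between the shifted sets. -/
theorem bijOn_phiA (F : P2) {p q α β : ℕ} (hp : 0 < p) (hq : 0 < q)
    (hab : p * α = q * β + 1) {c : ℂ} (hc : c ≠ 0) {k N m : ℕ} (hk : 0 < k) (hkp : k * p < N)
    (hkq : k * q < N) (hm : m < N) :
    Set.BijOn (polyMap (jetPoly (kapP p q α β c) N))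
      {Z | shA ![k, 0] Z ∈ arcsV (MvPowerSeries.subst (kap p q α β c) F) N m ∩ Xo N k}
      {Z | shA ![k * p, k * q] Z ∈ arcsV F N m ∩ Near N p q k c} := by
  have hN : 0 < N := lt_of_le_of_lt (Nat.zero_le m) hm
  have hkN : k < N := lt_of_le_of_lt (Nat.le_mul_of_pos_right k hp) hkp
  have hdom : ∀ Z : Fin 2 × Fin N → ℂ,
      shA ![k, 0] Z ∈ arcsV (MvPowerSeries.subst (kap p q α β c) F) N m ∩ Xo N k ↔
      (PowerSeries.constantCoeff (arc Z 1) = 0 ∧
        (MvPowerSeries.subst (arc (shA ![k, 0] Z) : Fin 2 → MvPowerSeries Unit ℂ)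
          (MvPowerSeries.subst (kap p q α β c) F) : PowerSeries ℂ).order = m) ∧
        PowerSeries.constantCoeff (arc Z 0) ≠ 0 := by
    intro Z
    rw [← mem_Start_shA hN hk, ← mem_Xo_shA hkN]
    rfl
  have hW : ∀ Z : Fin 2 × Fin N → ℂ, PowerSeries.constantCoeff (arc Z 1) = 0 →
      PowerSeries.constantCoeff (arc Z 1 + PowerSeries.C c) = c := by
    intro Z hZ
    rw [map_add, hZ, zero_add, PowerSeries.constantCoeff_C]
  refine ⟨?_, ?_, ?_⟩
  · intro Z hZ
    rw [Set.mem_ofPred_eq, hdom] at hZ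
    obtain ⟨⟨h1, h2⟩, h3⟩ := hZ
    show shA ![k * p, k * q] (phiA p q α β c Z) ∈ arcsV F N m ∩ Near N p q k c
    refine ⟨⟨?_, (order_phiA F hp hq c hk hm h1).1 h2⟩, ?_⟩
    · intro j i hi
      fin_cases j
      · exact Vn_shA ![k * p, k * q] _ 0 i (lt_of_lt_of_le hi (Nat.mul_pos hk hp))
      · exact Vn_shA ![k * p, k * q] _ 1 i (lt_of_lt_of_le hi (Nat.mul_pos hk hq))
    · rw [mem_Near_shA hkp hkq, constantCoeff_congr hN (arc_phiA_zero p q α β c Z),
        constantCoeff_congr hN (arc_phiA_one p q α β c Z), map_mul, map_mul, map_pow, map_pow,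
        map_pow, map_pow, hW Z h1]
      refine ⟨⟨mul_ne_zero (pow_ne_zero _ h3) (pow_ne_zero _ hc),
        mul_ne_zero (pow_ne_zero _ h3) (pow_ne_zero _ hc)⟩, ?_⟩
      have e : (PowerSeries.constantCoeff (arc Z 0) ^ q * c ^ α) ^ p =
          PowerSeries.constantCoeff (arc Z 0) ^ (p * q) * c ^ (p * α) := by ring
      rw [e, hab]
      ring
  · intro Z hZ Z' hZ' heq
    rw [Set.mem_ofPred_eq, hdom] at hZ hZ'
    have heq' : phiA p q α β c Z = phiA p q α β c Z' := heq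
    have h0 : (PowerSeries.X : PowerSeries ℂ) ^ N ∣
        arc Z 0 ^ p * (arc Z 1 + PowerSeries.C c) ^ β -
          arc Z' 0 ^ p * (arc Z' 1 + PowerSeries.C c) ^ β := by
      have h1 := arc_phiA_zero p q α β c Z
      have h2 := arc_phiA_zero p q α β c Z'
      rw [← heq'] at h2
      have h3 := dvd_sub h2 h1
      rwa [sub_sub_sub_cancel_left] at h3
    have h1 : (PowerSeries.X : PowerSeries ℂ) ^ N ∣
        arc Z 0 ^ q * (arc Z 1 + PowerSeries.C c) ^ α -
          arc Z' 0 ^ q * (arc Z' 1 + PowerSeries.C c) ^ α := by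
      have h1 := arc_phiA_one p q α β c Z
      have h2 := arc_phiA_one p q α β c Z'
      rw [← heq'] at h2
      have h3 := dvd_sub h2 h1
      rwa [sub_sub_sub_cancel_left] at h3
    obtain ⟨h2, h3⟩ := kap_inj hab hZ.2 (by rw [hW Z hZ.1.1]; exact hc) h0 h1
    refine eq_of_arc fun j => ?_
    fin_cases j
    · exact h2
    · rwa [add_sub_add_right_eq_sub] at h3
  · intro Z' hZ'
    obtain ⟨⟨-, hord⟩, hN'⟩ := hZ'
    rw [mem_Near_shA hkp hkq] at hN'
    obtain ⟨⟨hx, hy⟩, hxy⟩ := hN'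
    obtain ⟨U, W, hUW, hUx, hWy⟩ := kap_surj hab hx hy
    have hW0 : PowerSeries.constantCoeff W = c := by
      have h1 := congrArg (PowerSeries.constantCoeff (R := ℂ)) hUW
      rw [map_mul, map_pow, map_pow, hxy] at h1
      exact mul_right_cancel₀ (pow_ne_zero _ hx) h1
    have hU0 : PowerSeries.constantCoeff U ≠ 0 := by
      intro h
      have h1 := congrArg (PowerSeries.constantCoeff (R := ℂ)) hUx
      rw [map_mul, map_pow, h, zero_pow hp.ne', zero_mul] at h1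
      exact hx h1.symm
    set Z : Fin 2 × Fin N → ℂ := trA N ![U, W - PowerSeries.C c] with hZ
    have hZ0 : (PowerSeries.X : PowerSeries ℂ) ^ N ∣ arc Z 0 - U :=
      arc_trA N ![U, W - PowerSeries.C c] 0
    have hZ1 : (PowerSeries.X : PowerSeries ℂ) ^ N ∣ arc Z 1 - (W - PowerSeries.C c) :=
      arc_trA N ![U, W - PowerSeries.C c] 1
    have hZ1' : (PowerSeries.X : PowerSeries ℂ) ^ N ∣ (arc Z 1 + PowerSeries.C c) - W := by
      rwa [sub_sub_eq_add_sub] at hZ1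
    have hcc0 : PowerSeries.constantCoeff (arc Z 0) ≠ 0 := by
      rw [constantCoeff_congr hN hZ0]
      exact hU0
    have hcc1 : PowerSeries.constantCoeff (arc Z 1) = 0 := by
      rw [constantCoeff_congr hN hZ1, map_sub, hW0, PowerSeries.constantCoeff_C, sub_self]
    have hcong : ∀ a b : ℕ, (PowerSeries.X : PowerSeries ℂ) ^ N ∣
        arc Z 0 ^ a * (arc Z 1 + PowerSeries.C c) ^ b - U ^ a * W ^ b := by
      intro a b
      have e : arc Z 0 ^ a * (arc Z 1 + PowerSeries.C c) ^ b - U ^ a * W ^ b =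
          (arc Z 0 ^ a - U ^ a) * (arc Z 1 + PowerSeries.C c) ^ b +
            U ^ a * ((arc Z 1 + PowerSeries.C c) ^ b - W ^ b) := by ring
      rw [e]
      exact dvd_add ((hZ0.trans (sub_dvd_pow_sub_pow _ _ a)).mul_right _)
        ((hZ1'.trans (sub_dvd_pow_sub_pow _ _ b)).mul_left _)
    have hphi : phiA p q α β c Z = Z' := by
      refine eq_of_arc fun j => ?_
      fin_cases j
      · have h1 := dvd_add (arc_phiA_zero p q α β c Z) (hcong p β)
        rw [sub_add_sub_cancel, hUx] at h1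
        exact h1
      · have h1 := dvd_add (arc_phiA_one p q α β c Z) (hcong q α)
        rw [sub_add_sub_cancel, hWy] at h1
        exact h1
    refine ⟨Z, (hdom Z).2 ⟨⟨hcc1, ?_⟩, hcc0⟩, hphi⟩
    rw [order_phiA F hp hq c hk hm hcc1, hphi]
    exact hord

end B1

open B1

theorem isConstr_Near (N p q k : ℕ) (c : ℂ) : IsConstr (Near N p q k c) :=
  isConstr_setOf_and (isConstr_Strat N _) (isConstr_Near_aux N p q k c)

/-- The substitution `(x, y) = (u^p (v + c)^β, u^q (v + c)^α)` identifies the arcs near the root `c`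
with the arcs in the `(u, v)`-plane with `ord u = k`, up to the Jacobian factor. -/
theorem near_root {F : P2} {p q α β : ℕ} (hp : 0 < p) (hq : 0 < q) (hab : p * α = q * β + 1)
    {c : ℂ} (hc : c ≠ 0) {k N m : ℕ} (hk : 0 < k) (hkp : k * p < N) (hkq : k * q < N)
    (hm : m < N) :
    muN N (arcsV F N m ∩ Near N p q k c) =
      ((LU ^ (-(((p + q - 1) * k : ℕ) : ℤ)) : Motˣ) : Mot) *
        muN N (arcsV (MvPowerSeries.subst (kap p q α β c) F) N m ∩ Xo N k) := by
  have hkN : k < N := lt_of_le_of_lt (Nat.le_mul_of_pos_right k hp) hkp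
  have hS1 : IsConstr (arcsV (MvPowerSeries.subst (kap p q α β c) F) N m ∩ Xo N k) :=
    (isConstr_arcsV _ hm).inter (isConstr_Xo N k)
  have hS2 : IsConstr (arcsV F N m ∩ Near N p q k c) :=
    (isConstr_arcsV _ hm).inter (isConstr_Near N p q k c)
  have h1 := cls_shA (c := ![k, 0]) (N := N) (by
    intro j
    fin_cases j
    · exact hkN.le
    · exact Nat.zero_le _) hS1 (by
    rintro γ ⟨-, hγ⟩ j i hi
    fin_cases j
    · exact hγ.1 i hi
    · exact absurd hi (Nat.not_lt_zero _))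
  have h2 := cls_shA (c := ![k * p, k * q]) (N := N) (by
    intro j
    fin_cases j
    · exact hkp.le
    · exact hkq.le) hS2 (by
    rintro γ ⟨-, hγ⟩
    exact hγ.1.1)
  have h3 := cls_bijOn (isConstr_shA ![k, 0] hS1) (isConstr_shA ![k * p, k * q] hS2) _
    (bijOn_phiA F hp hq hab hc hk hkp hkq hm)
  rw [h1, h2] at h3
  have e1 : ∑ j, (![k, 0] : Fin 2 → ℕ) j = k := by
    rw [Fin.sum_univ_two]
    rfl
  have e2 : ∑ j, (![k * p, k * q] : Fin 2 → ℕ) j = (p + q - 1) * k + k := by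
    rw [Fin.sum_univ_two]
    show k * p + k * q = _
    obtain ⟨r, rfl⟩ : ∃ r, p = r + 1 := ⟨p - 1, by omega⟩
    have e3 : r + 1 + q - 1 = r + q := by omega
    rw [e3]
    ring
  rw [e1, e2] at h3
  have h4 := congrArg (algebraMap K0 Mot) h3
  rw [map_mul, map_mul, map_pow, map_pow, ← LU_val, ← Units.val_pow_eq_pow_val,
    ← Units.val_pow_eq_pow_val, pow_add, Units.val_mul, ← mul_assoc] at h4
  have h5 := (Units.mul_left_inj (LU ^ k)).1 h4
  unfold muN
  have h6 : clsM (arcsV F N m ∩ Near N p q k c) =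
      ((LU ^ (-(((p + q - 1) * k : ℕ) : ℤ)) : Motˣ) : Mot) *
        clsM (arcsV (MvPowerSeries.subst (kap p q α β c) F) N m ∩ Xo N k) := by
    have h7 : clsM (arcsV (MvPowerSeries.subst (kap p q α β c) F) N m ∩ Xo N k) =
        clsM (arcsV F N m ∩ Near N p q k c) * ((LU ^ ((p + q - 1) * k) : Motˣ) : Mot) := h5
    rw [h7, mul_comm (clsM _), ← mul_assoc, zpow_neg, zpow_natCast, Units.inv_mul, one_mul]
  rw [h6, mul_left_comm]

end PC

end MPb07157
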