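import Pool.Agent.Lib.MP_b07157_agV.M1

/-!
# Normalization
-/

noncomputable section

namespace MPb07157

open MvPolynomial

namespace PC

/-- The initial form for the weights `(1, q)` is `lam x^r (y - c x^q)^m`. -/
def BadY (F : P2) : Prop :=
  ∃ (q r m : ℕ) (c lam : ℂ), 0 < q ∧ 0 < m ∧ c ≠ 0 ∧ lam ≠ 0 ∧
    IsInit F ![1, q] (r + q * m) (C lam * X 0 ^ r * (X 1 - C c * X 0 ^ q) ^ m)

/-- The initial form for the weights `(p, 1)` is `lam y^r (x - c y^p)^m`. -/
def BadX (F : P2) : Prop :=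
  ∃ (p r m : ℕ) (c lam : ℂ), 0 < p ∧ 0 < m ∧ c ≠ 0 ∧ lam ≠ 0 ∧
    IsInit F ![p, 1] (r + p * m) (C lam * X 1 ^ r * (X 0 - C c * X 1 ^ p) ^ m)

/-- The tangent cone consists of two lines, none of which is a coordinate axis. -/
def Bad2 (F : P2) : Prop :=
  ∃ (m m' : ℕ) (c c' lam : ℂ), 0 < m ∧ 0 < m' ∧ c ≠ 0 ∧ c' ≠ 0 ∧ c ≠ c' ∧ lam ≠ 0 ∧
    IsInit F ![1, 1] (m + m') (C lam * (X 1 - C c * X 0) ^ m * (X 1 - C c' * X 0) ^ m')

/-! ### Weighted order -/

/-- All coefficients of weight `< r` vanish. -/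
def N1HO (w : Fin 2 → ℕ) (r : ℕ) (G : P2) : Prop :=
  ∀ v : Fin 2 →₀ ℕ, wt w v < r → MvPowerSeries.coeff v G = 0

theorem n1wt_add (w : Fin 2 → ℕ) (x y : Fin 2 →₀ ℕ) : wt w (x + y) = wt w x + wt w y := by
  simp only [wt, Fin.sum_univ_two, Finsupp.add_apply]
  ring

theorem N1HO.mono {w : Fin 2 → ℕ} {r s : ℕ} {G : P2} (h : N1HO w s G) (hrs : r ≤ s) :
    N1HO w r G := fun v hv => h v (lt_of_lt_of_le hv hrs)

theorem N1HO.add {w : Fin 2 → ℕ} {r : ℕ} {G H : P2} (hG : N1HO w r G) (hH : N1HO w r H) :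
    N1HO w r (G + H) := fun v hv => by rw [map_add, hG v hv, hH v hv, add_zero]

theorem N1HO.sub {w : Fin 2 → ℕ} {r : ℕ} {G H : P2} (hG : N1HO w r G) (hH : N1HO w r H) :
    N1HO w r (G - H) := fun v hv => by rw [map_sub, hG v hv, hH v hv, sub_zero]

theorem N1HO.neg {w : Fin 2 → ℕ} {r : ℕ} {G : P2} (hG : N1HO w r G) :
    N1HO w r (-G) := fun v hv => by rw [map_neg, hG v hv, neg_zero]

theorem N1HO.zero (w : Fin 2 → ℕ) (r : ℕ) : N1HO w r 0 := fun v _ => by rw [map_zero]

theorem N1HO.zero_le (w : Fin 2 → ℕ) (G : P2) : N1HO w 0 G := fun v hv => absurd hv (by omega)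

theorem N1HO.mul {w : Fin 2 → ℕ} {r s : ℕ} {G H : P2} (hG : N1HO w r G) (hH : N1HO w s H) :
    N1HO w (r + s) (G * H) := by
  classical
  intro v hv
  rw [MvPowerSeries.coeff_mul]
  refine Finset.sum_eq_zero fun p hp => ?_
  rw [Finset.HasAntidiagonal.mem_antidiagonal] at hp
  by_cases h1 : wt w p.1 < r
  · rw [hG _ h1, zero_mul]
  · have h2 : wt w p.2 < s := by
      rw [← hp, n1wt_add] at hv
      omega
    rw [hH _ h2, mul_zero]

/-- `A` and `B` have the same part of weight `r`, and none below. -/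
def N1Cl (w : Fin 2 → ℕ) (r : ℕ) (A B : P2) : Prop :=
  N1HO w r A ∧ N1HO w r B ∧ N1HO w (r + 1) (A - B)

theorem N1Cl.mul {w : Fin 2 → ℕ} {r s : ℕ} {A B A' B' : P2} (h : N1Cl w r A B)
    (h' : N1Cl w s A' B') : N1Cl w (r + s) (A * A') (B * B') := by
  refine ⟨h.1.mul h'.1, h.2.1.mul h'.2.1, ?_⟩
  have h1 : A * A' - B * B' = (A - B) * A' + B * (A' - B') := by ring
  rw [h1]
  refine N1HO.add ?_ ?_
  · exact (h.2.2.mul h'.1).mono (by omega)
  · exact (h.2.1.mul h'.2.2).mono (by omega)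

theorem N1Cl.one (w : Fin 2 → ℕ) : N1Cl w 0 1 1 :=
  ⟨N1HO.zero_le _ _, N1HO.zero_le _ _, by rw [sub_self]; exact N1HO.zero _ _⟩

theorem N1Cl.pow {w : Fin 2 → ℕ} {r : ℕ} {A B : P2} (h : N1Cl w r A B) (k : ℕ) :
    N1Cl w (k * r) (A ^ k) (B ^ k) := by
  induction k with
  | zero => simpa using N1Cl.one w
  | succ m ih =>
    rw [pow_succ, pow_succ, Nat.succ_mul]
    exact ih.mul h

theorem N1Cl.coeff_eq {w : Fin 2 → ℕ} {r : ℕ} {A B : P2} (h : N1Cl w r A B)
    {v : Fin 2 →₀ ℕ} (hv : wt w v ≤ r) : MvPowerSeries.coeff v A = MvPowerSeries.coeff v B := by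
  have h1 := h.2.2 v (by omega)
  rw [map_sub, sub_eq_zero] at h1
  exact h1

/-- Substitution keeps the weighted order. -/
theorem N1HO.subst {w : Fin 2 → ℕ} {r : ℕ} {G : P2} (hG : N1HO w r G) {θ : Fin 2 → P2}
    (hθ0 : ∀ i, MvPowerSeries.constantCoeff (θ i) = 0) (hθ : ∀ i, N1HO w (w i) (θ i)) :
    N1HO w r (MvPowerSeries.subst θ G) := by
  intro v hv
  rw [MvPowerSeries.coeff_subst (MvPowerSeries.hasSubst_of_constantCoeff_zero hθ0)]
  refine finsum_eq_zero_of_forall_eq_zero fun d => ?_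
  by_cases hd : wt w d < r
  · rw [hG d hd, zero_smul]
  · have hpow : ∀ (i : Fin 2) (k : ℕ), N1HO w (k * w i) (θ i ^ k) := by
      intro i k
      induction k with
      | zero => rw [zero_mul]; exact N1HO.zero_le _ _
      | succ m ih =>
        rw [pow_succ, Nat.succ_mul]
        exact ih.mul (hθ i)
    have h1 : d.prod (fun s e => θ s ^ e) = θ 0 ^ d 0 * θ 1 ^ d 1 := by
      rw [Finsupp.prod_fintype _ _ (fun i => pow_zero _), Fin.prod_univ_two]
    rw [h1]
    have h2 : N1HO w (wt w d) (θ 0 ^ d 0 * θ 1 ^ d 1) := by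
      have := (hpow 0 (d 0)).mul (hpow 1 (d 1))
      have h3 : wt w d = d 0 * w 0 + d 1 * w 1 := by
        simp only [wt, Fin.sum_univ_two]
        ring
      rw [h3]
      exact this
    rw [h2 v (by omega), smul_zero]

/-- Substitution in a weighted homogeneous polynomial. -/
theorem N1Cl.subst_poly {w : Fin 2 → ℕ} {θ θ' : Fin 2 → P2}
    (hθ0 : ∀ i, MvPowerSeries.constantCoeff (θ i) = 0)
    (hθ0' : ∀ i, MvPowerSeries.constantCoeff (θ' i) = 0)
    (h : ∀ i, N1Cl w (w i) (θ i) (θ' i)) {N : ℕ} {P : MvPolynomial (Fin 2) ℂ}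
    (hP : ∀ v ∈ P.support, wt w v = N) :
    N1HO w (N + 1) (MvPowerSeries.subst θ (P : P2) - MvPowerSeries.subst θ' (P : P2)) := by
  have hs := MvPowerSeries.hasSubst_of_constantCoeff_zero hθ0
  have hs' := MvPowerSeries.hasSubst_of_constantCoeff_zero hθ0'
  have hev : ∀ {τ : Fin 2 → P2}, MvPowerSeries.HasSubst τ →
      MvPowerSeries.subst τ (P : P2) = ∑ v ∈ P.support, MvPowerSeries.C (P.coeff v) *
        (τ 0 ^ v 0 * τ 1 ^ v 1) := by
    intro τ hτ
    rw [MvPowerSeries.subst_coe, MvPolynomial.aeval_def, MvPolynomial.eval₂_eq']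
    refine Finset.sum_congr rfl fun v _ => ?_
    rw [Fin.prod_univ_two]
    rfl
  rw [hev hs, hev hs', ← Finset.sum_sub_distrib]
  have key : ∀ v ∈ P.support, N1HO w (N + 1) (MvPowerSeries.C (P.coeff v) *
      (θ 0 ^ v 0 * θ 1 ^ v 1) - MvPowerSeries.C (P.coeff v) * (θ' 0 ^ v 0 * θ' 1 ^ v 1)) := by
    intro v hv
    have h1 := ((h 0).pow (v 0)).mul ((h 1).pow (v 1))
    have h3 : v 0 * w 0 + v 1 * w 1 = N := by
      rw [← hP v hv]
      simp only [wt, Fin.sum_univ_two]
      ring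
    rw [h3] at h1
    rw [← mul_sub]
    have := (N1HO.zero_le w (MvPowerSeries.C (P.coeff v))).mul h1.2.2
    rw [zero_add] at this
    exact this
  intro u hu
  rw [map_sum]
  exact Finset.sum_eq_zero fun v hv => key v hv u hu

/-- The initial form after a substitution. -/
theorem IsInit.n1subst {w : Fin 2 → ℕ} {θ θ' : Fin 2 → P2}
    (hθ0 : ∀ i, MvPowerSeries.constantCoeff (θ i) = 0)
    (hθ0' : ∀ i, MvPowerSeries.constantCoeff (θ' i) = 0)
    (h : ∀ i, N1Cl w (w i) (θ i) (θ' i)) {N : ℕ} {G : P2} {P P' : MvPolynomial (Fin 2) ℂ}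
    (hG : IsInit G w N P) (hP' : (P' : P2) = MvPowerSeries.subst θ' (P : P2)) (h0 : P' ≠ 0)
    (hN : ∀ v ∈ P'.support, wt w v = N) :
    IsInit (MvPowerSeries.subst θ G) w N P' := by
  have hs := MvPowerSeries.hasSubst_of_constantCoeff_zero hθ0
  refine ⟨h0, hN, fun v hv => ?_⟩
  have h1 : G = (P : P2) + (G - P) := by ring
  have h2 : N1HO w (N + 1) (G - (P : P2)) := fun u hu => by
    rw [map_sub, hG.2.2 u (by omega), MvPolynomial.coeff_coe, sub_self]
  have h3 := h2.subst hθ0 (fun i => (h i).1)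
  have h4 := N1Cl.subst_poly hθ0 hθ0' h hG.2.1
  rw [h1, MvPowerSeries.subst_add hs, map_add, h3 v (by omega), add_zero, ← MvPolynomial.coeff_coe,
    hP']
  have h5 := h4 v (by omega)
  rw [map_sub, sub_eq_zero] at h5
  exact h5

/-! ### The shears -/

/-- The map `X i ↦ X i`, `X j ↦ X j + φ(X i)` (for `j ≠ i`). -/
def n1sh (i : Fin 2) (φ : PowerSeries ℂ) : Fin 2 → P2 := fun k =>
  if k = i then MvPowerSeries.X k
  else MvPowerSeries.X k + PowerSeries.subst (MvPowerSeries.X i : P2) φ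

theorem n1sh_zero (φ : PowerSeries ℂ) : n1sh 0 φ = shY φ := by
  funext k
  fin_cases k
  · simp [n1sh, shY]
  · simp [n1sh, shY]

theorem n1sh_one (φ : PowerSeries ℂ) : n1sh 1 φ = shX φ := by
  funext k
  fin_cases k
  · simp [n1sh, shX]
  · simp [n1sh, shX]

theorem n1sh_const {i : Fin 2} {φ : PowerSeries ℂ} (hφ : PowerSeries.constantCoeff φ = 0)
    (k : Fin 2) : MvPowerSeries.constantCoeff (n1sh i φ k) = 0 := by
  unfold n1sh
  split_ifs with h
  · exact MvPowerSeries.constantCoeff_X k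
  · rw [map_add, MvPowerSeries.constantCoeff_X, zero_add]
    exact PowerSeries.constantCoeff_subst_eq_zero (MvPowerSeries.constantCoeff_X i) φ hφ

theorem n1sh_hasSubst {i : Fin 2} {φ : PowerSeries ℂ} (hφ : PowerSeries.constantCoeff φ = 0) :
    MvPowerSeries.HasSubst (n1sh i φ) :=
  MvPowerSeries.hasSubst_of_constantCoeff_zero (n1sh_const hφ)

theorem n1sh_comp {i : Fin 2} {φ ψ : PowerSeries ℂ} (hφ : PowerSeries.constantCoeff φ = 0)
    (hψ : PowerSeries.constantCoeff ψ = 0) (F : P2) :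
    MvPowerSeries.subst (n1sh i ψ) (MvPowerSeries.subst (n1sh i φ) F) =
      MvPowerSeries.subst (n1sh i (φ + ψ)) F := by
  rw [MvPowerSeries.subst_comp_subst_apply (n1sh_hasSubst hφ) (n1sh_hasSubst hψ)]
  congr 1
  funext k
  have hi : MvPowerSeries.subst (n1sh i ψ) (MvPowerSeries.X i : P2) = MvPowerSeries.X i := by
    rw [MvPowerSeries.subst_X (n1sh_hasSubst hψ)]
    simp [n1sh]
  by_cases hk : k = i
  · subst hk
    have h1 : n1sh k φ k = MvPowerSeries.X k := by simp [n1sh]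
    have h2 : n1sh k (φ + ψ) k = MvPowerSeries.X k := by simp [n1sh]
    rw [h1, h2, hi]
  · have h1 : n1sh i φ k = MvPowerSeries.X k + PowerSeries.subst (MvPowerSeries.X i : P2) φ := by
      simp [n1sh, hk]
    have h2 : n1sh i (φ + ψ) k = MvPowerSeries.X k +
        PowerSeries.subst (MvPowerSeries.X i : P2) (φ + ψ) := by
      simp [n1sh, hk]
    have h3 : n1sh i ψ k = MvPowerSeries.X k + PowerSeries.subst (MvPowerSeries.X i : P2) ψ := by
      simp [n1sh, hk]
    rw [h1, h2, MvPowerSeries.subst_add (n1sh_hasSubst hψ), MvPowerSeries.subst_X (n1sh_hasSubst hψ),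
      h3, PowerSeries.subst_add (PowerSeries.HasSubst.X i)]
    have h4 : MvPowerSeries.subst (n1sh i ψ) (PowerSeries.subst (MvPowerSeries.X i : P2) φ) =
        PowerSeries.subst (MvPowerSeries.X i : P2) φ := by
      rw [PowerSeries.subst_def, MvPowerSeries.subst_comp_subst_apply
        (PowerSeries.HasSubst.X i).const (n1sh_hasSubst hψ)]
      simp only [hi]
    rw [h4]
    ring

theorem n1sh_id (i : Fin 2) (F : P2) : MvPowerSeries.subst (n1sh i 0) F = F := by
  have h : n1sh i 0 = MvPowerSeries.X := by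
    funext k
    unfold n1sh
    have h0 : PowerSeries.subst (MvPowerSeries.X i : P2) (0 : PowerSeries ℂ) = 0 := by
      rw [← PowerSeries.coe_substAlgHom (PowerSeries.HasSubst.X i), map_zero]
    rw [h0, add_zero]
    split_ifs <;> rfl
  rw [h, MvPowerSeries.subst_self]
  rfl

theorem n1sh_neg {i : Fin 2} {φ : PowerSeries ℂ} (hφ : PowerSeries.constantCoeff φ = 0) (F : P2) :
    MvPowerSeries.subst (n1sh i (-φ)) (MvPowerSeries.subst (n1sh i φ) F) = F := by
  rw [n1sh_comp hφ (by rw [map_neg, hφ, neg_zero]), add_neg_cancel, n1sh_id]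

theorem n1wt_single (w : Fin 2 → ℕ) (i : Fin 2) (k : ℕ) :
    wt w (Finsupp.single i k) = w i * k := by
  unfold wt
  rw [Finset.sum_eq_single i]
  · simp
  · intro j _ hj
    rw [Finsupp.single_eq_of_ne hj]
    simp
  · intro h; exact absurd (Finset.mem_univ i) h

theorem N1HO.X (w : Fin 2 → ℕ) (i : Fin 2) : N1HO w (w i) (MvPowerSeries.X i : P2) := by
  classical
  intro v hv
  rw [MvPowerSeries.coeff_X, if_neg]
  rintro rfl
  rw [n1wt_single] at hv
  omega

/-- The model of the shear: `X j ↦ X j + b (X i)^e`. -/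
def n1md (i : Fin 2) (b : ℂ) (e : ℕ) : Fin 2 → MvPolynomial (Fin 2) ℂ := fun k =>
  if k = i then X k else X k + C b * X i ^ e

theorem n1md_coe (i : Fin 2) (b : ℂ) (e : ℕ) (k : Fin 2) : (n1md i b e k : P2) =
    if k = i then MvPowerSeries.X k else
      MvPowerSeries.X k + MvPowerSeries.C b * MvPowerSeries.X i ^ e := by
  unfold n1md
  split_ifs
  · simp
  · simp

theorem n1md_const {i : Fin 2} {b : ℂ} {e : ℕ} (he : 0 < e) (k : Fin 2) :
    MvPowerSeries.constantCoeff (n1md i b e k : P2) = 0 := by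
  rw [n1md_coe]
  split_ifs
  · exact MvPowerSeries.constantCoeff_X k
  · rw [map_add, map_mul, map_pow, MvPowerSeries.constantCoeff_X, MvPowerSeries.constantCoeff_X,
      zero_pow he.ne', mul_zero, add_zero]

theorem n1sh_cl {i : Fin 2} {φ : PowerSeries ℂ} {w : Fin 2 → ℕ} {b : ℂ} {e : ℕ}
    (hb : b = 0 ∨ ∀ k, k ≠ i → w k ≤ w i * e)
    (hc : ∀ k, k ≠ i → ∀ m, w i * m ≤ w k → PowerSeries.coeff m φ = if m = e then b else 0)
    (k : Fin 2) : N1Cl w (w k) (n1sh i φ k) (n1md i b e k : P2) := by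
  classical
  rw [n1md_coe]
  unfold n1sh
  split_ifs with hk
  · exact ⟨N1HO.X w k, N1HO.X w k, by rw [sub_self]; exact N1HO.zero _ _⟩
  · have hp : N1HO w (w k) (MvPowerSeries.C b * MvPowerSeries.X i ^ e : P2) := by
      rcases hb with rfl | hb
      · rw [map_zero, zero_mul]; exact N1HO.zero _ _
      · intro v hv
        rw [MvPowerSeries.coeff_C_mul, MvPowerSeries.coeff_X_pow, if_neg, mul_zero]
        rintro rfl
        rw [n1wt_single] at hv
        have := hb k hk
        omega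
    have hd : N1HO w (w k + 1) (PowerSeries.subst (MvPowerSeries.X i : P2) φ -
        MvPowerSeries.C b * MvPowerSeries.X i ^ e) := by
      intro v hv
      rw [map_sub, PowerSeries.coeff_subst_single, MvPowerSeries.coeff_C_mul,
        MvPowerSeries.coeff_X_pow]
      by_cases h1 : v = Finsupp.single i (v i)
      · rw [if_pos h1]
        have h2 : w i * v i ≤ w k := by
          rw [h1, n1wt_single] at hv
          omega
        rw [hc k hk _ h2]
        by_cases h3 : v i = e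
        · rw [if_pos h3, if_pos (by rw [← h3]; exact h1)]
          simp
        · rw [if_neg h3, if_neg]
          · simp
          · intro h4
            apply h3
            rw [h4]
            simp
      · rw [if_neg h1, if_neg]
        · simp
        · rintro rfl
          apply h1
          simp
    refine ⟨(N1HO.X w k).add ?_, (N1HO.X w k).add hp, ?_⟩
    · have := (hd.mono (Nat.le_succ _)).add hp
      rwa [sub_add_cancel] at this
    · rw [add_sub_add_left_eq_sub]
      exact hd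

/-- The initial form after a shear. -/
theorem IsInit.n1sh {i : Fin 2} {φ : PowerSeries ℂ} (hφ : PowerSeries.constantCoeff φ = 0)
    {w : Fin 2 → ℕ} {b : ℂ} {e : ℕ} (he : 0 < e)
    (hb : b = 0 ∨ ∀ k, k ≠ i → w k ≤ w i * e)
    (hc : ∀ k, k ≠ i → ∀ m, w i * m ≤ w k → PowerSeries.coeff m φ = if m = e then b else 0)
    {N : ℕ} {G : P2} {P P' : MvPolynomial (Fin 2) ℂ} (hG : IsInit G w N P)
    (hP' : P' = MvPolynomial.aeval (n1md i b e) P) (h0 : P' ≠ 0)
    (hN : ∀ v ∈ P'.support, wt w v = N) :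
    IsInit (MvPowerSeries.subst (PC.n1sh i φ) G) w N P' := by
  refine IsInit.n1subst (n1sh_const hφ) (n1md_const he) (n1sh_cl hb hc) hG ?_ h0 hN
  rw [hP', MvPowerSeries.subst_coe]
  have h1 : ∀ Q : MvPolynomial (Fin 2) ℂ, ((MvPolynomial.aeval (n1md i b e) Q :
      MvPolynomial (Fin 2) ℂ) : P2) = MvPolynomial.aeval (fun k => (n1md i b e k : P2)) Q := by
    intro Q
    induction Q using MvPolynomial.induction_on with
    | C a => simp [MvPolynomial.algebraMap_eq]; rfl
    | add p q hp hq => rw [map_add, map_add, MvPolynomial.coe_add, hp, hq]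
    | mul_X p n hp => rw [map_mul, map_mul, MvPolynomial.coe_mul, hp]; simp
  exact h1 P

theorem n1md_zero (i : Fin 2) (e : ℕ) (P : MvPolynomial (Fin 2) ℂ) :
    MvPolynomial.aeval (n1md i 0 e) P = P := by
  have h : n1md i 0 e = MvPolynomial.X := by
    funext k
    unfold n1md
    split_ifs
    · rfl
    · simp
  rw [h, MvPolynomial.aeval_X_left]
  rfl

/-- Shears of high order do not change the initial form. -/
theorem IsInit.n1keep {i : Fin 2} {φ : PowerSeries ℂ} (hφ : PowerSeries.constantCoeff φ = 0)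
    {w : Fin 2 → ℕ} (hc : ∀ k, k ≠ i → ∀ m, w i * m ≤ w k → PowerSeries.coeff m φ = 0)
    {N : ℕ} {G : P2} {P : MvPolynomial (Fin 2) ℂ} (hG : IsInit G w N P) :
    IsInit (MvPowerSeries.subst (PC.n1sh i φ) G) w N P := by
  refine IsInit.n1sh hφ (b := 0) (e := 1) one_pos (Or.inl rfl) (fun k hk m hm => ?_) hG
    (n1md_zero i 1 P).symm hG.1 hG.2.1
  rw [hc k hk m hm]
  simp

theorem n1mono_eq (i j : Fin 2) (r m : ℕ) (lam : ℂ) :
    (C lam * X i ^ r * X j ^ m : MvPolynomial (Fin 2) ℂ) =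
      monomial (Finsupp.single i r + Finsupp.single j m) lam := by
  rw [X_pow_eq_monomial, X_pow_eq_monomial, mul_assoc, monomial_mul, C_mul_monomial]
  simp

theorem n1mono_ne {i j : Fin 2} {r m : ℕ} {lam : ℂ} (h : lam ≠ 0) :
    (C lam * X i ^ r * X j ^ m : MvPolynomial (Fin 2) ℂ) ≠ 0 := by
  rw [n1mono_eq]
  intro h0
  exact h ((monomial_eq_zero).1 h0)

theorem n1mono_wt {i j : Fin 2} {r m : ℕ} {lam : ℂ} {w : Fin 2 → ℕ}
    {v : Fin 2 →₀ ℕ} (hv : v ∈ (C lam * X i ^ r * X j ^ m : MvPolynomial (Fin 2) ℂ).support) :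
    wt w v = w i * r + w j * m := by
  rw [n1mono_eq] at hv
  have h1 := support_monomial_subset hv
  rw [Finset.mem_singleton] at h1
  rw [h1, n1wt_add, n1wt_single, n1wt_single]

/-- The initial form is `lam (X i)^r (X j - c (X i)^q)^m`. -/
def N1Bad (i j : Fin 2) (w : Fin 2 → ℕ) (q : ℕ) (c : ℂ) (G : P2) : Prop :=
  ∃ (r m : ℕ) (lam : ℂ), 0 < m ∧ c ≠ 0 ∧ lam ≠ 0 ∧
    IsInit G w (r + q * m) (C lam * X i ^ r * (X j - C c * X i ^ q) ^ m)

theorem n1bad_mono {i j : Fin 2} (hij : j ≠ i) {q r m r' m' : ℕ} {c lam lam' : ℂ} (hm : 0 < m)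
    (hc : c ≠ 0) (hl : lam' ≠ 0) : (C lam * X i ^ r * (X j - C c * X i ^ q) ^ m :
      MvPolynomial (Fin 2) ℂ) ≠ C lam' * X i ^ r' * X j ^ m' := by
  intro h
  have h1 := congrArg (MvPolynomial.eval (fun k => if k = j then c else 1)) h
  simp only [map_mul, map_pow, map_sub, eval_C, eval_X, if_pos, if_neg hij.symm, one_pow, mul_one,
    sub_self] at h1
  rw [zero_pow hm.ne', mul_zero] at h1
  exact (mul_ne_zero hl (pow_ne_zero m' hc)) h1.symm

theorem N1Bad.kill {i j : Fin 2} (hij : j ≠ i) {w : Fin 2 → ℕ} {q : ℕ} (hq : 0 < q)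
    (hwi : w i = 1) (hwj : w j = q) {c : ℂ} {r m : ℕ} {lam : ℂ} (hl : lam ≠ 0) {G : P2}
    (hG : IsInit G w (r + q * m) (C lam * X i ^ r * (X j - C c * X i ^ q) ^ m))
    {φ : PowerSeries ℂ} (hφ : ∀ k < q, PowerSeries.coeff k φ = 0)
    (hφq : PowerSeries.coeff q φ = c) :
    IsInit (MvPowerSeries.subst (n1sh i φ) G) w (r + q * m) (C lam * X i ^ r * X j ^ m) := by
  have h0 : PowerSeries.constantCoeff φ = 0 := by
    rw [← PowerSeries.coeff_zero_eq_constantCoeff_apply]; exact hφ 0 hq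
  have hk2 : ∀ k : Fin 2, k ≠ i → k = j := by
    intro k hk
    omega
  refine IsInit.n1sh h0 (b := c) (e := q) hq (Or.inr fun k hk => ?_) (fun k hk n hn => ?_) hG ?_
    (n1mono_ne hl) (fun v hv => ?_)
  · rw [hk2 k hk, hwi, hwj, one_mul]
  · rw [hk2 k hk, hwi, hwj, one_mul] at hn
    rcases hn.eq_or_lt with h | h
    · rw [h, hφq, if_pos rfl]
    · rw [hφ n h, if_neg h.ne]
  · simp only [map_mul, map_pow, map_sub, MvPolynomial.aeval_X, MvPolynomial.aeval_C,
      MvPolynomial.algebraMap_eq]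
    have h1 : n1md i c q i = X i := by simp [n1md]
    have h2 : n1md i c q j = X j + C c * X i ^ q := by simp [n1md, hij]
    rw [h1, h2, add_sub_cancel_right]
  · rw [n1mono_wt hv, hwi, hwj, one_mul]

theorem n1exists {i j : Fin 2} (hij : j ≠ i) (W : ℕ → Fin 2 → ℕ) (hWi : ∀ q, W q i = 1)
    (hWj : ∀ q, W q j = q) (F : P2) : ∃ φ : PowerSeries ℂ,
    PowerSeries.constantCoeff φ = 0 ∧
    (∀ q c, 0 < q → ¬ N1Bad i j (W q) q c (MvPowerSeries.subst (n1sh i φ) F)) ∧
    (PowerSeries.coeff 1 φ ≠ 0 → N1Bad i j (W 1) 1 (PowerSeries.coeff 1 φ) F) := by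
  classical
  set cc : ℕ → PowerSeries ℂ → ℂ := fun n φ =>
    if h : ∃ c, 0 < n ∧ N1Bad i j (W n) n c (MvPowerSeries.subst (n1sh i φ) F) then h.choose
      else 0 with hcc
  obtain ⟨s, hs0, hss⟩ : ∃ s : ℕ → PowerSeries ℂ, s 0 = 0 ∧
      ∀ n, s (n + 1) = s n + PowerSeries.monomial n (cc n (s n)) :=
    ⟨fun n => Nat.rec 0 (fun n φ => φ + PowerSeries.monomial n (cc n φ)) n, rfl, fun n => rfl⟩
  have hcoef : ∀ n m, PowerSeries.coeff m (s n) = if m < n then cc m (s m) else 0 := by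
    intro n m
    induction n with
    | zero => rw [hs0]; simp
    | succ n ih =>
      rw [hss, map_add, ih, PowerSeries.coeff_monomial]
      rcases lt_trichotomy m n with h | h | h
      · rw [if_pos h, if_neg h.ne, if_pos (by omega), add_zero]
      · subst h
        rw [if_neg (lt_irrefl _), if_pos rfl, if_pos (by omega), zero_add]
      · rw [if_neg (by omega), if_neg (by omega), if_neg (by omega), add_zero]
  have hc0 : ∀ φ, cc 0 φ = 0 := fun φ => by
    simp only [hcc]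
    rw [dif_neg]
    rintro ⟨c, h, _⟩
    exact absurd h (lt_irrefl _)
  have hsc : ∀ n, PowerSeries.constantCoeff (s n) = 0 := fun n => by
    rw [← PowerSeries.coeff_zero_eq_constantCoeff_apply, hcoef]
    split_ifs
    · exact hc0 _
    · rfl
  set φ : PowerSeries ℂ := PowerSeries.mk fun n => cc n (s n) with hφ
  have hφc : PowerSeries.constantCoeff φ = 0 := by
    rw [← PowerSeries.coeff_zero_eq_constantCoeff_apply, hφ, PowerSeries.coeff_mk]
    exact hc0 _
  have hk2 : ∀ k : Fin 2, k ≠ i → k = j := by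
    intro k hk
    omega
  refine ⟨φ, hφc, ?_, ?_⟩
  · rintro q c hq ⟨r, m, lam, hm, hc, hl, hin⟩
    -- compare with the truncation
    set ψ : PowerSeries ℂ := s (q + 1) - φ with hψ
    have hψc : PowerSeries.constantCoeff ψ = 0 := by rw [hψ, map_sub, hsc, hφc, sub_zero]
    have h1 := IsInit.n1keep (i := i) hψc (fun k hk n hn => by
      rw [hk2 k hk, hWi, hWj, one_mul] at hn
      rw [hψ, map_sub, hcoef, if_pos (by omega), hφ, PowerSeries.coeff_mk, sub_self]) hin
    rw [n1sh_comp hφc hψc, hψ, add_sub_cancel, hss] at h1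
    have hmc : PowerSeries.constantCoeff (PowerSeries.monomial q (cc q (s q)) : PowerSeries ℂ) = 0 := by
      rw [← PowerSeries.coeff_zero_eq_constantCoeff_apply, PowerSeries.coeff_monomial,
        if_neg hq.ne]
    by_cases h : ∃ c, 0 < q ∧ N1Bad i j (W q) q c (MvPowerSeries.subst (n1sh i (s q)) F)
    · have h2 : cc q (s q) = h.choose := by
        simp only [hcc]
        rw [dif_pos h]
      obtain ⟨_, r', m', lam', hm', hc', hl', hin'⟩ := h.choose_spec
      rw [← h2] at hin'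
      have h3 := N1Bad.kill hij hq (hWi q) (hWj q) hl' hin'
        (φ := PowerSeries.monomial q (cc q (s q))) (fun k hk => by
          rw [PowerSeries.coeff_monomial, if_neg hk.ne]) (by
          rw [PowerSeries.coeff_monomial, if_pos rfl])
      rw [n1sh_comp (hsc q) hmc] at h3
      exact n1bad_mono hij hm hc hl' (IsInit.unique h1 h3).2
    · have h2 : cc q (s q) = 0 := by
        simp only [hcc]
        rw [dif_neg h]
      rw [h2, map_zero, add_zero] at h1
      exact h ⟨c, hq, r, m, lam, hm, hc, hl, h1⟩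
  · intro h1
    rw [hφ, PowerSeries.coeff_mk] at h1 ⊢
    have hs1 : s 1 = 0 := by
      have := hss 0
      rw [hs0, hc0, map_zero, add_zero] at this
      exact this
    rw [hs1] at h1 ⊢
    by_cases h : ∃ c, 0 < 1 ∧ N1Bad i j (W 1) 1 c (MvPowerSeries.subst (n1sh i 0) F)
    · have h2 : cc 1 0 = h.choose := by
        simp only [hcc]
        rw [dif_pos h]
      have key : ∀ G : P2, G = F → ∀ c, N1Bad i j (W 1) 1 c G → N1Bad i j (W 1) 1 c F := by
        rintro G rfl c hG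
        exact hG
      rw [h2]
      exact key _ (n1sh_id i F) _ h.choose_spec.2
    · exfalso
      apply h1
      simp only [hcc]
      rw [dif_neg h]

theorem n1bad_mono' {i j a b : Fin 2} (hij : j ≠ i) {q r m r' m' : ℕ} {c lam lam' : ℂ}
    (hm : 0 < m) (hc : c ≠ 0) (hl : lam' ≠ 0) : (C lam * X i ^ r * (X j - C c * X i ^ q) ^ m :
      MvPolynomial (Fin 2) ℂ) ≠ C lam' * X a ^ r' * X b ^ m' := by
  intro h
  have h1 := congrArg (MvPolynomial.eval (fun k => if k = j then c else 1)) h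
  simp only [map_mul, map_pow, map_sub, eval_C, eval_X, if_pos, if_neg hij.symm, one_pow, mul_one,
    sub_self] at h1
  rw [zero_pow hm.ne', mul_zero] at h1
  refine absurd h1.symm (mul_ne_zero (mul_ne_zero hl (pow_ne_zero r' ?_)) (pow_ne_zero m' ?_))
  · split_ifs
    · exact hc
    · exact one_ne_zero
  · split_ifs
    · exact hc
    · exact one_ne_zero

theorem n1bad2_mono {a b : Fin 2} {m m₂ r' m' : ℕ} {c c₂ lam lam' : ℂ} (hm : 0 < m)
    (hc : c ≠ 0) (hl : lam' ≠ 0) : (C lam * (X 1 - C c * X 0) ^ m * (X 1 - C c₂ * X 0) ^ m₂ :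
      MvPolynomial (Fin 2) ℂ) ≠ C lam' * X a ^ r' * X b ^ m' := by
  intro h
  have h1 := congrArg (MvPolynomial.eval (fun k : Fin 2 => if k = 1 then c else 1)) h
  have h01 : (0 : Fin 2) ≠ 1 := by decide
  simp only [map_mul, map_pow, map_sub, eval_C, eval_X, if_pos, if_neg h01, one_pow, mul_one,
    sub_self] at h1
  rw [zero_pow hm.ne', mul_zero, zero_mul] at h1
  refine absurd h1.symm (mul_ne_zero (mul_ne_zero hl (pow_ne_zero r' ?_)) (pow_ne_zero m' ?_))
  · split_ifs
    · exact hc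
    · exact one_ne_zero
  · split_ifs
    · exact hc
    · exact one_ne_zero

theorem n1hom {P : MvPolynomial (Fin 2) ℂ} {N : ℕ} (h : P.IsHomogeneous N) :
    ∀ v ∈ P.support, wt ![1, 1] v = N := by
  intro v hv
  rw [mem_support_iff] at hv
  have h1 := h hv
  rw [← h1]
  simp [wt, Fin.sum_univ_two, Finsupp.weight_apply, Finsupp.sum_fintype]

theorem n1w_one (q : ℕ) : (![1, q] : Fin 2 → ℕ) 0 = 1 ∧ (![1, q] : Fin 2 → ℕ) 1 = q := ⟨rfl, rfl⟩

/-- Normalization of `y`; a linear term of `φ` is only needed if the tangent cone is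
`x^r (y - c x)^m`. -/
theorem exists_shY (F : P2) : ∃ φ : PowerSeries ℂ,
    PowerSeries.constantCoeff φ = 0 ∧ ¬ BadY (MvPowerSeries.subst (shY φ) F) ∧
    (PowerSeries.coeff 1 φ ≠ 0 → ∃ (r m : ℕ) (lam : ℂ), 0 < m ∧ lam ≠ 0 ∧
      IsInit F ![1, 1] (r + m) (C lam * X 0 ^ r *
        (X 1 - C (PowerSeries.coeff 1 φ) * X 0) ^ m)) := by
  obtain ⟨φ, h1, h2, h3⟩ := n1exists (i := 0) (j := 1) (by decide) (fun q => ![1, q])
    (fun q => rfl) (fun q => rfl) F
  refine ⟨φ, h1, ?_, fun h => ?_⟩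
  · rintro ⟨q, r, m, c, lam, hq, hm, hc, hl, hin⟩
    rw [← n1sh_zero] at hin
    exact h2 q c hq ⟨r, m, lam, hm, hc, hl, hin⟩
  · obtain ⟨r, m, lam, hm, hc, hl, hin⟩ := h3 h
    rw [one_mul, pow_one] at hin
    exact ⟨r, m, lam, hm, hl, hin⟩

/-- The same for `x`. -/
theorem exists_shX (F : P2) : ∃ ψ : PowerSeries ℂ,
    PowerSeries.constantCoeff ψ = 0 ∧ ¬ BadX (MvPowerSeries.subst (shX ψ) F) ∧
    (PowerSeries.coeff 1 ψ ≠ 0 → ∃ (r m : ℕ) (lam : ℂ), 0 < m ∧ lam ≠ 0 ∧
      IsInit F ![1, 1] (r + m) (C lam * X 1 ^ r *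
        (X 0 - C (PowerSeries.coeff 1 ψ) * X 1) ^ m)) := by
  obtain ⟨φ, h1, h2, h3⟩ := n1exists (i := 1) (j := 0) (by decide) (fun q => ![q, 1])
    (fun q => rfl) (fun q => rfl) F
  refine ⟨φ, h1, ?_, fun h => ?_⟩
  · rintro ⟨q, r, m, c, lam, hq, hm, hc, hl, hin⟩
    rw [← n1sh_one] at hin
    exact h2 q c hq ⟨r, m, lam, hm, hc, hl, hin⟩
  · obtain ⟨r, m, lam, hm, hc, hl, hin⟩ := h3 h
    rw [one_mul, pow_one] at hin
    exact ⟨r, m, lam, hm, hl, hin⟩

/-- Step 0: two lines are moved to the coordinate axes. -/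
theorem n1step0 (F : P2) : ∃ φ ψ : PowerSeries ℂ,
    PowerSeries.constantCoeff φ = 0 ∧ PowerSeries.constantCoeff ψ = 0 ∧
    ¬ Bad2 (MvPowerSeries.subst (n1sh 1 ψ) (MvPowerSeries.subst (n1sh 0 φ) F)) := by
  by_cases h : Bad2 F
  · obtain ⟨m, m', c, c', lam, hm, hm', hc, hc', hcc, hl, hin⟩ := h
    have hd : c' - c ≠ 0 := sub_ne_zero.2 (Ne.symm hcc)
    have hmc : ∀ b : ℂ, PowerSeries.constantCoeff (PowerSeries.monomial 1 b : PowerSeries ℂ) = 0 := by
      intro b
      rw [← PowerSeries.coeff_zero_eq_constantCoeff_apply, PowerSeries.coeff_monomial,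
        if_neg zero_ne_one]
    have hk2 : ∀ k : Fin 2, k ≠ 0 → k = 1 := by
      intro k hk
      omega
    have hk3 : ∀ k : Fin 2, k ≠ 1 → k = 0 := by
      intro k hk
      omega
    have hh : (C lam * X 1 ^ m * (X 1 - C (c' - c) * X 0) ^ m' :
        MvPolynomial (Fin 2) ℂ).IsHomogeneous (m + m') := by
      have h1 : (C lam * X 1 ^ m : MvPolynomial (Fin 2) ℂ).IsHomogeneous m := by
        have := (isHomogeneous_C (Fin 2) lam).mul ((isHomogeneous_X ℂ (1 : Fin 2)).pow m)
        simpa using this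
      have h2 : (X 1 - C (c' - c) * X 0 : MvPolynomial (Fin 2) ℂ).IsHomogeneous 1 := by
        have := (isHomogeneous_C (Fin 2) (c' - c)).mul (isHomogeneous_X ℂ (0 : Fin 2))
        rw [zero_add] at this
        exact (isHomogeneous_X ℂ (1 : Fin 2)).sub this
      have h3 := h1.mul (h2.pow m')
      rw [one_mul] at h3
      exact h3
    have h1 : IsInit (MvPowerSeries.subst (n1sh 0 (PowerSeries.monomial 1 c)) F) ![1, 1] (m + m')
        (C lam * X 1 ^ m * (X 1 - C (c' - c) * X 0) ^ m') := by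
      refine IsInit.n1sh (hmc c) (b := c) (e := 1) one_pos (Or.inr fun k hk => ?_)
        (fun k hk n hn => ?_) hin ?_ ?_ (n1hom hh)
      · rw [hk2 k hk]; simp
      · rw [PowerSeries.coeff_monomial]
      · have h1 : n1md 0 c 1 0 = X 0 := by simp [n1md]
        have h2 : n1md 0 c 1 1 = X 1 + C c * X 0 := by simp [n1md]
        simp only [map_mul, map_pow, map_sub, MvPolynomial.aeval_X, MvPolynomial.aeval_C,
          MvPolynomial.algebraMap_eq]
        rw [h1, h2, add_sub_cancel_right]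
        ring
      · intro h0
        have h2 := congrArg (MvPolynomial.eval (fun k : Fin 2 => if k = 1 then (1 : ℂ) else 0)) h0
        have h01 : (0 : Fin 2) ≠ 1 := by decide
        simp only [map_mul, map_pow, map_sub, eval_C, eval_X, if_pos, if_neg h01, one_pow,
          mul_one, mul_zero, sub_zero, map_zero] at h2
        exact hl h2
    have h2 : IsInit (MvPowerSeries.subst (n1sh 1 (PowerSeries.monomial 1 (c' - c)⁻¹))
        (MvPowerSeries.subst (n1sh 0 (PowerSeries.monomial 1 c)) F)) ![1, 1] (m + m')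
        (C (lam * (-(c' - c)) ^ m') * X 1 ^ m * X 0 ^ m') := by
      refine IsInit.n1sh (hmc _) (b := (c' - c)⁻¹) (e := 1) one_pos (Or.inr fun k hk => ?_)
        (fun k hk n hn => ?_) h1 ?_ (n1mono_ne (mul_ne_zero hl (pow_ne_zero _ (neg_ne_zero.2 hd))))
        (fun v hv => ?_)
      · rw [hk3 k hk]; simp
      · rw [PowerSeries.coeff_monomial]
      · have h1 : n1md 1 (c' - c)⁻¹ 1 1 = X 1 := by simp [n1md]
        have h2 : n1md 1 (c' - c)⁻¹ 1 0 = X 0 + C (c' - c)⁻¹ * X 1 := by simp [n1md]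
        simp only [map_mul, map_pow, map_sub, MvPolynomial.aeval_X, MvPolynomial.aeval_C,
          MvPolynomial.algebraMap_eq]
        rw [h1, h2]
        have h3 : (X 1 - (C c' - C c) * (X 0 + C (c' - c)⁻¹ * X 1) : MvPolynomial (Fin 2) ℂ) =
            C (-(c' - c)) * X 0 := by
          have h4 : (C c' - C c : MvPolynomial (Fin 2) ℂ) * C (c' - c)⁻¹ = 1 := by
            rw [← C_sub, ← C_mul, mul_inv_cancel₀ hd, C_1]
          rw [mul_add, ← mul_assoc, h4, C_neg, C_sub]
          ring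
        rw [h3, mul_pow, C_neg, C_sub]
        ring
      · rw [n1mono_wt hv]; simp
    refine ⟨_, _, hmc c, hmc (c' - c)⁻¹, ?_⟩
    rintro ⟨a, a', b, b', μ, ha, _, hb, _, _, _, hin'⟩
    exact n1bad2_mono ha hb (mul_ne_zero hl (pow_ne_zero _ (neg_ne_zero.2 hd)))
      (IsInit.unique hin' h2).2
  · exact ⟨0, 0, map_zero _, map_zero _, by rw [n1sh_id, n1sh_id]; exact h⟩

/-- All normalizations at the same time. -/
theorem exists_first {F : P2} (hF : F ≠ 0) : ∃ φ₁ ψ₁ φ ψ : PowerSeries ℂ,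
    PowerSeries.constantCoeff φ₁ = 0 ∧ PowerSeries.constantCoeff ψ₁ = 0 ∧
    PowerSeries.constantCoeff φ = 0 ∧ PowerSeries.constantCoeff ψ = 0 ∧
    ¬ BadY (MvPowerSeries.subst (shX ψ) (MvPowerSeries.subst (shY φ)
      (MvPowerSeries.subst (shX ψ₁) (MvPowerSeries.subst (shY φ₁) F)))) ∧
    ¬ BadX (MvPowerSeries.subst (shX ψ) (MvPowerSeries.subst (shY φ)
      (MvPowerSeries.subst (shX ψ₁) (MvPowerSeries.subst (shY φ₁) F)))) ∧
    ¬ Bad2 (MvPowerSeries.subst (shX ψ) (MvPowerSeries.subst (shY φ)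
      (MvPowerSeries.subst (shX ψ₁) (MvPowerSeries.subst (shY φ₁) F)))) := by
  obtain ⟨φ₁, ψ₁, hφ₁, hψ₁, h2⟩ := n1step0 F
  rw [n1sh_zero, n1sh_one] at h2
  set F₁ : P2 := MvPowerSeries.subst (shX ψ₁) (MvPowerSeries.subst (shY φ₁) F) with hF₁
  obtain ⟨φ, hφ, hY, hYl⟩ := n1exists (i := 0) (j := 1) (by decide) (fun q => ![1, q])
    (fun q => rfl) (fun q => rfl) F₁
  rw [n1sh_zero] at hY
  set F₂ : P2 := MvPowerSeries.subst (shY φ) F₁ with hF₂
  obtain ⟨ψ, hψ, hX, hXl⟩ := n1exists (i := 1) (j := 0) (by decide) (fun q => ![q, 1])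
    (fun q => rfl) (fun q => rfl) F₂
  rw [n1sh_one] at hX
  refine ⟨φ₁, ψ₁, φ, ψ, hφ₁, hψ₁, hφ, hψ, ?_, ?_, ?_⟩
  · rintro ⟨q, r, m, c, lam, hq, hm, hc, hl, hin⟩
    by_cases hb : PowerSeries.coeff 1 ψ ≠ 0 ∧ q = 1
    · obtain ⟨hb1, rfl⟩ := hb
      obtain ⟨r', m', lam', hm', hc', hl', hin'⟩ := hXl hb1
      have h3 := N1Bad.kill (i := 1) (j := 0) (by decide) one_pos rfl rfl hl' hin' (φ := ψ)
        (fun k hk => by
          have : k = 0 := by omega
          rw [this, PowerSeries.coeff_zero_eq_constantCoeff_apply, hψ]) rfl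
      rw [n1sh_one] at h3
      exact n1bad_mono' (by decide) hm hc hl' (IsInit.unique hin h3).2
    · have h3 := IsInit.n1keep (i := 1) (φ := -ψ) (by rw [map_neg, hψ, neg_zero])
        (fun k hk n hn => by
          have hk0 : k = 0 := by omega
          subst hk0
          have hn' : q * n ≤ 1 := hn
          rw [map_neg, neg_eq_zero]
          rcases Nat.eq_zero_or_pos n with h | h
          · rw [h, PowerSeries.coeff_zero_eq_constantCoeff_apply, hψ]
          · have hq1 : q = 1 := by nlinarith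
            have hn1 : n = 1 := by nlinarith
            rw [hn1]
            by_contra hne
            exact hb ⟨hne, hq1⟩) hin
      rw [← n1sh_one, n1sh_neg hψ] at h3
      exact hY q c hq ⟨r, m, lam, hm, hc, hl, h3⟩
  · rintro ⟨q, r, m, c, lam, hq, hm, hc, hl, hin⟩
    exact hX q c hq ⟨r, m, lam, hm, hc, hl, hin⟩
  · rintro ⟨m, m', c, c', lam, hm, hm', hc, hc', hcc, hl, hin⟩
    by_cases hb : PowerSeries.coeff 1 ψ = 0
    · have h3 := IsInit.n1keep (i := 1) (φ := -ψ) (by rw [map_neg, hψ, neg_zero])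
        (fun k hk n hn => by
          have hk0 : k = 0 := by omega
          subst hk0
          have hn' : 1 * n ≤ 1 := hn
          rw [map_neg, neg_eq_zero]
          rcases Nat.eq_zero_or_pos n with h | h
          · rw [h, PowerSeries.coeff_zero_eq_constantCoeff_apply, hψ]
          · have hn1 : n = 1 := by omega
            rw [hn1, hb]) hin
      rw [← n1sh_one, n1sh_neg hψ] at h3
      by_cases hb' : PowerSeries.coeff 1 φ = 0
      · have h4 := IsInit.n1keep (i := 0) (φ := -φ) (by rw [map_neg, hφ, neg_zero])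
          (fun k hk n hn => by
            have hk0 : k = 1 := by omega
            subst hk0
            have hn' : 1 * n ≤ 1 := hn
            rw [map_neg, neg_eq_zero]
            rcases Nat.eq_zero_or_pos n with h | h
            · rw [h, PowerSeries.coeff_zero_eq_constantCoeff_apply, hφ]
            · have hn1 : n = 1 := by omega
              rw [hn1, hb']) h3
        rw [← n1sh_zero φ, n1sh_neg hφ] at h4
        exact h2 ⟨m, m', c, c', lam, hm, hm', hc, hc', hcc, hl, h4⟩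
      · obtain ⟨r', m'', lam', hm'', hc'', hl', hin'⟩ := hYl hb'
        have h4 := N1Bad.kill (i := 0) (j := 1) (by decide) one_pos rfl rfl hl' hin' (φ := φ)
          (fun k hk => by
            have : k = 0 := by omega
            rw [this, PowerSeries.coeff_zero_eq_constantCoeff_apply, hφ]) rfl
        rw [n1sh_zero] at h4
        exact n1bad2_mono hm hc hl' (IsInit.unique h3 h4).2
    · obtain ⟨r', m'', lam', hm'', hc'', hl', hin'⟩ := hXl hb
      have h4 := N1Bad.kill (i := 1) (j := 0) (by decide) one_pos rfl rfl hl' hin' (φ := ψ)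
        (fun k hk => by
          have : k = 0 := by omega
          rw [this, PowerSeries.coeff_zero_eq_constantCoeff_apply, hψ]) rfl
      rw [n1sh_one] at h4
      exact n1bad2_mono hm hc hl' (IsInit.unique hin h4).2

end PC

end MPb07157
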