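import Pool.Agent.Lib.MP_b07157_agV.Defs

/-!
# Numerical inequalities
-/

noncomputable section

namespace MPb07157

namespace PC

/-- The number `N` is positive. -/
private theorem q1_pos {p q A B S : ℕ} (hp : 0 < p) (hq : 0 < q) (hS : 0 < S) :
    (0 : ℚ) < ((p * A + q * B + p * q * S : ℕ) : ℚ) := by
  have h : 0 < p * q * S := Nat.mul_pos (Nat.mul_pos hp hq) hS
  exact_mod_cast (by omega : 0 < p * A + q * B + p * q * S)

/-- Comparison of fractions with the denominator `N`. -/
private theorem q1_lt {x y N c s : ℚ} (hN : 0 < N) (hs : s * N = -c) (k : ℚ)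
    (h : k * c < (y - x) * N) : x < y + k * s := by
  have h1 : 0 < (y + k * s - x) * N := by
    have : (y + k * s - x) * N = (y - x) * N + k * (s * N) := by ring
    rw [this, hs]
    linarith
  have h2 := (mul_pos_iff_of_pos_right hN).1 h1
  linarith

/-- Comparison of fractions with the denominator `N`. -/
private theorem q1_lt' {x y N c s : ℚ} (hN : 0 < N) (hs : s * N = -c) (k : ℚ)
    (h : (y - x) * N < k * c) : y + k * s < x := by
  have h1 : 0 < (x - (y + k * s)) * N := by
    have : (x - (y + k * s)) * N = -((y - x) * N) - k * (s * N) := by ring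
    rw [this, hs]
    linarith
  have h2 := (mul_pos_iff_of_pos_right hN).1 h1
  linarith

/-- The inequalities at a later stage. -/
theorem later_ineq {a A₀ M p q A B S : ℕ} (ha : 1 ≤ a) (hA₀ : 1 ≤ A₀) (haM : a * M ≤ 2 * A₀)
    (hp : 0 < p) (hq : 0 < q) (hS : 0 < S) (hA : A₀ ≤ A) (hM : B + p * S ≤ M) {s : ℚ}
    (hs : s = -((a * p + q : ℕ) : ℚ) / ((p * A + q * B + p * q * S : ℕ) : ℚ)) :
    -1 < (1 + B * s) / p ∧ -1 < (a + A * s) / q ∧ (a + A * s) / q < 1 ∧
      ∀ m : ℕ, 0 < m → m ≤ S → -1 < 1 + s * m ∧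
        (a * p + q) * m ≤ 2 * (p * A + q * B + p * q * S) := by
  have hN := q1_pos (A := A) (B := B) hp hq hS
  have hsN : s * ((p * A + q * B + p * q * S : ℕ) : ℚ) = -((a * p + q : ℕ) : ℚ) := by
    rw [hs, div_mul_cancel₀ _ hN.ne']
  have hpQ : (0 : ℚ) < p := by exact_mod_cast hp
  have hqQ : (0 : ℚ) < q := by exact_mod_cast hq
  have hpqS : 0 < p * q * S := Nat.mul_pos (Nat.mul_pos hp hq) hS
  -- `a (B + p S) ≤ 2 A`
  have h2A : a * (B + p * S) ≤ 2 * A :=
    (Nat.mul_le_mul_left a hM).trans (haM.trans (Nat.mul_le_mul_left 2 hA))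
  have h2A' : a * B + a * (p * S) ≤ 2 * A := by rw [← Nat.mul_add]; exact h2A
  refine ⟨?_, ?_, ?_, ?_⟩
  · rw [lt_div_iff₀ hpQ]
    refine q1_lt hN hsN B ?_
    have h1 : B * (a * p + q) < (1 + p) * (p * A + q * B + p * q * S) := by
      have e1 : a * B * p ≤ 2 * A * p := Nat.mul_le_mul_right p (by omega)
      have e2 : A * p * 1 ≤ A * p * p := Nat.mul_le_mul_left _ hp
      have e3 : (1 + p) * (p * A + q * B + p * q * S) =
          p * A + q * B + p * q * S + (A * p * p + p * q * B + p * (p * q * S)) := by ring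
      have e4 : B * (a * p + q) = a * B * p + q * B := by ring
      have e5 : 2 * A * p = A * p * 1 + p * A := by ring
      rw [e3, e4]
      have := Nat.zero_le (p * q * B)
      have := Nat.zero_le (p * (p * q * S))
      omega
    have h2 : ((B * (a * p + q) : ℕ) : ℚ) <
        (((1 + p) * (p * A + q * B + p * q * S) : ℕ) : ℚ) := by exact_mod_cast h1
    rw [Nat.cast_mul, Nat.cast_mul, Nat.cast_add 1 p, Nat.cast_one] at h2
    have e : (1 : ℚ) - -1 * p = 1 + p := by ring
    rw [e]
    exact h2
  · rw [lt_div_iff₀ hqQ]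
    refine q1_lt hN hsN A ?_
    have h1 : A * (a * p + q) < (a + q) * (p * A + q * B + p * q * S) := by
      have e1 : q * A * 1 ≤ q * A * p := Nat.mul_le_mul_left _ hp
      have e3 : (a + q) * (p * A + q * B + p * q * S) =
          a * p * A + q * A * p + (a + q) * (q * B) + (a + q) * (p * q * S) := by ring
      have e4 : A * (a * p + q) = a * p * A + q * A * 1 := by ring
      have e5 : 0 < (a + q) * (p * q * S) := Nat.mul_pos (by omega) hpqS
      rw [e3, e4]
      have := Nat.zero_le ((a + q) * (q * B))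
      omega
    have h2 : ((A * (a * p + q) : ℕ) : ℚ) <
        (((a + q) * (p * A + q * B + p * q * S) : ℕ) : ℚ) := by exact_mod_cast h1
    rw [Nat.cast_mul, Nat.cast_mul, Nat.cast_add a q] at h2
    have e : (a : ℚ) - -1 * q = a + q := by ring
    rw [e]
    exact h2
  · rw [div_lt_iff₀ hqQ]
    refine q1_lt' hN hsN A ?_
    have h1 : a * (p * A + q * B + p * q * S) <
        A * (a * p + q) + q * (p * A + q * B + p * q * S) := by
      have e1 : q * (a * (B + p * S)) ≤ q * (2 * A) := Nat.mul_le_mul_left q h2A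
      have e2 : q * A * 1 ≤ q * A * p := Nat.mul_le_mul_left _ hp
      have e3 : a * (p * A + q * B + p * q * S) = a * p * A + q * (a * (B + p * S)) := by ring
      have e4 : A * (a * p + q) + q * (p * A + q * B + p * q * S) =
          a * p * A + q * A * 1 + q * A * p + q * (q * B) + q * (p * q * S) := by ring
      have e5 : 0 < q * (p * q * S) := Nat.mul_pos hq hpqS
      have e6 : q * (2 * A) = q * A * 1 + q * A * 1 := by ring
      rw [e3, e4]
      have := Nat.zero_le (q * (q * B))
      omega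
    have h2 : ((a * (p * A + q * B + p * q * S) : ℕ) : ℚ) <
        ((A * (a * p + q) + q * (p * A + q * B + p * q * S) : ℕ) : ℚ) := by exact_mod_cast h1
    rw [Nat.cast_mul a, Nat.cast_add (A * (a * p + q)), Nat.cast_mul A, Nat.cast_mul q] at h2
    have e : ((a : ℚ) - 1 * q) * ((p * A + q * B + p * q * S : ℕ) : ℚ) =
        a * ((p * A + q * B + p * q * S : ℕ) : ℚ) -
          q * ((p * A + q * B + p * q * S : ℕ) : ℚ) := by ring
    rw [e]
    linarith
  · intro m _ hmS
    have h1 : (a * p + q) * m < 2 * (p * A + q * B + p * q * S) := by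
      have e1 : a * (p * m) ≤ a * (p * S) :=
        Nat.mul_le_mul_left a (Nat.mul_le_mul_left p hmS)
      have e2 : q * m ≤ q * S := Nat.mul_le_mul_left q hmS
      have e3 : q * S * 1 ≤ q * S * p := Nat.mul_le_mul_left _ hp
      have e4 : A * 1 ≤ A * p := Nat.mul_le_mul_left _ hp
      have e5 : (a * p + q) * m = a * (p * m) + q * m := by ring
      have e6 : 2 * (p * A + q * B + p * q * S) =
          2 * (A * p) + 2 * (q * B) + q * S * p + q * S * p := by ring
      have e7 : 0 < q * S * p := Nat.mul_pos (Nat.mul_pos hq hS) hp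
      rw [e5, e6]
      have := Nat.zero_le (q * B)
      omega
    refine ⟨?_, h1.le⟩
    rw [mul_comm s]
    refine q1_lt hN hsN m ?_
    have h2 : (((a * p + q) * m : ℕ) : ℚ) <
        ((2 * (p * A + q * B + p * q * S) : ℕ) : ℚ) := by exact_mod_cast h1
    rw [Nat.cast_mul (a * p + q), Nat.cast_mul 2, Nat.cast_ofNat] at h2
    have e : (1 : ℚ) - -1 = 2 := by norm_num
    rw [e, mul_comm]
    exact h2

/-- The inequalities at the first stage. -/
theorem first_ineq {p q A B S : ℕ} (hp : 0 < p) (hq : 0 < q) (hS : 0 < S) {s : ℚ}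
    (hs : s = -((1 * p + q : ℕ) : ℚ) / ((p * A + q * B + p * q * S : ℕ) : ℚ)) :
    -1 < (1 + B * s) / p ∧ -1 < ((1 : ℕ) + A * s) / q ∧ ((1 : ℕ) + A * s) / q ≤ 1 ∧
      (((1 : ℕ) + A * s) / q = 1 → q = 1 ∧ A = 0) ∧
      ∀ m : ℕ, 0 < m → m ≤ S → (1 * p + q) * m ≤ 2 * (p * A + q * B + p * q * S) ∧
        ((p = 1 ∧ q = 1 ∧ A = 0 ∧ B = 0 ∧ m = S) ∨ -1 < 1 + s * m) := by
  have hN := q1_pos (A := A) (B := B) hp hq hS
  have hsN : s * ((p * A + q * B + p * q * S : ℕ) : ℚ) = -((1 * p + q : ℕ) : ℚ) := by
    rw [hs, div_mul_cancel₀ _ hN.ne']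
  have hpQ : (0 : ℚ) < p := by exact_mod_cast hp
  have hqQ : (0 : ℚ) < q := by exact_mod_cast hq
  have hpqS : 0 < p * q * S := Nat.mul_pos (Nat.mul_pos hp hq) hS
  -- the upper bound with its equality case
  have hup : (q = 1 ∧ A = 0) ∨ ((1 : ℕ) + A * s) / q < 1 := by
    by_cases hc : q = 1 ∧ A = 0
    · exact Or.inl hc
    · right
      rw [div_lt_iff₀ hqQ]
      refine q1_lt' hN hsN A ?_
      have h1 : 1 * (p * A + q * B + p * q * S) <
          A * (1 * p + q) + q * (p * A + q * B + p * q * S) := by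
        have e2 : q * B * 1 ≤ q * B * q := Nat.mul_le_mul_left _ hq
        rcases Nat.eq_zero_or_pos A with h0 | h0
        · have hq1 : 2 ≤ q := by
            by_contra hlt
            exact hc ⟨by omega, h0⟩
          have e1 : p * q * S * 2 ≤ p * q * S * q := Nat.mul_le_mul_left _ hq1
          have e4 : A * (1 * p + q) + q * (p * A + q * B + p * q * S) =
              A * (1 * p + q) + q * (p * A) + q * B * q + p * q * S * q := by ring
          rw [e4, h0]
          have e5 : 1 * (p * 0 + q * B + p * q * S) = q * B * 1 + p * q * S := by ring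
          rw [e5]
          have := Nat.zero_le (0 * (1 * p + q))
          have := Nat.zero_le (q * (p * 0))
          omega
        · have e1 : p * q * S * 1 ≤ p * q * S * q := Nat.mul_le_mul_left _ hq
          have e4 : A * (1 * p + q) + q * (p * A + q * B + p * q * S) =
              p * A + A * q + q * (p * A) + q * B * q + p * q * S * q := by ring
          have e5 : 1 * (p * A + q * B + p * q * S) = p * A + q * B * 1 + p * q * S := by ring
          have e6 : 0 < A * q := Nat.mul_pos h0 hq
          rw [e4, e5]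
          have := Nat.zero_le (q * (p * A))
          omega
      have h2 : ((1 * (p * A + q * B + p * q * S) : ℕ) : ℚ) <
          ((A * (1 * p + q) + q * (p * A + q * B + p * q * S) : ℕ) : ℚ) := by
        exact_mod_cast h1
      rw [Nat.cast_mul 1, Nat.cast_add (A * (1 * p + q)), Nat.cast_mul A, Nat.cast_mul q] at h2
      have e : (((1 : ℕ) : ℚ) - 1 * q) * ((p * A + q * B + p * q * S : ℕ) : ℚ) =
          ((1 : ℕ) : ℚ) * ((p * A + q * B + p * q * S : ℕ) : ℚ) -
            q * ((p * A + q * B + p * q * S : ℕ) : ℚ) := by ring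
      rw [e]
      linarith
  refine ⟨?_, ?_, ?_, ?_, ?_⟩
  · rw [lt_div_iff₀ hpQ]
    refine q1_lt hN hsN B ?_
    have h1 : B * (1 * p + q) < (1 + p) * (p * A + q * B + p * q * S) := by
      have e1 : p * B * 1 ≤ p * B * q := Nat.mul_le_mul_left _ hq
      have e3 : (1 + p) * (p * A + q * B + p * q * S) =
          (1 + p) * (p * A) + q * B + p * B * q + p * q * S + p * (p * q * S) := by ring
      have e4 : B * (1 * p + q) = p * B * 1 + q * B := by ring
      rw [e3, e4]
      have := Nat.zero_le ((1 + p) * (p * A))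
      have := Nat.zero_le (p * (p * q * S))
      omega
    have h2 : ((B * (1 * p + q) : ℕ) : ℚ) <
        (((1 + p) * (p * A + q * B + p * q * S) : ℕ) : ℚ) := by exact_mod_cast h1
    rw [Nat.cast_mul, Nat.cast_mul, Nat.cast_add 1 p, Nat.cast_one] at h2
    have e : (1 : ℚ) - -1 * p = 1 + p := by ring
    rw [e]
    exact h2
  · rw [lt_div_iff₀ hqQ]
    refine q1_lt hN hsN A ?_
    have h1 : A * (1 * p + q) < (1 + q) * (p * A + q * B + p * q * S) := by
      have e1 : q * A * 1 ≤ q * A * p := Nat.mul_le_mul_left _ hp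
      have e3 : (1 + q) * (p * A + q * B + p * q * S) =
          p * A + q * A * p + (1 + q) * (q * B) + p * q * S + q * (p * q * S) := by ring
      have e4 : A * (1 * p + q) = p * A + q * A * 1 := by ring
      rw [e3, e4]
      have := Nat.zero_le ((1 + q) * (q * B))
      have := Nat.zero_le (q * (p * q * S))
      omega
    have h2 : ((A * (1 * p + q) : ℕ) : ℚ) <
        (((1 + q) * (p * A + q * B + p * q * S) : ℕ) : ℚ) := by exact_mod_cast h1
    rw [Nat.cast_mul, Nat.cast_mul, Nat.cast_add 1 q] at h2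
    have e : ((1 : ℕ) : ℚ) - -1 * q = ((1 : ℕ) : ℚ) + q := by ring
    rw [e]
    exact h2
  · rcases hup with ⟨h1, h2⟩ | h
    · subst h1 h2
      simp
    · exact h.le
  · intro he
    rcases hup with h | h
    · exact h
    · exact absurd he h.ne
  · intro m _ hmS
    have e0 : (1 * p + q) * m = p * m + q * m := by ring
    have e1 : p * m ≤ p * S := Nat.mul_le_mul_left p hmS
    have e2 : q * m ≤ q * S := Nat.mul_le_mul_left q hmS
    have e3 : p * S * 1 ≤ p * S * q := Nat.mul_le_mul_left _ hq
    have e4 : q * S * 1 ≤ q * S * p := Nat.mul_le_mul_left _ hp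
    have e5 : p * S * q = p * q * S := by ring
    have e6 : q * S * p = p * q * S := by ring
    have hle : (1 * p + q) * m ≤ 2 * (p * A + q * B + p * q * S) := by
      rw [e0]
      have := Nat.zero_le (p * A)
      have := Nat.zero_le (q * B)
      omega
    refine ⟨hle, ?_⟩
    by_cases hlt : (1 * p + q) * m < 2 * (p * A + q * B + p * q * S)
    · right
      rw [mul_comm s]
      refine q1_lt hN hsN m ?_
      have h2 : (((1 * p + q) * m : ℕ) : ℚ) <
          ((2 * (p * A + q * B + p * q * S) : ℕ) : ℚ) := by exact_mod_cast hlt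
      rw [Nat.cast_mul (1 * p + q), Nat.cast_mul 2, Nat.cast_ofNat] at h2
      have e : (1 : ℚ) - -1 = 2 := by norm_num
      rw [e, mul_comm]
      exact h2
    · left
      rw [e0] at hlt
      have hpA : p * A = 0 := by omega
      have hqB : q * B = 0 := by omega
      have hmS' : p * m = p * S := by omega
      have hq1 : p * S * 1 = p * S * q := by omega
      have hp1 : q * S * 1 = q * S * p := by omega
      have hpS : 0 < p * S := Nat.mul_pos hp hS
      have hqS : 0 < q * S := Nat.mul_pos hq hS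
      refine ⟨(Nat.eq_of_mul_eq_mul_left hqS hp1).symm, (Nat.eq_of_mul_eq_mul_left hpS hq1).symm,
        ?_, ?_, Nat.eq_of_mul_eq_mul_left hp hmS'⟩
      · exact (Nat.mul_eq_zero.1 hpA).resolve_left hp.ne'
      · exact (Nat.mul_eq_zero.1 hqB).resolve_left hq.ne'

end PC

end MPb07157
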