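import Pool.Agent.Lib.MP_b07157_agV.N2

/-!
# The vertex model
-/

noncomputable section

namespace MPb07157

open MvPolynomial

namespace PC

/-- `A` is the exact exponent of the variable `i` in `F`. -/
def ExactPow (F : P2) (i : Fin 2) (A : ℕ) : Prop :=
  MvPowerSeries.X i ^ A ∣ F ∧ ¬ MvPowerSeries.X i ^ (A + 1) ∣ F

namespace VM

theorem exists_coeff_ne {F : P2} (hF : F ≠ 0) : ∃ v, MvPowerSeries.coeff v F ≠ 0 := by
  by_contra h
  push Not at h
  exact hF (MvPowerSeries.ext fun v => by rw [h v]; simp)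

/-- The minimal exponent of a variable. -/
theorem exists_minExp {F : P2} (hF : F ≠ 0) (i : Fin 2) : ∃ A,
    (∀ v, MvPowerSeries.coeff v F ≠ 0 → A ≤ v i) ∧ ∃ v, MvPowerSeries.coeff v F ≠ 0 ∧ v i = A := by
  classical
  have hne : ∃ A, ∃ v, MvPowerSeries.coeff v F ≠ 0 ∧ v i = A := by
    obtain ⟨v, hv⟩ := exists_coeff_ne hF
    exact ⟨v i, v, hv, rfl⟩
  refine ⟨Nat.find hne, fun v hv => Nat.find_min' hne ⟨v, hv, rfl⟩, Nat.find_spec hne⟩

theorem exactPow_of_min {F : P2} {i : Fin 2} {A : ℕ}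
    (h1 : ∀ v, MvPowerSeries.coeff v F ≠ 0 → A ≤ v i)
    (h2 : ∃ v, MvPowerSeries.coeff v F ≠ 0 ∧ v i = A) : ExactPow F i A := by
  refine ⟨?_, ?_⟩
  · rw [MvPowerSeries.X_pow_dvd_iff]
    intro m hm
    by_contra h
    have := h1 m h
    omega
  · rw [MvPowerSeries.X_pow_dvd_iff]
    intro h
    obtain ⟨v, hv, hvA⟩ := h2
    exact hv (h v (by omega))

theorem wt2 (w : Fin 2 → ℕ) (v : Fin 2 →₀ ℕ) : wt w v = w 0 * v 0 + w 1 * v 1 := by
  simp [wt, Fin.sum_univ_two]

theorem ex_zero (i j : ℕ) : ex i j 0 = i := by simp [ex]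

theorem ex_one (i j : ℕ) : ex i j 1 = j := by simp [ex]

theorem ext2 {u v : Fin 2 →₀ ℕ} (h0 : u 0 = v 0) (h1 : u 1 = v 1) : u = v := by
  ext j
  fin_cases j
  · exact h0
  · exact h1

theorem init_mono {F : P2} {w : Fin 2 → ℕ} {r : ℕ} {v : Fin 2 →₀ ℕ} {l : ℂ}
    (h : IsInit F w r (monomial v l)) : l ≠ 0 ∧ wt w v = r ∧ MvPowerSeries.coeff v F = l ∧
      ∀ u, MvPowerSeries.coeff u F ≠ 0 → wt w u ≤ r → u = v := by
  classical
  obtain ⟨h1, h2, h3⟩ := h
  have hl : l ≠ 0 := by
    rintro rfl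
    exact h1 (by simp)
  have hv : v ∈ (monomial v l : MvPolynomial (Fin 2) ℂ).support := by
    rw [support_monomial, if_neg hl]; simp
  have hr := h2 v hv
  refine ⟨hl, hr, ?_, ?_⟩
  · rw [h3 v hr.le, coeff_monomial, if_pos rfl]
  · intro u hu hur
    rw [h3 u hur, coeff_monomial] at hu
    by_contra hne
    exact hu (if_neg fun h => hne h.symm)

theorem mono_init {F : P2} {w : Fin 2 → ℕ} {v : Fin 2 →₀ ℕ} (hv : MvPowerSeries.coeff v F ≠ 0)
    (h : ∀ u, MvPowerSeries.coeff u F ≠ 0 → wt w u ≤ wt w v → u = v) :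
    IsInit F w (wt w v) (monomial v (MvPowerSeries.coeff v F)) := by
  classical
  refine ⟨?_, ?_, ?_⟩
  · intro h0
    rw [monomial_eq_zero] at h0
    exact hv h0
  · intro u hu
    rw [support_monomial, if_neg hv, Finset.mem_singleton] at hu
    rw [hu]
  · intro u hu
    rw [coeff_monomial]
    split_ifs with h1
    · rw [h1]
    · by_contra h2
      exact h1 (h u h2 hu).symm

/-- The vertices. -/
def Vert (F : P2) : Set (Fin 2 →₀ ℕ) :=
  {v | ∃ (w : Fin 2 → ℕ) (r : ℕ) (l : ℂ), (∀ j, 0 < w j) ∧ IsInit F w r (monomial v l)}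

theorem vert_coeff {F : P2} {v : Fin 2 →₀ ℕ} (hv : v ∈ Vert F) :
    MvPowerSeries.coeff v F ≠ 0 := by
  obtain ⟨w, r, l, _, h⟩ := hv
  obtain ⟨h1, _, h3, _⟩ := init_mono h
  rw [h3]
  exact h1

theorem vert_min {F : P2} {u v : Fin 2 →₀ ℕ} (hv : v ∈ Vert F)
    (hu : MvPowerSeries.coeff u F ≠ 0) (huv : ∀ j, u j ≤ v j) : u = v := by
  obtain ⟨w, r, l, _, h⟩ := hv
  obtain ⟨_, h2, _, h4⟩ := init_mono h
  refine h4 u hu ?_
  rw [← h2]
  exact Finset.sum_le_sum fun j _ => Nat.mul_le_mul_left _ (huv j)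

theorem vert_finite (F : P2) : (Vert F).Finite := by
  have h1 : IsAntichain (· ≤ ·) (Vert F) := by
    intro u hu v hv hne hle
    exact hne (vert_min hv (vert_coeff hu) fun j => hle j)
  exact h1.finite_of_partiallyWellOrderedOn (Set.isPWO_of_wellQuasiOrderedLE (Vert F))

/-- The vertex with minimal `x`-exponent. -/
theorem vert_x {F : P2} (hF : F ≠ 0) : ∃ v ∈ Vert F,
    ∀ u, MvPowerSeries.coeff u F ≠ 0 → v 0 ≤ u 0 := by
  classical
  obtain ⟨A, hA, v, hv, hvA⟩ := exists_minExp hF 0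
  have hne : ∃ M, ∃ v, MvPowerSeries.coeff v F ≠ 0 ∧ v 0 = A ∧ v 1 = M := ⟨v 1, v, hv, hvA, rfl⟩
  obtain ⟨v', hv', h0, h1⟩ := Nat.find_spec hne
  have hmin : ∀ u, MvPowerSeries.coeff u F ≠ 0 → u 0 = A → v' 1 ≤ u 1 := by
    intro u hu hu0
    rw [h1]
    exact Nat.find_min' hne ⟨u, hu, hu0, rfl⟩
  refine ⟨v', ⟨![v' 1 + 1, 1], _, _, ?_, mono_init hv' ?_⟩, ?_⟩
  · intro j; fin_cases j <;> simp
  · intro u hu hle
    rw [wt2, wt2] at hle
    simp only [Matrix.cons_val_zero, Matrix.cons_val_one] at hle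
    have hA' := hA u hu
    have h2 : u 0 = A := by
      by_contra hne'
      have h3 : A + 1 ≤ u 0 := by omega
      have h4 : (v' 1 + 1) * (A + 1) ≤ (v' 1 + 1) * u 0 := Nat.mul_le_mul_left _ h3
      rw [h0] at hle
      have h5 : (v' 1 + 1) * (A + 1) = (v' 1 + 1) * A + (v' 1 + 1) := by ring
      omega
    have h3 := hmin u hu h2
    rw [h2, h0] at hle
    exact ext2 (by rw [h2, h0]) (by omega)
  · intro u hu
    rw [h0]
    exact hA u hu

/-- The vertex with minimal `y`-exponent. -/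
theorem vert_y {F : P2} (hF : F ≠ 0) : ∃ v ∈ Vert F,
    ∀ u, MvPowerSeries.coeff u F ≠ 0 → v 1 ≤ u 1 := by
  classical
  obtain ⟨A, hA, v, hv, hvA⟩ := exists_minExp hF 1
  have hne : ∃ M, ∃ v, MvPowerSeries.coeff v F ≠ 0 ∧ v 1 = A ∧ v 0 = M := ⟨v 0, v, hv, hvA, rfl⟩
  obtain ⟨v', hv', h0, h1⟩ := Nat.find_spec hne
  have hmin : ∀ u, MvPowerSeries.coeff u F ≠ 0 → u 1 = A → v' 0 ≤ u 0 := by
    intro u hu hu0
    rw [h1]
    exact Nat.find_min' hne ⟨u, hu, hu0, rfl⟩
  refine ⟨v', ⟨![1, v' 0 + 1], _, _, ?_, mono_init hv' ?_⟩, ?_⟩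
  · intro j; fin_cases j <;> simp
  · intro u hu hle
    rw [wt2, wt2] at hle
    simp only [Matrix.cons_val_zero, Matrix.cons_val_one] at hle
    have hA' := hA u hu
    have h2 : u 1 = A := by
      by_contra hne'
      have h3 : A + 1 ≤ u 1 := by omega
      have h4 : (v' 0 + 1) * (A + 1) ≤ (v' 0 + 1) * u 1 := Nat.mul_le_mul_left _ h3
      rw [h0] at hle
      have h5 : (v' 0 + 1) * (A + 1) = (v' 0 + 1) * A + (v' 0 + 1) := by ring
      omega
    have h3 := hmin u hu h2
    rw [h2, h0] at hle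
    exact ext2 (by omega) (by rw [h2, h0])
  · intro u hu
    rw [h0]
    exact hA u hu

/-- The vertex polynomial. -/
def gV (F : P2) : MvPolynomial (Fin 2) ℂ :=
  ∑ v ∈ (vert_finite F).toFinset, monomial v 1

open Classical in
theorem coeff_gV (F : P2) (u : Fin 2 →₀ ℕ) :
    (gV F).coeff u = if u ∈ Vert F then 1 else 0 := by
  unfold gV
  rw [coeff_sum]
  simp only [coeff_monomial]
  rw [Finset.sum_ite_eq']
  simp only [Set.Finite.mem_toFinset]

theorem gV_ne {F : P2} (hF : F ≠ 0) : gV F ≠ 0 := by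
  classical
  obtain ⟨v, hv, _⟩ := vert_x hF
  intro h
  have := coeff_gV F v
  rw [h, if_pos hv] at this
  simp at this

theorem mem_support_gV {F : P2} {u : Fin 2 →₀ ℕ} : u ∈ (gV F).support ↔ u ∈ Vert F := by
  classical
  rw [mem_support_iff, coeff_gV]
  split_ifs with h
  · simp [h]
  · simp [h]

theorem gV_mono {F : P2} {w : Fin 2 → ℕ} {r : ℕ} {v : Fin 2 →₀ ℕ} {l : ℂ} (hw : ∀ j, 0 < w j)
    (h : IsInit F w r (monomial v l)) : IsInit (gV F : P2) w r (monomial v 1) := by
  classical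
  obtain ⟨h1, h2, h3, h4⟩ := init_mono h
  refine ⟨?_, ?_, ?_⟩
  · intro h0
    rw [monomial_eq_zero] at h0
    exact one_ne_zero h0
  · intro u hu
    rw [support_monomial, if_neg one_ne_zero, Finset.mem_singleton] at hu
    rw [hu, h2]
  · intro u hu
    rw [MvPolynomial.coeff_coe, coeff_gV, coeff_monomial]
    by_cases h5 : v = u
    · rw [if_pos h5, if_pos]
      rw [← h5]
      exact ⟨w, r, l, hw, h⟩
    · rw [if_neg h5, if_neg]
      intro h6
      exact h5 (h4 u (vert_coeff h6) hu).symm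

/-- An edge. -/
theorem gV_edge {F : P2} {p q A B : ℕ} {lam : ℂ} {R : Finset ℂ} {μ : ℂ → ℕ}
    (h : IsEdge F p q A B lam R μ) :
    IsInit (gV F : P2) ![p, q] (edgeN p q A B R μ)
        (monomial (ex A (B + p * ∑ c ∈ R, μ c)) 1 + monomial (ex (A + q * ∑ c ∈ R, μ c) B) 1) := by
  classical
  have hS : 0 < ∑ c ∈ R, μ c := Finset.sum_pos h.hm h.hR
  obtain ⟨s1, s2, s3⟩ := edgeP_support h.hp h.hq h.hlam h.hR0 μ (A := A) (B := B)
  have hp := h.hp
  have hq := h.hq
  obtain ⟨-, i2, i3⟩ := h.init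
  have hlow : ∀ u, MvPowerSeries.coeff u F ≠ 0 → p * u 0 + q * u 1 ≤ edgeN p q A B R μ →
      ∃ j ≤ ∑ c ∈ R, μ c, u = ex (A + q * j) (B + p * (∑ c ∈ R, μ c - j)) := by
    intro u hu hle
    have h1 : wt ![p, q] u ≤ edgeN p q A B R μ := by
      rw [wt2]; simpa using hle
    rw [i3 u h1] at hu
    exact s3 u (mem_support_iff.2 hu)
  have hwt : ∀ j ≤ ∑ c ∈ R, μ c,
      p * (A + q * j) + q * (B + p * (∑ c ∈ R, μ c - j)) = edgeN p q A B R μ := by
    intro j hj
    obtain ⟨t, ht⟩ := Nat.exists_eq_add_of_le hj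
    unfold edgeN
    rw [ht, Nat.add_sub_cancel_left]
    ring
  set S := ∑ c ∈ R, μ c with hSdef
  have c1 : MvPowerSeries.coeff (ex A (B + p * S)) F ≠ 0 := by
    rw [i3 _ ?_]
    · exact s1
    · rw [wt2, ex_zero, ex_one]
      have := hwt 0 (Nat.zero_le _)
      simp only [Nat.mul_zero, Nat.add_zero, Nat.sub_zero] at this
      simp only [Matrix.cons_val_zero, Matrix.cons_val_one]
      exact this.le
  have c2 : MvPowerSeries.coeff (ex (A + q * S) B) F ≠ 0 := by
    rw [i3 _ ?_]
    · exact s2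
    · rw [wt2, ex_zero, ex_one]
      have := hwt S le_rfl
      simp only [Nat.sub_self, Nat.mul_zero, Nat.add_zero] at this
      simp only [Matrix.cons_val_zero, Matrix.cons_val_one]
      exact this.le
  have e1 : p * A + q * (B + p * S) = edgeN p q A B R μ := by
    have := hwt 0 (Nat.zero_le _)
    simpa only [Nat.mul_zero, Nat.add_zero, Nat.sub_zero] using this
  have e2 : p * (A + q * S) + q * B = edgeN p q A B R μ := by
    have := hwt S le_rfl
    simpa only [Nat.sub_self, Nat.mul_zero, Nat.add_zero] using this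
  -- the two vertices
  have v1 : ex A (B + p * S) ∈ Vert F := by
    refine ⟨![(A + 1) * p + 1, (A + 1) * q], _, _, ?_, mono_init c1 ?_⟩
    · intro j
      fin_cases j
      · simp
      · simpa using hq
    · intro u hu hle
      rw [wt2, wt2, ex_zero, ex_one] at hle
      simp only [Matrix.cons_val_zero, Matrix.cons_val_one] at hle
      have h1 : ((A + 1) * p + 1) * u 0 + (A + 1) * q * u 1 =
          (A + 1) * (p * u 0 + q * u 1) + u 0 := by ring
      have h2 : ((A + 1) * p + 1) * A + (A + 1) * q * (B + p * S) =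
          (A + 1) * edgeN p q A B R μ + A := by rw [← e1]; ring
      rw [h1, h2] at hle
      have h3 : p * u 0 + q * u 1 ≤ edgeN p q A B R μ := by
        by_contra h4
        have h5 : (A + 1) * (edgeN p q A B R μ + 1) ≤ (A + 1) * (p * u 0 + q * u 1) :=
          Nat.mul_le_mul_left _ (by omega)
        have h6 : (A + 1) * (edgeN p q A B R μ + 1) = (A + 1) * edgeN p q A B R μ + (A + 1) := by
          ring
        omega
      obtain ⟨j, hj, rfl⟩ := hlow u hu h3
      rw [ex_zero, ex_one, hwt j hj] at hle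
      have h4 : q * j = 0 := by omega
      have h5 : j = 0 := by
        rcases Nat.mul_eq_zero.1 h4 with h6 | h6
        · omega
        · exact h6
      rw [h5]
      simp
  have v2 : ex (A + q * S) B ∈ Vert F := by
    refine ⟨![(B + 1) * p, (B + 1) * q + 1], _, _, ?_, mono_init c2 ?_⟩
    · intro j
      fin_cases j
      · simpa using hp
      · simp
    · intro u hu hle
      rw [wt2, wt2, ex_zero, ex_one] at hle
      simp only [Matrix.cons_val_zero, Matrix.cons_val_one] at hle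
      have h1 : (B + 1) * p * u 0 + ((B + 1) * q + 1) * u 1 =
          (B + 1) * (p * u 0 + q * u 1) + u 1 := by ring
      have h2 : (B + 1) * p * (A + q * S) + ((B + 1) * q + 1) * B =
          (B + 1) * edgeN p q A B R μ + B := by rw [← e2]; ring
      rw [h1, h2] at hle
      have h3 : p * u 0 + q * u 1 ≤ edgeN p q A B R μ := by
        by_contra h4
        have h5 : (B + 1) * (edgeN p q A B R μ + 1) ≤ (B + 1) * (p * u 0 + q * u 1) :=
          Nat.mul_le_mul_left _ (by omega)
        have h6 : (B + 1) * (edgeN p q A B R μ + 1) = (B + 1) * edgeN p q A B R μ + (B + 1) := by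
          ring
        omega
      obtain ⟨j, hj, rfl⟩ := hlow u hu h3
      rw [ex_zero, ex_one, hwt j hj] at hle
      have h4 : p * (S - j) = 0 := by omega
      have h5 : S - j = 0 := by
        rcases Nat.mul_eq_zero.1 h4 with h6 | h6
        · omega
        · exact h6
      have h6 : j = S := by omega
      rw [h6]
      simp
  have hne : ex A (B + p * S) ≠ ex (A + q * S) B := by
    intro h1
    have h2 := congrArg (fun v : Fin 2 →₀ ℕ => v 0) h1
    simp only [ex_zero] at h2
    have : 0 < q * S := Nat.mul_pos hq hS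
    omega
  refine ⟨?_, ?_, ?_⟩
  · intro h0
    have h1 := congrArg (coeff (ex A (B + p * S))) h0
    rw [coeff_add, coeff_monomial, coeff_monomial, if_pos rfl, if_neg hne.symm, coeff_zero,
      add_zero] at h1
    exact one_ne_zero h1
  · intro u hu
    rw [mem_support_iff, coeff_add, coeff_monomial, coeff_monomial] at hu
    by_cases h1 : ex A (B + p * S) = u
    · rw [← h1, wt2, ex_zero, ex_one]
      simpa using e1
    · by_cases h2 : ex (A + q * S) B = u
      · rw [← h2, wt2, ex_zero, ex_one]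
        simpa using e2
      · rw [if_neg h1, if_neg h2] at hu
        simp at hu
  · intro u hu
    rw [MvPolynomial.coeff_coe, coeff_gV, coeff_add, coeff_monomial, coeff_monomial]
    by_cases h1 : ex A (B + p * S) = u
    · have k1 : u ∈ Vert F := by rw [← h1]; exact v1
      have k2 : ¬ ex (A + q * S) B = u := by rw [← h1]; exact hne.symm
      rw [if_pos h1, if_pos k1, if_neg k2, add_zero]
    · by_cases h2 : ex (A + q * S) B = u
      · have k1 : u ∈ Vert F := by rw [← h2]; exact v2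
        rw [if_pos h2, if_neg h1, if_pos k1, zero_add]
      · rw [if_neg h1, if_neg h2, if_neg, add_zero]
        intro h3
        have h4 : p * u 0 + q * u 1 ≤ edgeN p q A B R μ := by
          rw [wt2] at hu; simpa using hu
        obtain ⟨j, hj, hju⟩ := hlow u (vert_coeff h3) h4
        have hj0 : 0 < j := by
          rcases Nat.eq_zero_or_pos j with h5 | h5
          · exfalso
            apply h1
            rw [hju, h5]
            simp
          · exact h5
        have hjS : j < S := by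
          rcases lt_or_eq_of_le hj with h5 | h5
          · exact h5
          · exfalso
            apply h2
            rw [hju, h5]
            simp
        obtain ⟨w, r, l, hw, hinit⟩ := h3
        obtain ⟨-, t2, -, t4⟩ := init_mono hinit
        obtain ⟨t, ht⟩ := Nat.exists_eq_add_of_le hj
        have ht0 : 0 < t := by omega
        have f1 : ¬ wt w (ex A (B + p * S)) ≤ r := fun h5 => h1 (t4 _ c1 h5)
        have f2 : ¬ wt w (ex (A + q * S) B) ≤ r := fun h5 => h2 (t4 _ c2 h5)
        rw [← t2, hju, wt2, wt2, ex_zero, ex_one, ex_zero, ex_one, ht,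
          Nat.add_sub_cancel_left] at f1 f2
        push Not at f1 f2
        have g1 : w 0 * (q * j) < w 1 * (p * j) := by
          have k1 : w 0 * (A + q * j) + w 1 * (B + p * t) =
            w 0 * A + w 1 * (B + p * t) + w 0 * (q * j) := by ring
          have k2 : w 0 * A + w 1 * (B + p * (j + t)) =
            w 0 * A + w 1 * (B + p * t) + w 1 * (p * j) := by ring
          omega
        have g2 : w 1 * (p * t) < w 0 * (q * t) := by
          have k1 : w 0 * (A + q * j) + w 1 * (B + p * t) =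
            w 0 * (A + q * j) + w 1 * B + w 1 * (p * t) := by ring
          have k2 : w 0 * (A + q * (j + t)) + w 1 * B =
            w 0 * (A + q * j) + w 1 * B + w 0 * (q * t) := by ring
          omega
        have g1' : w 0 * q < w 1 * p := by
          have k1 : w 0 * (q * j) = w 0 * q * j := by ring
          have k2 : w 1 * (p * j) = w 1 * p * j := by ring
          rw [k1, k2] at g1
          exact lt_of_mul_lt_mul_right g1 (Nat.zero_le _)
        have g2' : w 1 * p < w 0 * q := by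
          have k1 : w 0 * (q * t) = w 0 * q * t := by ring
          have k2 : w 1 * (p * t) = w 1 * p * t := by ring
          rw [k1, k2] at g2
          exact lt_of_mul_lt_mul_right g2 (Nat.zero_le _)
        omega

theorem edge_form (A B a b : ℕ) :
    (monomial (ex A (B + a)) 1 + monomial (ex (A + b) B) 1 : MvPolynomial (Fin 2) ℂ) =
      X 0 ^ A * X 1 ^ B * (X 1 ^ a + X 0 ^ b) := by
  have h : ∀ i j : ℕ, (monomial (ex i j) 1 : MvPolynomial (Fin 2) ℂ) = X 0 ^ i * X 1 ^ j := by
    intro i j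
    rw [X_pow_eq_monomial, X_pow_eq_monomial, monomial_mul, one_mul]
    rfl
  rw [h, h]
  ring

theorem minWt_of_init {g : MvPolynomial (Fin 2) ℂ} {w : Fin 2 → ℕ} {r : ℕ}
    {P : MvPolynomial (Fin 2) ℂ} (h : IsInit (g : P2) w r P) :
    IsMinWt g w r ∧ face g w r = P.support ∧ inForm g (face g w r) = P := by
  classical
  obtain ⟨h1, h2, h3⟩ := h
  have hf : face g w r = P.support := by
    ext v
    unfold face
    rw [Finset.mem_filter, mem_support_iff, mem_support_iff]
    constructor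
    · rintro ⟨h4, h5⟩
      have := h3 v h5.le
      rw [MvPolynomial.coeff_coe] at this
      rwa [← this]
    · intro h4
      have h5 := h2 v (mem_support_iff.2 h4)
      have := h3 v h5.le
      rw [MvPolynomial.coeff_coe] at this
      exact ⟨by rwa [this], h5⟩
  refine ⟨⟨?_, ?_⟩, hf, ?_⟩
  · intro v hv
    by_contra h4
    have h5 := h3 v (by omega)
    rw [MvPolynomial.coeff_coe] at h5
    rw [mem_support_iff, h5] at hv
    have := h2 v (mem_support_iff.2 hv)
    omega
  · obtain ⟨v, hv⟩ := MvPolynomial.support_nonempty.2 h1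
    have h5 := h2 v hv
    have := h3 v h5.le
    rw [MvPolynomial.coeff_coe] at this
    refine ⟨v, ?_, h5⟩
    rw [mem_support_iff, this]
    exact mem_support_iff.1 hv
  · rw [hf]
    unfold inForm
    conv_rhs => rw [← MvPolynomial.support_sum_monomial_coeff P]
    refine Finset.sum_congr rfl fun v hv => ?_
    have := h3 v (h2 v hv).le
    rw [MvPolynomial.coeff_coe] at this
    rw [this]

theorem not_spans_singleton {w : Fin 2 → ℕ} (hw : ∀ j, 0 < w j) (v : Fin 2 →₀ ℕ) :
    ¬ Spans w {v} := by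
  intro h
  by_cases hv : v 0 = 0 ∧ v 1 = 0
  · have h1 := h ![1, 0] (fun j hj => absurd hj (hw j).ne') (by
      intro u hu
      rw [Finset.mem_singleton] at hu
      rw [hu, Fin.sum_univ_two]
      simp [hv.1])
    have h2 := congrFun h1 0
    simp at h2
  · have h1 := h ![(v 1 : ℤ), -(v 0 : ℤ)] (fun j hj => absurd hj (hw j).ne') (by
      intro u hu
      rw [Finset.mem_singleton] at hu
      rw [hu, Fin.sum_univ_two]
      simp
      ring)
    have h2 := congrFun h1 0
    have h3 := congrFun h1 1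
    simp at h2 h3
    exact hv ⟨h3, h2⟩

end VM

open VM

theorem exists_exactPow {F : P2} (hF : F ≠ 0) (i : Fin 2) : ∃ A, ExactPow F i A := by
  obtain ⟨A, h1, h2⟩ := exists_minExp hF i
  exact ⟨A, exactPow_of_min h1 h2⟩

/-- The sum `g` of the vertex monomials of the Newton polygon of `F` has the same Newton polygon and
is non-degenerate. -/
theorem exists_model {F : P2} (hF : F ≠ 0) : ∃ g : MvPolynomial (Fin 2) ℂ, g ≠ 0 ∧
    (∀ (w : Fin 2 → ℕ) (r : ℕ) (v : Fin 2 →₀ ℕ) (l : ℂ), (∀ j, 0 < w j) →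
      IsInit F w r (monomial v l) → IsInit (g : P2) w r (monomial v 1)) ∧
    (∀ (p q A B : ℕ) (lam : ℂ) (R : Finset ℂ) (μ : ℂ → ℕ), IsEdge F p q A B lam R μ →
      IsInit (g : P2) ![p, q] (edgeN p q A B R μ)
        (X 0 ^ A * X 1 ^ B * (X 1 ^ (p * ∑ c ∈ R, μ c) + X 0 ^ (q * ∑ c ∈ R, μ c)))) ∧
    (∀ a : Fin 2 → ℕ, (∀ j, 1 ≤ a j) → NondegAt g (face g a (nuf g a))) ∧
    (∀ (w : Fin 2 → ℕ) (N : ℕ), IsFacetWt g w N →
      (∃ A k, ExactPow F 0 A ∧ 0 < A ∧ 0 < k ∧ w = ![k, 0] ∧ N = k * A) ∨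
      (∃ B k, ExactPow F 1 B ∧ 0 < B ∧ 0 < k ∧ w = ![0, k] ∧ N = k * B) ∨
      (∃ (p q A B : ℕ) (lam : ℂ) (R : Finset ℂ) (μ : ℂ → ℕ) (k : ℕ), IsEdge F p q A B lam R μ ∧
        0 < k ∧ w = ![k * p, k * q] ∧ N = k * edgeN p q A B R μ)) := by
  classical
  obtain ⟨ι, _, p, q, A, B, lam, R, μ, hE, -, hall⟩ := exists_edges hF
  have hedge : ∀ (p q A B : ℕ) (lam : ℂ) (R : Finset ℂ) (μ : ℂ → ℕ),
      IsEdge F p q A B lam R μ → IsInit (gV F : P2) ![p, q] (edgeN p q A B R μ)
        (X 0 ^ A * X 1 ^ B * (X 1 ^ (p * ∑ c ∈ R, μ c) + X 0 ^ (q * ∑ c ∈ R, μ c))) := by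
    intro p q A B lam R μ h
    rw [← edge_form]
    exact gV_edge h
  have hg := gV_ne hF
  refine ⟨gV F, hg, fun w r v l hw h => gV_mono hw h, hedge, ?_, ?_⟩
  · intro a ha
    rcases hall a (fun j => ha j) with ⟨r, v, l, h⟩ | ⟨i, k, hk, rfl⟩
    · have h1 := gV_mono (fun j => ha j) h
      obtain ⟨m1, -, m3⟩ := minWt_of_init h1
      rw [(isMinWt_nuf hg a).eq m1]
      intro u hu h0
      exfalso
      rw [m3, eval_monomial, one_mul] at h0
      rw [Finsupp.prod_fintype _ _ (fun _ => pow_zero _)] at h0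
      exact (Finset.prod_ne_zero_iff.2 fun j _ => pow_ne_zero _ (hu j)) h0
    · have h1 := (hedge _ _ _ _ _ _ _ (hE i)).smul hk
      obtain ⟨m1, -, m3⟩ := minWt_of_init h1
      rw [(isMinWt_nuf hg _).eq m1]
      have hS : 0 < ∑ c ∈ R i, μ i c := Finset.sum_pos (hE i).hm (hE i).hR
      have hpS : 0 < p i * ∑ c ∈ R i, μ i c := Nat.mul_pos (hE i).hp hS
      intro u hu h0
      rw [m3] at h0 ⊢
      refine ⟨1, ?_⟩
      generalize p i * ∑ c ∈ R i, μ i c = a at *
      generalize q i * ∑ c ∈ R i, μ i c = b at *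
      have hX0 : ∀ A : ℕ, eval u (X 0 ^ A : MvPolynomial (Fin 2) ℂ) ≠ 0 := fun A => by
        rw [map_pow, eval_X]; exact pow_ne_zero _ (hu 0)
      have hX1 : ∀ A : ℕ, eval u (X 1 ^ A : MvPolynomial (Fin 2) ℂ) ≠ 0 := fun A => by
        rw [map_pow, eval_X]; exact pow_ne_zero _ (hu 1)
      have h2 : eval u (X 1 ^ a + X 0 ^ b : MvPolynomial (Fin 2) ℂ) = 0 := by
        rw [map_mul, map_mul] at h0
        exact (mul_eq_zero.1 h0).resolve_left (mul_ne_zero (hX0 _) (hX1 _))
      have h3 : pderiv 1 (X 0 ^ b : MvPolynomial (Fin 2) ℂ) = 0 := by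
        rw [pderiv_pow, pderiv_X_of_ne (by decide), mul_zero]
      have h4 : pderiv 1 (X 1 ^ a : MvPolynomial (Fin 2) ℂ) = (a : MvPolynomial (Fin 2) ℂ) *
          X 1 ^ (a - 1) := by
        rw [pderiv_pow, pderiv_X_self, mul_one]
      rw [pderiv_mul, map_add, map_mul, h2, mul_zero, zero_add, map_mul]
      rw [map_add, h3, h4, add_zero, map_mul, map_mul, map_natCast]
      exact mul_ne_zero (mul_ne_zero (hX0 _) (hX1 _))
        (mul_ne_zero (Nat.cast_ne_zero.2 hpS.ne') (hX1 _))
  · rintro w N ⟨hmin, hN, hsp⟩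
    have hwt : ∀ v, v ∈ (gV F).support → N ≤ w 0 * v 0 + w 1 * v 1 := by
      intro v hv
      have := hmin.1 v hv
      rwa [wt2] at this
    obtain ⟨v₀, hv₀, hv₀N⟩ := hmin.2
    rw [wt2] at hv₀N
    rcases Nat.eq_zero_or_pos (w 0) with hw0 | hw0
    · rcases Nat.eq_zero_or_pos (w 1) with hw1 | hw1
      · rw [hw0, hw1] at hv₀N
        omega
      · -- horizontal
        right; left
        obtain ⟨v, hv, hvmin⟩ := vert_y hF
        have h1 := hwt v (mem_support_gV.2 hv)
        have h2 := hvmin v₀ (vert_coeff (mem_support_gV.1 hv₀))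
        rw [hw0] at h1 hv₀N
        have h3 : w 1 * v 1 ≤ w 1 * v₀ 1 := Nat.mul_le_mul_left _ h2
        have h4 : N = w 1 * v 1 := by omega
        refine ⟨v 1, w 1, exactPow_of_min hvmin ⟨v, vert_coeff hv, rfl⟩, ?_, hw1, ?_, h4⟩
        · rcases Nat.eq_zero_or_pos (v 1) with h5 | h5
          · rw [h5] at h4
            omega
          · exact h5
        · funext j
          fin_cases j
          · exact hw0
          · rfl
    · rcases Nat.eq_zero_or_pos (w 1) with hw1 | hw1
      · left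
        obtain ⟨v, hv, hvmin⟩ := vert_x hF
        have h1 := hwt v (mem_support_gV.2 hv)
        have h2 := hvmin v₀ (vert_coeff (mem_support_gV.1 hv₀))
        rw [hw1] at h1 hv₀N
        have h3 : w 0 * v 0 ≤ w 0 * v₀ 0 := Nat.mul_le_mul_left _ h2
        have h4 : N = w 0 * v 0 := by omega
        refine ⟨v 0, w 0, exactPow_of_min hvmin ⟨v, vert_coeff hv, rfl⟩, ?_, hw0, ?_, h4⟩
        · rcases Nat.eq_zero_or_pos (v 0) with h5 | h5
          · rw [h5] at h4
            omega
          · exact h5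
        · funext j
          fin_cases j
          · rfl
          · exact hw1
      · right; right
        have hw : ∀ j, 0 < w j := by
          intro j
          fin_cases j
          · exact hw0
          · exact hw1
        rcases hall w hw with ⟨r, v, l, h⟩ | ⟨i, k, hk, hik⟩
        · exfalso
          obtain ⟨m1, m2, -⟩ := minWt_of_init (gV_mono hw h)
          have h1 := hmin.eq m1
          rw [h1, m2, support_monomial, if_neg one_ne_zero] at hsp
          exact not_spans_singleton hw v hsp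
        · subst hik
          have h1 := (hedge _ _ _ _ _ _ _ (hE i)).smul hk
          obtain ⟨m1, -, -⟩ := minWt_of_init h1
          exact ⟨_, _, _, _, _, _, _, k, hE i, hk, rfl, hmin.eq m1⟩

end PC

end MPb07157
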