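import Pool.Agent.Lib.MP_b07157_agV.R1
import Pool.Agent.Lib.MP_b07157_agV.M2

/-!
# The roots `-1/B`
-/

noncomputable section

namespace MPb07157

open MvPolynomial

namespace PC

theorem X_pow_dvd_iff_weightedOrder (i : Fin 2) (k : ℕ) (F : P2) :
    MvPowerSeries.X i ^ k ∣ F ↔
      (k : ℕ∞) ≤ MvPowerSeries.weightedOrder (Pi.single i 1 : Fin 2 → ℕ) F := by
  rw [MvPowerSeries.X_pow_dvd_iff]
  have hw : ∀ m : Fin 2 →₀ ℕ, Finsupp.weight (Pi.single i 1 : Fin 2 → ℕ) m = m i := by
    intro m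
    rw [Finsupp.weight_apply, Finsupp.sum_fintype _ _ (by simp)]
    simp [Pi.single_apply]
  constructor
  · intro h
    exact MvPowerSeries.nat_le_weightedOrder _ fun d hd => h d (by rwa [hw] at hd)
  · intro h m hm
    refine MvPowerSeries.coeff_eq_zero_of_lt_weightedOrder _ (lt_of_lt_of_le ?_ h)
    rw [hw]
    exact_mod_cast hm

theorem prime_X2 (i : Fin 2) : Prime (MvPowerSeries.X i : P2) := by
  refine ⟨?_, ?_, ?_⟩
  · intro h
    have h1 := congrArg (MvPowerSeries.coeff (Finsupp.single i 1)) h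
    rw [MvPowerSeries.coeff_index_single_self_X, map_zero] at h1
    exact one_ne_zero h1
  · intro h
    have h1 := h.map (MvPowerSeries.constantCoeff (σ := Fin 2) (R := ℂ))
    rw [MvPowerSeries.constantCoeff_X] at h1
    exact not_isUnit_zero h1
  · intro a b hab
    have h1 := (X_pow_dvd_iff_weightedOrder i 1 (a * b)).1 (by rwa [pow_one])
    rw [MvPowerSeries.weightedOrder_mul] at h1
    by_contra hcon
    rw [not_or] at hcon
    have h2 : ∀ c : P2, ¬ MvPowerSeries.X i ∣ c →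
        MvPowerSeries.weightedOrder (Pi.single i 1 : Fin 2 → ℕ) c = 0 := by
      intro c hc
      by_contra h3
      apply hc
      have h4 := (X_pow_dvd_iff_weightedOrder i 1 c).2 (by
        rw [Nat.cast_one]; exact Order.one_le_iff_ne_zero.2 h3)
      rwa [pow_one] at h4
    rw [h2 a hcon.1, h2 b hcon.2, add_zero] at h1
    exact absurd h1 (by simp)

theorem eval_C_derivC (i : Fin 2) (g : Polynomial P2) (c : ℂ) :
    (derivC i g).eval (MvPowerSeries.C c) =
      MvPowerSeries.pderiv ℂ i (g.eval (MvPowerSeries.C c)) := by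
  unfold derivC
  rw [Polynomial.sum_def, Polynomial.eval_finsetSum, Polynomial.eval_eq_sum, Polynomial.sum_def,
    map_sum]
  refine Finset.sum_congr rfl fun j _ => ?_
  rw [Polynomial.eval_monomial, Derivation.leibniz]
  have h : MvPowerSeries.pderiv ℂ i ((MvPowerSeries.C c : P2) ^ j) = 0 := by
    rw [← map_pow]
    exact Derivation.map_algebraMap (MvPowerSeries.pderiv ℂ i) (c ^ j)
  rw [h, smul_zero, zero_add, smul_eq_mul, mul_comm]

/-- The computation along the variable. -/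
theorem axis_core {A : Type} [CommRing A] [NoZeroDivisors A] [Algebra ℂ A] (D : Derivation ℂ A A)
    {x F F₁ H h₁ S : A} (hx : x ≠ 0) (hDx : D x = 1) {B k : ℕ} (hF : F = x ^ B * F₁)
    (hH : x ^ B * H = x ^ (B * k + 1) * h₁) (hS : 1 + S * (B : A) = 0) :
    x ^ B * (F * D H + (S + 1 - (k : A)) * D F * H) =
      x ^ (B * (k + 1) + 1) * (F₁ * D h₁ + (S + 1 - (k : A)) * D F₁ * h₁) := by
  have hpow : ∀ m : ℕ, x * D (x ^ m) = (m : A) * x ^ m := by
    intro m
    rw [Derivation.leibniz_pow, hDx, smul_eq_mul, mul_one, nsmul_eq_mul]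
    rcases m with _ | m
    · simp
    · rw [Nat.add_sub_cancel]; ring
  have e1 := congrArg D hH
  rw [Derivation.leibniz, Derivation.leibniz, smul_eq_mul, smul_eq_mul, smul_eq_mul,
    smul_eq_mul] at e1
  have e2 : x * D F = (B : A) * x ^ B * F₁ + x ^ (B + 1) * D F₁ := by
    rw [hF, Derivation.leibniz, smul_eq_mul, smul_eq_mul]
    linear_combination F₁ * hpow B
  have e3 := hpow B
  have e4 := hpow (B * k + 1)
  push_cast at e4
  refine mul_left_cancel₀ hx ?_
  have e5 : x * (x ^ B * D H) = x * (x ^ (B * k + 1) * D h₁) +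
      ((B : A) * k + 1 - B) * (x ^ (B * k + 1) * h₁) := by
    linear_combination x * e1 + h₁ * e4 - H * e3 - (B : A) * hH
  have e6 : x ^ (B * (k + 1) + 1) = x ^ B * x ^ (B * k + 1) := by
    rw [← pow_add]; congr 1; ring
  rw [e6]
  have e7 : x * (x ^ B * (F * D H + (S + 1 - (k : A)) * D F * H)) =
      F * (x * (x ^ B * D H)) + (S + 1 - (k : A)) * (x * D F) * (x ^ B * H) := by ring
  rw [e7, e5, e2, hH, hF]
  linear_combination (x ^ B * F₁ * (x ^ (B * k + 1) * h₁)) * hS

/-- The computation in the other direction. -/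
theorem axis_core' {A : Type} [CommRing A] [Algebra ℂ A] (D : Derivation ℂ A A)
    {x F F₁ H h₁ S : A} (hDx : D x = 0) {B k : ℕ} (hF : F = x ^ B * F₁)
    (hH : x ^ B * H = x ^ (B * k + 1) * h₁) :
    x ^ B * (F * D H + (S + 1 - (k : A)) * D F * H) =
      x ^ (B * (k + 1) + 1) * (F₁ * D h₁ + (S + 1 - (k : A)) * D F₁ * h₁) := by
  have hpow : ∀ m : ℕ, D (x ^ m) = 0 := by
    intro m
    rw [Derivation.leibniz_pow, hDx, smul_zero, smul_zero]
  have e1 := congrArg D hH
  rw [Derivation.leibniz, Derivation.leibniz, hpow, hpow, smul_zero, smul_zero, add_zero,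
    add_zero, smul_eq_mul, smul_eq_mul] at e1
  have e2 : D F = x ^ B * D F₁ := by
    rw [hF, Derivation.leibniz, hpow, smul_zero, add_zero, smul_eq_mul]
  have e6 : x ^ (B * (k + 1) + 1) = x ^ B * x ^ (B * k + 1) := by
    rw [← pow_add]; congr 1; ring
  rw [e6]
  have e7 : x ^ B * (F * D H + (S + 1 - (k : A)) * D F * H) =
      F * (x ^ B * D H) + (S + 1 - (k : A)) * D F * (x ^ B * H) := by ring
  rw [e7, e1, e2, hH, hF]
  ring

/-- The orders along the variable `i`. -/
theorem axis_dvd {f : P2} {θ : Fin 2 → P2} (h0 : ∀ i, MvPowerSeries.constantCoeff (θ i) = 0)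
    {i : Fin 2} (hJ : ¬ MvPowerSeries.X i ∣ jac θ) {B : ℕ} (hB0 : 0 < B) {F₁ : P2}
    (hF : MvPowerSeries.subst θ f = MvPowerSeries.X i ^ B * F₁) (hF₁ : ¬ MvPowerSeries.X i ∣ F₁)
    {s : ℂ} (hs : 1 + s * B = 0) {k : ℕ} {g : Polynomial P2} (hg : InPs f k g) :
    MvPowerSeries.X i ^ (B * k + 1) ∣
      MvPowerSeries.X i ^ B * MvPowerSeries.subst θ (g.eval (MvPowerSeries.C s)) := by
  have hθ := MvPowerSeries.hasSubst_of_constantCoeff_zero h0
  have hpr := prime_X2 i
  have hsC : (1 : P2) + MvPowerSeries.C s * (B : P2) = 0 := by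
    have h1 := congrArg (MvPowerSeries.C (σ := Fin 2) (R := ℂ)) hs
    rw [map_add, map_mul, map_one, map_natCast, map_zero] at h1
    exact h1
  induction hg with
  | base =>
    rw [Polynomial.eval_one, ← MvPowerSeries.coe_substAlgHom hθ, map_one, mul_one, mul_zero,
      zero_add]
    exact pow_dvd_pow _ hB0
  | add _ _ ih1 ih2 =>
    rw [Polynomial.eval_add, MvPowerSeries.subst_add hθ, mul_add]
    exact dvd_add ih1 ih2
  | mul c _ ih =>
    rw [Polynomial.eval_mul, MvPowerSeries.subst_mul hθ, mul_left_comm]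
    exact Dvd.dvd.mul_left ih _
  | raise _ ih =>
    rw [Polynomial.eval_mul, Polynomial.eval_C, MvPowerSeries.subst_mul hθ, hF]
    obtain ⟨c, hc⟩ := ih
    refine ⟨F₁ * c, ?_⟩
    linear_combination (MvPowerSeries.X i ^ B * F₁) * hc
  | @lower k g _ ih =>
    rw [Polynomial.eval_mul, Polynomial.eval_C, MvPowerSeries.subst_mul hθ, hF] at ih
    obtain ⟨c, hc⟩ := ih
    refine hpr.pow_dvd_of_dvd_mul_left _ hF₁ ?_
    refine ⟨c, ?_⟩
    refine mul_left_cancel₀ (pow_ne_zero B hpr.ne_zero) ?_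
    linear_combination hc
  | @deriv k g l _ ih =>
    obtain ⟨h₁, hh₁⟩ := ih
    rw [Polynomial.eval_add, Polynomial.eval_mul, Polynomial.eval_mul, Polynomial.eval_mul,
      Polynomial.eval_C, Polynomial.eval_C, Polynomial.eval_sub, Polynomial.eval_add,
      Polynomial.eval_X, Polynomial.eval_one, Polynomial.eval_natCast, eval_C_derivC]
    set G := g.eval (MvPowerSeries.C s) with hG
    set H := MvPowerSeries.subst θ G with hH
    set E : Fin 2 → P2 := fun l => MvPowerSeries.subst θ f *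
      MvPowerSeries.subst θ (MvPowerSeries.pderiv ℂ l G) +
      (MvPowerSeries.C s + 1 - (k : P2)) * MvPowerSeries.subst θ (MvPowerSeries.pderiv ℂ l f) * H
      with hE
    have hEl : MvPowerSeries.subst θ (f * MvPowerSeries.pderiv ℂ l G +
        (MvPowerSeries.C s + 1 - (k : P2)) * MvPowerSeries.pderiv ℂ l f * G) = E l := by
      have h1 : MvPowerSeries.subst θ (MvPowerSeries.C s + 1 - (k : P2)) =
          (MvPowerSeries.C s + 1 - (k : P2) : P2) := by
        rw [← MvPowerSeries.coe_substAlgHom hθ, map_sub, map_add, map_one, map_natCast]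
        congr 2
        exact (MvPowerSeries.substAlgHom hθ).commutes s
      rw [MvPowerSeries.subst_add hθ, MvPowerSeries.subst_mul hθ, MvPowerSeries.subst_mul hθ,
        MvPowerSeries.subst_mul hθ, h1]
    rw [hEl]
    set T : Fin 2 → P2 := fun j => MvPowerSeries.subst θ f * MvPowerSeries.pderiv ℂ j H +
      (MvPowerSeries.C s + 1 - (k : P2)) *
        MvPowerSeries.pderiv ℂ j (MvPowerSeries.subst θ f : P2) * H with hT
    have hTE : ∀ j, T j = E 0 * MvPowerSeries.pderiv ℂ j (θ 0) +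
        E 1 * MvPowerSeries.pderiv ℂ j (θ 1) := by
      intro j
      simp only [hT, hE]
      rw [hH, pderiv_subst h0 j G, pderiv_subst h0 j f, Fin.sum_univ_two, Fin.sum_univ_two]
      ring
    have hTd : ∀ j, MvPowerSeries.X i ^ (B * (k + 1) + 1) ∣ MvPowerSeries.X i ^ B * T j := by
      intro j
      by_cases hji : j = i
      · subst hji
        exact ⟨_, axis_core (MvPowerSeries.pderiv ℂ j) hpr.ne_zero
          MvPowerSeries.pderiv_X_self hF hh₁ hsC⟩
      · exact ⟨_, axis_core' (MvPowerSeries.pderiv ℂ j)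
          (MvPowerSeries.pderiv_X_of_ne (Ne.symm hji)) hF hh₁⟩
    have hfin : MvPowerSeries.X i ^ (B * (k + 1) + 1) ∣
        jac θ * (MvPowerSeries.X i ^ B * E l) := by
      obtain ⟨a, ha⟩ := hTd 0
      obtain ⟨b, hb⟩ := hTd 1
      have t0 := hTE 0
      have t1 := hTE 1
      have hl : l = 0 ∨ l = 1 := by omega
      unfold jac
      rcases hl with rfl | rfl
      · refine ⟨a * MvPowerSeries.pderiv ℂ 1 (θ 1) - b * MvPowerSeries.pderiv ℂ 0 (θ 1), ?_⟩
        rw [t0] at ha
        rw [t1] at hb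
        linear_combination (MvPowerSeries.pderiv ℂ 1 (θ 1)) * ha -
          (MvPowerSeries.pderiv ℂ 0 (θ 1)) * hb
      · refine ⟨b * MvPowerSeries.pderiv ℂ 0 (θ 0) - a * MvPowerSeries.pderiv ℂ 1 (θ 0), ?_⟩
        rw [t0] at ha
        rw [t1] at hb
        linear_combination (MvPowerSeries.pderiv ℂ 0 (θ 0)) * hb -
          (MvPowerSeries.pderiv ℂ 1 (θ 0)) * ha
    exact hpr.pow_dvd_of_dvd_mul_left _ hJ hfin

/-- If the variable `i` divides `F = f ∘ θ` exactly `B` times and does not divide the Jacobian of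
`θ`, then `-1/B` is a root. -/
theorem root_axis {f : P2} {θ : Fin 2 → P2} (h0 : ∀ i, MvPowerSeries.constantCoeff (θ i) = 0)
    {i : Fin 2} (hJ : ¬ MvPowerSeries.X i ∣ jac θ) {B : ℕ} (hB0 : 0 < B)
    (hB : ExactPow (MvPowerSeries.subst θ f) i B) {b : Polynomial ℂ} (hb : IsB f b) :
    b.eval (-(1 / (B : ℂ))) = 0 := by
  have hθ := MvPowerSeries.hasSubst_of_constantCoeff_zero h0
  obtain ⟨⟨F₁, hF₁⟩, hB2⟩ := hB
  have hn : ¬ MvPowerSeries.X i ∣ F₁ := by
    rintro ⟨c, hc⟩
    apply hB2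
    rw [hF₁, hc]
    exact ⟨c, by ring⟩
  have hBC : (B : ℂ) ≠ 0 := by exact_mod_cast hB0.ne'
  have h1 := axis_dvd h0 hJ hB0 hF₁ hn (s := -(1 / (B : ℂ))) (by field_simp; ring) hb
  rw [Polynomial.eval_map_apply, mul_one] at h1
  have h2 : MvPowerSeries.subst θ (MvPowerSeries.C (b.eval (-(1 / (B : ℂ)))) : P2) =
      (MvPowerSeries.C (b.eval (-(1 / (B : ℂ)))) : P2) := by
    rw [← MvPowerSeries.coe_substAlgHom hθ]
    exact (MvPowerSeries.substAlgHom hθ).commutes _
  rw [h2, pow_succ] at h1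
  have h3 := (mul_dvd_mul_iff_left (pow_ne_zero B (prime_X2 i).ne_zero)).1 h1
  rw [MvPowerSeries.X_dvd_iff] at h3
  have h4 := h3 0 rfl
  rwa [MvPowerSeries.coeff_zero_C] at h4

end PC

end MPb07157
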