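import Pool.Agent.Lib.MP_b07157_agV.R1
import Pool.Agent.Lib.MP_b07157_agV.N2

/-!
# Stages
-/

noncomputable section

namespace MPb07157

open MvPolynomial

namespace PC

/-! ### helper lemmas -/

theorem s1b_ex0 (i j : ℕ) : (ex i j) 0 = i := by
  simp [ex]

theorem s1b_ex1 (i j : ℕ) : (ex i j) 1 = j := by
  simp [ex]

theorem s1b_eq_ex (v : Fin 2 →₀ ℕ) : v = ex (v 0) (v 1) := by
  ext j
  fin_cases j
  · exact (s1b_ex0 _ _).symm
  · exact (s1b_ex1 _ _).symm

theorem s1b_wt (p q : ℕ) (v : Fin 2 →₀ ℕ) : wt ![p, q] v = p * v 0 + q * v 1 := by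
  simp [wt, Fin.sum_univ_two]

/-- normal form of `YOrd` -/
theorem s1b_iff {F : P2} {A M : ℕ} : YOrd F A M ↔ ∃ U H : P2,
    MvPowerSeries.constantCoeff U ≠ 0 ∧
      F = MvPowerSeries.X 0 ^ A * (MvPowerSeries.X 1 ^ M * U + MvPowerSeries.X 0 * H) := by
  constructor
  · rintro ⟨h1, h2, h3⟩
    have hd : (MvPowerSeries.X 0 : P2) ^ A ∣ F := by
      rw [MvPowerSeries.X_pow_dvd_iff]
      intro m hm
      rw [s1b_eq_ex m]
      exact h1 _ hm _
    obtain ⟨F1, rfl⟩ := hd
    have hc : ∀ i j, MvPowerSeries.coeff (ex (A + i) j) ((MvPowerSeries.X 0 : P2) ^ A * F1) =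
        MvPowerSeries.coeff (ex i j) F1 := by
      intro i j
      have : ex (A + i) j = Finsupp.single 0 A + ex i j := by
        unfold ex
        rw [Finsupp.single_add, add_assoc]
      rw [this, MvPowerSeries.X_pow_eq, MvPowerSeries.coeff_add_monomial_mul, one_mul]
    let P : P2 := fun v => if v 0 = 0 then MvPowerSeries.coeff v F1 else 0
    have hP : ∀ v, MvPowerSeries.coeff v P = if v 0 = 0 then MvPowerSeries.coeff v F1 else 0 :=
      fun v => rfl
    have hX : (MvPowerSeries.X 0 : P2) ∣ F1 - P := by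
      rw [← pow_one (MvPowerSeries.X 0 : P2), MvPowerSeries.X_pow_dvd_iff]
      intro m hm
      rw [map_sub, hP, if_pos (by omega), sub_self]
    have hY : (MvPowerSeries.X 1 : P2) ^ M ∣ P := by
      rw [MvPowerSeries.X_pow_dvd_iff]
      intro m hm
      rw [hP]
      split_ifs with h0
      · rw [s1b_eq_ex m, h0, ← hc 0 (m 1)]
        exact h2 _ hm
      · rfl
    obtain ⟨H, hH⟩ := hX
    obtain ⟨U, hU⟩ := hY
    refine ⟨U, H, ?_, ?_⟩
    · have h4 : MvPowerSeries.coeff (ex 0 M) P = MvPowerSeries.constantCoeff U := by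
        have : ex 0 M = Finsupp.single 1 M + 0 := by
          unfold ex
          simp
        rw [hU, this, MvPowerSeries.X_pow_eq, MvPowerSeries.coeff_add_monomial_mul, one_mul]
        rfl
      rw [← h4, hP, if_pos (s1b_ex0 _ _), ← hc 0 M]
      exact h3
    · rw [← hU, ← hH]
      ring
  · rintro ⟨U, H, hU, rfl⟩
    have hc : ∀ i j, MvPowerSeries.coeff (ex (A + i) j) ((MvPowerSeries.X 0 : P2) ^ A *
        (MvPowerSeries.X 1 ^ M * U + MvPowerSeries.X 0 * H)) =
        MvPowerSeries.coeff (ex i j) (MvPowerSeries.X 1 ^ M * U + MvPowerSeries.X 0 * H) := by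
      intro i j
      have : ex (A + i) j = Finsupp.single 0 A + ex i j := by
        unfold ex
        rw [Finsupp.single_add, add_assoc]
      rw [this, MvPowerSeries.X_pow_eq, MvPowerSeries.coeff_add_monomial_mul, one_mul]
    have hx : ∀ j, MvPowerSeries.coeff (ex 0 j) ((MvPowerSeries.X 0 : P2) * H) = 0 := by
      intro j
      have : (MvPowerSeries.X 0 : P2) ^ 1 ∣ MvPowerSeries.X 0 * H := by
        rw [pow_one]
        exact dvd_mul_right _ _
      rw [MvPowerSeries.X_pow_dvd_iff] at this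
      exact this _ (by rw [s1b_ex0]; omega)
    refine ⟨?_, ?_, ?_⟩
    · intro i hi j
      have : (MvPowerSeries.X 0 : P2) ^ A ∣ (MvPowerSeries.X 0 : P2) ^ A *
          (MvPowerSeries.X 1 ^ M * U + MvPowerSeries.X 0 * H) := dvd_mul_right _ _
      rw [MvPowerSeries.X_pow_dvd_iff] at this
      exact this _ (by rw [s1b_ex0]; exact hi)
    · intro j hj
      have h5 := hc 0 j
      rw [add_zero] at h5
      rw [h5, map_add, hx, add_zero]
      have : (MvPowerSeries.X 1 : P2) ^ M ∣ MvPowerSeries.X 1 ^ M * U := dvd_mul_right _ _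
      rw [MvPowerSeries.X_pow_dvd_iff] at this
      exact this _ (by rw [s1b_ex1]; exact hj)
    · have h5 := hc 0 M
      rw [add_zero] at h5
      rw [h5, map_add, hx, add_zero]
      have : ex 0 M = Finsupp.single 1 M + 0 := by
        unfold ex
        simp
      rw [this, MvPowerSeries.X_pow_eq, MvPowerSeries.coeff_add_monomial_mul, one_mul]
      exact hU

/-- the constant coefficient is kept by substitutions without constant terms -/
theorem s1b_constantCoeff {θ : Fin 2 → P2} (h0 : ∀ i, MvPowerSeries.constantCoeff (θ i) = 0)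
    (U : P2) : MvPowerSeries.constantCoeff (MvPowerSeries.subst θ U) =
      MvPowerSeries.constantCoeff U := by
  have ha : MvPowerSeries.HasSubst θ := MvPowerSeries.hasSubst_of_constantCoeff_zero h0
  have h1 : U = MvPowerSeries.C (MvPowerSeries.constantCoeff U) +
      (U - MvPowerSeries.C (MvPowerSeries.constantCoeff U)) := by ring
  have h2 : MvPowerSeries.constantCoeff
      (MvPowerSeries.subst θ (U - MvPowerSeries.C (MvPowerSeries.constantCoeff U))) = 0 := by
    apply MvPowerSeries.constantCoeff_subst_eq_zero ha h0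
    simp
  conv_lhs => rw [h1]
  rw [MvPowerSeries.subst_add ha, map_add, h2, add_zero]
  rw [← MvPowerSeries.coe_substAlgHom ha]
  have h3 : (MvPowerSeries.C (MvPowerSeries.constantCoeff U) : P2) =
      algebraMap ℂ P2 (MvPowerSeries.constantCoeff U) := rfl
  rw [h3, AlgHom.commutes]
  simp [MvPowerSeries.algebraMap_apply]

theorem YOrd.shY {F : P2} {A M : ℕ} (h : YOrd F A M) {φ : PowerSeries ℂ}
    (hφ : PowerSeries.constantCoeff φ = 0) : YOrd (MvPowerSeries.subst (shY φ) F) A M := by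
  obtain ⟨U, H, hU, rfl⟩ := s1b_iff.mp h
  -- `φ (x) = x ψ`
  have hX0 : MvPowerSeries.constantCoeff (MvPowerSeries.X 0 : P2) = 0 := by simp
  have hs : PowerSeries.HasSubst (MvPowerSeries.X 0 : P2) :=
    PowerSeries.HasSubst.of_constantCoeff_zero hX0
  obtain ⟨ψ, hψ⟩ : ∃ ψ : P2, PowerSeries.subst (MvPowerSeries.X 0 : P2) φ =
      MvPowerSeries.X 0 * ψ := by
    obtain ⟨χ, hχ⟩ := PowerSeries.X_dvd_iff.mpr hφ
    refine ⟨PowerSeries.subst (MvPowerSeries.X 0 : P2) χ, ?_⟩
    rw [hχ, PowerSeries.subst_mul hs, PowerSeries.subst_X hs]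
  have h0 : ∀ i, MvPowerSeries.constantCoeff (PC.shY φ i) = 0 := by
    intro i
    fin_cases i
    · simp [PC.shY]
    · simp only [PC.shY, hψ]
      simp
  have ha : MvPowerSeries.HasSubst (PC.shY φ) := MvPowerSeries.hasSubst_of_constantCoeff_zero h0
  have e0 : MvPowerSeries.subst (PC.shY φ) (MvPowerSeries.X 0 : P2) = MvPowerSeries.X 0 := by
    rw [MvPowerSeries.subst_X ha]
    rfl
  have e1 : MvPowerSeries.subst (PC.shY φ) (MvPowerSeries.X 1 : P2) =
      MvPowerSeries.X 1 + MvPowerSeries.X 0 * ψ := by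
    rw [MvPowerSeries.subst_X ha, ← hψ]
    rfl
  rw [MvPowerSeries.subst_mul ha, MvPowerSeries.subst_pow ha, MvPowerSeries.subst_add ha,
    MvPowerSeries.subst_mul ha, MvPowerSeries.subst_mul ha, MvPowerSeries.subst_pow ha, e0, e1]
  obtain ⟨Q, hQ⟩ : ∃ Q : P2, (MvPowerSeries.X 1 + MvPowerSeries.X 0 * ψ : P2) ^ M =
      MvPowerSeries.X 1 ^ M + MvPowerSeries.X 0 * Q := by
    have h6 : (MvPowerSeries.X 0 * ψ : P2) ∣
        (MvPowerSeries.X 1 + MvPowerSeries.X 0 * ψ) ^ M - MvPowerSeries.X 1 ^ M := by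
      have := sub_dvd_pow_sub_pow (MvPowerSeries.X 1 + MvPowerSeries.X 0 * ψ : P2)
        (MvPowerSeries.X 1) M
      have e : (MvPowerSeries.X 1 + MvPowerSeries.X 0 * ψ : P2) - MvPowerSeries.X 1 =
          MvPowerSeries.X 0 * ψ := by ring
      rwa [e] at this
    obtain ⟨Q, hQ⟩ := h6
    exact ⟨ψ * Q, by linear_combination hQ⟩
  rw [hQ]
  apply s1b_iff.mpr
  refine ⟨MvPowerSeries.subst (PC.shY φ) U,
    Q * MvPowerSeries.subst (PC.shY φ) U + MvPowerSeries.subst (PC.shY φ) H, ?_, by ring⟩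
  rw [s1b_constantCoeff h0]
  exact hU

theorem YOrd.dvd {F : P2} {A M : ℕ} (h : YOrd F A M) : MvPowerSeries.X 0 ^ A ∣ F := by
  obtain ⟨U, H, hU, rfl⟩ := s1b_iff.mp h
  exact dvd_mul_right _ _

/-- `F ≠ 0` has `YOrd` for a unique `A`, and `A` is the exact exponent of `x`. -/
theorem YOrd.exactPow {F : P2} {A M : ℕ} (h : YOrd F A M) {A' : ℕ}
    (h1 : MvPowerSeries.X 0 ^ A' ∣ F) (h2 : ¬ MvPowerSeries.X 0 ^ (A' + 1) ∣ F) : A' = A := by
  rcases lt_trichotomy A' A with h3 | h3 | h3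
  · exact absurd ((pow_dvd_pow _ h3).trans h.dvd) h2
  · exact h3
  · exfalso
    have h4 : (MvPowerSeries.X 0 : P2) ^ (A + 1) ∣ F := (pow_dvd_pow _ h3).trans h1
    rw [MvPowerSeries.X_pow_dvd_iff] at h4
    exact h.2.2 (h4 _ (by rw [s1b_ex0]; omega))

/-- An edge lies above the line `x = A` and below the line `y = M`. -/
theorem YOrd.edge_le {F : P2} {A₀ M : ℕ} (h : YOrd F A₀ M) {p q A B : ℕ} {lam : ℂ}
    {R : Finset ℂ} {μ : ℂ → ℕ} (hE : IsEdge F p q A B lam R μ) :
    A₀ ≤ A ∧ B + p * ∑ c ∈ R, μ c ≤ M := by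
  obtain ⟨hP0, hPN, hcoef⟩ := hE.init
  have hN : edgeN p q A B R μ = p * A + q * (B + p * ∑ c ∈ R, μ c) := by
    unfold edgeN
    ring
  have hA : A₀ ≤ A := by
    by_contra hcon
    have h1 := (edgeP_support hE.hp hE.hq (A := A) (B := B) hE.hlam hE.hR0 μ).1
    apply h1
    rw [← hcoef _ (by rw [s1b_wt, s1b_ex0, s1b_ex1, hN])]
    exact h.1 _ (by omega) _
  refine ⟨hA, ?_⟩
  have h2 : edgeN p q A B R μ ≤ p * A₀ + q * M := by
    by_contra hcon
    rw [not_le] at hcon
    apply h.2.2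
    rw [hcoef _ (by rw [s1b_wt, s1b_ex0, s1b_ex1]; exact hcon.le)]
    by_contra hne
    have h3 := hPN (ex A₀ M) (MvPolynomial.mem_support_iff.mpr hne)
    rw [s1b_wt, s1b_ex0, s1b_ex1] at h3
    omega
  rw [hN] at h2
  have h4 : p * A₀ ≤ p * A := Nat.mul_le_mul_left p hA
  have h5 : q * (B + p * ∑ c ∈ R, μ c) ≤ q * M := by omega
  exact Nat.le_of_mul_le_mul_left h5 hE.hq

/-- terms of large weight -/
theorem s1b_rest {p q α β r : ℕ} {c : ℂ} (ha : MvPowerSeries.HasSubst (kap p q α β c)) {G : P2}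
    (hG : ∀ v : Fin 2 →₀ ℕ, wt ![p, q] v < r → MvPowerSeries.coeff v G = 0) :
    (MvPowerSeries.X 0 : P2) ^ r ∣ MvPowerSeries.subst (kap p q α β c) G := by
  rw [MvPowerSeries.X_pow_dvd_iff]
  intro e he
  rw [MvPowerSeries.coeff_subst ha]
  apply finsum_eq_zero_of_forall_eq_zero
  intro d
  by_cases hd : wt ![p, q] d < r
  · rw [hG d hd, zero_smul]
  · have h1 : (MvPowerSeries.X 0 : P2) ^ (wt ![p, q] d) ∣
        (d.prod fun s e => (kap p q α β c s) ^ e) := by
      rw [Finsupp.prod_fintype _ _ (fun i => pow_zero _), Fin.prod_univ_two, s1b_wt]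
      have e0 : kap p q α β c 0 = MvPowerSeries.X 0 ^ p *
        (MvPowerSeries.X 1 + MvPowerSeries.C c) ^ β := rfl
      have e1 : kap p q α β c 1 = MvPowerSeries.X 0 ^ q *
        (MvPowerSeries.X 1 + MvPowerSeries.C c) ^ α := rfl
      rw [e0, e1, mul_pow, mul_pow, pow_add, pow_mul, pow_mul]
      exact mul_dvd_mul (dvd_mul_right _ _) (dvd_mul_right _ _)
    rw [MvPowerSeries.X_pow_dvd_iff] at h1
    rw [h1 e (by omega), smul_zero]

/-- the image of the edge polynomial -/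
theorem s1b_edge {p q α β A B : ℕ} {lam : ℂ} {R : Finset ℂ} {μ : ℂ → ℕ} {c : ℂ}
    (ha : MvPowerSeries.HasSubst (kap p q α β c)) (hab : p * α = q * β + 1) :
    MvPowerSeries.subst (kap p q α β c) ((edgeP p q A B lam R μ : MvPolynomial (Fin 2) ℂ) : P2) =
      MvPowerSeries.X 0 ^ edgeN p q A B R μ * (MvPowerSeries.C lam *
        (MvPowerSeries.X 1 + MvPowerSeries.C c) ^ (β * A + α * B + q * β * ∑ c ∈ R, μ c) *
        ∏ c' ∈ R, (MvPowerSeries.X 1 + MvPowerSeries.C (c - c')) ^ μ c') := by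
  rw [MvPowerSeries.subst_coe]
  unfold edgeP
  rw [map_mul, map_mul, map_mul, map_pow, map_pow, map_prod, aeval_X, aeval_X, algHom_C]
  have e0 : kap p q α β c 0 = MvPowerSeries.X 0 ^ p *
    (MvPowerSeries.X 1 + MvPowerSeries.C c) ^ β := rfl
  have e1 : kap p q α β c 1 = MvPowerSeries.X 0 ^ q *
    (MvPowerSeries.X 1 + MvPowerSeries.C c) ^ α := rfl
  have hfac : ∀ c' ∈ R, (aeval (kap p q α β c)) ((X 1 ^ p - C c' * X 0 ^ q) ^ μ c') =
      (MvPowerSeries.X 0 ^ (p * q)) ^ μ c' *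
        ((MvPowerSeries.X 1 + MvPowerSeries.C c : P2) ^ (q * β)) ^ μ c' *
        (MvPowerSeries.X 1 + MvPowerSeries.C (c - c')) ^ μ c' := by
    intro c' _
    rw [map_pow, map_sub, map_mul, map_pow, map_pow, aeval_X, aeval_X, algHom_C, ← mul_pow,
      ← mul_pow]
    congr 1
    rw [e0, e1, mul_pow, mul_pow, ← pow_mul, ← pow_mul, ← pow_mul, ← pow_mul]
    have h1 : α * p = q * β + 1 := by rw [mul_comm]; exact hab
    have h2 : β * q = q * β := mul_comm _ _
    have h3 : q * p = p * q := mul_comm _ _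
    rw [h1, h2, h3, pow_succ]
    have h4 : (MvPowerSeries.C (c - c') : P2) = MvPowerSeries.C c - MvPowerSeries.C c' := by
      rw [map_sub]
    have h5 : algebraMap ℂ P2 c' = MvPowerSeries.C c' := rfl
    rw [h4, h5]
    ring
  rw [Finset.prod_congr rfl hfac, Finset.prod_mul_distrib, Finset.prod_mul_distrib,
    Finset.prod_pow_eq_pow_sum, Finset.prod_pow_eq_pow_sum, e0, e1]
  have h5 : algebraMap ℂ P2 lam = MvPowerSeries.C lam := rfl
  rw [h5]
  have hN : edgeN p q A B R μ = p * A + q * B + p * q * ∑ c ∈ R, μ c := rfl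
  rw [hN, pow_add, pow_add, pow_add, pow_add, pow_mul, pow_mul, pow_mul, pow_mul, pow_mul, pow_mul,
    mul_pow, mul_pow]
  ring

theorem YOrd.sub {F : P2} {p q A B : ℕ} {lam : ℂ} {R : Finset ℂ} {μ : ℂ → ℕ}
    (hE : IsEdge F p q A B lam R μ) {c : ℂ} (hc : c ∈ R) {α β : ℕ} (hab : p * α = q * β + 1) :
    YOrd (MvPowerSeries.subst (kap p q α β c) F) (edgeN p q A B R μ) (μ c) := by
  have hp := hE.hp
  have hq := hE.hq
  have h0 : ∀ i, MvPowerSeries.constantCoeff (kap p q α β c i) = 0 := by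
    intro i
    fin_cases i
    · simp [kap, hp.ne']
    · simp [kap, hq.ne']
  have ha : MvPowerSeries.HasSubst (kap p q α β c) :=
    MvPowerSeries.hasSubst_of_constantCoeff_zero h0
  obtain ⟨hP0, hPN, hcoef⟩ := hE.init
  set P := edgeP p q A B lam R μ with hPdef
  have hrest : ∀ v : Fin 2 →₀ ℕ, wt ![p, q] v < edgeN p q A B R μ + 1 →
      MvPowerSeries.coeff v (F - (P : P2)) = 0 := by
    intro v hv
    rw [map_sub, hcoef v (by omega), MvPolynomial.coeff_coe, sub_self]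
  obtain ⟨H, hH⟩ := s1b_rest ha hrest
  have hF : F = (P : P2) + (F - (P : P2)) := by ring
  rw [hF, MvPowerSeries.subst_add ha, hH, hPdef, s1b_edge ha hab]
  rw [← Finset.mul_prod_erase R _ hc, sub_self, map_zero, add_zero]
  apply s1b_iff.mpr
  refine ⟨MvPowerSeries.C lam *
        (MvPowerSeries.X 1 + MvPowerSeries.C c) ^ (β * A + α * B + q * β * ∑ c ∈ R, μ c) *
        ∏ c' ∈ R.erase c, (MvPowerSeries.X 1 + MvPowerSeries.C (c - c')) ^ μ c', H, ?_, by ring⟩
  have hc0 : c ≠ 0 := by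
    rintro rfl
    exact hE.hR0 hc
  rw [map_mul, map_mul, map_pow, map_add, map_prod]
  simp only [map_pow, map_add, MvPowerSeries.constantCoeff_X, MvPowerSeries.constantCoeff_C,
    zero_add]
  apply mul_ne_zero (mul_ne_zero hE.hlam (pow_ne_zero _ hc0))
  rw [Finset.prod_ne_zero_iff]
  intro c' hc'
  exact pow_ne_zero _ (sub_ne_zero.mpr (Finset.ne_of_mem_erase hc').symm)

end PC

end MPb07157
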