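import Pool.Agent.Lib.MP_b07157_agV.P1
import Pool.Agent.Lib.MP_b07157_agV.R4
import Pool.Agent.Lib.MP_b07157_agV.R5
import Pool.Agent.Lib.MP_b07157_agV.S1
import Pool.Agent.Lib.MP_b07157_agV.N1
import Pool.Agent.Lib.MP_b07157_agV.Q1

/-!
# The strong monodromy conjecture for plane curve germs
-/

noncomputable section

namespace MPb07157

open MvPolynomial

namespace PC

/-- An edge with `p = 1`, `B = 0` and one root is excluded by `¬ BadY`. -/
theorem not_bad_card {F : P2} (hF : ¬ BadY F) {p q A B : ℕ} {lam : ℂ} {R : Finset ℂ}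
    {μ : ℂ → ℕ} (hE : IsEdge F p q A B lam R μ) (hp : p = 1) (hB : B = 0) : 2 ≤ R.card := by
  by_contra hcon
  have h1 : R.card = 1 := le_antisymm (by omega) (Finset.card_pos.2 hE.hR)
  obtain ⟨c, hc⟩ := Finset.card_eq_one.1 h1
  apply hF
  subst hp hB hc
  refine ⟨q, A, μ c, c, lam, hE.hq, hE.hm c (Finset.mem_singleton_self c), ?_, hE.hlam, ?_⟩
  · rintro rfl
    exact hE.hR0 (Finset.mem_singleton_self _)
  · have h := hE.init
    unfold edgeP edgeN at h
    simpa using h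

theorem not_badX_card {F : P2} (hF : ¬ BadX F) {p q A B : ℕ} {lam : ℂ} {R : Finset ℂ}
    {μ : ℂ → ℕ} (hE : IsEdge F p q A B lam R μ) (hq : q = 1) (hA : A = 0) : 2 ≤ R.card := by
  by_contra hcon
  have h1 : R.card = 1 := le_antisymm (by omega) (Finset.card_pos.2 hE.hR)
  obtain ⟨c, hc⟩ := Finset.card_eq_one.1 h1
  have hc0 : c ≠ 0 := by
    rintro rfl
    exact hE.hR0 (by rw [hc]; exact Finset.mem_singleton_self _)
  apply hF
  subst hq hA hc
  refine ⟨p, B, μ c, c⁻¹, lam * (-c) ^ μ c, hE.hp, hE.hm c (Finset.mem_singleton_self c),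
    inv_ne_zero hc0, mul_ne_zero hE.hlam (pow_ne_zero _ (neg_ne_zero.2 hc0)), ?_⟩
  have h := hE.init
  unfold edgeP edgeN at h
  rw [Finset.prod_singleton, Finset.sum_singleton] at h
  have h2 : (C (lam * (-c) ^ μ c) * X 1 ^ B * (X 0 - C c⁻¹ * X 1 ^ p) ^ μ c :
      MvPolynomial (Fin 2) ℂ) =
      C lam * X 0 ^ 0 * X 1 ^ B * (X 1 ^ p - C c * X 0 ^ 1) ^ μ c := by
    have h3 : (X 1 ^ p - C c * X 0 ^ 1 : MvPolynomial (Fin 2) ℂ) =
        C (-c) * (X 0 - C c⁻¹ * X 1 ^ p) := by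
      have h4 : (C c * C c⁻¹ : MvPolynomial (Fin 2) ℂ) = 1 := by
        rw [← C_mul, mul_inv_cancel₀ hc0, C_1]
      rw [C_neg]
      linear_combination (-(X 1 ^ p : MvPolynomial (Fin 2) ℂ)) * h4
    rw [h3, mul_pow, C_mul, C_pow]
    ring
  rw [h2]
  have h5 : p * 0 + 1 * B + p * 1 * μ c = B + p * μ c := by ring
  rw [h5] at h
  exact h

theorem not_X_dvd {W : P2} (hW : MvPowerSeries.constantCoeff W ≠ 0) {i j : Fin 2} (hij : i ≠ j)
    (r : ℕ) : ¬ MvPowerSeries.X i ∣ MvPowerSeries.X j ^ r * W := by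
  intro hd
  rw [MvPowerSeries.X_dvd_iff] at hd
  have h := hd (Finsupp.single j r) (by rw [Finsupp.single_apply, if_neg (Ne.symm hij)])
  rw [MvPowerSeries.X_pow_eq] at h
  have h2 := MvPowerSeries.coeff_add_monomial_mul (Finsupp.single j r) 0 W (1 : ℂ)
  rw [add_zero, one_mul] at h2
  rw [h2] at h
  exact hW h

/-- `s₀` is not one of the candidates `-1/B` of the components of `f`. -/
def AxOK (f : P2) (s₀ : ℚ) : Prop :=
  ∀ θ : Fin 2 → P2, (∀ i, MvPowerSeries.constantCoeff (θ i) = 0) → ∀ (i : Fin 2) (B : ℕ),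
    ¬ MvPowerSeries.X i ∣ jac θ → 0 < B → ExactPow (MvPowerSeries.subst θ f) i B →
      (1 : ℚ) ≠ -s₀ * B

theorem IsB.axOK {f : P2} {b : Polynomial ℂ} (hb : IsB f b) {s₀ : ℚ}
    (hb0 : b.eval (s₀ : ℂ) ≠ 0) : AxOK f s₀ := by
  intro θ h0 i B hJ hB0 hB h
  have hBQ : (B : ℚ) ≠ 0 := by exact_mod_cast hB0.ne'
  have hs : s₀ = -(1 / (B : ℚ)) := by
    field_simp
    linarith
  apply hb0
  rw [hs]
  push_cast
  exact root_axis h0 hJ hB0 hB hb

/-- **Later stages.** -/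
theorem later {f : P2} {s₀ : ℚ} (hex : Ex f (s₀ : ℂ)) (hax : AxOK f s₀)
    (h1 : s₀ ≠ -1) (M : ℕ) : ∀ (θ : Fin 2 → P2) (F : P2) (a A : ℕ), IsStage f θ F a →
      YOrd F A M → 1 ≤ A → a * M ≤ 2 * A → (a : ℚ) ≠ -s₀ * A → ZV F a ∈ regularAt s₀ := by
  induction M using Nat.strong_induction_on with
  | _ M IH =>
  intro θ F a A₀ hst hY hA₀ haM hne
  obtain ⟨φ, hφ0, hφ, -⟩ := exists_shY F
  rw [← ZV_shY F a hφ0]
  have hst' := hst.shY hφ0
  have hY' := hY.shY hφ0
  set G := MvPowerSeries.subst (shY φ) F with hG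
  have hG0 : G ≠ 0 := by
    intro h
    apply hY'.2.2
    rw [h]
    exact map_zero _
  have hroot : ∀ (p q A B : ℕ) (lam : ℂ) (R : Finset ℂ) (μ : ℂ → ℕ),
      IsEdge G p q A B lam R μ → ((a * p + q : ℕ) : ℚ) ≠ -s₀ * (edgeN p q A B R μ : ℕ) := by
    intro p q A B lam R μ hE h
    have hN : 0 < edgeN p q A B R μ := by
      unfold edgeN
      have : 0 < ∑ c ∈ R, μ c := Finset.sum_pos hE.hm hE.hR
      have := Nat.mul_pos (Nat.mul_pos hE.hp hE.hq) this
      omega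
    have hNQ : ((edgeN p q A B R μ : ℕ) : ℚ) ≠ 0 := by exact_mod_cast hN.ne'
    have hs : s₀ = -((a * p + q : ℕ) : ℚ) / (edgeN p q A B R μ : ℕ) := by
      rw [eq_div_iff hNQ, h]; ring
    obtain ⟨hA, hB⟩ := hY'.edge_le hE
    obtain ⟨e1, e2, e3, e4⟩ := later_ineq hst.ha hA₀ haM hE.hp hE.hq
      (Finset.sum_pos hE.hm hE.hR) hA hB hs
    refine root_edge' hst' hE hs e3.le ?_ hex
    rw [if_neg e3.ne]
    by_cases h2 : p = 1 ∧ B = 0
    · have := not_bad_card hφ hE h2.1 h2.2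
      rw [if_pos h2]; omega
    · have := Finset.card_pos.2 hE.hR
      rw [if_neg h2]; omega
  refine ZV_mem_of_edges hG0 hst.ha (Or.inr ((dvd_pow_self _ (by omega)).trans hY'.dvd)) h1
    ?_ ?_ hroot ?_
  · intro A hA _
    rw [hY'.exactPow hA.1 hA.2]
    exact hne
  · intro B hB hB0 h
    obtain ⟨W, hW, hJ⟩ := hst'.hjac
    have hF' := hst'.hF
    rw [hF'] at hB
    refine hax _ hst'.h0 1 B ?_ hB0 hB h
    rw [hJ]
    exact not_X_dvd hW (by decide) _
  · intro p q A B lam R μ hE c hc α β hab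
    have hc0 : c ≠ 0 := by
      rintro rfl
      exact hE.hR0 hc
    obtain ⟨hA, hB⟩ := hY'.edge_le hE
    have hμS : μ c ≤ ∑ c ∈ R, μ c := Finset.single_le_sum (fun _ _ => Nat.zero_le _) hc
    have hS := Finset.sum_pos hE.hm hE.hR
    have hN : 1 ≤ edgeN p q A B R μ := by
      unfold edgeN
      have := Nat.mul_pos (Nat.mul_pos hE.hp hE.hq) hS
      omega
    have hlt : μ c < M := by
      by_contra hcon
      have h2 : 1 * ∑ c ∈ R, μ c ≤ p * ∑ c ∈ R, μ c := Nat.mul_le_mul_right _ hE.hp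
      have h3 : B = 0 := by omega
      have h4 : p = 1 := by
        by_contra hp
        have : 2 * ∑ c ∈ R, μ c ≤ p * ∑ c ∈ R, μ c :=
          Nat.mul_le_mul_right _ (by have := hE.hp; omega)
        omega
      have h5 := not_bad_card hφ hE h4 h3
      obtain ⟨c', hc', hne'⟩ := Finset.exists_mem_ne (show 1 < R.card by omega) c
      have h6 : μ c + μ c' ≤ ∑ c ∈ R, μ c := by
        rw [← Finset.add_sum_erase _ _ hc]
        exact Nat.add_le_add_left (Finset.single_le_sum (f := μ) (fun _ _ => Nat.zero_le _)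
          (Finset.mem_erase.2 ⟨hne', hc'⟩)) _
      have := hE.hm c' hc'
      omega
    obtain ⟨-, -, -, e4⟩ := later_ineq hst.ha hA₀ haM hE.hp hE.hq hS hA hB rfl
    exact IH (μ c) hlt _ _ _ _ (hst'.sub hE.hp hE.hq hab hc0) (YOrd.sub hE hc hab) hN
      (e4 (μ c) (hE.hm c hc) hμS).2 (hroot p q A B lam R μ hE)

theorem not_bad2_card {F : P2} (hF : ¬ BadY F) (hF2 : ¬ Bad2 F) {lam : ℂ} {R : Finset ℂ}
    {μ : ℂ → ℕ} (hE : IsEdge F 1 1 0 0 lam R μ) : 3 ≤ R.card := by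
  have h1 := not_bad_card hF hE rfl rfl
  by_contra hcon
  obtain ⟨c, c', hcc, hR⟩ := Finset.card_eq_two.1 (by omega : R.card = 2)
  have hc : c ≠ 0 := by
    rintro rfl
    exact hE.hR0 (by rw [hR]; simp)
  have hc' : c' ≠ 0 := by
    rintro rfl
    exact hE.hR0 (by rw [hR]; simp)
  apply hF2
  refine ⟨μ c, μ c', c, c', lam, hE.hm c (by rw [hR]; simp), hE.hm c' (by rw [hR]; simp), hc, hc',
    hcc, hE.hlam, ?_⟩
  have h := hE.init
  unfold edgeP edgeN at h
  rw [hR, Finset.prod_pair hcc, Finset.sum_pair hcc] at h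
  have h5 : 1 * 0 + 1 * 0 + 1 * 1 * (μ c + μ c') = μ c + μ c' := by ring
  rw [h5] at h
  have h6 : (C lam * (X 1 - C c * X 0) ^ μ c * (X 1 - C c' * X 0) ^ μ c' :
      MvPolynomial (Fin 2) ℂ) = C lam * X 0 ^ 0 * X 1 ^ 0 *
        ((X 1 ^ 1 - C c * X 0 ^ 1) ^ μ c * (X 1 ^ 1 - C c' * X 0 ^ 1) ^ μ c') := by ring
  rw [h6]
  exact h

theorem subst_ne_zero {F : P2} (hF : F ≠ 0) {θ θ' : Fin 2 → P2}
    (h0 : ∀ i, MvPowerSeries.constantCoeff (θ i) = 0)
    (h0' : ∀ i, MvPowerSeries.constantCoeff (θ' i) = 0)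
    (h : ∀ i, MvPowerSeries.subst θ' (θ i) = MvPowerSeries.X i) :
    MvPowerSeries.subst θ F ≠ 0 := by
  intro h1
  apply hF
  have h2 := congrArg (MvPowerSeries.subst θ') h1
  rw [MvPowerSeries.subst_comp_subst_apply (MvPowerSeries.hasSubst_of_constantCoeff_zero h0)
    (MvPowerSeries.hasSubst_of_constantCoeff_zero h0')] at h2
  have h3 : (fun s => MvPowerSeries.subst θ' (θ s)) = (MvPowerSeries.X : Fin 2 → P2) := funext h
  rw [h3, MvPowerSeries.subst_self] at h2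
  have h4 : MvPowerSeries.subst θ' (0 : P2) = (0 : P2) := by
    rw [← MvPowerSeries.coe_substAlgHom (MvPowerSeries.hasSubst_of_constantCoeff_zero h0'),
      map_zero]
  rw [h4] at h2
  exact h2

theorem constantCoeff_subst' {θ : Fin 2 → P2} (h0 : ∀ i, MvPowerSeries.constantCoeff (θ i) = 0)
    (f : P2) : MvPowerSeries.constantCoeff (MvPowerSeries.subst θ f) =
      MvPowerSeries.constantCoeff f := by
  have hs := MvPowerSeries.hasSubst_of_constantCoeff_zero h0
  have h1 : f = MvPowerSeries.C (MvPowerSeries.constantCoeff f) +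
      (f - MvPowerSeries.C (MvPowerSeries.constantCoeff f)) := by ring
  have h2 : MvPowerSeries.constantCoeff (MvPowerSeries.subst θ
      (f - MvPowerSeries.C (MvPowerSeries.constantCoeff f))) = 0 := by
    apply MvPowerSeries.constantCoeff_subst_eq_zero hs h0
    simp
  conv_lhs => rw [h1]
  rw [MvPowerSeries.subst_add hs, map_add, h2, add_zero]
  have h3 : MvPowerSeries.subst θ (MvPowerSeries.C (MvPowerSeries.constantCoeff f) : P2) =
      (MvPowerSeries.C (MvPowerSeries.constantCoeff f) : P2) := by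
    have h4 := MvPowerSeries.subst_coe (R := ℂ) (a := θ)
      (C (MvPowerSeries.constantCoeff f) : MvPolynomial (Fin 2) ℂ)
    rw [MvPolynomial.coe_C] at h4
    rw [h4, MvPolynomial.aeval_C]
    rfl
  rw [h3, MvPowerSeries.constantCoeff_C]

theorem coeff_eq_zero_of_subst {θ : Fin 2 → P2}
    (h0 : ∀ i, MvPowerSeries.constantCoeff (θ i) = 0) (hJ : jac θ ≠ 0) (n : ℕ) :
    ∀ f : P2, MvPowerSeries.subst θ f = 0 → ∀ v : Fin 2 →₀ ℕ, v 0 + v 1 = n →
      MvPowerSeries.coeff v f = 0 := by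
  induction n with
  | zero =>
    intro f hf v hv
    have h1 : v = 0 := by
      ext i
      fin_cases i
      · simp; omega
      · simp; omega
    rw [h1, MvPowerSeries.coeff_zero_eq_constantCoeff_apply, ← constantCoeff_subst' h0, hf,
      map_zero]
  | succ n ih =>
    intro f hf v hv
    have hd : ∀ i, MvPowerSeries.subst θ (MvPowerSeries.pderiv ℂ i f) = 0 := by
      have e0 := pderiv_subst h0 0 f
      have e1 := pderiv_subst h0 1 f
      rw [hf, map_zero, Fin.sum_univ_two] at e0 e1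
      have k0 : jac θ * MvPowerSeries.subst θ (MvPowerSeries.pderiv ℂ 0 f) = 0 := by
        unfold jac
        linear_combination (-MvPowerSeries.pderiv ℂ 1 (θ 1)) * e0 +
          MvPowerSeries.pderiv ℂ 0 (θ 1) * e1
      have k1 : jac θ * MvPowerSeries.subst θ (MvPowerSeries.pderiv ℂ 1 f) = 0 := by
        unfold jac
        linear_combination (MvPowerSeries.pderiv ℂ 1 (θ 0)) * e0 -
          MvPowerSeries.pderiv ℂ 0 (θ 0) * e1
      intro i
      fin_cases i
      · exact (mul_eq_zero.1 k0).resolve_left hJ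
      · exact (mul_eq_zero.1 k1).resolve_left hJ
    obtain ⟨i, hi⟩ : ∃ i, v i ≠ 0 := by
      by_contra hcon
      push Not at hcon
      rw [hcon 0, hcon 1] at hv
      omega
    have hle : Finsupp.single i 1 ≤ v := by
      rw [Finsupp.single_le_iff]
      omega
    have h1 := ih _ (hd i) (v - Finsupp.single i 1) (by
      have h2 : (v - Finsupp.single i 1) + Finsupp.single i 1 = v := tsub_add_cancel_of_le hle
      have h3 := congrArg (fun w : Fin 2 →₀ ℕ => w 0 + w 1) h2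
      simp only [Finsupp.add_apply] at h3
      have h4 : (Finsupp.single i 1 : Fin 2 →₀ ℕ) 0 + (Finsupp.single i 1 : Fin 2 →₀ ℕ) 1 = 1 := by
        fin_cases i <;> simp
      omega)
    rw [MvPowerSeries.coeff_pderiv, tsub_add_cancel_of_le hle] at h1
    have h5 : ((((v - (Finsupp.single i (1 : ℕ) : Fin 2 →₀ ℕ)) i : ℕ) : ℂ) + 1) ≠ 0 := by
      exact_mod_cast Nat.succ_ne_zero ((v - (Finsupp.single i (1 : ℕ) : Fin 2 →₀ ℕ)) i)
    first
      | exact (mul_eq_zero.1 h1).resolve_right h5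
      | exact (mul_eq_zero.1 h1).resolve_left h5

theorem IsStage.ne_zero {f : P2} (hf : f ≠ 0) {θ : Fin 2 → P2} {F : P2} {a : ℕ}
    (h : IsStage f θ F a) : F ≠ 0 := by
  obtain ⟨W, hW, hJ⟩ := h.hjac
  intro hF
  rw [h.hF] at hF
  apply hf
  ext v
  rw [map_zero]
  refine coeff_eq_zero_of_subst h.h0 ?_ _ f hF v rfl
  rw [hJ]
  refine mul_ne_zero (pow_ne_zero _ ?_) ?_
  · intro h1
    have h2 := congrArg (MvPowerSeries.coeff (Finsupp.single 0 1)) h1
    rw [MvPowerSeries.coeff_X, if_pos rfl, map_zero] at h2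
    exact one_ne_zero h2
  · rintro rfl
    exact hW (map_zero _)

/-- **First stage.** -/
theorem first {f : P2} (hf : f ≠ 0) {s₀ : ℚ} (hex : Ex f (s₀ : ℂ)) (hax : AxOK f s₀)
    (h1 : s₀ ≠ -1) : ZV f 1 ∈ regularAt s₀ := by
  obtain ⟨φ₁, ψ₁, φ, ψ, h1', h2', h3', h4', hBY, hBX, hB2⟩ := exists_first hf
  rw [← ZV_shY f 1 h1', ← ZV_shX _ h2', ← ZV_shY _ 1 h3', ← ZV_shX _ h4']
  have hst := (((((isStage_id f).shY h1').shX h2').shY h3').shX h4')
  set G := (MvPowerSeries.subst (shX ψ) (MvPowerSeries.subst (shY φ)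
      (MvPowerSeries.subst (shX ψ₁) (MvPowerSeries.subst (shY φ₁) f)))) with hG
  have hG0 : G ≠ 0 := hst.ne_zero hf
  have hcard : ∀ (p q A B : ℕ) (lam : ℂ) (R : Finset ℂ) (μ : ℂ → ℕ),
      IsEdge G p q A B lam R μ → 3 ≤ R.card + (if p = 1 ∧ B = 0 then 0 else 1) +
        (if q = 1 ∧ A = 0 then 0 else 1) := by
    intro p q A B lam R μ hE
    have h0 := Finset.card_pos.2 hE.hR
    by_cases h2 : p = 1 ∧ B = 0
    · by_cases h3 : q = 1 ∧ A = 0
      · rw [if_pos h2, if_pos h3]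
        obtain ⟨rfl, rfl⟩ := h2
        obtain ⟨rfl, rfl⟩ := h3
        exact not_bad2_card hBY hB2 hE
      · rw [if_pos h2, if_neg h3]
        have := not_bad_card hBY hE h2.1 h2.2
        omega
    · by_cases h3 : q = 1 ∧ A = 0
      · rw [if_neg h2, if_pos h3]
        have := not_badX_card hBX hE h3.1 h3.2
        omega
      · rw [if_neg h2, if_neg h3]
        omega
  have hroot : ∀ (p q A B : ℕ) (lam : ℂ) (R : Finset ℂ) (μ : ℂ → ℕ),
      IsEdge G p q A B lam R μ → ((1 * p + q : ℕ) : ℚ) ≠ -s₀ * (edgeN p q A B R μ : ℕ) := by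
    intro p q A B lam R μ hE h
    have hS := Finset.sum_pos hE.hm hE.hR
    have hN : 0 < edgeN p q A B R μ := by
      unfold edgeN
      have := Nat.mul_pos (Nat.mul_pos hE.hp hE.hq) hS
      omega
    have hNQ : ((edgeN p q A B R μ : ℕ) : ℚ) ≠ 0 := by exact_mod_cast hN.ne'
    have hs : s₀ = -((1 * p + q : ℕ) : ℚ) / (edgeN p q A B R μ : ℕ) := by
      rw [eq_div_iff hNQ, h]; ring
    obtain ⟨e1, e2, e3, e3', e4⟩ := first_ineq (A := A) (B := B) hE.hp hE.hq hS hs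
    refine root_edge' hst hE hs e3 ?_ hex
    have h5 := hcard p q A B lam R μ hE
    have h6 : (if q = 1 ∧ A = 0 then 0 else 1) ≤
        (if (((1 : ℕ) : ℚ) + A * s₀) / q = 1 then 0 else 1) := by
      by_cases h7 : (((1 : ℕ) : ℚ) + A * s₀) / q = 1
      · rw [if_pos (e3' h7)]
        exact Nat.zero_le _
      · rw [if_neg h7]
        split_ifs <;> omega
    omega
  have haxis : ∀ (i : Fin 2) (B : ℕ), ExactPow G i B → 0 < B → (1 : ℚ) ≠ -s₀ * B := by
    intro i B hB hB0 h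
    obtain ⟨W, hW, hJ⟩ := hst.hjac
    have hF' := hst.hF
    rw [hF'] at hB
    refine hax _ hst.h0 i B ?_ hB0 hB h
    rw [hJ, Nat.sub_self]
    intro hd
    rw [pow_zero, one_mul, MvPowerSeries.X_dvd_iff] at hd
    exact hW (hd 0 rfl)
  refine ZV_mem_of_edges hG0 le_rfl (Or.inl rfl) h1 ?_ ?_ hroot ?_
  · intro A hA hA0
    have := haxis 0 A hA hA0
    exact_mod_cast this
  · intro B hB hB0
    exact haxis 1 B hB hB0
  · intro p q A B lam R μ hE c hc α β hab
    have hc0 : c ≠ 0 := by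
      rintro rfl
      exact hE.hR0 hc
    have hμS : μ c ≤ ∑ c ∈ R, μ c := Finset.single_le_sum (fun _ _ => Nat.zero_le _) hc
    have hS := Finset.sum_pos hE.hm hE.hR
    have hN : 1 ≤ edgeN p q A B R μ := by
      unfold edgeN
      have := Nat.mul_pos (Nat.mul_pos hE.hp hE.hq) hS
      omega
    obtain ⟨-, -, -, -, e4⟩ := first_ineq (A := A) (B := B) hE.hp hE.hq hS rfl
    exact later hex hax h1 (μ c) _ _ _ _ (hst.sub hE.hp hE.hq hab hc0) (YOrd.sub hE hc hab) hN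
      (e4 (μ c) (hE.hm c hc) hμS).1 (hroot p q A B lam R μ hE)

/-- **Plane curve germs.** -/
theorem smcLoc_plane {f : MvPolynomial (Fin 2) ℂ} (hf : f ≠ 0) (h0 : coeff 0 f = 0) :
    SmcLoc f := by
  intro s₀ hs hp b hb
  by_contra hb0
  have hf' : (f : P2) ≠ 0 := by
    intro h
    apply hf
    ext v
    have := congrArg (MvPowerSeries.coeff v) h
    rwa [MvPolynomial.coeff_coe, map_zero] at this
  have h1 : s₀ ≠ -1 := by
    rintro rfl
    exact hb0 (neg_one_root hf (by rwa [MvPolynomial.notMem_support_iff]) b hb)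
  apply hp
  rw [← ZV_one f]
  exact first hf' (ex_of_isB (inPs_of_form hb) hb0) (IsB.axOK (inPs_of_form hb) hb0) h1

end PC

end MPb07157
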