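import Pool.Agent.Lib.MP_b07157_agV.A1

/-!
# The zeta function: independence of the level, decomposition, coordinate changes
-/

noncomputable section

namespace MPb07157

open MvPolynomial

namespace PC

namespace A2h

/-! ### Helper lemmas -/

theorem muN_biUnion (N : ℕ) {α : Type*} (s : Finset α) (S : α → Set (Fin 2 × Fin N → ℂ))
    (h : ∀ i ∈ s, IsConstr (S i)) (hd : ∀ i ∈ s, ∀ j ∈ s, i ≠ j → Disjoint (S i) (S j)) :
    muN N (⋃ i ∈ s, S i) = ∑ i ∈ s, muN N (S i) := by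
  unfold muN clsM
  rw [cls_biUnion s S h hd, map_sum, Finset.mul_sum]

theorem muN_empty (N : ℕ) : muN N ∅ = 0 := by
  unfold muN clsM
  rw [cls_empty, map_zero, mul_zero]

theorem exists_Xo {N : ℕ} (hN : 1 ≤ N) {γ : Fin 2 × Fin N → ℂ} (hγ : γ ∈ Start 2 1 N) :
    ∃ i ∈ Finset.Icc 1 N, γ ∈ Xo N i := by
  classical
  have hex : ∃ k : ℕ, k = N ∨ ∃ h : k < N, γ (0, ⟨k, h⟩) ≠ 0 := ⟨N, Or.inl rfl⟩
  refine ⟨Nat.find hex, Finset.mem_Icc.2 ⟨?_, Nat.find_min' hex (Or.inl rfl)⟩, ?_, ?_⟩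
  · rw [Nat.le_find_iff]
    rintro k hk (h3 | ⟨h3, h4⟩)
    · omega
    · exact h4 (hγ 0 ⟨k, h3⟩ hk)
  · intro k hk
    by_contra hne
    exact Nat.find_min hex hk (Or.inr ⟨k.2, hne⟩)
  · intro hj
    rcases Nat.find_spec hex with h3 | ⟨h3, h4⟩
    · rw [h3] at hj
      exact absurd hj (lt_irrefl _)
    · exact h4

theorem Xo_eq {N i j : ℕ} {γ : Fin 2 × Fin N → ℂ} (hi : i ≤ N) (hj : j ≤ N)
    (h1 : γ ∈ Xo N i) (h2 : γ ∈ Xo N j) : i = j := by
  rcases lt_trichotomy i j with h | h | h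
  · exact absurd (h2.1 ⟨i, by omega⟩ h) (h1.2 (by omega))
  · exact h
  · exact absurd (h1.1 ⟨j, by omega⟩ h) (h2.2 (by omega))

theorem arcsV_eq_iUnion_Xo (F : P2) {N m : ℕ} (hm : m < N) :
    arcsV F N m = ⋃ i ∈ Finset.Icc 1 N, (arcsV F N m ∩ Xo N i) := by
  ext γ
  simp only [Set.mem_iUnion, exists_prop, Set.mem_inter_iff]
  constructor
  · intro h
    obtain ⟨i, hi, h2⟩ := exists_Xo (by omega) h.1
    exact ⟨i, hi, h, h2⟩
  · rintro ⟨i, -, h, -⟩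
    exact h

theorem sum_muN_Xo (F : P2) {N m : ℕ} (hm : m < N) :
    ∑ i ∈ Finset.Icc 1 N, muN N (arcsV F N m ∩ Xo N i) = muN N (arcsV F N m) := by
  rw [← muN_biUnion N (Finset.Icc 1 N) (fun i => arcsV F N m ∩ Xo N i), ← arcsV_eq_iUnion_Xo F hm]
  · exact fun i _ => (isConstr_arcsV F hm).inter (isConstr_Xo N i)
  · intro i hi j hj hij
    rw [Set.disjoint_left]
    rintro γ ⟨-, h1⟩ ⟨-, h2⟩
    exact hij (Xo_eq (Finset.mem_Icc.1 hi).2 (Finset.mem_Icc.1 hj).2 h1 h2)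

theorem Zst_one (F : P2) {N m : ℕ} (hm : m < N) : Zst F 1 N m = muN N (arcsV F N m) := by
  rw [← sum_muN_Xo F hm]
  unfold Zst
  refine Finset.sum_congr rfl fun i _ => ?_
  simp

theorem muN_arcsV {F : P2} {P : MvPolynomial (Fin 2) ℂ} {N m : ℕ} (hm : m < N)
    (hP : ∀ v : Fin 2 →₀ ℕ, v 0 + v 1 ≤ m → MvPowerSeries.coeff v F = P.coeff v) :
    muN N (arcsV F N m) = muE P 1 N m := by
  rw [arcsV_eq hm hP]
  rfl

theorem exists_trunc' (F : P2) (m : ℕ) : ∃ P : MvPolynomial (Fin 2) ℂ,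
    ∀ v : Fin 2 →₀ ℕ, v 0 + v 1 ≤ m → MvPowerSeries.coeff v F = P.coeff v := by
  obtain ⟨P, hP⟩ := exists_trunc F m
  refine ⟨P, fun v hv => ?_⟩
  rcases hP v with h | ⟨h, -⟩
  · exact h
  · omega

theorem arcsV_Xo_eq_empty {F : P2} (h : MvPowerSeries.X 0 ∣ F) {N m i : ℕ} (hm : m < N)
    (hi : m < i) (hiN : i ≤ N) : arcsV F N m ∩ Xo N i = ∅ := by
  obtain ⟨G, rfl⟩ := h
  rw [Set.eq_empty_iff_forall_notMem]
  rintro γ ⟨h0, h3, -⟩
  obtain ⟨h1, h2⟩ := mem_arcsV_iff.1 h0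
  have hc : ∀ j : Fin 2, PowerSeries.constantCoeff (arc γ j) = 0 := by
    intro j
    rw [← PowerSeries.coeff_zero_eq_constantCoeff_apply, coeff_arc, dif_pos (by omega)]
    exact h1 j ⟨0, by omega⟩ (by simp)
  have hs : MvPowerSeries.HasSubst (arc γ : Fin 2 → MvPowerSeries Unit ℂ) :=
    MvPowerSeries.hasSubst_of_constantCoeff_zero hc
  have hdvd : (PowerSeries.X : PowerSeries ℂ) ^ i ∣ arc γ 0 := by
    rw [PowerSeries.X_pow_dvd_iff]
    intro k hk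
    rw [coeff_arc, dif_pos (by omega)]
    exact h3 ⟨k, by omega⟩ hk
  have h4 : (PowerSeries.X : PowerSeries ℂ) ^ i ∣ (MvPowerSeries.subst
      (arc γ : Fin 2 → MvPowerSeries Unit ℂ) (MvPowerSeries.X 0 * G) : PowerSeries ℂ) := by
    rw [MvPowerSeries.subst_mul hs, MvPowerSeries.subst_X hs]
    exact Dvd.dvd.mul_right hdvd _
  rw [PowerSeries.X_pow_dvd_iff] at h4
  rw [PowerSeries.order_eq_nat] at h2
  exact h2.1 (h4 m hi)

theorem muN_Xo_succ (F : P2) {N m i : ℕ} (hm : m < N) (hi : i < N) :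
    muN (N + 1) (arcsV F (N + 1) m ∩ Xo (N + 1) i) = muN N (arcsV F N m ∩ Xo N i) := by
  obtain ⟨P, hP⟩ := exists_trunc' F m
  have h : arcsV F (N + 1) m ∩ Xo (N + 1) i = {γ : Fin 2 × Fin (N + 1) → ℂ |
      leftPart γ ∈ arcsV F N m ∩ Xo N i ∧
      rightPart γ ∈ (Set.univ : Set (Fin 2 × Fin 1 → ℂ))} := by
    rw [arcsV_eq (Nat.lt_succ_of_lt hm) hP, arcsV_eq hm hP, arcs_succ P hm]
    ext γ
    simp only [Set.mem_inter_iff, Set.mem_ofPred_eq, Set.mem_univ, and_true]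
    rw [and_assoc, and_assoc]
    refine and_congr_right fun _ => and_congr ⟨fun h j k hk => h j (Fin.castAdd 1 k) hk,
      fun h j k hk => h j ⟨k, by omega⟩ hk⟩ ⟨fun h => ⟨fun k hk => h.1 (Fin.castAdd 1 k) hk,
        fun h' => h.2 (by omega)⟩, fun h => ⟨fun k hk => h.1 ⟨k, by omega⟩ hk,
        fun h' => h.2 hi⟩⟩
  unfold muN
  rw [h, clsM_mul_eq (cls_split ((isConstr_arcsV F hm).inter (isConstr_Xo N i))
    IsConstr.univ), clsM_univ]
  simp only [Fintype.card_prod, Fintype.card_fin, mul_one, mul_add, pow_add, mul_inv,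
    Units.val_mul]
  rw [mul_comm (clsM _), mul_assoc, ← mul_assoc (((LU ^ 2)⁻¹ : Motˣ) : Mot), Units.inv_mul,
    one_mul]

theorem muN_Xo_eq (F : P2) {N m i : ℕ} (hm : m < N) (hi : i ≤ m) :
    muN N (arcsV F N m ∩ Xo N i) = muN (m + 1) (arcsV F (m + 1) m ∩ Xo (m + 1) i) := by
  obtain ⟨k, rfl⟩ := Nat.exists_eq_add_of_lt hm
  rw [show m + k + 1 = (m + 1) + k by ring]
  induction k with
  | zero => rfl
  | succ k ih =>
    rw [← ih (by omega)]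
    exact muN_Xo_succ F (N := m + 1 + k) (by omega) (by omega)

theorem Zst_eq_of_dvd {F : P2} (a : ℕ) {N m : ℕ} (h : MvPowerSeries.X 0 ∣ F) (hm : m < N) :
    Zst F a N m = ∑ i ∈ Finset.Icc 1 m, ((LU ^ (-(((a - 1) * i : ℕ) : ℤ)) : Motˣ) : Mot) *
      muN (m + 1) (arcsV F (m + 1) m ∩ Xo (m + 1) i) := by
  unfold Zst
  rw [← Finset.sum_subset (Finset.Icc_subset_Icc_right hm.le)]
  · refine Finset.sum_congr rfl fun i hi => ?_
    rw [muN_Xo_eq F hm (Finset.mem_Icc.1 hi).2]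
  · intro i hi hi2
    rw [Finset.mem_Icc] at hi hi2
    rw [arcsV_Xo_eq_empty h hm (by omega) hi.2, muN_empty, mul_zero]

theorem exists_Strat {N : ℕ} (hN : 1 ≤ N) {γ : Fin 2 × Fin N → ℂ} (hγ : γ ∈ Start 2 1 N) :
    ∃ c ∈ Fintype.piFinset (fun _ : Fin 2 => Finset.Icc 1 N), γ ∈ Strat N c := by
  have h1 : γ ∈ arcs (1 : MvPolynomial (Fin 2) ℂ) N 0 ∩ Start 2 1 N := by
    refine ⟨?_, hγ⟩
    unfold arcs
    rw [Set.mem_ofPred_eq, map_one, PowerSeries.order_one]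
    rfl
  rw [arcs_eq_iUnion _ 0 hN] at h1
  simp only [Set.mem_iUnion, exists_prop] at h1
  obtain ⟨c, hc, h2⟩ := h1
  exact ⟨c, hc, h2.2⟩

theorem Strat_subset_Xo {N : ℕ} (c : Fin 2 → ℕ) : Strat N c ⊆ Xo N (c 0) := by
  rintro γ ⟨h1, h2⟩
  refine ⟨fun k hk => h1 0 k hk, fun h => ?_⟩
  have h3 := h2 0 h
  unfold lead0 at h3
  rw [dif_pos h] at h3
  exact h3

end A2h

open A2h

theorem Zst_eq {F : P2} {a N m : ℕ} (h : a = 1 ∨ MvPowerSeries.X 0 ∣ F) (hm : m < N) :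
    Zst F a N m = Zst F a (m + 1) m := by
  rcases h with rfl | h
  · obtain ⟨P, hP⟩ := exists_trunc' F m
    rw [Zst_one F hm, Zst_one F (Nat.lt_succ_self m), muN_arcsV hm hP,
      muN_arcsV (Nat.lt_succ_self m) hP]
    exact muE_eq P hm le_rfl
  · rw [Zst_eq_of_dvd a h hm, Zst_eq_of_dvd a h (Nat.lt_succ_self m)]

theorem ZV_one (f : MvPolynomial (Fin 2) ℂ) : ZV (f : P2) 1 = Zmot0 f := by
  rw [Zmot0_eq]
  unfold ZV ZE
  congr 1
  funext m
  rw [Zst_one _ (Nat.lt_succ_self m)]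
  exact muN_arcsV (Nat.lt_succ_self m) fun v _ => MvPolynomial.coeff_coe f v

/-- Decomposition of the arcs by the orders of both coordinates. -/
theorem Zst_strat (F : P2) (a : ℕ) {N m : ℕ} (hm : m < N) :
    Zst F a N m = ∑ c ∈ Fintype.piFinset (fun _ : Fin 2 => Finset.Icc 1 N),
      ((LU ^ (-(((a - 1) * c 0 : ℕ) : ℤ)) : Motˣ) : Mot) *
        muN N (arcsV F N m ∩ Strat N c) := by
  classical
  have hmaps : ∀ c ∈ Fintype.piFinset (fun _ : Fin 2 => Finset.Icc 1 N),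
      c 0 ∈ Finset.Icc 1 N := fun c hc => Fintype.mem_piFinset.1 hc 0
  rw [← Finset.sum_fiberwise_of_maps_to hmaps]
  unfold Zst
  refine Finset.sum_congr rfl fun i hi => ?_
  have h1 : arcsV F N m ∩ Xo N i = ⋃ c ∈ (Fintype.piFinset
      (fun _ : Fin 2 => Finset.Icc 1 N)).filter (fun c => c 0 = i),
      (arcsV F N m ∩ Strat N c) := by
    ext γ
    simp only [Set.mem_iUnion, exists_prop, Set.mem_inter_iff, Finset.mem_filter]
    constructor
    · rintro ⟨h1, h2⟩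
      obtain ⟨c, hc, h3⟩ := exists_Strat (by omega) h1.1
      exact ⟨c, ⟨hc, Xo_eq (Finset.mem_Icc.1 (hmaps c hc)).2 (Finset.mem_Icc.1 hi).2
        (Strat_subset_Xo c h3) h2⟩, h1, h3⟩
    · rintro ⟨c, ⟨-, h2⟩, h1, h3⟩
      refine ⟨h1, ?_⟩
      rw [← h2]
      exact Strat_subset_Xo c h3
  rw [h1, muN_biUnion, Finset.mul_sum]
  · refine Finset.sum_congr rfl fun c hc => ?_
    rw [(Finset.mem_filter.1 hc).2]
  · exact fun c _ => (isConstr_arcsV F hm).inter (isConstr_Strat N c)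
  · intro c hc d hd hcd
    have hc' := Fintype.mem_piFinset.1 (Finset.mem_filter.1 hc).1
    have hd' := Fintype.mem_piFinset.1 (Finset.mem_filter.1 hd).1
    exact (disjoint_Strat (fun j => (Finset.mem_Icc.1 (hc' j)).2)
      (fun j => (Finset.mem_Icc.1 (hd' j)).2) hcd).mono Set.inter_subset_right
      Set.inter_subset_right

end PC

end MPb07157
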