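import Pool.Agent.Lib.MP_b07157_agV.A1

/-!
# The zeta function: coordinate changes
-/

noncomputable section

namespace MPb07157

open MvPolynomial

namespace PC

theorem hasSubst_ps {x : Fin 2 → PowerSeries ℂ} (hx : ∀ j, PowerSeries.constantCoeff (x j) = 0) :
    MvPowerSeries.HasSubst (x : Fin 2 → MvPowerSeries Unit ℂ) :=
  MvPowerSeries.hasSubst_of_constantCoeff_zero hx

/-- Substitutions of congruent power series are congruent. -/
theorem subst_congr_X_pow (F : P2) (N : ℕ) {x x' : Fin 2 → PowerSeries ℂ}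
    (hx : ∀ j, PowerSeries.constantCoeff (x j) = 0)
    (hx' : ∀ j, PowerSeries.constantCoeff (x' j) = 0)
    (h : ∀ j, (PowerSeries.X : PowerSeries ℂ) ^ N ∣ x j - x' j) :
    (PowerSeries.X : PowerSeries ℂ) ^ N ∣
      (MvPowerSeries.subst (x : Fin 2 → MvPowerSeries Unit ℂ) F : PowerSeries ℂ) -
      (MvPowerSeries.subst (x' : Fin 2 → MvPowerSeries Unit ℂ) F : PowerSeries ℂ) := by
  obtain ⟨P, hP⟩ := exists_trunc F N
  have hG : ∀ v : Fin 2 →₀ ℕ, wt (fun _ => 1) v < N →
      MvPowerSeries.coeff v (F - (P : P2)) = 0 := by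
    intro v hv
    have h1 : v 0 + v 1 < N := by
      have h2 : wt (fun _ => 1) v = v 0 + v 1 := by
        simp [wt, Fin.sum_univ_two]
      omega
    rw [map_sub, coeff_coe]
    rcases hP v with h2 | ⟨h2, -⟩
    · rw [h2, sub_self]
    · omega
  have key : ∀ y : Fin 2 → PowerSeries ℂ, (∀ j, PowerSeries.constantCoeff (y j) = 0) →
      (PowerSeries.X : PowerSeries ℂ) ^ N ∣
      (MvPowerSeries.subst (y : Fin 2 → MvPowerSeries Unit ℂ) F : PowerSeries ℂ) - aeval y P := by
    intro y hy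
    have h1 := le_order_subst (F := F - (P : P2)) (w := fun _ => 1) (r := N)
      (fun _ => Nat.one_pos) hG (x := y)
      (fun j => by rw [pow_one]; exact PowerSeries.X_dvd_iff.2 (hy j))
    rw [MvPowerSeries.subst_sub (hasSubst_ps hy), MvPowerSeries.subst_coe] at h1
    exact h1
  have h1 := key x hx
  have h2 := key x' hx'
  have h3 := aeval_congr_X_pow N P x x' h
  have h4 := dvd_add (dvd_sub h1 h2) h3
  have h5 : (MvPowerSeries.subst (x : Fin 2 → MvPowerSeries Unit ℂ) F : PowerSeries ℂ) -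
      (MvPowerSeries.subst (x' : Fin 2 → MvPowerSeries Unit ℂ) F : PowerSeries ℂ) =
      ((MvPowerSeries.subst (x : Fin 2 → MvPowerSeries Unit ℂ) F : PowerSeries ℂ) - aeval x P) -
      ((MvPowerSeries.subst (x' : Fin 2 → MvPowerSeries Unit ℂ) F : PowerSeries ℂ) -
        aeval x' P) + (aeval x P - aeval x' P) := by
    ring
  rw [h5]
  exact h4

/-- A power series in one variable, up to order `N`. -/
theorem psubst_trunc (φ : PowerSeries ℂ) (N : ℕ) {x : PowerSeries ℂ}
    (hx : PowerSeries.constantCoeff x = 0) :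
    (PowerSeries.X : PowerSeries ℂ) ^ N ∣
      (PowerSeries.subst (x : MvPowerSeries Unit ℂ) φ : PowerSeries ℂ) -
        Polynomial.aeval x (PowerSeries.trunc N φ) := by
  have hs : PowerSeries.HasSubst (x : MvPowerSeries Unit ℂ) :=
    PowerSeries.HasSubst.of_constantCoeff_zero' hx
  have h1 : (PowerSeries.X : PowerSeries ℂ) ^ N ∣ φ - (PowerSeries.trunc N φ : PowerSeries ℂ) := by
    rw [PowerSeries.X_pow_dvd_iff]
    intro k hk
    rw [map_sub, Polynomial.coeff_coe, PowerSeries.coeff_trunc, if_pos hk, sub_self]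
  obtain ⟨ψ, hψ⟩ := h1
  have h2 : φ = (PowerSeries.trunc N φ : PowerSeries ℂ) + PowerSeries.X ^ N * ψ := by
    rw [← hψ]
    ring
  have h3 : (PowerSeries.subst (x : MvPowerSeries Unit ℂ) φ : PowerSeries ℂ) =
      Polynomial.aeval x (PowerSeries.trunc N φ) +
        x ^ N * PowerSeries.subst (x : MvPowerSeries Unit ℂ) ψ := by
    conv_lhs => rw [h2]
    rw [PowerSeries.subst_add hs, PowerSeries.subst_mul hs, PowerSeries.subst_pow hs,
      PowerSeries.subst_X hs, PowerSeries.subst_coe hs]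
  rw [h3, add_sub_cancel_left]
  exact (pow_dvd_pow_of_dvd (PowerSeries.X_dvd_iff.2 hx) N).mul_right _

/-- A bijection of the truncated arcs at the origin given by a polynomial automorphism. -/
theorem cls_change {m : ℕ} {F F' : P2} {q q' : Fin 2 → MvPolynomial (Fin 2) ℂ}
    (h1 : ∀ i, bind₁ q (q' i) = X i) (h2 : ∀ i, bind₁ q' (q i) = X i)
    (h0 : ∀ i, coeff 0 (q i) = 0) (h0' : ∀ i, coeff 0 (q' i) = 0)
    (hF : ∀ γ ∈ Start 2 1 (m + 1), (PowerSeries.X : PowerSeries ℂ) ^ (m + 1) ∣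
      (MvPowerSeries.subst (arc γ : Fin 2 → MvPowerSeries Unit ℂ) F' : PowerSeries ℂ) -
      (MvPowerSeries.subst (fun i => aeval (arc γ) (q i) : Fin 2 → MvPowerSeries Unit ℂ) F :
        PowerSeries ℂ))
    {Y : Set (Fin 2 × Fin (m + 1) → ℂ)} (hY : IsConstr Y)
    (hY1 : ∀ γ ∈ Start 2 1 (m + 1), (polyMap (jetPoly q (m + 1)) γ ∈ Y ↔ γ ∈ Y)) :
    cls (arcsV F' (m + 1) m ∩ Y) = cls (arcsV F (m + 1) m ∩ Y) := by
  have hstart : ∀ {p : Fin 2 → MvPolynomial (Fin 2) ℂ}, (∀ i, coeff 0 (p i) = 0) →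
      ∀ {γ : Fin 2 × Fin (m + 1) → ℂ}, γ ∈ Start 2 1 (m + 1) →
      polyMap (jetPoly p (m + 1)) γ ∈ Start 2 1 (m + 1) := by
    intro p hp γ hγ
    rw [mem_Start_one] at hγ ⊢
    intro i
    rw [polyMap_jetPoly]
    have h3 : PowerSeries.coeff ((0 : Fin (m + 1)) : ℕ) (aeval (arc γ) (p i) : PowerSeries ℂ) =
        coeff 0 (p i) := by
      rw [← constantCoeff_aeval (constantCoeff_arc hγ),
        ← PowerSeries.coeff_zero_eq_constantCoeff_apply]
      rfl
    rw [h3, hp]
  have hinv : ∀ {p p' : Fin 2 → MvPolynomial (Fin 2) ℂ}, (∀ i, bind₁ p (p' i) = X i) →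
      ∀ γ : Fin 2 × Fin (m + 1) → ℂ,
      polyMap (jetPoly p' (m + 1)) (polyMap (jetPoly p (m + 1)) γ) = γ := by
    intro p p' hp γ
    funext c
    rw [polyMap_jetPoly]
    have h3 := aeval_congr_X_pow (m + 1) (p' c.1) (arc (polyMap (jetPoly p (m + 1)) γ))
      (fun j => (aeval (arc γ) (p j) : PowerSeries ℂ)) (arc_jetPoly p γ)
    rw [PowerSeries.X_pow_dvd_iff] at h3
    have h4 := h3 c.2 c.2.2
    rw [map_sub, sub_eq_zero] at h4
    rw [h4]
    have h5 : (aeval (fun j => (aeval (arc γ) (p j) : PowerSeries ℂ)) (p' c.1) : PowerSeries ℂ) =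
        aeval (arc γ) (bind₁ p (p' c.1)) := by
      rw [aeval_bind₁]
    rw [h5, hp, aeval_X, coeff_arc, dif_pos c.2.2]
  have horder : ∀ {γ : Fin 2 × Fin (m + 1) → ℂ}, γ ∈ Start 2 1 (m + 1) →
      ((MvPowerSeries.subst (arc γ : Fin 2 → MvPowerSeries Unit ℂ) F' : PowerSeries ℂ).order = m ↔
      (MvPowerSeries.subst (arc (polyMap (jetPoly q (m + 1)) γ) : Fin 2 → MvPowerSeries Unit ℂ) F :
        PowerSeries ℂ).order = m) := by
    intro γ hγ
    have h3 := hstart h0 hγ
    rw [mem_Start_one] at h3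
    rw [← PowerSeries.order_eq_order, ← PowerSeries.order_eq_order]
    refine order_congr (Nat.lt_succ_self m) ?_
    have h4 := hF γ hγ
    rw [mem_Start_one] at hγ
    have h5 := subst_congr_X_pow F (m + 1) (x := fun i => (aeval (arc γ) (q i) : PowerSeries ℂ))
      (x' := arc (polyMap (jetPoly q (m + 1)) γ))
      (fun j => by rw [constantCoeff_aeval (constantCoeff_arc hγ), h0])
      (constantCoeff_arc h3)
      (fun j => by
        rw [← dvd_neg, neg_sub]
        exact arc_jetPoly q γ j)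
    have h6 := dvd_add h4 h5
    rwa [sub_add_sub_cancel] at h6
  refine cls_bijOn ((isConstr_arcsV _ (Nat.lt_succ_self m)).inter hY)
    ((isConstr_arcsV _ (Nat.lt_succ_self m)).inter hY) (jetPoly q (m + 1)) ⟨?_, ?_, ?_⟩
  · rintro γ ⟨⟨h3, h4⟩, h5⟩
    exact ⟨⟨hstart h0 h3, (horder h3).1 h4⟩, (hY1 γ h3).2 h5⟩
  · rintro γ - γ' - heq
    rw [← hinv h1 γ, heq, hinv h1 γ']
  · rintro γ ⟨⟨h3, h4⟩, h5⟩
    have h6 : polyMap (jetPoly q (m + 1)) (polyMap (jetPoly q' (m + 1)) γ) = γ := hinv h2 γ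
    have h7 := hstart h0' h3
    refine ⟨polyMap (jetPoly q' (m + 1)) γ, ⟨⟨h7, (horder h7).2 ?_⟩, (hY1 _ h7).1 ?_⟩, h6⟩
    · rw [h6]
      exact h4
    · rw [h6]
      exact h5

/-- The polynomial `φ(x_i)` modulo `x_i ^ N`. -/
def trP (i : Fin 2) (φ : PowerSeries ℂ) (N : ℕ) : MvPolynomial (Fin 2) ℂ :=
  Polynomial.aeval (X i : MvPolynomial (Fin 2) ℂ) (PowerSeries.trunc N φ)

theorem coeff_zero_trP (i : Fin 2) {φ : PowerSeries ℂ} (hφ : PowerSeries.constantCoeff φ = 0)
    (N : ℕ) : coeff 0 (trP i φ N) = 0 := by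
  have h1 : (PowerSeries.trunc N φ).coeff 0 = 0 := by
    rw [PowerSeries.coeff_trunc, PowerSeries.coeff_zero_eq_constantCoeff_apply, hφ, ite_self]
  have h2 := Polynomial.divX_mul_X_add (PowerSeries.trunc N φ)
  rw [h1, Polynomial.C_0, add_zero] at h2
  unfold trP
  rw [← h2, map_mul, Polynomial.aeval_X, ← constantCoeff_eq, map_mul, constantCoeff_X, mul_zero]

theorem bind_trP {i : Fin 2} {q : Fin 2 → MvPolynomial (Fin 2) ℂ} (hq : q i = X i)
    (φ : PowerSeries ℂ) (N : ℕ) : bind₁ q (trP i φ N) = trP i φ N := by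
  unfold trP
  rw [← Polynomial.aeval_algHom_apply, bind₁_X_right, hq]

theorem aeval_trP (i : Fin 2) (φ : PowerSeries ℂ) (N : ℕ) (x : Fin 2 → PowerSeries ℂ) :
    (aeval x (trP i φ N) : PowerSeries ℂ) = Polynomial.aeval (x i) (PowerSeries.trunc N φ) := by
  unfold trP
  rw [← Polynomial.aeval_algHom_apply, aeval_X]

/-- The composition of `φ(x_i)` with an arc. -/
theorem subst_arc_psubst (i : Fin 2) (φ : PowerSeries ℂ) (N : ℕ) {x : Fin 2 → PowerSeries ℂ}
    (hx : ∀ j, PowerSeries.constantCoeff (x j) = 0) :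
    (PowerSeries.X : PowerSeries ℂ) ^ N ∣
      (MvPowerSeries.subst (x : Fin 2 → MvPowerSeries Unit ℂ)
        (PowerSeries.subst (MvPowerSeries.X i : P2) φ) : PowerSeries ℂ) -
        aeval x (trP i φ N) := by
  have h1 : (MvPowerSeries.subst (x : Fin 2 → MvPowerSeries Unit ℂ)
        (PowerSeries.subst (MvPowerSeries.X i : P2) φ) : PowerSeries ℂ) =
      PowerSeries.subst (x i : MvPowerSeries Unit ℂ) φ := by
    have h2 : MvPowerSeries.HasSubst (fun _ : Unit => (MvPowerSeries.X i : P2)) :=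
      PowerSeries.hasSubst_iff.1 (PowerSeries.HasSubst.X i)
    have h3 := MvPowerSeries.subst_comp_subst_apply (R := ℂ) h2 (hasSubst_ps hx) φ
    rw [MvPowerSeries.subst_X (hasSubst_ps hx)] at h3
    exact h3
  rw [h1, aeval_trP]
  exact psubst_trunc φ N (hx i)

theorem constantCoeff_psubst_X (i : Fin 2) {φ : PowerSeries ℂ}
    (hφ : PowerSeries.constantCoeff φ = 0) :
    MvPowerSeries.constantCoeff (PowerSeries.subst (MvPowerSeries.X i : P2) φ : P2) = 0 :=
  PowerSeries.constantCoeff_subst_eq_zero (by simp) φ hφ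

/-- A coordinate change `x_i ↦ x_i`, `x_j ↦ x_j + φ(x_i)`. -/
theorem cls_shear {m : ℕ} (F : P2) {i j : Fin 2} (hij : i ≠ j) {φ : PowerSeries ℂ}
    (hφ : PowerSeries.constantCoeff φ = 0) {θ : Fin 2 → P2} (hi : θ i = MvPowerSeries.X i)
    (hj : θ j = MvPowerSeries.X j + PowerSeries.subst (MvPowerSeries.X i : P2) φ)
    {Y : Set (Fin 2 × Fin (m + 1) → ℂ)} (hY : IsConstr Y)
    (hY1 : ∀ γ γ' : Fin 2 × Fin (m + 1) → ℂ, (∀ k, γ (i, k) = γ' (i, k)) → (γ ∈ Y ↔ γ' ∈ Y)) :
    cls (arcsV (MvPowerSeries.subst θ F) (m + 1) m ∩ Y) = cls (arcsV F (m + 1) m ∩ Y) := by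
  have hcase : ∀ l : Fin 2, l = i ∨ l = j := by
    intro l
    omega
  set q : Fin 2 → MvPolynomial (Fin 2) ℂ := fun l => if l = i then X i else X j + trP i φ (m + 1)
    with hq
  set q' : Fin 2 → MvPolynomial (Fin 2) ℂ := fun l => if l = i then X i else X j - trP i φ (m + 1)
    with hq'
  have hqi : q i = X i := by simp [hq]
  have hqj : q j = X j + trP i φ (m + 1) := by simp [hq, hij.symm]
  have hqi' : q' i = X i := by simp [hq']
  have hqj' : q' j = X j - trP i φ (m + 1) := by simp [hq', hij.symm]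
  have hθ0 : ∀ l, MvPowerSeries.constantCoeff (θ l) = 0 := by
    intro l
    rcases hcase l with rfl | rfl
    · rw [hi, MvPowerSeries.constantCoeff_X]
    · rw [hj, map_add, MvPowerSeries.constantCoeff_X, constantCoeff_psubst_X i hφ, add_zero]
  refine cls_change (q := q) (q' := q') (fun l => ?_) (fun l => ?_) (fun l => ?_) (fun l => ?_)
    (fun γ hγ => ?_) hY (fun γ hγ => ?_)
  · rcases hcase l with rfl | rfl
    · rw [hqi', bind₁_X_right, hqi]
    · rw [hqj', map_sub, bind₁_X_right, hqj, bind_trP hqi, add_sub_cancel_right]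
  · rcases hcase l with rfl | rfl
    · rw [hqi, bind₁_X_right, hqi']
    · rw [hqj, map_add, bind₁_X_right, hqj', bind_trP hqi', sub_add_cancel]
  · rcases hcase l with rfl | rfl
    · rw [hqi, ← constantCoeff_eq, constantCoeff_X]
    · rw [hqj, coeff_add, coeff_zero_trP i hφ, ← constantCoeff_eq, constantCoeff_X, add_zero]
  · rcases hcase l with rfl | rfl
    · rw [hqi', ← constantCoeff_eq, constantCoeff_X]
    · rw [hqj', coeff_sub, coeff_zero_trP i hφ, ← constantCoeff_eq, constantCoeff_X, sub_zero]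
  · rw [mem_Start_one] at hγ
    have hγ' := constantCoeff_arc hγ
    have h1 := MvPowerSeries.subst_comp_subst_apply (R := ℂ)
      (MvPowerSeries.hasSubst_of_constantCoeff_zero hθ0) (hasSubst_ps hγ') F
    rw [h1]
    refine subst_congr_X_pow F (m + 1) (fun l => ?_) (fun l => ?_) (fun l => ?_)
    · exact MvPowerSeries.constantCoeff_subst_eq_zero (hasSubst_ps hγ') hγ' (hθ0 l)
    · rw [constantCoeff_aeval hγ']
      rcases hcase l with rfl | rfl
      · rw [hqi, ← constantCoeff_eq, constantCoeff_X]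
      · rw [hqj, coeff_add, coeff_zero_trP i hφ, ← constantCoeff_eq, constantCoeff_X, add_zero]
    · rcases hcase l with rfl | rfl
      · rw [hi, hqi, MvPowerSeries.subst_X (hasSubst_ps hγ'), aeval_X, sub_self]
        exact dvd_zero _
      · rw [hj, hqj, MvPowerSeries.subst_add (hasSubst_ps hγ'),
          MvPowerSeries.subst_X (hasSubst_ps hγ'), map_add, aeval_X, add_sub_add_left_eq_sub]
        exact subst_arc_psubst i φ (m + 1) hγ'
  · refine hY1 _ _ fun k => ?_
    rw [polyMap_jetPoly, hqi, aeval_X, coeff_arc, dif_pos k.2]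

theorem mem_Xo_congr {N i : ℕ} {γ γ' : Fin 2 × Fin N → ℂ} (h : ∀ k, γ (0, k) = γ' (0, k)) :
    γ ∈ Xo N i ↔ γ' ∈ Xo N i := by
  simp only [Xo, Set.mem_ofPred_eq, h]

theorem ZV_shY (F : P2) (a : ℕ) {φ : PowerSeries ℂ} (hφ : PowerSeries.constantCoeff φ = 0) :
    ZV (MvPowerSeries.subst (shY φ) F) a = ZV F a := by
  ext m
  unfold ZV
  rw [PowerSeries.coeff_mk, PowerSeries.coeff_mk]
  unfold Zst
  refine Finset.sum_congr rfl fun i _ => ?_
  unfold muN clsM
  rw [cls_shear F (i := 0) (j := 1) (by decide) hφ (θ := shY φ) rfl rfl (isConstr_Xo (m + 1) i)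
    (fun γ γ' h => mem_Xo_congr h)]

/-- For `a = 1` the weights disappear. -/
theorem Zst_one (F : P2) (m : ℕ) : Zst F 1 (m + 1) m = muN (m + 1) (arcsV F (m + 1) m) := by
  have h1 : arcsV F (m + 1) m = ⋃ i ∈ Finset.Icc 1 (m + 1), arcsV F (m + 1) m ∩ Xo (m + 1) i := by
    ext γ
    simp only [Set.mem_iUnion, exists_prop, Set.mem_inter_iff]
    constructor
    · intro hγ
      classical
      by_cases h : ∃ k : Fin (m + 1), γ (0, k) ≠ 0
      · have h2 : ∃ k : ℕ, ∃ hk : k < m + 1, γ (0, ⟨k, hk⟩) ≠ 0 := by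
          obtain ⟨k, hk⟩ := h
          exact ⟨k, k.2, hk⟩
        obtain ⟨h3, h4⟩ := Nat.find_spec h2
        refine ⟨Nat.find h2, ?_, hγ, ?_, ?_⟩
        · rw [Finset.mem_Icc]
          refine ⟨?_, h3.le⟩
          rw [Nat.one_le_iff_ne_zero]
          intro h5
          apply h4
          have h6 := mem_Start_one.1 hγ.1 0
          have h7 : (⟨Nat.find h2, h3⟩ : Fin (m + 1)) = 0 := by
            ext
            exact h5
          rw [h7]
          exact h6
        · intro k hk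
          have h5 := Nat.find_min h2 hk
          push Not at h5
          exact h5 k.2
        · intro _
          exact h4
      · push Not at h
        refine ⟨m + 1, ?_, hγ, fun k _ => h k, fun h2 => absurd h2 (lt_irrefl _)⟩
        rw [Finset.mem_Icc]
        omega
    · rintro ⟨i, -, h, -⟩
      exact h
  have h2 : cls (arcsV F (m + 1) m) =
      ∑ i ∈ Finset.Icc 1 (m + 1), cls (arcsV F (m + 1) m ∩ Xo (m + 1) i) := by
    conv_lhs => rw [h1]
    refine cls_biUnion _ _ (fun i _ => (isConstr_arcsV _ (Nat.lt_succ_self m)).inter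
      (isConstr_Xo _ _)) (fun i hi j hj hij => ?_)
    rw [Finset.mem_Icc] at hi hj
    rw [Set.disjoint_left]
    rintro γ ⟨-, h3, h4⟩ ⟨-, h5, h6⟩
    rcases lt_or_gt_of_ne hij with h7 | h7
    · exact h4 (lt_of_lt_of_le h7 hj.2) (h5 ⟨i, lt_of_lt_of_le h7 hj.2⟩ h7)
    · exact h6 (lt_of_lt_of_le h7 hi.2) (h3 ⟨j, lt_of_lt_of_le h7 hi.2⟩ h7)
  unfold Zst muN clsM
  rw [h2, map_sum, Finset.mul_sum]
  refine Finset.sum_congr rfl fun i _ => ?_
  simp

theorem ZV_shX (F : P2) {ψ : PowerSeries ℂ} (hψ : PowerSeries.constantCoeff ψ = 0) :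
    ZV (MvPowerSeries.subst (shX ψ) F) 1 = ZV F 1 := by
  ext m
  unfold ZV
  rw [PowerSeries.coeff_mk, PowerSeries.coeff_mk, Zst_one, Zst_one]
  unfold muN clsM
  have h := cls_shear (m := m) F (i := 1) (j := 0) (by decide) hψ (θ := shX ψ) rfl rfl
    (Y := Set.univ) IsConstr.univ (fun γ γ' _ => by simp)
  rw [Set.inter_univ, Set.inter_univ] at h
  rw [h]

end PC

end MPb07157
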