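import Pool.Agent.Lib.MP_b07157_agV.B1

/-!
# The arcs with given orders
-/

noncomputable section

namespace MPb07157

open MvPolynomial

namespace PC

/-- The points of the torus where a polynomial does not vanish. -/
def Tor (P : MvPolynomial (Fin 2) ℂ) : Set (Fin 2 → ℂ) := {ξ | ξ 0 ≠ 0 ∧ ξ 1 ≠ 0 ∧ eval ξ P ≠ 0}

namespace B2h

/-! ### Helper lemmas -/

theorem X_pow_dvd_arc_of_mem_Strat {N : ℕ} {w : Fin 2 → ℕ} {γ : Fin 2 × Fin N → ℂ}
    (hγ : γ ∈ Strat N w) (j : Fin 2) : (PowerSeries.X : PowerSeries ℂ) ^ w j ∣ arc γ j := by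
  rw [arc_eq_tail hγ.1 j]
  exact dvd_mul_right _ _

theorem mem_Start_of_mem_Strat {N : ℕ} {w : Fin 2 → ℕ} (hw : ∀ j, 1 ≤ w j)
    {γ : Fin 2 × Fin N → ℂ} (hγ : γ ∈ Strat N w) : γ ∈ Start 2 1 N :=
  fun j k hk => hγ.1 j k (lt_of_lt_of_le hk (hw j))

/-- The value of `F` at an arc of given orders. -/
theorem exists_subst_strat {F : P2} {N : ℕ} {w : Fin 2 → ℕ} (hw : ∀ j, 1 ≤ w j) {r : ℕ}
    {P : MvPolynomial (Fin 2) ℂ} (hI : IsInit F w r P) {γ : Fin 2 × Fin N → ℂ}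
    (hγ : γ ∈ Strat N w) : ∃ G : PowerSeries ℂ,
      (MvPowerSeries.subst (arc γ : Fin 2 → MvPowerSeries Unit ℂ) F : PowerSeries ℂ) =
        PowerSeries.X ^ r * G ∧ PowerSeries.constantCoeff G = eval (lead0 w γ) P := by
  obtain ⟨G, h1, h2⟩ := subst_init hw hI (tailS w γ)
  refine ⟨G, ?_, ?_⟩
  · rw [← h1]
    congr 1
    funext j
    exact arc_eq_tail hγ.1 j
  · rw [h2]
    congr 2
    funext j
    exact constantCoeff_tailS w γ j

theorem order_X_pow_mul {r : ℕ} {G : PowerSeries ℂ} (hG : PowerSeries.constantCoeff G ≠ 0) :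
    PowerSeries.order (PowerSeries.X ^ r * G) = r := by
  rw [PowerSeries.order_eq_nat]
  constructor
  · rw [PowerSeries.coeff_X_pow_mul', if_pos le_rfl, Nat.sub_self,
      PowerSeries.coeff_zero_eq_constantCoeff_apply]
    exact hG
  · intro i hi
    rw [PowerSeries.coeff_X_pow_mul', if_neg (by omega)]

/-- If the initial form does not vanish at the leading coefficients, `ord F` is the weight. -/
theorem mem_arcsV_iff_of_ne {F : P2} {N m : ℕ} {w : Fin 2 → ℕ} (hw : ∀ j, 1 ≤ w j) {r : ℕ}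
    {P : MvPolynomial (Fin 2) ℂ} (hI : IsInit F w r P) {γ : Fin 2 × Fin N → ℂ}
    (hγ : γ ∈ Strat N w) (h : eval (lead0 w γ) P ≠ 0) : γ ∈ arcsV F N m ↔ r = m := by
  obtain ⟨G, h1, h2⟩ := exists_subst_strat hw hI hγ
  rw [mem_arcsV_iff, and_iff_right (mem_Start_of_mem_Strat hw hγ), h1,
    order_X_pow_mul (by rw [h2]; exact h)]
  exact Nat.cast_inj

theorem isConstr_Tor (P : MvPolynomial (Fin 2) ℂ) : IsConstr (Tor P) := by
  have h : ∀ j : Fin 2, IsConstr {ξ : Fin 2 → ℂ | ξ j ≠ 0} := by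
    intro j
    have := isConstr_ne_zero (X j : MvPolynomial (Fin 2) ℂ)
    simpa using this
  exact isConstr_setOf_and (h 0) (isConstr_setOf_and (h 1) (isConstr_ne_zero P))

theorem isInit_mul {F : P2} {w : Fin 2 → ℕ} {r k : ℕ} {P : MvPolynomial (Fin 2) ℂ}
    (hk : 0 < k) (h : IsInit F w r P) : IsInit F (fun j => k * w j) (k * r) P := by
  have hwt : ∀ v : Fin 2 →₀ ℕ, wt (fun j => k * w j) v = k * wt w v := by
    intro v
    simp only [wt, Finset.mul_sum, mul_assoc]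
  refine ⟨h.1, fun v hv => ?_, fun v hv => h.2.2 v ?_⟩
  · rw [hwt, h.2.1 v hv]
  · rw [hwt] at hv
    exact Nat.le_of_mul_le_mul_left hv hk

/-- The measure of the arcs of given orders where the initial form does not vanish. -/
theorem muN_strat_ne {N : ℕ} {w : Fin 2 → ℕ} (hwN : ∀ j, w j < N) (P : MvPolynomial (Fin 2) ℂ) :
    muN N {γ | γ ∈ Strat N w ∧ eval (lead0 w γ) P ≠ 0} =
      ((LU ^ (-((w 0 + w 1 + 2 : ℕ) : ℤ)) : Motˣ) : Mot) * clsM (Tor P) := by
  have hlead : ∀ γ : Fin 2 × Fin N → ℂ, lead0 w γ = fun j => γ (j, ⟨w j, hwN j⟩) := by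
    intro γ
    funext j
    unfold lead0
    rw [dif_pos (hwN j)]
  have h0 := hwN 0
  have h1 := hwN 1
  obtain ⟨M, hM⟩ : ∃ M, 2 * N = 2 + (w 0 + w 1) + M := ⟨2 * N - (2 + (w 0 + w 1)), by omega⟩
  have hset : {γ : Fin 2 × Fin N → ℂ | γ ∈ Strat N w ∧ eval (lead0 w γ) P ≠ 0} =
      {x : Fin 2 × Fin N → ℂ | (fun j => x (j, ⟨w j, hwN j⟩)) ∈ Tor P ∧
        ∀ j ∈ Zpos N w, x j = 0} := by
    ext γ
    simp only [Set.mem_ofPred_eq, Strat, hlead, Tor, Vn, Zpos, Finset.mem_filter,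
      Finset.mem_univ, true_and, Prod.forall]
    constructor
    · rintro ⟨⟨h2, h3⟩, h4⟩
      exact ⟨⟨h3 0 h0, h3 1 h1, h4⟩, h2⟩
    · rintro ⟨⟨h3, h5, h4⟩, h2⟩
      refine ⟨⟨h2, fun j _ => ?_⟩, h4⟩
      fin_cases j
      · exact h3
      · exact h5
  have hcls : cls {γ : Fin 2 × Fin N → ℂ | γ ∈ Strat N w ∧ eval (lead0 w γ) P ≠ 0} =
      cls (Tor P) * L ^ M := by
    rw [hset]
    refine cls_cell (fun j : Fin 2 => ((j, ⟨w j, hwN j⟩) : Fin 2 × Fin N))
      (fun i j h => (Prod.mk.inj h).1) (Tor P) (isConstr_Tor P) (Zpos N w) (fun j => ?_) M ?_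
    · simp [Zpos]
    · rw [card_Zpos fun j => (hwN j).le, Fintype.card_prod, Fintype.card_fin, Fintype.card_fin,
        Fin.sum_univ_two]
      exact hM
  have hpow : (((LU ^ (2 * N))⁻¹ : Motˣ) : Mot) * ((LU ^ M : Motˣ) : Mot) =
      ((LU ^ (-((w 0 + w 1 + 2 : ℕ) : ℤ)) : Motˣ) : Mot) := by
    rw [← Units.val_mul]
    congr 1
    rw [← zpow_natCast, ← zpow_natCast, ← zpow_neg, ← zpow_add]
    congr 1
    omega
  unfold muN clsM
  rw [hcls, map_mul, map_pow, ← LU_val, ← Units.val_pow_eq_pow_val, ← hpow]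
  ring

theorem eval_edgeP_eq_zero_iff {p q A B : ℕ} {lam : ℂ} {R : Finset ℂ} {μ : ℂ → ℕ}
    (hlam : lam ≠ 0) (hμ : ∀ c ∈ R, 0 < μ c) {ξ : Fin 2 → ℂ} (h0 : ξ 0 ≠ 0) (h1 : ξ 1 ≠ 0) :
    eval ξ (edgeP p q A B lam R μ) = 0 ↔ ∃ c ∈ R, ξ 1 ^ p = c * ξ 0 ^ q := by
  unfold edgeP
  rw [map_mul, map_mul, map_mul, map_pow, map_pow, eval_C, eval_X, eval_X, map_prod,
    mul_eq_zero, or_iff_right (mul_ne_zero (mul_ne_zero hlam (pow_ne_zero _ h0))
      (pow_ne_zero _ h1)), Finset.prod_eq_zero_iff]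
  refine exists_congr fun c => and_congr_right fun hc => ?_
  rw [map_pow, map_sub, map_mul, map_pow, map_pow, eval_C, eval_X, eval_X,
    pow_eq_zero_iff (hμ c hc).ne', sub_eq_zero]

end B2h

open B2h

/-- No arcs with `ord F = m` if `m` is smaller than the minimal weight. -/
theorem strat_lt {F : P2} {N m : ℕ} {w : Fin 2 → ℕ} (hw : ∀ j, 1 ≤ w j) (hwN : ∀ j, w j ≤ N)
    {r : ℕ} (hr : ∀ v : Fin 2 →₀ ℕ, wt w v < r → MvPowerSeries.coeff v F = 0) (hm : m < N)
    (hmr : m < r) : arcsV F N m ∩ Strat N w = ∅ := by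
  rw [Set.eq_empty_iff_forall_notMem]
  rintro γ ⟨h1, h2⟩
  have h3 := (PowerSeries.order_eq_nat.1 (mem_arcsV_iff.1 h1).2).1
  have h4 := PowerSeries.X_pow_dvd_iff.1
    (le_order_subst hw hr (X_pow_dvd_arc_of_mem_Strat h2)) m hmr
  exact h3 h4

/-- The initial form is a monomial: `ord F` is the weight. -/
theorem strat_mono {F : P2} {N m : ℕ} {w : Fin 2 → ℕ} (hw : ∀ j, 1 ≤ w j) (hwN : ∀ j, w j ≤ N)
    (hm : m < N) {r : ℕ} {v : Fin 2 →₀ ℕ} {lam : ℂ} (hI : IsInit F w r (monomial v lam)) :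
    arcsV F N m ∩ Strat N w = if r = m then Strat N w else ∅ := by
  have hlam : lam ≠ 0 := by
    rintro rfl
    exact hI.1 (map_zero _)
  have hv : wt w v = r := hI.2.1 v (by
    rw [mem_support_iff, coeff_monomial, if_pos rfl]
    exact hlam)
  rcases lt_or_ge m r with h | h
  · rw [if_neg (by omega)]
    refine strat_lt hw hwN (r := r) (fun v' hv' => ?_) hm h
    rw [hI.2.2 v' hv'.le, coeff_monomial, if_neg]
    rintro rfl
    omega
  · have h0 : ∀ j, w j = N → v j = 0 := by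
      intro j hj
      by_contra hne
      have := wt_le_of_ne (a := w) hne
      omega
    have key : ∀ γ ∈ Strat N w, (γ ∈ arcsV F N m ↔ r = m) := by
      intro γ hγ
      refine mem_arcsV_iff_of_ne hw hI hγ ?_
      rw [eval_monomial]
      refine mul_ne_zero hlam (Finset.prod_ne_zero_iff.2 fun j hj => ?_)
      refine pow_ne_zero _ (hγ.2 j (lt_of_le_of_ne (hwN j) fun hj2 => ?_))
      exact (Finsupp.mem_support_iff.1 hj) (h0 j hj2)
    ext γ
    rw [Set.mem_inter_iff]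
    split_ifs with h1
    · exact ⟨fun h => h.2, fun h => ⟨(key γ h).2 h1, h⟩⟩
    · simp only [Set.mem_empty_iff_false, iff_false]
      rintro ⟨h2, h3⟩
      exact h1 ((key γ h3).1 h2)

/-- The initial form has an edge. -/
theorem strat_edge {F : P2} {p q A B : ℕ} {lam : ℂ} {R : Finset ℂ} {μ : ℂ → ℕ}
    (hE : IsEdge F p q A B lam R μ) {k N m : ℕ} (hk : 0 < k) (hkp : k * p < N) (hkq : k * q < N)
    (hm : m < N) :
    muN N (arcsV F N m ∩ Strat N ![k * p, k * q]) =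
      (if edgeN p q A B R μ * k = m then
        ((LU ^ (-(((p + q) * k + 2 : ℕ) : ℤ)) : Motˣ) : Mot) * clsM (Tor (edgeP p q A B lam R μ))
        else 0) +
      ∑ c ∈ R, muN N (arcsV F N m ∩ Near N p q k c) := by
  classical
  have hwe : (![k * p, k * q] : Fin 2 → ℕ) = fun j => k * (![p, q] : Fin 2 → ℕ) j := by
    funext j
    fin_cases j <;> rfl
  have hI : IsInit F ![k * p, k * q] (k * edgeN p q A B R μ) (edgeP p q A B lam R μ) := by
    rw [hwe]
    exact isInit_mul hk hE.init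
  have hw : ∀ j, 1 ≤ (![k * p, k * q] : Fin 2 → ℕ) j := by
    intro j
    fin_cases j
    · exact Nat.mul_pos hk hE.hp
    · exact Nat.mul_pos hk hE.hq
  have hwN : ∀ j, (![k * p, k * q] : Fin 2 → ℕ) j < N := by
    intro j
    fin_cases j
    · exact hkp
    · exact hkq
  have hlead : ∀ γ ∈ Strat N ![k * p, k * q], ∀ j, lead0 ![k * p, k * q] γ j ≠ 0 :=
    fun γ hγ j => hγ.2 j (hwN j)
  have hzero : ∀ γ ∈ Strat N ![k * p, k * q],
      (eval (lead0 ![k * p, k * q] γ) (edgeP p q A B lam R μ) = 0 ↔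
        ∃ c ∈ R, γ ∈ Near N p q k c) := by
    intro γ hγ
    rw [eval_edgeP_eq_zero_iff hE.hlam hE.hm (hlead γ hγ 0) (hlead γ hγ 1)]
    exact exists_congr fun c => and_congr_right fun _ => ⟨fun h => ⟨hγ, h⟩, fun h => h.2⟩
  have hcN : ∀ c ∈ R, IsConstr (arcsV F N m ∩ Near N p q k c) :=
    fun c _ => (isConstr_arcsV F hm).inter (isConstr_Near N p q k c)
  have hcU : IsConstr (⋃ c ∈ R, (arcsV F N m ∩ Near N p q k c)) :=
    isConstr_biUnion R _ hcN
  have hunion : arcsV F N m ∩ Strat N ![k * p, k * q] =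
      (arcsV F N m ∩ Strat N ![k * p, k * q]) \ (⋃ c ∈ R, (arcsV F N m ∩ Near N p q k c)) ∪
        ⋃ c ∈ R, (arcsV F N m ∩ Near N p q k c) := by
    rw [Set.sdiff_union_of_subset]
    intro γ hγ
    simp only [Set.mem_iUnion, exists_prop] at hγ
    obtain ⟨c, -, h1, h2⟩ := hγ
    exact ⟨h1, h2.1⟩
  have hdiff : (arcsV F N m ∩ Strat N ![k * p, k * q]) \
      (⋃ c ∈ R, (arcsV F N m ∩ Near N p q k c)) =
      if edgeN p q A B R μ * k = m then {γ | γ ∈ Strat N ![k * p, k * q] ∧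
        eval (lead0 ![k * p, k * q] γ) (edgeP p q A B lam R μ) ≠ 0} else ∅ := by
    have hmem : ∀ γ, γ ∈ (arcsV F N m ∩ Strat N ![k * p, k * q]) \
        (⋃ c ∈ R, (arcsV F N m ∩ Near N p q k c)) ↔ k * edgeN p q A B R μ = m ∧
          γ ∈ Strat N ![k * p, k * q] ∧
          eval (lead0 ![k * p, k * q] γ) (edgeP p q A B lam R μ) ≠ 0 := by
      intro γ
      simp only [Set.mem_sdiff, Set.mem_iUnion, exists_prop, Set.mem_inter_iff, not_exists,
        not_and]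
      constructor
      · rintro ⟨⟨h1, h2⟩, h3⟩
        have h4 : eval (lead0 ![k * p, k * q] γ) (edgeP p q A B lam R μ) ≠ 0 := by
          intro h5
          obtain ⟨c, hc, h6⟩ := (hzero γ h2).1 h5
          exact h3 c hc h1 h6
        exact ⟨(mem_arcsV_iff_of_ne hw hI h2 h4).1 h1, h2, h4⟩
      · rintro ⟨h1, h2, h4⟩
        refine ⟨⟨(mem_arcsV_iff_of_ne hw hI h2 h4).2 h1, h2⟩, fun c hc _ h6 => ?_⟩
        exact h4 ((hzero γ h2).2 ⟨c, hc, h6⟩)
    ext γ
    rw [hmem, mul_comm k]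
    split_ifs with h
    · rw [Set.mem_ofPred_eq, and_iff_right h]
    · rw [Set.mem_empty_iff_false, iff_false]
      exact fun h2 => h h2.1
  have hcD : IsConstr ((arcsV F N m ∩ Strat N ![k * p, k * q]) \
      (⋃ c ∈ R, (arcsV F N m ∩ Near N p q k c))) :=
    ((isConstr_arcsV F hm).inter (isConstr_Strat N _)).diff hcU
  have h1 : muN N (arcsV F N m ∩ Strat N ![k * p, k * q]) =
      muN N ((arcsV F N m ∩ Strat N ![k * p, k * q]) \
        (⋃ c ∈ R, (arcsV F N m ∩ Near N p q k c))) +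
      muN N (⋃ c ∈ R, (arcsV F N m ∩ Near N p q k c)) := by
    have h2 := cls_union hcD hcU Set.disjoint_sdiff_left
    rw [← hunion] at h2
    unfold muN clsM
    rw [h2, map_add, mul_add]
  rw [h1]
  congr 1
  · rw [hdiff]
    split_ifs with h
    · rw [muN_strat_ne hwN]
      have h2 : (![k * p, k * q] : Fin 2 → ℕ) 0 + (![k * p, k * q] : Fin 2 → ℕ) 1 + 2 =
          (p + q) * k + 2 := by
        simp only [Matrix.cons_val_zero, Matrix.cons_val_one]
        ring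
      rw [h2]
    · unfold muN clsM
      rw [cls_empty, map_zero, mul_zero]
  · unfold muN clsM
    rw [cls_biUnion R _ hcN, map_sum, Finset.mul_sum]
    intro c _ d _ hcd
    rw [Set.disjoint_left]
    rintro γ ⟨-, h2, h3⟩ ⟨-, -, h4⟩
    rw [h3] at h4
    exact hcd (mul_right_cancel₀ (pow_ne_zero _ (hlead γ h2 0)) h4)

end PC

end MPb07157
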