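import Pool.Agent.Lib.MP_b07157_agS.SMain

/-!
# Plane curve germs: definitions
-/

noncomputable section

namespace MPb07157

open MvPolynomial

namespace PC

/-- The ring `ℂ[[x, y]]`. -/
abbrev P2 : Type := MvPowerSeries (Fin 2) ℂ

/-- The exponent of `x^i y^j`. -/
def ex (i j : ℕ) : Fin 2 →₀ ℕ := Finsupp.single 0 i + Finsupp.single 1 j

/-! ### Initial forms -/

/-- `P` is the initial form of `F` with respect to the weights `w`, and `N` its weight. -/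
def IsInit (F : P2) (w : Fin 2 → ℕ) (N : ℕ) (P : MvPolynomial (Fin 2) ℂ) : Prop :=
  P ≠ 0 ∧ (∀ v ∈ P.support, wt w v = N) ∧
    ∀ v : Fin 2 →₀ ℕ, wt w v ≤ N → MvPowerSeries.coeff v F = P.coeff v

/-- The polynomial `lam x^A y^B ∏_{c ∈ R} (y^p - c x^q)^{m_c}`. -/
def edgeP (p q A B : ℕ) (lam : ℂ) (R : Finset ℂ) (m : ℂ → ℕ) : MvPolynomial (Fin 2) ℂ :=
  C lam * X 0 ^ A * X 1 ^ B * ∏ c ∈ R, (X 1 ^ p - C c * X 0 ^ q) ^ m c

/-- The weight of `edgeP`. -/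
def edgeN (p q A B : ℕ) (R : Finset ℂ) (m : ℂ → ℕ) : ℕ :=
  p * A + q * B + p * q * ∑ c ∈ R, m c

/-- `F` has an edge of direction `(p, q)`: its initial form is
`lam x^A y^B ∏_{c ∈ R} (y^p - c x^q)^{m_c}`. -/
structure IsEdge (F : P2) (p q A B : ℕ) (lam : ℂ) (R : Finset ℂ) (m : ℂ → ℕ) : Prop where
  hp : 0 < p
  hq : 0 < q
  hpq : Nat.Coprime p q
  hlam : lam ≠ 0
  hR : R.Nonempty
  hR0 : (0 : ℂ) ∉ R
  hm : ∀ c ∈ R, 0 < m c
  init : IsInit F ![p, q] (edgeN p q A B R m) (edgeP p q A B lam R m)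

/-! ### Substitutions -/

/-- The map `(u, v) ↦ (u^p (v + c)^β, u^q (v + c)^α)`. -/
def kap (p q α β : ℕ) (c : ℂ) : Fin 2 → P2 :=
  ![MvPowerSeries.X 0 ^ p * (MvPowerSeries.X 1 + MvPowerSeries.C c) ^ β,
    MvPowerSeries.X 0 ^ q * (MvPowerSeries.X 1 + MvPowerSeries.C c) ^ α]

/-- The map `(x, y) ↦ (x, y + φ(x))`. -/
def shY (φ : PowerSeries ℂ) : Fin 2 → P2 :=
  ![MvPowerSeries.X 0, MvPowerSeries.X 1 + PowerSeries.subst (MvPowerSeries.X 0 : P2) φ]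

/-- The map `(x, y) ↦ (x + ψ(y), y)`. -/
def shX (ψ : PowerSeries ℂ) : Fin 2 → P2 :=
  ![MvPowerSeries.X 0 + PowerSeries.subst (MvPowerSeries.X 1 : P2) ψ, MvPowerSeries.X 1]

/-- The Jacobian determinant. -/
def jac (θ : Fin 2 → P2) : P2 :=
  MvPowerSeries.pderiv ℂ 0 (θ 0) * MvPowerSeries.pderiv ℂ 1 (θ 1) -
    MvPowerSeries.pderiv ℂ 1 (θ 0) * MvPowerSeries.pderiv ℂ 0 (θ 1)

/-- A stage of the Newton–Puiseux algorithm: `F = f ∘ θ`, and the Jacobian of `θ` is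
`x^(a-1)` times a unit. -/
structure IsStage (f : P2) (θ : Fin 2 → P2) (F : P2) (a : ℕ) : Prop where
  h0 : ∀ i, MvPowerSeries.constantCoeff (θ i) = 0
  hF : F = MvPowerSeries.subst θ f
  ha : 1 ≤ a
  hjac : ∃ W : P2, MvPowerSeries.constantCoeff W ≠ 0 ∧ jac θ = MvPowerSeries.X 0 ^ (a - 1) * W

/-- `F = x^A F₁` and `F₁(0, y)` has order `M`. -/
def YOrd (F : P2) (A M : ℕ) : Prop :=
  (∀ i < A, ∀ j, MvPowerSeries.coeff (ex i j) F = 0) ∧
    (∀ j < M, MvPowerSeries.coeff (ex A j) F = 0) ∧ MvPowerSeries.coeff (ex A M) F ≠ 0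

/-! ### Arcs -/

/-- Truncated arcs `γ` at the origin with `ord F(γ) = m`. -/
def arcsV (F : P2) (N m : ℕ) : Set (Fin 2 × Fin N → ℂ) :=
  {γ | γ ∈ Start 2 1 N ∧
    (MvPowerSeries.subst (arc γ : Fin 2 → MvPowerSeries Unit ℂ) F : PowerSeries ℂ).order = m}

/-- Truncated arcs with `ord x = i` (for `i = N`: with `x = 0` modulo `t^N`). -/
def Xo (N i : ℕ) : Set (Fin 2 × Fin N → ℂ) :=
  {γ | (∀ k : Fin N, (k : ℕ) < i → γ (0, k) = 0) ∧ ∀ h : i < N, γ (0, ⟨i, h⟩) ≠ 0}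

/-- The measure of a set of truncated arcs in the plane. -/
def muN (N : ℕ) (S : Set (Fin 2 × Fin N → ℂ)) : Mot := ↑((LU ^ (2 * N))⁻¹) * clsM S

/-- The coefficients of the zeta function of `F` and `x^(a-1) dx dy` at the origin. -/
def Zst (F : P2) (a N m : ℕ) : Mot :=
  ∑ i ∈ Finset.Icc 1 N, ((LU ^ (-(((a - 1) * i : ℕ) : ℤ)) : Motˣ) : Mot) *
    muN N (arcsV F N m ∩ Xo N i)

/-- The zeta function of `F` and `x^(a-1) dx dy` at the origin. -/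
def ZV (F : P2) (a : ℕ) : PowerSeries Mot := PowerSeries.mk fun m => Zst F a (m + 1) m

/-- The power series `∑_{k ≥ 1} L^{-νk} T^{Nk}`. -/
def geo (ν N : ℕ) : PowerSeries Mot :=
  PowerSeries.mk fun m => ∑ k ∈ Finset.Icc 1 m,
    if N * k = m then ((LU ^ (-((ν * k : ℕ) : ℤ)) : Motˣ) : Mot) else 0

/-- `b(s) f^s = P(s) f^{s+1}` with formal coefficients. -/
def IsB (f : P2) (b : Polynomial ℂ) : Prop :=
  InPs f 1 (b.map (MvPowerSeries.C (σ := Fin 2) (R := ℂ)))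

end PC

end MPb07157
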