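import Pool.Agent.Lib.MP_b07157_agV.Defs
import Pool.Agent.Lib.MP_b07157_agK.K1s

/-!
# Geometric series
-/

noncomputable section

namespace MPb07157

open MvPolynomial

namespace PC

theorem geo_eq_geoK (ν : ℕ) {N : ℕ} (hN : 0 < N) :
    geo ν N = geoK ((LU ^ (-(ν : ℤ)) : Motˣ) : Mot) N := by
  ext m
  unfold geo geoK
  rw [PowerSeries.coeff_mk, PowerSeries.coeff_mk]
  split_ifs with h
  · obtain ⟨⟨k, rfl⟩, h2⟩ := h
    have hk : 0 < k := Nat.pos_of_ne_zero (by rintro rfl; simp at h2)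
    rw [Finset.sum_eq_single_of_mem k (Finset.mem_Icc.2 ⟨hk, Nat.le_mul_of_pos_left _ hN⟩)]
    · rw [if_pos rfl, Nat.mul_div_cancel_left k hN, ← Units.val_pow_eq_pow_val, ← zpow_natCast,
        ← zpow_mul]
      congr 2
      push_cast
      ring
    · intro j _ hj
      rw [if_neg]
      intro h3
      exact hj (Nat.eq_of_mul_eq_mul_left hN h3)
  · refine Finset.sum_eq_zero fun k hk => ?_
    rw [if_neg]
    rintro rfl
    exact h ⟨dvd_mul_right N k, Nat.mul_pos hN (Finset.mem_Icc.1 hk).1⟩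

theorem geoK_mem' {s₀ : ℚ} {a : ℤ} {b : ℕ} (hb : 0 < b) (h : (a : ℚ) ≠ -s₀ * b) :
    geoK ((LU ^ (-a) : Motˣ) : Mot) b ∈ regularAt s₀ := by
  obtain ⟨G, hG⟩ : ∃ G : PowerSeries Mot,
      G * (1 - PowerSeries.C ((LU ^ (-a) : Motˣ) : Mot) * PowerSeries.X ^ b) = 1 := by
    have h : IsUnit (1 - PowerSeries.C ((LU ^ (-a) : Motˣ) : Mot) * PowerSeries.X ^ b :
        PowerSeries Mot) := by
      rw [PowerSeries.isUnit_iff_constantCoeff]
      simp [hb.ne']
    obtain ⟨v, hv⟩ := h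
    exact ⟨↑v⁻¹, by rw [← hv, Units.inv_mul]⟩
  have hbQ : (b : ℚ) ≠ 0 := by exact_mod_cast hb.ne'
  have h1 : G ∈ regularAt s₀ :=
    Algebra.subset_adjoin (Or.inr ⟨a, b, hb, fun h2 => h (by
      rw [div_eq_iff hbQ] at h2
      exact h2), hG⟩)
  have h2 : geoK ((LU ^ (-a) : Motˣ) : Mot) b =
      PowerSeries.C ((LU ^ (-a) : Motˣ) : Mot) * PowerSeries.X ^ b * G := by
    rw [← geoK_mul _ hb, mul_assoc, mul_comm _ G, hG, mul_one]
  rw [h2]
  exact mul_mem (mul_mem (C_mem_regularAt s₀ _) (pow_mem (X_mem_regularAt s₀) b)) h1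

theorem geo_mem {s₀ : ℚ} {ν N : ℕ} (hN : 0 < N) (h : (ν : ℚ) ≠ -s₀ * N) :
    geo ν N ∈ regularAt s₀ := by
  rw [geo_eq_geoK ν hN]
  exact geoK_mem' hN (by push_cast; exact h)

/-- The series `∑_{k, j ≥ 1} L^{-(νk + j)} T^{Nk + j}`. -/
def geo2 (ν N : ℕ) : PowerSeries Mot :=
  PowerSeries.mk fun m => ∑ k ∈ Finset.Icc 1 m,
    if N * k < m then ((LU ^ (-((ν * k + (m - N * k) : ℕ) : ℤ)) : Motˣ) : Mot) else 0

theorem geo2_eq (ν : ℕ) {N : ℕ} (hN : 0 < N) : geo2 ν N = geo ν N * geo 1 1 := by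
  ext m
  rw [PowerSeries.coeff_mul, geo2, PowerSeries.coeff_mk]
  have e1 : ∀ j : ℕ, PowerSeries.coeff j (geo 1 1) =
      if 0 < j then ((LU ^ (-(j : ℤ)) : Motˣ) : Mot) else 0 := by
    intro j
    rw [geo_eq_geoK 1 one_pos]
    unfold geoK
    rw [PowerSeries.coeff_mk]
    by_cases hj : 0 < j
    · rw [if_pos ⟨one_dvd j, hj⟩, if_pos hj, Nat.div_one, ← Units.val_pow_eq_pow_val,
        ← zpow_natCast, ← zpow_mul]
      congr 2
      push_cast
      ring
    · rw [if_neg hj, if_neg fun h => hj h.2]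
  have e2 : ∀ i : ℕ, i ≤ m → PowerSeries.coeff i (geo ν N) = ∑ k ∈ Finset.Icc 1 m,
      if N * k = i then ((LU ^ (-((ν * k : ℕ) : ℤ)) : Motˣ) : Mot) else 0 := by
    intro i hi
    rw [geo, PowerSeries.coeff_mk]
    refine Finset.sum_subset (Finset.Icc_subset_Icc le_rfl hi) fun k hk hk' => ?_
    rw [if_neg]
    rintro rfl
    exact hk' (Finset.mem_Icc.2 ⟨(Finset.mem_Icc.1 hk).1, Nat.le_mul_of_pos_left _ hN⟩)
  have e3 : ∀ p ∈ Finset.HasAntidiagonal.antidiagonal m, PowerSeries.coeff p.1 (geo ν N) *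
      PowerSeries.coeff p.2 (geo 1 1) = ∑ k ∈ Finset.Icc 1 m,
        if N * k = p.1 ∧ 0 < p.2 then
          ((LU ^ (-((ν * k + p.2 : ℕ) : ℤ)) : Motˣ) : Mot) else 0 := by
    intro p hp
    have hp' := Finset.HasAntidiagonal.mem_antidiagonal.1 hp
    rw [e1, e2 p.1 (by omega), Finset.sum_mul]
    refine Finset.sum_congr rfl fun k _ => ?_
    by_cases h1 : N * k = p.1
    · by_cases h2 : 0 < p.2
      · rw [if_pos h1, if_pos h2, if_pos ⟨h1, h2⟩, ← Units.val_mul, ← zpow_add]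
        congr 2
        push_cast
        ring
      · rw [if_neg h2, mul_zero, if_neg fun h => h2 h.2]
    · rw [if_neg h1, zero_mul, if_neg fun h => h1 h.1]
  rw [Finset.sum_congr rfl e3, Finset.sum_comm]
  refine Finset.sum_congr rfl fun k _ => ?_
  split_ifs with h
  · rw [Finset.sum_eq_single_of_mem (N * k, m - N * k)
      (Finset.HasAntidiagonal.mem_antidiagonal.2 (by omega))]
    · rw [if_pos ⟨rfl, by show 0 < m - N * k; omega⟩]
    · rintro ⟨i, j⟩ hp hne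
      rw [if_neg]
      rintro ⟨h1, h2⟩
      have hp' := Finset.HasAntidiagonal.mem_antidiagonal.1 hp
      apply hne
      simp only at h1 h2 hp'
      rw [h1]
      congr 1
      omega
  · symm
    refine Finset.sum_eq_zero fun p hp => ?_
    rw [if_neg]
    rintro ⟨h1, h2⟩
    have hp' := Finset.HasAntidiagonal.mem_antidiagonal.1 hp
    omega

theorem geo2_mem {s₀ : ℚ} {ν N : ℕ} (hN : 0 < N) (h : (ν : ℚ) ≠ -s₀ * N) (h1 : s₀ ≠ -1) :
    geo2 ν N ∈ regularAt s₀ := by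
  rw [geo2_eq ν hN]
  refine mul_mem (geo_mem hN h) (geo_mem one_pos ?_)
  intro h2
  apply h1
  push_cast at h2
  linarith

end PC

end MPb07157
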