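import Pool.Agent.Lib.MP_b07157_agV.Defs
import Mathlib.Data.Finsupp.PWO

/-!
# Initial forms of power series in two variables
-/

noncomputable section

namespace MPb07157

open MvPolynomial

namespace PC

theorem wt_two (w : Fin 2 → ℕ) (v : Fin 2 →₀ ℕ) : wt w v = w 0 * v 0 + w 1 * v 1 := by
  simp [wt, Fin.sum_univ_two]

theorem wt_finite {w : Fin 2 → ℕ} (hw : ∀ j, 0 < w j) (N : ℕ) :
    {v : Fin 2 →₀ ℕ | wt w v = N}.Finite := by
  refine (Set.finite_Iic (ex N N)).subset fun v hv => ?_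
  have h1 : wt w v = N := hv
  rw [wt_two] at h1
  have h2 := Nat.le_mul_of_pos_left (v 0) (hw 0)
  have h3 := Nat.le_mul_of_pos_left (v 1) (hw 1)
  have h4 : v ≤ ex N N := by
    intro j
    fin_cases j
    · have : (ex N N) 0 = N := by simp [ex]
      show v 0 ≤ (ex N N) 0
      omega
    · have : (ex N N) 1 = N := by simp [ex]
      show v 1 ≤ (ex N N) 1
      omega
  exact h4

open Classical in
theorem exists_isInit {F : P2} (hF : F ≠ 0) {w : Fin 2 → ℕ} (hw : ∀ j, 0 < w j) :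
    ∃ N P, IsInit F w N P := by
  have hex : ∃ N : ℕ, ∃ v : Fin 2 →₀ ℕ, wt w v = N ∧ MvPowerSeries.coeff v F ≠ 0 := by
    by_contra hno
    push Not at hno
    apply hF
    ext v
    rw [hno _ v rfl]
    simp
  obtain ⟨v₀, h0, h1⟩ := Nat.find_spec hex
  have hmin : ∀ v : Fin 2 →₀ ℕ, wt w v < Nat.find hex → MvPowerSeries.coeff v F = 0 := by
    intro v hv
    by_contra hne
    exact Nat.find_min hex hv ⟨v, rfl, hne⟩
  set N := Nat.find hex with hN
  have hcoeff : ∀ v : Fin 2 →₀ ℕ,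
      (∑ u ∈ (wt_finite hw N).toFinset, monomial u (MvPowerSeries.coeff u F) :
        MvPolynomial (Fin 2) ℂ).coeff v = if wt w v = N then MvPowerSeries.coeff v F else 0 := by
    intro v
    rw [coeff_sum]
    simp only [coeff_monomial]
    rw [Finset.sum_ite_eq']
    simp only [Set.Finite.mem_toFinset, Set.mem_ofPred_eq]
  refine ⟨N, ∑ u ∈ (wt_finite hw N).toFinset, monomial u (MvPowerSeries.coeff u F), ?_, ?_, ?_⟩
  · intro h
    have h2 := hcoeff v₀
    rw [h, if_pos h0] at h2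
    exact h1 (by simpa using h2.symm)
  · intro v hv
    rw [mem_support_iff, hcoeff v] at hv
    by_contra hne
    exact hv (if_neg hne)
  · intro v hv
    rw [hcoeff v]
    split_ifs with h
    · rfl
    · exact hmin v (lt_of_le_of_ne hv h)

/-- The terms below the initial form vanish. -/
theorem IsInit.coeff_eq_zero {F : P2} {w : Fin 2 → ℕ} {N : ℕ} {P : MvPolynomial (Fin 2) ℂ}
    (h : IsInit F w N P) {v : Fin 2 →₀ ℕ} (hv : wt w v < N) : MvPowerSeries.coeff v F = 0 := by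
  rw [h.2.2 v hv.le]
  by_contra hne
  have := h.2.1 v (mem_support_iff.2 hne)
  omega

theorem IsInit.exists_mem {F : P2} {w : Fin 2 → ℕ} {N : ℕ} {P : MvPolynomial (Fin 2) ℂ}
    (h : IsInit F w N P) : ∃ v ∈ P.support, wt w v = N ∧ MvPowerSeries.coeff v F ≠ 0 := by
  obtain ⟨v, hv⟩ := MvPolynomial.support_nonempty.2 h.1
  have h1 := h.2.1 v hv
  refine ⟨v, hv, h1, ?_⟩
  rw [h.2.2 v h1.le]
  exact mem_support_iff.1 hv

theorem IsInit.unique {F : P2} {w : Fin 2 → ℕ} {N N' : ℕ} {P P' : MvPolynomial (Fin 2) ℂ}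
    (h : IsInit F w N P) (h' : IsInit F w N' P') : N = N' ∧ P = P' := by
  have hNN : N = N' := by
    obtain ⟨v, _, h1, h2⟩ := h.exists_mem
    obtain ⟨v', _, h1', h2'⟩ := h'.exists_mem
    by_contra hne
    rcases lt_or_gt_of_ne hne with hlt | hlt
    · exact h2 (h'.coeff_eq_zero (by omega))
    · exact h2' (h.coeff_eq_zero (by omega))
  subst hNN
  refine ⟨rfl, ?_⟩
  ext v
  by_cases hv : wt w v ≤ N
  · rw [← h.2.2 v hv, ← h'.2.2 v hv]
  · have h1 : P.coeff v = 0 := by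
      by_contra hne
      exact hv (h.2.1 v (mem_support_iff.2 hne)).le
    have h2 : P'.coeff v = 0 := by
      by_contra hne
      exact hv (h'.2.1 v (mem_support_iff.2 hne)).le
    rw [h1, h2]

theorem wt_smul_two (k p q : ℕ) (v : Fin 2 →₀ ℕ) :
    wt ![k * p, k * q] v = k * wt ![p, q] v := by
  rw [wt_two, wt_two]
  simp only [Matrix.cons_val_zero, Matrix.cons_val_one]
  ring

theorem IsInit.smul {F : P2} {p q N : ℕ} {P : MvPolynomial (Fin 2) ℂ}
    (h : IsInit F ![p, q] N P) {k : ℕ} (hk : 0 < k) :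
    IsInit F ![k * p, k * q] (k * N) P := by
  refine ⟨h.1, fun v hv => ?_, fun v hv => ?_⟩
  · rw [wt_smul_two, h.2.1 v hv]
  · rw [wt_smul_two] at hv
    exact h.2.2 v (Nat.le_of_mul_le_mul_left hv hk)

theorem IsInit.of_smul {F : P2} {p q N k : ℕ} {P : MvPolynomial (Fin 2) ℂ} (hk : 0 < k)
    (h : IsInit F ![k * p, k * q] N P) : ∃ N', N = k * N' ∧ IsInit F ![p, q] N' P := by
  obtain ⟨v₀, hv₀⟩ := MvPolynomial.support_nonempty.2 h.1
  have h0 : k * wt ![p, q] v₀ = N := by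
    rw [← wt_smul_two]
    exact h.2.1 v₀ hv₀
  refine ⟨wt ![p, q] v₀, h0.symm, h.1, fun v hv => ?_, fun v hv => ?_⟩
  · have h1 := h.2.1 v hv
    rw [wt_smul_two, ← h0] at h1
    exact Nat.eq_of_mul_eq_mul_left hk h1
  · refine h.2.2 v ?_
    rw [wt_smul_two, ← h0]
    exact Nat.mul_le_mul_left k hv

/-- The terms of an initial form for positive weights are minimal exponents. -/
theorem IsInit.minimal {F : P2} {w : Fin 2 → ℕ} (hw : ∀ j, 0 < w j) {N : ℕ}
    {P : MvPolynomial (Fin 2) ℂ} (h : IsInit F w N P) {v : Fin 2 →₀ ℕ} (hv : v ∈ P.support) :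
    Minimal (fun u => MvPowerSeries.coeff u F ≠ 0) v := by
  have h1 := h.2.1 v hv
  refine ⟨?_, fun u hu huv => ?_⟩
  · show MvPowerSeries.coeff v F ≠ 0
    rw [h.2.2 v h1.le]
    exact mem_support_iff.1 hv
  · have h2 : N ≤ wt w u := by
      by_contra hlt
      exact hu (h.coeff_eq_zero (not_le.1 hlt))
    rw [wt_two] at h1 h2
    have h3 := Nat.mul_le_mul_left (w 0) (huv 0)
    have h4 := Nat.mul_le_mul_left (w 1) (huv 1)
    have h5 : v 0 ≤ u 0 := Nat.le_of_mul_le_mul_left (by omega : w 0 * v 0 ≤ w 0 * u 0) (hw 0)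
    have h6 : v 1 ≤ u 1 := Nat.le_of_mul_le_mul_left (by omega : w 1 * v 1 ≤ w 1 * u 1) (hw 1)
    intro j
    fin_cases j
    · exact h5
    · exact h6

theorem finite_minimal (F : P2) :
    {v : Fin 2 →₀ ℕ | Minimal (fun u => MvPowerSeries.coeff u F ≠ 0) v}.Finite :=
  (setOfPred_minimal_antichain _).finite_of_partiallyWellOrderedOn (Set.isPWO_of_wellQuasiOrderedLE _)

/-- A coprime direction is determined by two points of a line. -/
theorem dir_unique {v v' : Fin 2 →₀ ℕ} (hvv : v ≠ v') {p q p' q' : ℕ} (hp : 0 < p) (hq : 0 < q)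
    (hpq : Nat.Coprime p q) (_hp' : 0 < p') (_hq' : 0 < q') (hpq' : Nat.Coprime p' q')
    (h : wt ![p, q] v = wt ![p, q] v') (h' : wt ![p', q'] v = wt ![p', q'] v') :
    p = p' ∧ q = q' := by
  rw [wt_two, wt_two] at h h'
  simp only [Matrix.cons_val_zero, Matrix.cons_val_one] at h h'
  have e1 : (p : ℤ) * ((v 0 : ℤ) - v' 0) = q * ((v' 1 : ℤ) - v 1) := by
    have : ((p * v 0 + q * v 1 : ℕ) : ℤ) = ((p * v' 0 + q * v' 1 : ℕ) : ℤ) := by rw [h]
    push_cast at this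
    linarith
  have e2 : (p' : ℤ) * ((v 0 : ℤ) - v' 0) = q' * ((v' 1 : ℤ) - v 1) := by
    have : ((p' * v 0 + q' * v 1 : ℕ) : ℤ) = ((p' * v' 0 + q' * v' 1 : ℕ) : ℤ) := by rw [h']
    push_cast at this
    linarith
  have hX : (v 0 : ℤ) - v' 0 ≠ 0 := by
    intro h0
    rw [h0, mul_zero] at e1
    have h1 : (v' 1 : ℤ) - v 1 = 0 := by
      rcases mul_eq_zero.1 e1.symm with h2 | h2
      · omega
      · exact h2
    apply hvv
    ext j
    fin_cases j
    · show v 0 = v' 0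
      omega
    · show v 1 = v' 1
      omega
  have hcross : (p : ℤ) * q' = p' * q := by
    have e3 : ((v 0 : ℤ) - v' 0) * ((p : ℤ) * q' - p' * q) = 0 := by
      linear_combination (q' : ℤ) * e1 - (q : ℤ) * e2
    rcases mul_eq_zero.1 e3 with h1 | h1
    · exact absurd h1 hX
    · linarith
  have hc : p * q' = p' * q := by exact_mod_cast hcross
  have hpp : p = p' := by
    apply Nat.dvd_antisymm
    · exact hpq.dvd_of_dvd_mul_right (Dvd.intro _ hc)
    · exact hpq'.dvd_of_dvd_mul_right (Dvd.intro _ hc.symm)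
  subst hpp
  exact ⟨rfl, (Nat.eq_of_mul_eq_mul_left hp hc).symm⟩

/-- Only finitely many directions have an initial form which is not a monomial. -/
theorem finite_edges (F : P2) :
    {x : ℕ × ℕ | 0 < x.1 ∧ 0 < x.2 ∧ Nat.Coprime x.1 x.2 ∧
      ∃ N P, IsInit F ![x.1, x.2] N P ∧ 2 ≤ P.support.card}.Finite := by
  have hM := finite_minimal F
  refine Set.Finite.subset (Set.Finite.biUnion (hM.prod hM)
    (t := fun y => {x : ℕ × ℕ | y.1 ≠ y.2 ∧ 0 < x.1 ∧ 0 < x.2 ∧ Nat.Coprime x.1 x.2 ∧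
      wt ![x.1, x.2] y.1 = wt ![x.1, x.2] y.2}) ?_) ?_
  · intro y _
    apply Set.Subsingleton.finite
    rintro ⟨p, q⟩ ⟨h1, h2, h3, h4, h5⟩ ⟨p', q'⟩ ⟨_, h2', h3', h4', h5'⟩
    obtain ⟨e1, e2⟩ := dir_unique h1 h2 h3 h4 h2' h3' h4' h5 h5'
    rw [Prod.mk.injEq]
    exact ⟨e1, e2⟩
  · rintro ⟨p, q⟩ ⟨hp, hq, hpq, N, P, hP, hcard⟩
    obtain ⟨v, hv, v', hv', hne⟩ := Finset.one_lt_card.1 hcard
    have hw : ∀ j : Fin 2, 0 < (![p, q] : Fin 2 → ℕ) j := by
      intro j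
      fin_cases j
      · exact hp
      · exact hq
    refine Set.mem_biUnion (x := (v, v')) ⟨hP.minimal hw hv, hP.minimal hw hv'⟩ ?_
    exact ⟨hne, hp, hq, hpq, by rw [hP.2.1 v hv, hP.2.1 v' hv']⟩

end PC

end MPb07157
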