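import Pool.Agent.Lib.MP_b07157_agV.M2
import Pool.Agent.Lib.MP_b07157_agV.G1
import Pool.Agent.Lib.MP_b07157_agV.B2

/-!
# The strata of the vertex model on an edge
-/

noncomputable section

namespace MPb07157

open MvPolynomial

namespace PC

/-- The strata of a polynomial `g` whose initial form on the ray `(p, q)` is
`x^A y^B (y^(pn) + x^(qn))`. -/
theorem strat_model {g : MvPolynomial (Fin 2) ℂ} {p q A B n : ℕ} (hp : 0 < p) (hq : 0 < q)
    (hn : 0 < n)
    (hI : IsInit (g : P2) ![p, q] (p * A + q * B + p * q * n)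
      (X 0 ^ A * X 1 ^ B * (X 1 ^ (p * n) + X 0 ^ (q * n))))
    (hnd : ∀ a : Fin 2 → ℕ, (∀ j, 1 ≤ a j) → NondegAt g (face g a (nuf g a))) :
    ∃ e₀ e₁ : Mot, ∀ k N m : ℕ, 0 < k → k * p < N → k * q < N → m < N →
      muN N (arcs g N m ∩ Strat N ![k * p, k * q]) =
        (if (p * A + q * B + p * q * n) * k = m then
          e₀ * ((LU ^ (-(((p + q) * k : ℕ) : ℤ)) : Motˣ) : Mot) else 0) +
        (if (p * A + q * B + p * q * n) * k < m then
          e₁ * ((LU ^ (-(((p + q) * k + (m - (p * A + q * B + p * q * n) * k) : ℕ) : ℤ)) :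
            Motˣ) : Mot) else 0) := by
  classical
  set W : ℕ := p * A + q * B + p * q * n with hW
  set P : MvPolynomial (Fin 2) ℂ := X 0 ^ A * X 1 ^ B * (X 1 ^ (p * n) + X 0 ^ (q * n)) with hP
  obtain ⟨hP0, hPw, hPc⟩ := hI
  have hg1 : ∀ v ∈ g.support, W ≤ wt ![p, q] v := by
    intro v hv
    by_contra hcon
    have h1 := hPc v (not_le.1 hcon).le
    rw [MvPolynomial.coeff_coe] at h1
    have h2 : v ∈ P.support := by
      rw [mem_support_iff, ← h1]
      exact mem_support_iff.1 hv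
    exact hcon (hPw v h2).ge
  obtain ⟨v₁, hv₁⟩ := MvPolynomial.support_nonempty.2 hP0
  have hw₁ := hPw v₁ hv₁
  have hv₁g : v₁ ∈ g.support := by
    rw [mem_support_iff, ← MvPolynomial.coeff_coe, hPc v₁ hw₁.le]
    exact mem_support_iff.1 hv₁
  have hg0 : g ≠ 0 := by
    rintro rfl
    simp at hv₁g
  have hwt : ∀ (k : ℕ) (v : Fin 2 →₀ ℕ), wt ![k * p, k * q] v = k * wt ![p, q] v := by
    intro k v
    simp [wt, Fin.sum_univ_two]
    ring
  have hnu : ∀ k : ℕ, nuf g ![k * p, k * q] = k * W := by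
    intro k
    obtain ⟨h1, v, hv, h2⟩ := isMinWt_nuf hg0 ![k * p, k * q]
    apply le_antisymm
    · have h3 := h1 v₁ hv₁g
      rwa [hwt, hw₁] at h3
    · rw [← h2, hwt]
      exact Nat.mul_le_mul_left k (hg1 v hv)
  have hface : ∀ k : ℕ, 0 < k → face g ![k * p, k * q] (k * W) =
      g.support.filter fun v => wt ![p, q] v = W := by
    intro k hk
    ext v
    simp only [face, Finset.mem_filter, hwt]
    constructor
    · rintro ⟨h1, h2⟩
      exact ⟨h1, Nat.eq_of_mul_eq_mul_left hk h2⟩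
    · rintro ⟨h1, h2⟩
      exact ⟨h1, by rw [h2]⟩
  set I₀ := g.support.filter fun v => wt ![p, q] v = W with hI₀
  refine ⟨clsM (YS g I₀ ∅) * ↑(LU ^ (-(Fintype.card {j : Fin 2 // j ∉ (∅ : Finset (Fin 2))} : ℤ))),
    clsM (XS g I₀ ∅) * (↑LU - 1) *
      ↑(LU ^ (-(Fintype.card {j : Fin 2 // j ∉ (∅ : Finset (Fin 2))} : ℤ))), ?_⟩
  intro k N m hk hkp hkq hm
  have ha : ∀ j, (![k * p, k * q] : Fin 2 → ℕ) j ≤ N := by
    intro j
    fin_cases j
    · exact hkp.le
    · exact hkq.le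
  have ha1 : ∀ j, 1 ≤ (![k * p, k * q] : Fin 2 → ℕ) j := by
    intro j
    fin_cases j
    · exact Nat.mul_pos hk hp
    · exact Nat.mul_pos hk hq
  have hSS : SS N (![k * p, k * q] : Fin 2 → ℕ) = ∅ := by
    unfold SS
    rw [Finset.filter_eq_empty_iff]
    intro j _
    fin_cases j
    · exact hkp.ne
    · exact hkq.ne
  have h := clsM_stratum hg0 hm ha (hnd _ ha1)
  rw [hSS, hnu k, hface k hk] at h
  have hsum : ∑ j, (![k * p, k * q] : Fin 2 → ℕ) j = (p + q) * k := by
    rw [Fin.sum_univ_two]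
    show k * p + k * q = (p + q) * k
    ring
  rw [hsum] at h
  unfold muN
  rw [h, mul_comm k W]
  rcases lt_trichotomy (W * k) m with h1 | h1 | h1
  · rw [if_neg h1.ne, if_pos h1, if_neg h1.ne, if_pos h1, zero_add]
    push_cast
    rfl
  · rw [if_pos h1, if_pos h1, if_neg (by omega), add_zero]
  · rw [if_neg (by omega), if_neg (by omega), if_neg (by omega), if_neg (by omega), add_zero]

end PC

end MPb07157
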