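import Pool.Agent.Lib.MP_b07157_agV.Defs

/-!
# Weighted zeta functions of non-degenerate polynomials
-/

noncomputable section

namespace MPb07157

open MvPolynomial Finset

variable {n : ℕ}

/-- The zeta function with the weights `L^{-c·a}` on the arcs with orders `a`; level
`N = K (m + 1)`. -/
def Zw (f : MvPolynomial (Fin n) ℂ) (ε K : ℕ) (c : Fin n → ℕ) : PowerSeries Mot :=
  PowerSeries.mk fun m =>
    ∑ a ∈ Fintype.piFinset (fun _ : Fin n => Finset.Icc ε (K * (m + 1))),
      ((LU ^ (-((∑ j, c j * a j : ℕ) : ℤ)) : Motˣ) : Mot) *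
        (((LU ^ (n * (K * (m + 1))))⁻¹ : Motˣ) *
          clsM (arcs f (K * (m + 1)) m ∩ Strat (K * (m + 1)) a))

namespace W1

/-- The weighted exponent. -/
def nuC (v₀ : Fin n →₀ ℕ) (c : Fin n → ℕ) : GG n →+ ℤ := nuH v₀ + ∑ j, (c j : ℤ) • coordH j

theorem nuC_apply (v₀ : Fin n →₀ ℕ) (c : Fin n → ℕ) (z : GG n) :
    nuC v₀ c z = nuH v₀ z + ∑ j, (c j : ℤ) * z.1 j := by
  simp [nuC, AddMonoidHom.finsetSum_apply, coordH_apply]

theorem ray_neC {f : MvPolynomial (Fin n) ℂ} {K : ℕ} {I : Finset (Fin n →₀ ℕ)}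
    {S : Finset (Fin n)} {ty : ℕ} {v₀ : Fin n →₀ ℕ} (hv₀ : v₀ ∈ f.support)
    {s₀ : ℚ} (hK : -s₀ < K) (h1 : s₀ ≠ -1) (c : Fin n → ℕ)
    (hfac : ∀ w N, IsFacetWt f w N → ((∑ j, (1 + c j) * w j : ℕ) : ℚ) ≠ -s₀ * N)
    (z : GG n) (hz : MaxTight (lamF f K v₀) (EF f I S ty) z) :
    ((nuC v₀ c z : ℤ) : ℚ) ≠ -s₀ * (muH n z : ℤ) := by
  obtain ⟨hz0, hzC, hmax⟩ := hz
  have hC := mem_cone_iff.1 hzC
  obtain ⟨c1, c2, c3, c4, c5⟩ := hC
  have hdot : 0 ≤ dotH v₀ z := by
    rw [dotH_apply]
    exact Finset.sum_nonneg fun j _ => mul_nonneg (c1 j) (by positivity)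
  have hcz : 0 ≤ ∑ j, (c j : ℤ) * z.1 j :=
    Finset.sum_nonneg fun j _ => mul_nonneg (by positivity) (c1 j)
  have hm : 0 < z.2 := by
    rcases lt_or_eq_of_le (hdot.trans c4) with h | h
    · exact h
    · exfalso
      apply hz0
      refine Prod.ext ?_ h.symm
      funext j
      have := (c3 j).2
      rw [← h, mul_zero] at this
      exact le_antisymm this (c1 j)
  rw [nuC_apply, nuH_apply, muH_apply]
  by_cases hA : ∃ j, z.1 j = K * z.2
  · obtain ⟨j, hj⟩ := hA
    have h2 : z.1 j ≤ ∑ j, z.1 j := Finset.single_le_sum (fun i _ => c1 i) (Finset.mem_univ j)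
    have h3 : (K : ℤ) * z.2 ≤ ∑ j, z.1 j + (z.2 - dotH v₀ z) + ∑ j, (c j : ℤ) * z.1 j := by
      rw [hj] at h2; omega
    have h4 : ((K : ℚ)) * z.2 ≤
        ((∑ j, z.1 j + (z.2 - dotH v₀ z) + ∑ j, (c j : ℤ) * z.1 j : ℤ) : ℚ) := by
      exact_mod_cast h3
    have h5 : (0 : ℚ) < z.2 := by exact_mod_cast hm
    intro h6
    rw [h6] at h4
    nlinarith
  push Not at hA
  rcases lt_or_eq_of_le c4 with hB | hB
  · -- the ray `(0, 1)`
    have hy : ((0, 1) : GG n) ∈ PSet (lamF f K v₀) 0 (EF f I S ty) := by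
      rw [mem_cone_iff]
      have hd : ∀ v : Fin n →₀ ℕ, dotH v ((0, 1) : GG n) = 0 := by
        intro v; rw [dotH_apply]; simp
      refine ⟨fun j => by simp, fun v hv => ⟨fun _ => by rw [hd, hd], by rw [hd, hd]⟩,
        fun j => ⟨fun hj => absurd ((c3 j).1 hj) (hA j), by simp⟩, by rw [hd]; simp,
        fun ht => ?_⟩
      exact absurd (c5 ht) (by omega)
    have h2 := hmax _ hy (by
      intro h
      have := congrArg Prod.snd h
      simp at this) ?_
    · have hz1 : z.1 = 0 := by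
        funext j
        exact h2 (.inl (.inl j)) rfl
      have hd : dotH v₀ z = 0 := by rw [dotH_apply, hz1]; simp
      rw [hz1, hd]
      simp only [Pi.zero_apply, Finset.sum_const_zero, zero_add, sub_zero, mul_zero, add_zero]
      intro h3
      have h5 : (z.2 : ℚ) ≠ 0 := by exact_mod_cast hm.ne'
      apply h1
      have h6 : (z.2 : ℚ) * (1 + s₀) = 0 := by linear_combination h3
      rcases mul_eq_zero.1 h6 with h7 | h7
      · exact absurd h7 h5
      · linarith
    · rintro ((j | v) | (j | _)) hk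
      · simp [lamF, coordH_apply]
      · simp [lamF, dotH_apply]
      · exfalso
        apply hA j
        simp only [lamF, AddMonoidHom.sub_apply, AddMonoidHom.smul_apply, muH_apply,
          coordH_apply, smul_eq_mul] at hk
        omega
      · exfalso
        simp only [lamF, AddMonoidHom.sub_apply, muH_apply] at hk
        omega
  · -- a facet weight
    have hw : ∃ w : Fin n → ℕ, ∀ j, (w j : ℤ) = z.1 j :=
      ⟨fun j => (z.1 j).toNat, fun j => Int.toNat_of_nonneg (c1 j)⟩
    obtain ⟨w, hw⟩ := hw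
    have hwt : ∀ v, (wt w v : ℤ) = dotH v z := by
      intro v
      rw [dotH_apply]
      unfold wt
      push_cast
      exact Finset.sum_congr rfl fun j _ => by rw [hw]
    obtain ⟨N, hN⟩ : ∃ N : ℕ, (N : ℤ) = z.2 := ⟨z.2.toNat, Int.toNat_of_nonneg hm.le⟩
    have hfw : IsFacetWt f w N := by
      refine ⟨⟨fun v hv => ?_, v₀, hv₀, ?_⟩, by omega, ?_⟩
      · have := (c2 v hv).2
        have := hwt v
        omega
      · have := hwt v₀
        omega
      · intro y hy0 hyv
        have hyd : ∀ v : Fin n →₀ ℕ, dotH v ((y, 0) : GG n) = ∑ j, y j * (v j : ℤ) := fun v => rfl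
        have hface : ∀ v ∈ f.support, dotH v z = dotH v₀ z → dotH v ((y, 0) : GG n) = 0 := by
          intro v hv h
          rw [hyd]
          refine hyv v (Finset.mem_filter.2 ⟨hv, ?_⟩)
          have := hwt v
          omega
        obtain ⟨p, q, hp, hpq⟩ := MaxTight.proportional (lamF f K v₀) (lamF_inj f K v₀)
          ⟨hz0, hzC, hmax⟩ ((y, 0) : GG n) (by
            rintro ((j | v) | (j | _)) hk
            · refine hy0 j ?_
              have h3 : z.1 j = 0 := hk
              have := hw j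
              omega
            · simp only [lamF, AddMonoidHom.sub_apply] at hk ⊢
              rw [hface v.1 v.2 (by omega), hface v₀ hv₀ rfl, sub_zero]
            · exfalso
              apply hA j
              simp only [lamF, AddMonoidHom.sub_apply, AddMonoidHom.smul_apply, muH_apply,
                coordH_apply, smul_eq_mul] at hk
              omega
            · simp only [lamF, AddMonoidHom.sub_apply, muH_apply]
              rw [hface v₀ hv₀ rfl, sub_zero])
        have h3 : p * 0 = q * z.2 := congrArg Prod.snd hpq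
        rw [mul_zero] at h3
        have h4 : q = 0 := by
          rcases mul_eq_zero.1 h3.symm with h | h
          · exact h
          · omega
        have h5 := congrArg Prod.fst hpq
        rw [h4, zero_smul] at h5
        change p • y = 0 at h5
        exact (smul_eq_zero.1 h5).resolve_left hp
    have h2 := hfac w N hfw
    intro h3
    apply h2
    have h4 : (∑ j, z.1 j + (z.2 - dotH v₀ z) + ∑ j, (c j : ℤ) * z.1 j : ℤ) =
        ((∑ j, (1 + c j) * w j : ℕ) : ℤ) := by
      rw [hB, sub_self, add_zero]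
      push_cast
      rw [← Finset.sum_add_distrib]
      refine Finset.sum_congr rfl fun j _ => ?_
      rw [hw]
      ring
    rw [h4, ← hN] at h3
    exact_mod_cast h3

theorem coeff_genFC {f : MvPolynomial (Fin n) ℂ} (hf : f ≠ 0) {K ε : ℕ}
    {I : Finset (Fin n →₀ ℕ)} (hI : I.Nonempty) (hIf : I ⊆ f.support) (S : Finset (Fin n))
    (c : Fin n → ℕ) (ty m : ℕ) :
    PowerSeries.coeff m (genF (muH n) (nuC (v0 I) c) (PQ f K ε I S ty)) =
      ∑ a ∈ boxP f K ε m I S ty, ((LU ^ (-((∑ j, c j * a j : ℕ) : ℤ)) : Motˣ) : Mot) *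
        ((LU ^ (-(((∑ j, a j : ℕ) : ℤ) +
        ((m - nuf f a : ℕ) : ℤ))) : Motˣ) : Mot) := by
  classical
  unfold genF
  rw [PowerSeries.coeff_mk, PQ_fiber hf hI hIf S ty m, finsum_mem_coe_finset, Finset.sum_image fun a _ b _ h => emb_injective m h]
  refine Finset.sum_congr rfl fun a ha => ?_
  rw [← Units.val_mul, ← zpow_add]
  congr 3
  rw [boxP, Finset.mem_filter] at ha
  obtain ⟨-, ⟨h2, h3⟩, h4, h5⟩ := ha
  rw [nuC_apply, nuH_apply, dotH_emb]
  have hv0' : wt a (v0 I) = nuf f a := by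
    have hv0 := v0_mem hI
    rw [← h2] at hv0
    have h9 : v0 (face f a (nuf f a)) ∈ face f a (nuf f a) := hv0
    rw [face, Finset.mem_filter] at h9
    rw [← h2]
    exact h9.2
  rw [hv0']
  simp only [emb]
  push_cast
  have h6 : nuf f a ≤ m := by omega
  rw [Nat.cast_sub h6]
  ring

theorem coeff_Zw {f : MvPolynomial (Fin n) ℂ} (hf : f ≠ 0) {K ε : ℕ} (hK : 1 ≤ K)
    (hnd : ∀ a : Fin n → ℕ, (∀ j, ε ≤ a j) → NondegAt f (face f a (nuf f a)))
    (c : Fin n → ℕ) (m : ℕ) :
    PowerSeries.coeff m (Zw f ε K c) = ∑ p ∈ (f.support.powerset.filter Finset.Nonempty) ×ˢ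
      (Finset.univ : Finset (Finset (Fin n))),
      (c0 f p.1 p.2 * PowerSeries.coeff m (genF (muH n) (nuC (v0 p.1) c) (PQ f K ε p.1 p.2 0)) +
       c1 f p.1 p.2 *
        PowerSeries.coeff m (genF (muH n) (nuC (v0 p.1) c) (PQ f K ε p.1 p.2 1))) := by
  classical
  have hm : m < K * (m + 1) := by nlinarith
  unfold Zw
  rw [PowerSeries.coeff_mk]
  rw [← Finset.sum_fiberwise_of_maps_to (g := fun a : Fin n → ℕ =>
    (face f a (nuf f a), SS (K * (m + 1)) a)) (t := (f.support.powerset.filter Finset.Nonempty) ×ˢ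
      (Finset.univ : Finset (Finset (Fin n))))]
  · refine Finset.sum_congr rfl fun p hp => ?_
    obtain ⟨I, S⟩ := p
    rw [Finset.mem_product, Finset.mem_filter, Finset.mem_powerset] at hp
    obtain ⟨⟨hIf, hI⟩, -⟩ := hp
    simp only at hIf hI ⊢
    rw [coeff_genFC hf hI hIf, coeff_genFC hf hI hIf, Finset.mul_sum, Finset.mul_sum]
    have hb0 : boxP f K ε m I S 0 = ((Fintype.piFinset (fun _ : Fin n =>
        Finset.Icc ε (K * (m + 1)))).filter fun a => (face f a (nuf f a), SS (K * (m + 1)) a) =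
          (I, S)).filter fun a => nuf f a = m := by
      ext a
      simp only [boxP, Finset.mem_filter, Prod.mk.injEq]
      constructor
      · rintro ⟨h1, h2, h3, h4⟩
        exact ⟨⟨h1, h2⟩, h4 trivial⟩
      · rintro ⟨⟨h1, h2⟩, h3⟩
        exact ⟨h1, h2, by omega, fun _ => h3⟩
    have hb1 : boxP f K ε m I S 1 = ((Fintype.piFinset (fun _ : Fin n =>
        Finset.Icc ε (K * (m + 1)))).filter fun a => (face f a (nuf f a), SS (K * (m + 1)) a) =
          (I, S)).filter fun a => nuf f a < m := by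
      ext a
      simp only [boxP, Finset.mem_filter, Prod.mk.injEq]
      constructor
      · rintro ⟨h1, h2, h3, h4⟩
        exact ⟨⟨h1, h2⟩, h3⟩
      · rintro ⟨⟨h1, h2⟩, h3⟩
        exact ⟨h1, h2, h3, fun h => by omega⟩
    rw [hb0, hb1, Finset.sum_filter (fun a => nuf f a = m), Finset.sum_filter
      (fun a => nuf f a < m), ← Finset.sum_add_distrib]
    refine Finset.sum_congr rfl fun a ha => ?_
    rw [Finset.mem_filter, Fintype.mem_piFinset, Prod.mk.injEq] at ha
    obtain ⟨h1, h2, h3⟩ := ha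
    rw [clsM_stratum hf hm (fun j => (Finset.mem_Icc.1 (h1 j)).2)
      (hnd a fun j => (Finset.mem_Icc.1 (h1 j)).1)]
    rw [h2, h3]
    unfold c0 c1
    rcases lt_trichotomy (nuf f a) m with h | h | h
    · rw [if_neg h.ne, if_pos h, if_neg h.ne, if_pos h, zero_add]
      rw [← Nat.cast_add]
      push_cast
      ring
    · rw [if_pos h, if_pos h, if_neg (by omega), add_zero, h, Nat.sub_self]
      push_cast
      rw [add_zero]
      ring
    · rw [if_neg (by omega), if_neg (by omega), if_neg (by omega), if_neg (by omega), add_zero,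
        mul_zero]
  · intro a _
    rw [Finset.mem_product, Finset.mem_filter, Finset.mem_powerset]
    refine ⟨⟨Finset.filter_subset _ _, ?_⟩, Finset.mem_univ _⟩
    obtain ⟨-, v, hv, h⟩ := isMinWt_nuf hf a
    exact ⟨v, Finset.mem_filter.2 ⟨hv, h⟩⟩

end W1

open W1 in
/-- Weighted version of `ZE_mem_regularAt`. -/
theorem Zw_mem_regularAt {f : MvPolynomial (Fin n) ℂ} (hf : f ≠ 0) {ε : ℕ} (hε : ε ≤ 1)
    (hnd : ∀ a : Fin n → ℕ, (∀ j, ε ≤ a j) → NondegAt f (face f a (nuf f a)))
    {s₀ : ℚ} (h1 : s₀ ≠ -1) {K : ℕ} (hK : 1 ≤ K) (hKs : -s₀ < K) (c : Fin n → ℕ)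
    (hfac : ∀ w N, IsFacetWt f w N → ((∑ j, (1 + c j) * w j : ℕ) : ℚ) ≠ -s₀ * N) :
    Zw f ε K c ∈ regularAt s₀ := by
  classical
  have hsum : Zw f ε K c = ∑ p ∈ (f.support.powerset.filter Finset.Nonempty) ×ˢ
      (Finset.univ : Finset (Finset (Fin n))),
      (c0 f p.1 p.2 • genF (muH n) (nuC (v0 p.1) c) (PQ f K ε p.1 p.2 0) +
       c1 f p.1 p.2 • genF (muH n) (nuC (v0 p.1) c) (PQ f K ε p.1 p.2 1)) := by
    ext m
    rw [coeff_Zw hf hK hnd, map_sum]
    refine Finset.sum_congr rfl fun p _ => ?_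
    rw [map_add, PowerSeries.coeff_smul, PowerSeries.coeff_smul, smul_eq_mul, smul_eq_mul]
  rw [hsum]
  refine Subalgebra.sum_mem _ fun p hp => ?_
  obtain ⟨I, S⟩ := p
  rw [Finset.mem_product, Finset.mem_filter, Finset.mem_powerset] at hp
  obtain ⟨⟨hIf, hI⟩, -⟩ := hp
  simp only at hIf hI ⊢
  have key : ∀ ty, genF (muH n) (nuC (v0 I) c) (PQ f K ε I S ty) ∈ regularAt s₀ := by
    intro ty
    unfold PQ
    have hpos : ∀ z ∈ PSet (lamF f K (v0 I)) (cF f K ε I S ty) (EF f I S ty), 0 ≤ muH n z := by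
      intro z hz
      rw [mem_PSet_iff] at hz
      obtain ⟨h1, -, -, h4, -⟩ := hz
      have hdot : 0 ≤ dotH (v0 I) z := by
        rw [dotH_apply]
        exact Finset.sum_nonneg fun j _ => mul_nonneg (le_trans (by positivity) (h1 j))
          (by positivity)
      rw [muH_apply]
      omega
    refine genF_mem_regularAt _ (lamF_inj f K (v0 I)) (muH n) (nuC (v0 I) c) s₀ _ _ hpos ?_ ?_
    · intro m
      rcases lt_or_ge m 0 with hm | hm
      · refine Set.Finite.subset Set.finite_empty ?_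
        rintro z ⟨h2, h3⟩
        have := hpos z h2
        omega
      · obtain ⟨m, rfl⟩ := Int.eq_ofNat_of_zero_le hm
        have := PQ_fiber (K := K) (ε := ε) hf hI hIf S ty m
        unfold PQ at this
        rw [this]
        exact Set.toFinite _
    · intro z hz
      exact ray_neC (hIf (v0_mem hI)) hKs h1 c hfac z hz
  exact Subalgebra.add_mem _ (Subalgebra.smul_mem _ (key 0) _) (Subalgebra.smul_mem _ (key 1) _)

end MPb07157
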