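import Pool.Agent.Lib.MP_b07157_agV.A2
import Pool.Agent.Lib.MP_b07157_agV.A3
import Pool.Agent.Lib.MP_b07157_agV.M3
import Pool.Agent.Lib.MP_b07157_agV.W1
import Pool.Agent.Lib.MP_b07157_agV.S1

/-!
# Poles and edges
-/

noncomputable section

namespace MPb07157

open MvPolynomial

namespace PC

/-! ### Auxiliary statements -/

namespace P1aux

theorem Strat_subset_Start {N : ℕ} {w : Fin 2 → ℕ} (hw : ∀ j, 1 ≤ w j) :
    Strat N w ⊆ Start 2 1 N := by
  intro γ hγ j k hk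
  exact hγ.1 j k (lt_of_lt_of_le hk (hw j))

theorem arcsV_coe_inter (g : MvPolynomial (Fin 2) ℂ) {N m : ℕ} (hm : m < N) {w : Fin 2 → ℕ}
    (hw : ∀ j, 1 ≤ w j) : arcsV (g : P2) N m ∩ Strat N w = arcs g N m ∩ Strat N w := by
  rw [arcsV_eq hm (P := g) (fun v _ => MvPolynomial.coeff_coe _ _), Set.inter_assoc,
    Set.inter_eq_right.2 (Strat_subset_Start hw)]

theorem exists_ab {p q : ℕ} (hp : 0 < p) (hq : 0 < q) (hpq : Nat.Coprime p q) :
    ∃ α β : ℕ, p * α = q * β + 1 := by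
  rcases Nat.lt_or_ge 1 q with h | h
  · obtain ⟨m, hm⟩ := Nat.exists_mul_mod_eq_one_of_coprime hpq h
    refine ⟨m, p * m / q, ?_⟩
    have := Nat.div_add_mod (p * m) q
    omega
  · obtain rfl : q = 1 := by omega
    exact ⟨1, p - 1, by omega⟩

theorem edge_sum_pos {F : P2} {p q A B : ℕ} {lam : ℂ} {R : Finset ℂ} {μ : ℂ → ℕ}
    (h : IsEdge F p q A B lam R μ) : 0 < ∑ c ∈ R, μ c := by
  obtain ⟨c, hc⟩ := h.hR
  exact lt_of_lt_of_le (h.hm c hc) (Finset.single_le_sum (fun _ _ => Nat.zero_le _) hc)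

theorem le_edgeN {F : P2} {p q A B : ℕ} {lam : ℂ} {R : Finset ℂ} {μ : ℂ → ℕ}
    (h : IsEdge F p q A B lam R μ) : p ≤ edgeN p q A B R μ ∧ q ≤ edgeN p q A B R μ := by
  have h1 := edge_sum_pos h
  have h2 := h.hp
  have h3 := h.hq
  unfold edgeN
  constructor
  · have : p * 1 * 1 ≤ p * q * ∑ c ∈ R, μ c :=
      Nat.mul_le_mul (Nat.mul_le_mul le_rfl h3) h1
    omega
  · have : 1 * q * 1 ≤ p * q * ∑ c ∈ R, μ c :=
      Nat.mul_le_mul (Nat.mul_le_mul h2 le_rfl) h1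
    omega

theorem edgeN_pos {F : P2} {p q A B : ℕ} {lam : ℂ} {R : Finset ℂ} {μ : ℂ → ℕ}
    (h : IsEdge F p q A B lam R μ) : 0 < edgeN p q A B R μ :=
  lt_of_lt_of_le h.hp (le_edgeN h).1

theorem coeff_arc_eq_zero {N i : ℕ} {γ : Fin 2 × Fin N → ℂ} {j : Fin 2}
    (h : ∀ k : Fin N, (k : ℕ) < i → γ (j, k) = 0) (k : ℕ) (hk : k < i) :
    PowerSeries.coeff k (arc γ j) = 0 := by
  rw [coeff_arc]
  split_ifs with h1
  · exact h ⟨k, h1⟩ hk
  · rfl

/-- Arcs with `ord x = k` on which `ord G` is at least `k E`. -/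
theorem arcsV_Xo_eq_empty {G : P2} {E : ℕ} (hG : MvPowerSeries.X 0 ^ E ∣ G) {k N m : ℕ}
    (hk : 0 < k) (hmk : m < k * E) : arcsV G N m ∩ Xo N k = ∅ := by
  rw [Set.eq_empty_iff_forall_notMem]
  rintro γ ⟨⟨h1, h2⟩, h3, -⟩
  have hd : PowerSeries.X ^ (k * E) ∣
      (MvPowerSeries.subst (arc γ : Fin 2 → MvPowerSeries Unit ℂ) G : PowerSeries ℂ) := by
    refine le_order_subst (w := ![k, 1]) ?_ ?_ ?_
    · intro j
      fin_cases j
      · exact hk
      · exact Nat.one_pos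
    · intro v hv
      rw [MvPowerSeries.X_pow_dvd_iff] at hG
      apply hG
      simp only [wt, Fin.sum_univ_two, Matrix.cons_val_zero, Matrix.cons_val_one] at hv
      by_contra h4
      have h5 : k * E ≤ k * v 0 := Nat.mul_le_mul le_rfl (not_lt.1 h4)
      omega
    · intro j
      rw [PowerSeries.X_pow_dvd_iff]
      intro l hl
      fin_cases j
      · exact coeff_arc_eq_zero h3 l hl
      · exact coeff_arc_eq_zero (fun k hk => h1 1 k hk) l hl
  rw [PowerSeries.X_pow_dvd_iff] at hd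
  rw [← PowerSeries.order_eq_order] at h2
  have h5 := PowerSeries.coeff_order (φ := (MvPowerSeries.subst
    (arc γ : Fin 2 → MvPowerSeries Unit ℂ) G : PowerSeries ℂ)) (by
      intro h6
      rw [h6, PowerSeries.order_zero] at h2
      exact absurd h2 (by simp))
  apply h5
  apply hd
  rw [h2]
  exact hmk

theorem muN_empty (N : ℕ) : muN N ∅ = 0 := by
  unfold muN clsM
  rw [cls_empty, map_zero, mul_zero]

/-- `L^{-k}`. -/
def Lp (k : ℕ) : Mot := ((LU ^ (-(k : ℤ)) : Motˣ) : Mot)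

theorem Lp_add (k l : ℕ) : Lp (k + l) = Lp k * Lp l := by
  unfold Lp
  rw [← Units.val_mul, ← zpow_add]
  congr 2
  push_cast
  ring

/-- The arcs on the ray `(p, q)` far away. -/
theorem strat_ray_empty {F : P2} {p q r : ℕ} {P : MvPolynomial (Fin 2) ℂ} (hp : 0 < p)
    (hq : 0 < q) (hI : IsInit F ![p, q] r P) {k N m : ℕ} (hk : 0 < k) (hkp : k * p ≤ N)
    (hkq : k * q ≤ N) (hm : m < N) (hr : m < k * r) :
    arcsV F N m ∩ Strat N ![k * p, k * q] = ∅ := by
  refine strat_lt (r := k * r) ?_ ?_ ?_ hm hr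
  · intro j
    fin_cases j
    · exact Nat.mul_pos hk hp
    · exact Nat.mul_pos hk hq
  · intro j
    fin_cases j
    · exact hkp
    · exact hkq
  · intro v hv
    exact (hI.smul hk).coeff_eq_zero hv

theorem one_le_ray {p q k : ℕ} (hp : 0 < p) (hq : 0 < q) (hk : 0 < k) :
    ∀ j, 1 ≤ (![k * p, k * q] : Fin 2 → ℕ) j := by
  intro j
  fin_cases j
  · exact Nat.mul_pos hk hp
  · exact Nat.mul_pos hk hq

/-- The contribution of one ray. -/
theorem ray_formula {F : P2} {a : ℕ} (ha : 1 ≤ a) {p q A B : ℕ} {lam : ℂ} {R : Finset ℂ}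
    {μ : ℂ → ℕ} (hE : IsEdge F p q A B lam R μ) {α β : ℕ} (hab : p * α = q * β + 1)
    {g : MvPolynomial (Fin 2) ℂ}
    (hI : IsInit (g : P2) ![p, q] (edgeN p q A B R μ)
      (X 0 ^ A * X 1 ^ B * (X 1 ^ (p * ∑ c ∈ R, μ c) + X 0 ^ (q * ∑ c ∈ R, μ c))))
    {e₀ e₁ : Mot} (he : ∀ k N m : ℕ, 0 < k → k * p < N → k * q < N → m < N →
      muN N (arcs g N m ∩ Strat N ![k * p, k * q]) =
        (if edgeN p q A B R μ * k = m then e₀ * Lp ((p + q) * k) else 0) +
        (if edgeN p q A B R μ * k < m then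
          e₁ * Lp ((p + q) * k + (m - edgeN p q A B R μ * k)) else 0))
    {k N m : ℕ} (hk : 0 < k) (hm : m < N) :
    (if k * p ≤ N ∧ k * q ≤ N then Lp ((a - 1) * (k * p)) *
      (muN N (arcsV F N m ∩ Strat N ![k * p, k * q]) -
        muN N (arcs g N m ∩ Strat N ![k * p, k * q])) else 0) =
    (Lp 2 * clsM (Tor (edgeP p q A B lam R μ)) - e₀) *
        (if edgeN p q A B R μ * k = m then Lp ((a * p + q) * k) else 0) -
      e₁ * (if edgeN p q A B R μ * k < m then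
        Lp ((a * p + q) * k + (m - edgeN p q A B R μ * k)) else 0) +
      ∑ c ∈ R, Lp ((a * p + q - 1) * k) *
        muN N (arcsV (MvPowerSeries.subst (kap p q α β c) F) N m ∩ Xo N k) := by
  have hp := hE.hp
  have hq := hE.hq
  by_cases h : k * p < N ∧ k * q < N
  · obtain ⟨h1, h2⟩ := h
    rw [if_pos ⟨h1.le, h2.le⟩, strat_edge hE hk h1 h2 hm, he k N m hk h1 h2 hm]
    have hnear : ∀ c ∈ R, muN N (arcsV F N m ∩ Near N p q k c) =
        Lp ((p + q - 1) * k) *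
          muN N (arcsV (MvPowerSeries.subst (kap p q α β c) F) N m ∩ Xo N k) := by
      intro c hc
      exact near_root hp hq hab (fun h => hE.hR0 (h ▸ hc)) hk h1 h2 hm
    rw [Finset.sum_congr rfl hnear, ← Finset.mul_sum, ← Finset.mul_sum]
    obtain ⟨a, rfl⟩ : ∃ b, a = b + 1 := ⟨a - 1, by omega⟩
    obtain ⟨p, rfl⟩ : ∃ b, p = b + 1 := ⟨p - 1, by omega⟩
    have e1 : Lp ((a + 1 - 1) * (k * (p + 1))) * Lp ((p + 1 + q) * k + 2) =
        Lp 2 * Lp (((a + 1) * (p + 1) + q) * k) := by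
      rw [← Lp_add, ← Lp_add]
      congr 1
      rw [Nat.add_sub_cancel]
      ring
    have e2 : Lp ((a + 1 - 1) * (k * (p + 1))) * Lp ((p + 1 + q) * k) =
        Lp (((a + 1) * (p + 1) + q) * k) := by
      rw [← Lp_add]
      congr 1
      rw [Nat.add_sub_cancel]
      ring
    have e3 : Lp ((a + 1 - 1) * (k * (p + 1))) * Lp ((p + 1 + q - 1) * k) =
        Lp (((a + 1) * (p + 1) + q - 1) * k) := by
      rw [← Lp_add]
      congr 1
      rw [Nat.add_sub_cancel, show p + 1 + q - 1 = p + q by omega,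
        show (a + 1) * (p + 1) + q - 1 = a * (p + 1) + p + q by
          rw [add_mul, one_mul]; omega]
      ring
    rw [← e3, Lp_add ((p + 1 + q) * k),
      Lp_add (((a + 1) * (p + 1) + q) * k) (m - edgeN (p + 1) q A B R μ * k), ← e2]
    change _ * ((if _ then Lp ((p + 1 + q) * k + 2) * _ else 0) + _ - _) = _
    rw [Lp_add ((p + 1 + q) * k) 2]
    split_ifs <;> ring
  · have hN : N ≤ k * edgeN p q A B R μ := by
      obtain ⟨h1, h2⟩ := le_edgeN hE
      have h3 := Nat.mul_le_mul (le_refl k) h1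
      have h4 := Nat.mul_le_mul (le_refl k) h2
      by_contra h5
      apply h
      constructor <;> omega
    have hN' : N ≤ edgeN p q A B R μ * k := by rwa [mul_comm]
    have h0 : (if k * p ≤ N ∧ k * q ≤ N then Lp ((a - 1) * (k * p)) *
        (muN N (arcsV F N m ∩ Strat N ![k * p, k * q]) -
        muN N (arcs g N m ∩ Strat N ![k * p, k * q])) else 0) = 0 := by
      split_ifs with h1
      · rw [strat_ray_empty hp hq hE.init hk h1.1 h1.2 hm (by omega),
          ← arcsV_coe_inter g hm (one_le_ray hp hq hk),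
          strat_ray_empty hp hq hI hk h1.1 h1.2 hm (by omega), sub_self, mul_zero]
      · rfl
    rw [h0, if_neg (by omega), if_neg (by omega), mul_zero, mul_zero, sub_zero, zero_add,
      Finset.sum_eq_zero]
    intro c hc
    rw [arcsV_Xo_eq_empty (YOrd.sub hE hc hab).dvd hk (by omega), muN_empty, mul_zero]

/-- The sum over the box is a sum over the rays. -/
theorem sum_box {ι : Type} [Fintype ι] {p q : ι → ℕ} (hp : ∀ i, 0 < p i) (hq : ∀ i, 0 < q i)
    (hpq : ∀ i, Nat.Coprime (p i) (q i)) (hinj : ∀ i j, p i = p j → q i = q j → i = j)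
    (N : ℕ) (D : (Fin 2 → ℕ) → Mot)
    (hD : ∀ w : Fin 2 → ℕ, (∀ j, 0 < w j) → (∀ j, w j ≤ N) →
      D w = 0 ∨ ∃ i k, 0 < k ∧ w = ![k * p i, k * q i]) :
    ∑ w ∈ Fintype.piFinset (fun _ : Fin 2 => Finset.Icc 1 N), D w =
      ∑ i, ∑ k ∈ Finset.Icc 1 N,
        if k * p i ≤ N ∧ k * q i ≤ N then D ![k * p i, k * q i] else 0 := by
  classical
  rw [← Finset.sum_product' (s := Finset.univ) (t := Finset.Icc 1 N)
    (f := fun i k => if k * p i ≤ N ∧ k * q i ≤ N then D ![k * p i, k * q i] else 0)]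
  symm
  refine Finset.sum_bij_ne_zero (fun x _ _ => ![x.2 * p x.1, x.2 * q x.1]) ?_ ?_ ?_ ?_
  · intro x hx h0
    have h1 : x.2 * p x.1 ≤ N ∧ x.2 * q x.1 ≤ N := by
      by_contra h2
      exact h0 (if_neg h2)
    have hk : 1 ≤ x.2 := (Finset.mem_Icc.1 (Finset.mem_product.1 hx).2).1
    rw [Fintype.mem_piFinset]
    intro j
    rw [Finset.mem_Icc]
    fin_cases j
    · exact ⟨Nat.mul_pos hk (hp _), h1.1⟩
    · exact ⟨Nat.mul_pos hk (hq _), h1.2⟩
  · rintro ⟨i, k⟩ hx - ⟨i', k'⟩ hx' - h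
    have hk : 1 ≤ k := (Finset.mem_Icc.1 (Finset.mem_product.1 hx).2).1
    have hk' : 1 ≤ k' := (Finset.mem_Icc.1 (Finset.mem_product.1 hx').2).1
    have h1 : k * p i = k' * p i' := congrFun h 0
    have h2 : k * q i = k' * q i' := congrFun h 1
    have h3 : k = k' := by
      have e1 : Nat.gcd (k * p i) (k * q i) = k := by
        rw [Nat.gcd_mul_left, (hpq i).gcd_eq_one, mul_one]
      have e2 : Nat.gcd (k' * p i') (k' * q i') = k' := by
        rw [Nat.gcd_mul_left, (hpq i').gcd_eq_one, mul_one]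
      rw [← e1, ← e2, h1, h2]
    subst h3
    have h4 := hinj i i' (Nat.eq_of_mul_eq_mul_left hk h1) (Nat.eq_of_mul_eq_mul_left hk h2)
    rw [h4]
  · intro w hw h0
    rw [Fintype.mem_piFinset] at hw
    rcases hD w (fun j => (Finset.mem_Icc.1 (hw j)).1) (fun j => (Finset.mem_Icc.1 (hw j)).2) with
      h | ⟨i, k, hk, rfl⟩
    · exact absurd h h0
    · have h1 : k * p i ≤ N := (Finset.mem_Icc.1 (hw 0)).2
      have h2 : k * q i ≤ N := (Finset.mem_Icc.1 (hw 1)).2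
      have h3 : k ≤ N := le_trans (Nat.le_mul_of_pos_right k (hp i)) h1
      refine ⟨(i, k), Finset.mem_product.2 ⟨Finset.mem_univ _, Finset.mem_Icc.2 ⟨hk, h3⟩⟩, ?_, rfl⟩
      rw [if_pos ⟨h1, h2⟩]
      exact h0
  · intro x _ h0
    have h1 : x.2 * p x.1 ≤ N ∧ x.2 * q x.1 ≤ N := by
      by_contra h2
      exact h0 (if_neg h2)
    exact if_pos h1

/-- Sums over `k ≤ N` and over `k ≤ m`. -/
theorem sum_Icc_eq {E N m : ℕ} (hE : 0 < E) (hm : m < N) (D : ℕ → Mot)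
    (hD : ∀ k, m < E * k → D k = 0) :
    ∑ k ∈ Finset.Icc 1 N, D k = ∑ k ∈ Finset.Icc 1 m, D k := by
  symm
  refine Finset.sum_subset (Finset.Icc_subset_Icc_right hm.le) ?_
  intro k hk hk'
  apply hD
  rw [Finset.mem_Icc] at hk hk'
  have h1 : m < k := by
    by_contra h
    exact hk' ⟨hk.1, not_lt.1 h⟩
  exact lt_of_lt_of_le h1 (Nat.le_mul_of_pos_left k hE)

theorem coeff_geo (ν E m : ℕ) : PowerSeries.coeff m (geo ν E) =
    ∑ k ∈ Finset.Icc 1 m, if E * k = m then Lp (ν * k) else 0 :=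
  PowerSeries.coeff_mk _ _

theorem coeff_geo2 (ν E m : ℕ) : PowerSeries.coeff m (geo2 ν E) =
    ∑ k ∈ Finset.Icc 1 m, if E * k < m then Lp (ν * k + (m - E * k)) else 0 :=
  PowerSeries.coeff_mk _ _

/-- The sum over one ray. -/
theorem ray_sum {F : P2} {a : ℕ} (ha : 1 ≤ a) {p q A B : ℕ} {lam : ℂ} {R : Finset ℂ}
    {μ : ℂ → ℕ} (hE : IsEdge F p q A B lam R μ) {α β : ℕ} (hab : p * α = q * β + 1)
    {g : MvPolynomial (Fin 2) ℂ}
    (hI : IsInit (g : P2) ![p, q] (edgeN p q A B R μ)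
      (X 0 ^ A * X 1 ^ B * (X 1 ^ (p * ∑ c ∈ R, μ c) + X 0 ^ (q * ∑ c ∈ R, μ c))))
    {e₀ e₁ : Mot} (he : ∀ k N m : ℕ, 0 < k → k * p < N → k * q < N → m < N →
      muN N (arcs g N m ∩ Strat N ![k * p, k * q]) =
        (if edgeN p q A B R μ * k = m then e₀ * Lp ((p + q) * k) else 0) +
        (if edgeN p q A B R μ * k < m then
          e₁ * Lp ((p + q) * k + (m - edgeN p q A B R μ * k)) else 0))
    {N m : ℕ} (hm : m < N) :
    (∑ k ∈ Finset.Icc 1 N, if k * p ≤ N ∧ k * q ≤ N then Lp ((a - 1) * (k * p)) *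
      (muN N (arcsV F N m ∩ Strat N ![k * p, k * q]) -
        muN N (arcs g N m ∩ Strat N ![k * p, k * q])) else 0) =
    PowerSeries.coeff m (PowerSeries.C (Lp 2 * clsM (Tor (edgeP p q A B lam R μ)) - e₀) *
        geo (a * p + q) (edgeN p q A B R μ) -
      PowerSeries.C e₁ * geo2 (a * p + q) (edgeN p q A B R μ) +
      ∑ c ∈ R, ZV (MvPowerSeries.subst (kap p q α β c) F) (a * p + q)) := by
  have hN := edgeN_pos hE
  rw [Finset.sum_congr rfl fun k hk => ray_formula ha hE hab hI he (Finset.mem_Icc.1 hk).1 hm,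
    Finset.sum_add_distrib, Finset.sum_sub_distrib, ← Finset.mul_sum, ← Finset.mul_sum, map_add,
    map_sub, PowerSeries.coeff_C_mul, PowerSeries.coeff_C_mul, coeff_geo, coeff_geo2, map_sum,
    sum_Icc_eq hN hm, sum_Icc_eq hN hm, Finset.sum_comm]
  · congr 1
    refine Finset.sum_congr rfl fun c hc => ?_
    have hd : MvPowerSeries.X 0 ∣ MvPowerSeries.subst (kap p q α β c) F :=
      (dvd_pow_self _ hN.ne').trans (YOrd.sub hE hc hab).dvd
    unfold ZV
    rw [PowerSeries.coeff_mk, ← Zst_eq (Or.inr hd) hm]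
    rfl
  · intro k hk
    rw [if_neg (by omega)]
  · intro k hk
    rw [if_neg (by omega)]

end P1aux

/-- **Explicit formula.** The zeta function of `F` and `x^(a-1) dx dy` is the one of the vertex
model, plus geometric series for the edges and the zeta functions at the roots of the edge
polynomials. -/
theorem ZV_formula {F : P2} (hF : F ≠ 0) : ∃ g : MvPolynomial (Fin 2) ℂ, g ≠ 0 ∧
    (∀ (w : Fin 2 → ℕ) (r : ℕ) (v : Fin 2 →₀ ℕ) (l : ℂ), (∀ j, 0 < w j) →
      IsInit F w r (monomial v l) → IsInit (g : P2) w r (monomial v 1)) ∧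
    (∀ (p q A B : ℕ) (lam : ℂ) (R : Finset ℂ) (μ : ℂ → ℕ), IsEdge F p q A B lam R μ →
      IsInit (g : P2) ![p, q] (edgeN p q A B R μ)
        (X 0 ^ A * X 1 ^ B * (X 1 ^ (p * ∑ c ∈ R, μ c) + X 0 ^ (q * ∑ c ∈ R, μ c)))) ∧
    (∀ a : Fin 2 → ℕ, (∀ j, 1 ≤ a j) → NondegAt g (face g a (nuf g a))) ∧
    (∀ (w : Fin 2 → ℕ) (N : ℕ), IsFacetWt g w N →
      (∃ A k, ExactPow F 0 A ∧ 0 < A ∧ 0 < k ∧ w = ![k, 0] ∧ N = k * A) ∨
      (∃ B k, ExactPow F 1 B ∧ 0 < B ∧ 0 < k ∧ w = ![0, k] ∧ N = k * B) ∨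
      (∃ (p q A B : ℕ) (lam : ℂ) (R : Finset ℂ) (μ : ℂ → ℕ) (k : ℕ), IsEdge F p q A B lam R μ ∧
        0 < k ∧ w = ![k * p, k * q] ∧ N = k * edgeN p q A B R μ)) ∧
    ∃ (ι : Type) (_ : Fintype ι) (p q A B α β : ι → ℕ) (lam : ι → ℂ) (R : ι → Finset ℂ)
      (μ : ι → ℂ → ℕ) (e₀ e₁ : ι → Mot),
      (∀ i, IsEdge F (p i) (q i) (A i) (B i) (lam i) (R i) (μ i)) ∧
      (∀ i, p i * α i = q i * β i + 1) ∧
      (∀ i j, p i = p j → q i = q j → i = j) ∧
      (∀ w : Fin 2 → ℕ, (∀ j, 0 < w j) →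
        (∃ r v l, IsInit F w r (monomial v l)) ∨ ∃ i k, 0 < k ∧ w = ![k * p i, k * q i]) ∧
      (∀ i, ∀ k N m : ℕ, 0 < k → k * p i < N → k * q i < N → m < N →
        muN N (arcs g N m ∩ Strat N ![k * p i, k * q i]) =
          (if edgeN (p i) (q i) (A i) (B i) (R i) (μ i) * k = m then
            e₀ i * P1aux.Lp ((p i + q i) * k) else 0) +
          (if edgeN (p i) (q i) (A i) (B i) (R i) (μ i) * k < m then
            e₁ i * P1aux.Lp ((p i + q i) * k +
              (m - edgeN (p i) (q i) (A i) (B i) (R i) (μ i) * k)) else 0)) ∧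
      ∀ (a K : ℕ), 1 ≤ a → (a = 1 ∨ MvPowerSeries.X 0 ∣ F) → 1 ≤ K →
        ZV F a = Zw g 1 K ![a - 1, 0] +
          ∑ i, (PowerSeries.C (P1aux.Lp 2 * clsM (Tor (edgeP (p i) (q i) (A i) (B i) (lam i) (R i)
              (μ i))) - e₀ i) * geo (a * p i + q i) (edgeN (p i) (q i) (A i) (B i) (R i) (μ i)) -
            PowerSeries.C (e₁ i) *
              geo2 (a * p i + q i) (edgeN (p i) (q i) (A i) (B i) (R i) (μ i)) +
            ∑ c ∈ R i, ZV (MvPowerSeries.subst (kap (p i) (q i) (α i) (β i) c) F)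
              (a * p i + q i)) := by
  classical
  obtain ⟨g, hg0, hg1, hg2, hg3, hg4⟩ := exists_model hF
  obtain ⟨ι, hι, p, q, A, B, lam, R, μ, hEd, hinj, hcov⟩ := exists_edges hF
  have hM : ∀ i, ∃ e₀ e₁ : Mot, ∀ k N m : ℕ, 0 < k → k * p i < N → k * q i < N → m < N →
      muN N (arcs g N m ∩ Strat N ![k * p i, k * q i]) =
        (if edgeN (p i) (q i) (A i) (B i) (R i) (μ i) * k = m then
          e₀ * P1aux.Lp ((p i + q i) * k) else 0) +
        (if edgeN (p i) (q i) (A i) (B i) (R i) (μ i) * k < m then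
          e₁ * P1aux.Lp ((p i + q i) * k +
            (m - edgeN (p i) (q i) (A i) (B i) (R i) (μ i) * k)) else 0) :=
    fun i => strat_model (hEd i).hp (hEd i).hq (P1aux.edge_sum_pos (hEd i))
      (hg2 _ _ _ _ _ _ _ (hEd i)) hg3
  choose e₀ e₁ he using hM
  choose α β hab using fun i => P1aux.exists_ab (hEd i).hp (hEd i).hq (hEd i).hpq
  refine ⟨g, hg0, hg1, hg2, hg3, hg4, ι, hι, p, q, A, B, α, β, lam, R, μ, e₀, e₁, hEd, hab, hinj,
    hcov, he, ?_⟩
  intro a K ha haX hK1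
  ext m
  have hm : m < K * (m + 1) := by nlinarith
  have e1 : PowerSeries.coeff m (ZV F a) = Zst F a (K * (m + 1)) m := by
    rw [Zst_eq haX hm]
    exact PowerSeries.coeff_mk _ _
  have e2 : PowerSeries.coeff m (Zw g 1 K ![a - 1, 0]) =
      ∑ w ∈ Fintype.piFinset (fun _ : Fin 2 => Finset.Icc 1 (K * (m + 1))),
        P1aux.Lp ((a - 1) * w 0) *
          muN (K * (m + 1)) (arcs g (K * (m + 1)) m ∩ Strat (K * (m + 1)) w) := by
    unfold Zw
    rw [PowerSeries.coeff_mk]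
    refine Finset.sum_congr rfl fun w _ => ?_
    congr 3
    simp [Fin.sum_univ_two]
  rw [map_add, map_sum, e1, Zst_strat F a hm, e2, ← sub_eq_iff_eq_add', ← Finset.sum_sub_distrib,
    ← Finset.sum_congr rfl fun i _ => P1aux.ray_sum ha (hEd i) (hab i) (hg2 _ _ _ _ _ _ _ (hEd i))
      (he i) hm]
  refine Eq.trans ?_ (P1aux.sum_box (fun i => (hEd i).hp) (fun i => (hEd i).hq)
    (fun i => (hEd i).hpq) hinj
    (K * (m + 1)) (fun w => P1aux.Lp ((a - 1) * w 0) *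
      (muN (K * (m + 1)) (arcsV F (K * (m + 1)) m ∩ Strat (K * (m + 1)) w) -
        muN (K * (m + 1)) (arcs g (K * (m + 1)) m ∩ Strat (K * (m + 1)) w))) ?_)
  · refine Finset.sum_congr rfl fun w _ => ?_
    rw [mul_sub]
    rfl
  · intro w hw hwN
    rcases hcov w hw with ⟨r, v, l, hI⟩ | h
    · left
      rw [← P1aux.arcsV_coe_inter g hm hw, strat_mono hw hwN hm hI,
        strat_mono hw hwN hm (hg1 w r v l hw hI), sub_self, mul_zero]
    · exact Or.inr h

/-- **Key theorem, pole side.** The zeta function of `F` is regular at `s₀` if `s₀` is not one of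
the candidate poles of the Newton polygon and if the zeta functions at the roots of the edge
polynomials are regular at `s₀`. -/
theorem ZV_mem_of_edges {F : P2} (hF : F ≠ 0) {a : ℕ} (ha : 1 ≤ a)
    (haX : a = 1 ∨ MvPowerSeries.X 0 ∣ F) {s₀ : ℚ} (h1 : s₀ ≠ -1)
    (hx : ∀ A, ExactPow F 0 A → 0 < A → (a : ℚ) ≠ -s₀ * A)
    (hy : ∀ B, ExactPow F 1 B → 0 < B → (1 : ℚ) ≠ -s₀ * B)
    (hE : ∀ (p q A B : ℕ) (lam : ℂ) (R : Finset ℂ) (μ : ℂ → ℕ), IsEdge F p q A B lam R μ →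
      ((a * p + q : ℕ) : ℚ) ≠ -s₀ * (edgeN p q A B R μ : ℕ))
    (hsub : ∀ (p q A B : ℕ) (lam : ℂ) (R : Finset ℂ) (μ : ℂ → ℕ), IsEdge F p q A B lam R μ →
      ∀ c ∈ R, ∀ α β, p * α = q * β + 1 →
        ZV (MvPowerSeries.subst (kap p q α β c) F) (a * p + q) ∈ regularAt s₀) :
    ZV F a ∈ regularAt s₀ := by
  classical
  obtain ⟨g, hg0, -, -, hg3, hg4, ι, hι, p, q, A, B, α, β, lam, R, μ, e₀, e₁, hEd, hab, -, -, -,
    key⟩ := ZV_formula hF
  obtain ⟨K, hK⟩ := exists_nat_gt (max 1 (-s₀))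
  have hK1 : 1 ≤ K := by
    have : (1 : ℚ) < K := lt_of_le_of_lt (le_max_left _ _) hK
    exact_mod_cast this.le
  have hKs : -s₀ < K := lt_of_le_of_lt (le_max_right _ _) hK
  rw [key a K ha haX hK1]
  refine add_mem (Zw_mem_regularAt hg0 le_rfl hg3 h1 hK1 hKs _ ?_) (sum_mem fun i _ => add_mem
    (sub_mem (mul_mem ((regularAt s₀).algebraMap_mem _) (geo_mem (P1aux.edgeN_pos (hEd i)) ?_))
      (mul_mem ((regularAt s₀).algebraMap_mem _) (geo2_mem (P1aux.edgeN_pos (hEd i)) ?_ h1)))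
    (sum_mem fun c hc => hsub _ _ _ _ _ _ _ (hEd i) c hc _ _ (hab i)))
  · intro w N hw
    have hsum : ((∑ j, (1 + (![a - 1, 0] : Fin 2 → ℕ) j) * w j : ℕ) : ℚ) = a * w 0 + w 1 := by
      rw [Fin.sum_univ_two]
      obtain ⟨b, rfl⟩ : ∃ b, a = b + 1 := ⟨a - 1, by omega⟩
      simp [add_comm]
    rw [hsum]
    rcases hg4 w N hw with ⟨A', k, hA, hA0, hk, rfl, rfl⟩ | ⟨B', k, hB, hB0, hk, rfl, rfl⟩ |
      ⟨p', q', A', B', lam', R', μ', k, hE', hk, rfl, rfl⟩
    · intro h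
      apply hx A' hA hA0
      have hk' : (k : ℚ) ≠ 0 := by positivity
      apply mul_left_cancel₀ hk'
      simp only [Matrix.cons_val_zero, Matrix.cons_val_one, Nat.cast_zero, add_zero,
        Nat.cast_mul] at h
      linear_combination h
    · intro h
      apply hy B' hB hB0
      have hk' : (k : ℚ) ≠ 0 := by positivity
      apply mul_left_cancel₀ hk'
      simp only [Matrix.cons_val_zero, Matrix.cons_val_one, Nat.cast_zero, mul_zero, zero_add,
        Nat.cast_mul] at h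
      linear_combination h
    · intro h
      apply hE _ _ _ _ _ _ _ hE'
      have hk' : (k : ℚ) ≠ 0 := by positivity
      apply mul_left_cancel₀ hk'
      simp only [Matrix.cons_val_zero, Matrix.cons_val_one, Nat.cast_mul] at h
      push_cast
      linear_combination h
  · exact hE _ _ _ _ _ _ _ (hEd i)
  · exact hE _ _ _ _ _ _ _ (hEd i)

end PC

end MPb07157
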