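import Pool.Agent.Lib.MP_b07157_agV.Defs
import Pool.Agent.Lib.MP_b07157_agE.EB

/-!
# The chain rule
-/

noncomputable section

namespace MPb07157

open MvPolynomial

namespace PC

/-- The chain rule, in a ring with a separated filtration. -/
theorem chain_abs {R' : Type} [CommRing R'] [Algebra ℂ R'] (θ : P2 →ₐ[ℂ] R')
    (δ : Derivation ℂ R' R') (V : ℕ → Ideal R') (hV : ∀ a, (∀ N, a ∈ V N) → a = 0)
    (hθ : ∀ N a, LowZ N a → θ a ∈ V N) (hδ : ∀ N a, a ∈ V (N + 1) → δ a ∈ V N) (a : P2) :
    δ (θ a) = ∑ i, θ (MvPowerSeries.pderiv ℂ i a) * δ (θ (MvPowerSeries.X i)) := by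
  have halg : ∀ c : ℂ, algebraMap ℂ (MvPowerSeries (Fin 2) ℂ) c = MvPowerSeries.C c := fun _ => rfl
  set ε : MvPowerSeries (Fin 2) ℂ → R' := fun a =>
    δ (θ a) - ∑ i, θ (MvPowerSeries.pderiv ℂ i a) * δ (θ (MvPowerSeries.X i)) with hε
  have hadd : ∀ a b, ε (a + b) = ε a + ε b := by
    intro a b
    simp only [hε, map_add, add_mul, Finset.sum_add_distrib]
    ring
  have hmul : ∀ a b, ε (a * b) = ε a * θ b + θ a * ε b := by
    intro a b
    simp only [hε, map_mul, Derivation.leibniz, smul_eq_mul, map_add, add_mul,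
      Finset.sum_add_distrib]
    rw [sub_mul, mul_sub, Finset.sum_mul, Finset.mul_sum]
    have e1 : ∑ j, θ a * θ (MvPowerSeries.pderiv ℂ j b) * δ (θ (MvPowerSeries.X j)) =
        ∑ j, θ a * (θ (MvPowerSeries.pderiv ℂ j b) * δ (θ (MvPowerSeries.X j))) :=
      Finset.sum_congr rfl fun j _ => by ring
    have e2 : ∑ j, θ b * θ (MvPowerSeries.pderiv ℂ j a) * δ (θ (MvPowerSeries.X j)) =
        ∑ j, θ (MvPowerSeries.pderiv ℂ j a) * δ (θ (MvPowerSeries.X j)) * θ b :=
      Finset.sum_congr rfl fun j _ => by ring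
    rw [e1, e2]
    ring
  have hC : ∀ c : ℂ, ε (MvPowerSeries.C c) = 0 := by
    intro c
    simp only [hε]
    rw [← halg, θ.commutes, Derivation.map_algebraMap]
    have h1 : ∀ j, MvPowerSeries.pderiv ℂ j (algebraMap ℂ (MvPowerSeries (Fin 2) ℂ) c) = 0 :=
      fun j => Derivation.map_algebraMap _ _
    simp only [h1, map_zero, zero_mul, Finset.sum_const_zero, sub_zero]
  have hX : ∀ k, ε (MvPowerSeries.X k) = 0 := by
    intro k
    simp only [hε]
    rw [Finset.sum_eq_single k]
    · have : MvPowerSeries.pderiv ℂ k (MvPowerSeries.X k : MvPowerSeries (Fin 2) ℂ) = 1 := by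
        rw [← MvPolynomial.coe_X, MvPowerSeries.pderiv_coe, MvPolynomial.pderiv_X_self,
          MvPolynomial.coe_one]
      rw [this, map_one, one_mul, sub_self]
    · intro j _ hj
      have : MvPowerSeries.pderiv ℂ j (MvPowerSeries.X k : MvPowerSeries (Fin 2) ℂ) = 0 := by
        rw [← MvPolynomial.coe_X, MvPowerSeries.pderiv_coe,
          MvPolynomial.pderiv_X_of_ne (Ne.symm hj), MvPolynomial.coe_zero]
      rw [this, map_zero, zero_mul]
    · intro h
      exact absurd (Finset.mem_univ k) h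
  have hpoly : ∀ p : MvPolynomial (Fin 2) ℂ, ε (p : MvPowerSeries (Fin 2) ℂ) = 0 := by
    intro p
    induction p using MvPolynomial.induction_on with
    | C a =>
      rw [MvPolynomial.coe_C]
      exact hC a
    | add a b ha hb => rw [MvPolynomial.coe_add, hadd, ha, hb, add_zero]
    | mul_X a j ha =>
      rw [MvPolynomial.coe_mul, MvPolynomial.coe_X, hmul, ha, hX, zero_mul, mul_zero, add_zero]
  have hlow : ∀ (N : ℕ) (a : MvPowerSeries (Fin 2) ℂ), LowZ (N + 1) a → ε a ∈ V N := by
    intro N a ha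
    refine (V N).sub_mem (hδ N _ (hθ _ _ ha)) (Ideal.sum_mem _ fun j _ => ?_)
    exact (V N).mul_mem_right _ (hθ _ _ (ha.pderiv j))
  rw [← sub_eq_zero]
  change ε a = 0
  refine hV _ fun v => ?_
  obtain ⟨p, hp⟩ := exists_poly_lowZ (v + 1) a
  have h1 : ε a = ε (a - (p : MvPowerSeries (Fin 2) ℂ)) := by
    have h2 := hadd (a - (p : MvPowerSeries (Fin 2) ℂ)) (p : MvPowerSeries (Fin 2) ℂ)
    rw [sub_add_cancel, hpoly p, add_zero] at h2
    exact h2
  rw [h1]
  exact hlow _ _ hp

/-- The chain rule for substitutions into `K[[u]]` and derivations which are continuous for the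
`u`-adic topology. -/
theorem chain_rule {K : Type} [CommRing K] [Algebra ℂ K] {Θ : Fin 2 → PowerSeries K}
    (h0 : ∀ i, PowerSeries.constantCoeff (Θ i) = 0)
    (D : Derivation ℂ (PowerSeries K) (PowerSeries K))
    (hD : ∀ (r : ℕ) (h : PowerSeries K), PowerSeries.X ^ (r + 1) ∣ h → PowerSeries.X ^ r ∣ D h)
    (g : P2) :
    D (MvPowerSeries.subst (Θ : Fin 2 → MvPowerSeries Unit K) g : MvPowerSeries Unit K) =
      ∑ i, (MvPowerSeries.subst (Θ : Fin 2 → MvPowerSeries Unit K) (MvPowerSeries.pderiv ℂ i g) :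
        MvPowerSeries Unit K) * D (Θ i) := by
  have hs : MvPowerSeries.HasSubst (Θ : Fin 2 → MvPowerSeries Unit K) :=
    MvPowerSeries.hasSubst_of_constantCoeff_zero h0
  set θ : P2 →ₐ[ℂ] PowerSeries K :=
    (MvPowerSeries.substAlgHom (R := ℂ) hs : P2 →ₐ[ℂ] MvPowerSeries Unit K) with hθdef
  have hθa : ∀ a : P2, θ a = (MvPowerSeries.subst (Θ : Fin 2 → MvPowerSeries Unit K) a :
      MvPowerSeries Unit K) := fun a => by
    rw [hθdef]
    exact congrFun (MvPowerSeries.coe_substAlgHom hs) a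
  have hθX : ∀ i, θ (MvPowerSeries.X i) = Θ i := fun i => by
    rw [hθa]
    exact MvPowerSeries.subst_X hs i
  have hlow : ∀ (N : ℕ) (a : P2), LowZ N a → (PowerSeries.X : PowerSeries K) ^ N ∣ θ a := by
    intro N
    induction N with
    | zero => intro a _; simp
    | succ N ih =>
      intro a ha
      obtain ⟨g, hg, rfl⟩ := ha.decomp
      rw [map_sum]
      refine Finset.dvd_sum fun i _ => ?_
      rw [map_mul, pow_succ']
      refine mul_dvd_mul ?_ (ih _ (hg i))
      rw [hθX i]
      exact PowerSeries.X_dvd_iff.2 (h0 i)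
  have key := chain_abs θ D (fun N => Ideal.span {(PowerSeries.X : PowerSeries K) ^ N})
    (fun a ha => by
      ext v
      rw [PowerSeries.X_pow_dvd_iff.1 (Ideal.mem_span_singleton.1 (ha (v + 1))) v
        (Nat.lt_succ_self v), map_zero])
    (fun N a ha => Ideal.mem_span_singleton.2 (hlow N a ha))
    (fun N a ha => Ideal.mem_span_singleton.2 (hD N a (Ideal.mem_span_singleton.1 ha))) g
  simp only [hθX, hθa] at key
  exact key

/-- The ideal of the power series of order at least `N`. -/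
def lowIdeal (N : ℕ) : Ideal P2 where
  carrier := {a | LowZ N a}
  add_mem' := fun ha hb => LowZ.add ha hb
  zero_mem' := fun v _ => map_zero _
  smul_mem' := fun c _ hx => LowZ.mul_left c hx

theorem mem_lowIdeal {N : ℕ} {a : P2} : a ∈ lowIdeal N ↔ LowZ N a := Iff.rfl

/-- The chain rule for substitutions into `ℂ[[x, y]]`. -/
theorem pderiv_subst {θ : Fin 2 → P2} (h0 : ∀ i, MvPowerSeries.constantCoeff (θ i) = 0)
    (j : Fin 2) (g : P2) :
    MvPowerSeries.pderiv ℂ j (MvPowerSeries.subst θ g) =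
      ∑ i, MvPowerSeries.subst θ (MvPowerSeries.pderiv ℂ i g) *
        MvPowerSeries.pderiv ℂ j (θ i) := by
  have hs : MvPowerSeries.HasSubst θ := MvPowerSeries.hasSubst_of_constantCoeff_zero h0
  set t : P2 →ₐ[ℂ] P2 := MvPowerSeries.substAlgHom (R := ℂ) hs with htdef
  have hta : ∀ a : P2, t a = MvPowerSeries.subst θ a := fun a => by
    rw [htdef]
    exact congrFun (MvPowerSeries.coe_substAlgHom hs) a
  have htX : ∀ i, t (MvPowerSeries.X i) = θ i := fun i => by
    rw [hta]
    exact MvPowerSeries.subst_X hs i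
  have h1 : ∀ i, LowZ 1 (θ i) := by
    intro i v hv
    have hv0 : v = 0 := by
      ext k
      have h2 : v k ≤ ∑ i, v i :=
        Finset.single_le_sum (f := fun i => v i) (fun _ _ => Nat.zero_le _) (Finset.mem_univ k)
      simp only [Finsupp.coe_zero, Pi.zero_apply]
      omega
    rw [hv0, MvPowerSeries.coeff_zero_eq_constantCoeff_apply]
    exact h0 i
  have hlow : ∀ (N : ℕ) (a : P2), LowZ N a → LowZ N (t a) := by
    intro N
    induction N with
    | zero => intro a _; exact LowZ.zero _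
    | succ N ih =>
      intro a ha
      obtain ⟨g, hg, rfl⟩ := ha.decomp
      rw [map_sum]
      refine LowZ.sum _ fun i _ => ?_
      rw [map_mul, htX i, add_comm N 1]
      exact LowZ.mul (h1 i) (ih _ (hg i))
  have key := chain_abs t (MvPowerSeries.pderiv ℂ j) lowIdeal
    (fun a ha => by
      ext v
      exact (ha (∑ i, v i + 1)) v (Nat.lt_succ_self _))
    (fun N a ha => hlow N a ha) (fun N a ha => LowZ.pderiv ha j) g
  simp only [htX, hta] at key
  exact key

theorem jac_comp {θ κ : Fin 2 → P2} (h0 : ∀ i, MvPowerSeries.constantCoeff (θ i) = 0)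
    (h0' : ∀ i, MvPowerSeries.constantCoeff (κ i) = 0) :
    jac (fun i => MvPowerSeries.subst κ (θ i)) = MvPowerSeries.subst κ (jac θ) * jac κ := by
  have hs : MvPowerSeries.HasSubst κ := MvPowerSeries.hasSubst_of_constantCoeff_zero h0'
  have hsub : ∀ a b : P2, MvPowerSeries.subst κ (a - b) =
      MvPowerSeries.subst κ a - MvPowerSeries.subst κ b := fun a b => by
    rw [← MvPowerSeries.coe_substAlgHom (R := ℂ) hs]
    exact map_sub _ _ _
  unfold jac
  rw [hsub, MvPowerSeries.subst_mul hs, MvPowerSeries.subst_mul hs]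
  simp only [pderiv_subst h0', Fin.sum_univ_two]
  ring

end PC

end MPb07157
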