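import Pool.Agent.Lib.MP_b07157_agE.EB

/-!
# The residue lemma along a divisor (two variables)
-/

noncomputable section

namespace MPb07157.Res

open PowerSeries

variable {K : Type} [Field K] [Algebra ℂ K]

/-! ### Derivations of `K[[u]]` -/

/-- The coefficientwise derivation of `K[[u]]`. -/
def cd (dz : Derivation ℂ K K) : Derivation ℂ K⟦X⟧ K⟦X⟧ :=
  Derivation.mk'
    { toFun := fun f => PowerSeries.mk fun n => dz (coeff n f)
      map_add' := fun f g => by ext n; simp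
      map_smul' := fun c f => by ext n; simp }
    (fun f g => by
      ext n
      simp only [LinearMap.coe_mk, AddHom.coe_mk, coeff_mk, smul_eq_mul, map_add, coeff_mul,
        map_sum, Derivation.leibniz, Finset.sum_add_distrib]
      congr 1
      rw [← Finset.Nat.sum_antidiagonal_swap]
      rfl)

theorem coeff_cd (dz : Derivation ℂ K K) (f : K⟦X⟧) (n : ℕ) :
    coeff n (cd dz f) = dz (coeff n f) := by
  change coeff n (PowerSeries.mk fun n => dz (coeff n f)) = _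
  rw [coeff_mk]

theorem cd_X (dz : Derivation ℂ K K) : cd dz (X : K⟦X⟧) = 0 := by
  ext n
  rw [coeff_cd, coeff_X]
  split_ifs <;> simp

theorem cd_C (dz : Derivation ℂ K K) (a : K) : cd dz (C a) = C (dz a) := by
  ext n
  rw [coeff_cd, coeff_C, coeff_C]
  split_ifs <;> simp

/-- The derivation `d/du` of `K[[u]]`. -/
def du (K : Type) [Field K] [Algebra ℂ K] : Derivation ℂ K⟦X⟧ K⟦X⟧ :=
  (PowerSeries.derivative K).restrictScalars ℂ

theorem coeff_du (f : K⟦X⟧) (n : ℕ) : coeff n (du K f) = coeff (n + 1) f * (n + 1) :=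
  coeff_derivative f n

theorem du_X : du K (X : K⟦X⟧) = 1 := derivative_X

theorem du_C (a : K) : du K (C a) = 0 := derivative_C

theorem du_cd (dz : Derivation ℂ K K) (f : K⟦X⟧) : du K (cd dz f) = cd dz (du K f) := by
  ext n
  rw [coeff_du, coeff_cd, coeff_cd, coeff_du, Derivation.leibniz]
  have h : dz ((n : K) + 1) = 0 := by
    rw [map_add, Derivation.map_natCast, Derivation.map_one_eq_zero, add_zero]
  rw [h, smul_zero, zero_add, smul_eq_mul, mul_comm]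

/-- The logarithmic derivative of a unit. -/
def ld (D : Derivation ℂ K⟦X⟧ K⟦X⟧) (a : K⟦X⟧ˣ) : K⟦X⟧ := D (a : K⟦X⟧) * ((a⁻¹ : K⟦X⟧ˣ) : K⟦X⟧)

theorem D_eq_ld (D : Derivation ℂ K⟦X⟧ K⟦X⟧) (a : K⟦X⟧ˣ) : D (a : K⟦X⟧) = ld D a * a := by
  rw [ld, mul_assoc, Units.inv_mul, mul_one]

theorem ld_mul (D : Derivation ℂ K⟦X⟧ K⟦X⟧) (a b : K⟦X⟧ˣ) : ld D (a * b) = ld D a + ld D b := by
  have ha : (a : K⟦X⟧) * ((a⁻¹ : K⟦X⟧ˣ) : K⟦X⟧) = 1 := Units.mul_inv a
  have hb : (b : K⟦X⟧) * ((b⁻¹ : K⟦X⟧ˣ) : K⟦X⟧) = 1 := Units.mul_inv b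
  unfold ld
  rw [Units.val_mul, Derivation.leibniz, mul_inv, Units.val_mul, smul_eq_mul, smul_eq_mul]
  linear_combination (D b * ((b⁻¹ : K⟦X⟧ˣ) : K⟦X⟧)) * ha + (D a * ((a⁻¹ : K⟦X⟧ˣ) : K⟦X⟧)) * hb

theorem ld_one (D : Derivation ℂ K⟦X⟧ K⟦X⟧) : ld D 1 = 0 := by
  simp [ld]

theorem ld_pow (D : Derivation ℂ K⟦X⟧ K⟦X⟧) (a : K⟦X⟧ˣ) (m : ℕ) : ld D (a ^ m) = m * ld D a := by
  induction m with
  | zero => simp [ld_one]
  | succ m ih => rw [pow_succ, ld_mul, ih, Nat.cast_succ]; ring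

theorem ld_inv (D : Derivation ℂ K⟦X⟧ K⟦X⟧) (a : K⟦X⟧ˣ) : ld D a⁻¹ = -ld D a := by
  have h := ld_mul D a a⁻¹
  rw [mul_inv_cancel, ld_one] at h
  linear_combination -h

/-- `N`-th roots of power series with constant coefficient one. -/
theorem exists_root (N : ℕ) (hN : 0 < N) (F1 : K⟦X⟧) (h : K) (hh : h ≠ 0)
    (hF1 : constantCoeff F1 = h) :
    ∃ H : K⟦X⟧, constantCoeff H = 1 ∧ C h * H ^ N = F1 := by
  have hchar : CharZero K := charZero_of_injective_algebraMap (algebraMap ℂ K).injective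
  let _ : Algebra ℚ K := DivisionRing.toRatAlgebra
  set G : K⟦X⟧ := C h⁻¹ * F1 - 1 with hG
  have hG0 : constantCoeff G = 0 := by
    rw [hG, map_sub, map_mul, constantCoeff_C, hF1, map_one, inv_mul_cancel₀ hh, sub_self]
  have hs : PowerSeries.HasSubst G := PowerSeries.HasSubst.of_constantCoeff_zero' hG0
  set B : K⟦X⟧ := binomialSeries K ((1 : ℚ) / N) with hB
  have hpow : ∀ m : ℕ, B ^ m = binomialSeries K ((m : ℚ) * (1 / N)) := by
    intro m
    induction m with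
    | zero => simp
    | succ m ih =>
      rw [pow_succ, ih, hB, ← binomialSeries_add]
      congr 1
      push_cast
      ring
  have hBN : B ^ N = 1 + X := by
    have hN0 : (N : ℚ) ≠ 0 := by exact_mod_cast hN.ne'
    rw [hpow N, mul_one_div_cancel hN0]
    have := binomialSeries_nat (R := ℚ) (A := K) 1
    rw [pow_one, Nat.cast_one] at this
    exact this
  refine ⟨PowerSeries.subst G B, ?_, ?_⟩
  · have h1 : B = C 1 + X * PowerSeries.mk fun p => coeff (p + 1) B := by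
      conv_lhs => rw [PowerSeries.eq_X_mul_shift_add_const B]
      rw [add_comm, ← coeff_zero_eq_constantCoeff_apply, hB, binomialSeries_coeff]
      simp
    rw [h1, PowerSeries.subst_add hs, PowerSeries.subst_mul hs, PowerSeries.subst_X hs,
      PowerSeries.subst_C, map_add, map_mul, hG0, zero_mul, add_zero]
    exact constantCoeff_C (1 : K)
  · rw [← PowerSeries.subst_pow hs, hBN, PowerSeries.subst_add hs, PowerSeries.subst_X hs]
    have h1 : PowerSeries.subst G (1 : K⟦X⟧) = 1 := by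
      rw [← PowerSeries.coe_substAlgHom hs, map_one]
    rw [h1, hG, add_sub_cancel, ← mul_assoc, ← map_mul, mul_inv_cancel₀ hh, map_one, one_mul]

/-! ### The two lemmas on coefficients -/

/-- The exact forms (with a twist). -/
def Ex (dz : Derivation ℂ K K) (s0 : ℂ) (h : K) (a : K) : Prop :=
  ∃ r : K, dz r + algebraMap ℂ K s0 * (dz h / h) * r = a

theorem Ex.zero (dz : Derivation ℂ K K) (s0 : ℂ) (h : K) : Ex dz s0 h 0 := ⟨0, by simp⟩

theorem Ex.add {dz : Derivation ℂ K K} {s0 : ℂ} {h a b : K} (ha : Ex dz s0 h a)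
    (hb : Ex dz s0 h b) : Ex dz s0 h (a + b) := by
  obtain ⟨r, rfl⟩ := ha
  obtain ⟨t, rfl⟩ := hb
  exact ⟨r + t, by rw [map_add]; ring⟩

theorem Ex.smul {dz : Derivation ℂ K K} {s0 : ℂ} {h a : K} (c : ℂ) (ha : Ex dz s0 h a) :
    Ex dz s0 h (algebraMap ℂ K c * a) := by
  obtain ⟨r, rfl⟩ := ha
  refine ⟨algebraMap ℂ K c * r, ?_⟩
  rw [Derivation.leibniz, Derivation.map_algebraMap, smul_eq_mul, smul_eq_mul]
  ring

theorem Ex.neg {dz : Derivation ℂ K K} {s0 : ℂ} {h a : K} (ha : Ex dz s0 h a) :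
    Ex dz s0 h (-a) := by
  have := ha.smul (-1)
  rwa [map_neg, map_one, neg_one_mul] at this

theorem Ex.sub {dz : Derivation ℂ K K} {s0 : ℂ} {h a b : K} (ha : Ex dz s0 h a)
    (hb : Ex dz s0 h b) : Ex dz s0 h (a - b) := by
  rw [sub_eq_add_neg]
  exact ha.add hb.neg

/-- The data of a divisor. -/
structure Dat (dz : Derivation ℂ K K) (N ν : ℕ) (h : K) where
  F1 : K⟦X⟧ˣ
  H : K⟦X⟧ˣ
  cF : constantCoeff (F1 : K⟦X⟧) = h
  cH : constantCoeff (H : K⟦X⟧) = 1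
  hH : C h * (H : K⟦X⟧) ^ N = F1

variable {dz : Derivation ℂ K K} {N ν : ℕ} {h : K}

/-- The weight `F1 ^ (-k) H ^ (-ν)`. -/
def Dat.W (D : Dat dz N ν h) (k : ℕ) : K⟦X⟧ˣ := D.F1⁻¹ ^ k * D.H⁻¹ ^ ν

theorem Dat.W_succ (D : Dat dz N ν h) (k : ℕ) :
    ((D.F1 : K⟦X⟧)) * (D.W (k + 1) : K⟦X⟧) = D.W k := by
  rw [Dat.W, Dat.W, ← Units.val_mul]
  congr 1
  rw [pow_succ, mul_comm (D.F1⁻¹ ^ k) D.F1⁻¹, mul_assoc, mul_inv_cancel_left]

theorem Dat.W_zero (D : Dat dz N ν h) : constantCoeff (D.W 0 : K⟦X⟧) = 1 := by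
  have h1 : (D.H : K⟦X⟧) * ((D.H⁻¹ : K⟦X⟧ˣ) : K⟦X⟧) = 1 := Units.mul_inv _
  have h2 := congrArg constantCoeff h1
  rw [map_mul, D.cH, one_mul, map_one] at h2
  rw [Dat.W, pow_zero, one_mul, Units.val_pow_eq_pow_val, map_pow, h2, one_pow]

/-- A non-zero constant as a unit. -/
def cU (h : K) (hh : h ≠ 0) : K⟦X⟧ˣ :=
  ⟨C h, C h⁻¹, by rw [← map_mul, mul_inv_cancel₀ hh, map_one], by
    rw [← map_mul, inv_mul_cancel₀ hh, map_one]⟩

theorem Dat.F1_eq (D : Dat dz N ν h) (hh : h ≠ 0) : D.F1 = cU h hh * D.H ^ N := by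
  ext1
  rw [Units.val_mul, Units.val_pow_eq_pow_val, ← D.hH]
  rfl

theorem Dat.ld_H_du (D : Dat dz N ν h) (hh : h ≠ 0) :
    (N : K⟦X⟧) * ld (du K) D.H = ld (du K) D.F1 := by
  have h1 : ld (du K) (cU h hh) = 0 := by
    rw [ld]
    change du K (C h) * _ = 0
    rw [du_C, zero_mul]
  rw [D.F1_eq hh, ld_mul, ld_pow, h1, zero_add]

theorem Dat.ld_H_cd (D : Dat dz N ν h) (hh : h ≠ 0) :
    (N : K⟦X⟧) * ld (cd dz) D.H = ld (cd dz) D.F1 - C (dz h / h) := by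
  have h1 : ld (cd dz) (cU h hh) = C (dz h / h) := by
    rw [ld]
    change cd dz (C h) * C h⁻¹ = _
    rw [cd_C, ← map_mul, div_eq_mul_inv]
  rw [D.F1_eq hh, ld_mul, ld_pow, h1]
  ring

/-- The exponent `s0`. -/
def sz (N ν : ℕ) : ℂ := -((ν : ℂ) / N)

theorem sz_mul (hN : 0 < N) : sz N ν * N = -ν := by
  have : (N : ℂ) ≠ 0 := by exact_mod_cast hN.ne'
  rw [sz]
  field_simp

/-- The constant series. -/
def cc (c : ℂ) : K⟦X⟧ := C (algebraMap ℂ K c)

theorem cc_add (a b : ℂ) : (cc (a + b) : K⟦X⟧) = cc a + cc b := by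
  rw [cc, map_add, map_add]; rfl

theorem cc_sub (a b : ℂ) : (cc (a - b) : K⟦X⟧) = cc a - cc b := by
  rw [cc, map_sub, map_sub]; rfl

theorem cc_mul (a b : ℂ) : (cc (a * b) : K⟦X⟧) = cc a * cc b := by
  rw [cc, map_mul, map_mul]; rfl

theorem cc_natCast (m : ℕ) : (cc (m : ℂ) : K⟦X⟧) = (m : K⟦X⟧) := by
  rw [cc, map_natCast, map_natCast]

theorem cc_neg (a : ℂ) : (cc (-a) : K⟦X⟧) = -cc a := by
  rw [cc, map_neg, map_neg]; rfl

theorem cc_one : (cc (1 : ℂ) : K⟦X⟧) = 1 := by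
  rw [cc, map_one, map_one]

/-- `ν` times the logarithmic derivative of `H`. -/
theorem Dat.nu_ld_H_du (D : Dat dz N ν h) (hh : h ≠ 0) (hN : 0 < N) :
    (ν : K⟦X⟧) * ld (du K) D.H = -cc (sz N ν) * ld (du K) D.F1 := by
  rw [← D.ld_H_du hh, ← cc_natCast ν, ← cc_natCast N, ← mul_assoc, ← cc_neg, ← cc_mul]
  congr 2
  linear_combination sz_mul (ν := ν) hN

theorem Dat.nu_ld_H_cd (D : Dat dz N ν h) (hh : h ≠ 0) (hN : 0 < N) :
    (ν : K⟦X⟧) * ld (cd dz) D.H = -cc (sz N ν) * (ld (cd dz) D.F1 - C (dz h / h)) := by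
  rw [← D.ld_H_cd hh, ← cc_natCast ν, ← cc_natCast N, ← mul_assoc, ← cc_neg, ← cc_mul]
  congr 2
  linear_combination sz_mul (ν := ν) hN

theorem Dat.ld_W (D : Dat dz N ν h) (δ : Derivation ℂ K⟦X⟧ K⟦X⟧) (k : ℕ) :
    ld δ (D.W k) = -(k : K⟦X⟧) * ld δ D.F1 - (ν : K⟦X⟧) * ld δ D.H := by
  rw [Dat.W, ld_mul, ld_pow, ld_pow, ld_inv, ld_inv]
  ring

theorem Dat.du_FW (D : Dat dz N ν h) (hh : h ≠ 0) (hN : 0 < N) (k : ℕ) :
    du K ((D.F1 : K⟦X⟧) * (D.W k : K⟦X⟧)) = cc (sz N ν + 1 - k) * (du K (D.F1 : K⟦X⟧)) * (D.W k : K⟦X⟧) := by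
  rw [← Units.val_mul, D_eq_ld, ld_mul, D.ld_W, D.nu_ld_H_du hh hN, D_eq_ld (du K) D.F1,
    Units.val_mul, cc_sub, cc_add, cc_one, cc_natCast]
  ring

theorem Dat.cd_FW (D : Dat dz N ν h) (hh : h ≠ 0) (hN : 0 < N) (k : ℕ) :
    cd dz ((D.F1 : K⟦X⟧) * (D.W k : K⟦X⟧)) = cc (sz N ν + 1 - k) * (cd dz (D.F1 : K⟦X⟧)) * (D.W k : K⟦X⟧) -
      cc (sz N ν) * C (dz h / h) * ((D.F1 : K⟦X⟧) * (D.W k : K⟦X⟧)) := by
  rw [← Units.val_mul, D_eq_ld, ld_mul, D.ld_W, D.nu_ld_H_cd hh hN, D_eq_ld (cd dz) D.F1,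
    Units.val_mul, cc_sub, cc_add, cc_one, cc_natCast]
  ring

omit [Algebra ℂ K] in
/-- The coefficient of `X ^ m` in `X ^ a * G`. -/
theorem coeff_XpowM (G : K⟦X⟧) (a m : ℕ) :
    coeff m (X ^ a * G) = if a ≤ m then coeff (m - a) G else 0 :=
  coeff_X_pow_mul' G a m

theorem Dat.lemA (D : Dat dz N ν h) (hh : h ≠ 0) (hN : 0 < N) (hν : 0 < ν) (k : ℕ) (χ : K⟦X⟧) :
    coeff (N * k + ν - 1) ((X ^ N * (D.F1 : K⟦X⟧) * du K χ +
      cc (sz N ν + 1 - k) * du K (X ^ N * (D.F1 : K⟦X⟧)) * χ) * (D.W k : K⟦X⟧)) = 0 := by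
  set G : K⟦X⟧ := χ * ((D.F1 : K⟦X⟧) * (D.W k : K⟦X⟧)) with hG
  have hdG : du K G = du K χ * ((D.F1 : K⟦X⟧) * (D.W k : K⟦X⟧)) +
      χ * (cc (sz N ν + 1 - k) * (du K (D.F1 : K⟦X⟧)) * (D.W k : K⟦X⟧)) := by
    rw [hG, Derivation.leibniz, smul_eq_mul, smul_eq_mul, D.du_FW hh hN]
    ring
  have hXN : du K (X ^ N : K⟦X⟧) = (N : K⟦X⟧) * X ^ (N - 1) := by
    rw [Derivation.leibniz_pow, du_X, smul_eq_mul, mul_one, nsmul_eq_mul]
  have hXX : (X : K⟦X⟧) ^ N = X ^ (N - 1) * X := by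
    rw [← pow_succ, Nat.sub_add_cancel hN]
  have key : (X ^ N * (D.F1 : K⟦X⟧) * du K χ +
      cc (sz N ν + 1 - k) * du K (X ^ N * (D.F1 : K⟦X⟧)) * χ) * (D.W k : K⟦X⟧) =
      X ^ (N - 1) * (X * du K G + cc ((N : ℂ) * (sz N ν + 1 - k)) * G) := by
    rw [Derivation.leibniz, smul_eq_mul, smul_eq_mul, hXN, hdG, hG, cc_mul, cc_natCast, hXX]
    ring
  rw [key, coeff_XpowM]
  split_ifs with hle
  · set m := N * k + ν - 1 - (N - 1) with hm
    have hmc : (m : ℂ) = N * k + ν - N := by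
      have : m + N = N * k + ν := by
        omega
      have h2 : (m : ℂ) + N = N * k + ν := by exact_mod_cast this
      linear_combination h2
    rw [map_add, cc, coeff_C_mul]
    have h1 : coeff m (X * du K G) = (m : K) * coeff m G := by
      rcases m with _ | m
      · simp
      · rw [coeff_succ_X_mul, coeff_du, mul_comm]
        push_cast
        ring
    have h2 : (m : K) = algebraMap ℂ K (m : ℂ) := (map_natCast _ _).symm
    rw [h1, h2, ← add_mul, ← map_add, hmc]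
    have h3 : (N : ℂ) * k + ν - N + N * (sz N ν + 1 - k) = 0 := by
      linear_combination sz_mul (ν := ν) hN
    rw [h3, map_zero, zero_mul]
  · rfl

theorem Dat.lemB (D : Dat dz N ν h) (hh : h ≠ 0) (hN : 0 < N) (k : ℕ) (χ : K⟦X⟧) (m : ℕ) :
    Ex dz (sz N ν) h (coeff m ((X ^ N * (D.F1 : K⟦X⟧) * cd dz χ +
      cc (sz N ν + 1 - k) * cd dz (X ^ N * (D.F1 : K⟦X⟧)) * χ) * (D.W k : K⟦X⟧))) := by
  set G : K⟦X⟧ := χ * ((D.F1 : K⟦X⟧) * (D.W k : K⟦X⟧)) with hG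
  have hdG : cd dz G = cd dz χ * ((D.F1 : K⟦X⟧) * (D.W k : K⟦X⟧)) +
      χ * (cc (sz N ν + 1 - k) * (cd dz (D.F1 : K⟦X⟧)) * (D.W k : K⟦X⟧) -
      cc (sz N ν) * C (dz h / h) * ((D.F1 : K⟦X⟧) * (D.W k : K⟦X⟧))) := by
    rw [hG, Derivation.leibniz, smul_eq_mul, smul_eq_mul, D.cd_FW hh hN]
    ring
  have hXN : cd dz (X ^ N : K⟦X⟧) = 0 := by
    rw [Derivation.leibniz_pow, cd_X, smul_zero, smul_zero]
  have key : (X ^ N * (D.F1 : K⟦X⟧) * cd dz χ +
      cc (sz N ν + 1 - k) * cd dz (X ^ N * (D.F1 : K⟦X⟧)) * χ) * (D.W k : K⟦X⟧) =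
      X ^ N * (cd dz G + C (algebraMap ℂ K (sz N ν) * (dz h / h)) * G) := by
    rw [Derivation.leibniz, smul_eq_mul, smul_eq_mul, hXN, hdG, hG, map_mul]
    simp only [cc]
    ring
  rw [key, coeff_XpowM]
  split_ifs with hle
  · rw [map_add, coeff_cd, coeff_C_mul]
    exact ⟨coeff (m - N) G, rfl⟩
  · exact Ex.zero _ _ _

/-! ### Arcs -/

theorem der_dvd (δ : Derivation ℂ K⟦X⟧ K⟦X⟧) {m : ℕ} {f : K⟦X⟧} (hf : X ^ (m + 1) ∣ f) :
    X ^ m ∣ δ f := by
  obtain ⟨g, rfl⟩ := hf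
  rw [Derivation.leibniz, Derivation.leibniz_pow, smul_eq_mul, smul_eq_mul, smul_eq_mul,
    Nat.add_sub_cancel]
  refine dvd_add ((pow_dvd_pow _ (Nat.le_succ m)).mul_right _) (Dvd.dvd.mul_left ?_ _)
  rw [nsmul_eq_mul]
  exact ((dvd_refl _).mul_right _).mul_left _

variable (θ : MvPowerSeries (Fin 2) ℂ →ₐ[ℂ] K⟦X⟧)

theorem theta_low (hθ : ∀ i, X ∣ θ (MvPowerSeries.X i)) {N : ℕ} {a : MvPowerSeries (Fin 2) ℂ}
    (ha : LowZ N a) : X ^ N ∣ θ a := by
  induction N generalizing a with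
  | zero => simp
  | succ N ih =>
    obtain ⟨g, hg, rfl⟩ := ha.decomp
    rw [map_sum]
    refine Finset.dvd_sum fun i _ => ?_
    rw [map_mul, pow_succ']
    exact mul_dvd_mul (hθ i) (ih (hg i))

/-- The chain rule. -/
theorem chain (hθ : ∀ i, X ∣ θ (MvPowerSeries.X i)) (δ : Derivation ℂ K⟦X⟧ K⟦X⟧)
    (a : MvPowerSeries (Fin 2) ℂ) :
    δ (θ a) = ∑ i, θ (MvPowerSeries.pderiv ℂ i a) * δ (θ (MvPowerSeries.X i)) := by
  have halg : ∀ c : ℂ, algebraMap ℂ (MvPowerSeries (Fin 2) ℂ) c = MvPowerSeries.C c := fun _ => rfl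
  set ε : MvPowerSeries (Fin 2) ℂ → K⟦X⟧ := fun a =>
    δ (θ a) - ∑ i, θ (MvPowerSeries.pderiv ℂ i a) * δ (θ (MvPowerSeries.X i)) with hε
  have hadd : ∀ a b, ε (a + b) = ε a + ε b := by
    intro a b
    simp only [hε, map_add, add_mul, Finset.sum_add_distrib]
    ring
  have hmul : ∀ a b, ε (a * b) = ε a * θ b + θ a * ε b := by
    intro a b
    simp only [hε, map_mul, Derivation.leibniz, smul_eq_mul, map_add, add_mul,
      Finset.sum_add_distrib]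
    rw [sub_mul, mul_sub, Finset.sum_mul, Finset.mul_sum]
    have e1 : ∑ j, θ a * θ (MvPowerSeries.pderiv ℂ j b) * δ (θ (MvPowerSeries.X j)) =
        ∑ j, θ a * (θ (MvPowerSeries.pderiv ℂ j b) * δ (θ (MvPowerSeries.X j))) :=
      Finset.sum_congr rfl fun j _ => by ring
    have e2 : ∑ j, θ b * θ (MvPowerSeries.pderiv ℂ j a) * δ (θ (MvPowerSeries.X j)) =
        ∑ j, θ (MvPowerSeries.pderiv ℂ j a) * δ (θ (MvPowerSeries.X j)) * θ b :=
      Finset.sum_congr rfl fun j _ => by ring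
    rw [e1, e2]
    ring
  have hC : ∀ c : ℂ, ε (MvPowerSeries.C c) = 0 := by
    intro c
    simp only [hε]
    rw [← halg, θ.commutes, Derivation.map_algebraMap]
    have h1 : ∀ j, MvPowerSeries.pderiv ℂ j (algebraMap ℂ (MvPowerSeries (Fin 2) ℂ) c) = 0 :=
      fun j => Derivation.map_algebraMap _ _
    simp only [h1, map_zero, zero_mul, Finset.sum_const_zero, sub_zero]
  have hX : ∀ k, ε (MvPowerSeries.X k) = 0 := by
    intro k
    simp only [hε]
    rw [Finset.sum_eq_single k]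
    · have : MvPowerSeries.pderiv ℂ k (MvPowerSeries.X k : MvPowerSeries (Fin 2) ℂ) = 1 := by
        rw [← MvPolynomial.coe_X, MvPowerSeries.pderiv_coe, MvPolynomial.pderiv_X_self,
          MvPolynomial.coe_one]
      rw [this, map_one, one_mul, sub_self]
    · intro j _ hj
      have : MvPowerSeries.pderiv ℂ j (MvPowerSeries.X k : MvPowerSeries (Fin 2) ℂ) = 0 := by
        rw [← MvPolynomial.coe_X, MvPowerSeries.pderiv_coe,
          MvPolynomial.pderiv_X_of_ne (Ne.symm hj), MvPolynomial.coe_zero]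
      rw [this, map_zero, zero_mul]
    · intro h
      exact absurd (Finset.mem_univ k) h
  have hpoly : ∀ p : MvPolynomial (Fin 2) ℂ, ε (p : MvPowerSeries (Fin 2) ℂ) = 0 := by
    intro p
    induction p using MvPolynomial.induction_on with
    | C a =>
      rw [MvPolynomial.coe_C]
      exact hC a
    | add a b ha hb => rw [MvPolynomial.coe_add, hadd, ha, hb, add_zero]
    | mul_X a j ha =>
      rw [MvPolynomial.coe_mul, MvPolynomial.coe_X, hmul, ha, hX, zero_mul, mul_zero, add_zero]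
  have hlow : ∀ (N : ℕ) (a : MvPowerSeries (Fin 2) ℂ), LowZ (N + 1) a → X ^ N ∣ ε a := by
    intro N a ha
    refine dvd_sub (der_dvd δ (theta_low θ hθ ha)) (Finset.dvd_sum fun j _ => ?_)
    exact (theta_low θ hθ (ha.pderiv j)).mul_right _
  rw [← sub_eq_zero]
  show ε a = 0
  ext v
  obtain ⟨p, hp⟩ := exists_poly_lowZ (v + 2) a
  have h1 : ε a = ε (a - (p : MvPowerSeries (Fin 2) ℂ)) := by
    have h2 := hadd (a - (p : MvPowerSeries (Fin 2) ℂ)) (p : MvPowerSeries (Fin 2) ℂ)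
    rw [sub_add_cancel, hpoly p, add_zero] at h2
    exact h2
  rw [h1, X_pow_dvd_iff.1 (hlow _ _ hp) v (by omega), map_zero]

theorem theta_C (c : ℂ) : θ (MvPowerSeries.C c) = cc c := by
  have h1 := θ.commutes c
  rw [PowerSeries.algebraMap_apply (R := ℂ) (A := K)] at h1
  exact h1

/-- The Jacobian determinant of an arc. -/
def Jac (dz : Derivation ℂ K K) : K⟦X⟧ :=
  du K (θ (MvPowerSeries.X 0)) * cd dz (θ (MvPowerSeries.X 1)) -
    cd dz (θ (MvPowerSeries.X 0)) * du K (θ (MvPowerSeries.X 1))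

/-- The arc data. -/
structure ArcDat (dz : Derivation ℂ K K) (F : MvPowerSeries (Fin 2) ℂ) (N ν : ℕ) (h : K)
    extends Dat dz N ν h where
  hθ : ∀ i, X ∣ θ (MvPowerSeries.X i)
  hF : θ F = X ^ N * (F1 : K⟦X⟧)
  J1 : K⟦X⟧
  hJ : Jac θ dz = X ^ (ν - 1) * J1

variable {θ} {dz : Derivation ℂ K K} {F : MvPowerSeries (Fin 2) ℂ} {N ν : ℕ} {h : K}

/-- The exactness of the residues of derivatives. -/
theorem ArcDat.deriv_mem (D : ArcDat θ dz F N ν h) (hh : h ≠ 0) (hN : 0 < N) (hν : 0 < ν)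
    (k : ℕ) (i : Fin 2) (χ : MvPowerSeries (Fin 2) ℂ) :
    Ex dz (sz N ν) h (coeff (N * k + ν - 1)
      (θ (F * MvPowerSeries.pderiv ℂ i χ +
        MvPowerSeries.C (sz N ν + 1 - k) * MvPowerSeries.pderiv ℂ i F * χ) * Jac θ dz *
          (D.W k : K⟦X⟧))) := by
  have halg : ∀ c : ℂ, θ (MvPowerSeries.C c) = cc c := theta_C θ
  have hc1 : ∀ a, du K (θ a) = θ (MvPowerSeries.pderiv ℂ 0 a) * du K (θ (MvPowerSeries.X 0)) +
      θ (MvPowerSeries.pderiv ℂ 1 a) * du K (θ (MvPowerSeries.X 1)) := fun a => by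
    rw [chain θ D.hθ (du K) a, Fin.sum_univ_two]
  have hc2 : ∀ a, cd dz (θ a) = θ (MvPowerSeries.pderiv ℂ 0 a) * cd dz (θ (MvPowerSeries.X 0)) +
      θ (MvPowerSeries.pderiv ℂ 1 a) * cd dz (θ (MvPowerSeries.X 1)) := fun a => by
    rw [chain θ D.hθ (cd dz) a, Fin.sum_univ_two]
  have main : ∀ w : K⟦X⟧, (∀ a, θ (MvPowerSeries.pderiv ℂ i a) * Jac θ dz =
      du K (θ a) * cd dz w - cd dz (θ a) * du K w) →
      Ex dz (sz N ν) h (coeff (N * k + ν - 1)
      (θ (F * MvPowerSeries.pderiv ℂ i χ +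
        MvPowerSeries.C (sz N ν + 1 - k) * MvPowerSeries.pderiv ℂ i F * χ) * Jac θ dz *
          (D.W k : K⟦X⟧))) := by
    intro w hw
    have e1 : θ (F * MvPowerSeries.pderiv ℂ i χ +
        MvPowerSeries.C (sz N ν + 1 - k) * MvPowerSeries.pderiv ℂ i F * χ) * Jac θ dz *
          (D.W k : K⟦X⟧) =
        (X ^ N * (D.F1 : K⟦X⟧) * du K (θ χ * cd dz w) +
          cc (sz N ν + 1 - k) * du K (X ^ N * (D.F1 : K⟦X⟧)) * (θ χ * cd dz w)) * (D.W k : K⟦X⟧) -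
        (X ^ N * (D.F1 : K⟦X⟧) * cd dz (θ χ * du K w) +
          cc (sz N ν + 1 - k) * cd dz (X ^ N * (D.F1 : K⟦X⟧)) * (θ χ * du K w)) *
            (D.W k : K⟦X⟧) := by
      rw [← D.hF, Derivation.leibniz, Derivation.leibniz, du_cd]
      simp only [smul_eq_mul, map_add, map_mul, halg]
      linear_combination (θ F * (D.W k : K⟦X⟧)) * hw χ +
        (cc (sz N ν + 1 - k) * θ χ * (D.W k : K⟦X⟧)) * hw F
    rw [e1, map_sub, D.lemA hh hN hν]
    exact (Ex.zero _ _ _).sub (D.lemB hh hN k _ _)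
  fin_cases i
  · refine main (θ (MvPowerSeries.X 1)) fun a => ?_
    simp only [Fin.zero_eta]
    rw [hc1 a, hc2 a, Jac]
    ring
  · refine main (-θ (MvPowerSeries.X 0)) fun a => ?_
    simp only [Fin.mk_one, map_neg]
    rw [hc1 a, hc2 a, Jac]
    ring

theorem eval_derivC' (i : Fin 2) (c : ℂ) (g : Polynomial (MvPowerSeries (Fin 2) ℂ)) :
    (derivC i g).eval (MvPowerSeries.C c) =
      MvPowerSeries.pderiv ℂ i (g.eval (MvPowerSeries.C c)) := by
  unfold derivC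
  rw [Polynomial.sum_def, Polynomial.eval_finsetSum, Polynomial.eval_eq_sum, Polynomial.sum_def,
    map_sum]
  refine Finset.sum_congr rfl fun j _ => ?_
  rw [Polynomial.eval_monomial, Derivation.leibniz]
  have h : MvPowerSeries.pderiv ℂ i ((MvPowerSeries.C c : MvPowerSeries (Fin 2) ℂ) ^ j) = 0 := by
    rw [← map_pow]
    exact Derivation.map_algebraMap (MvPowerSeries.pderiv ℂ i) (c ^ j)
  rw [h, smul_zero, zero_add, smul_eq_mul, mul_comm]

/-- The exactness predicate. -/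
def PP (D : ArcDat θ dz F N ν h) (k : ℕ) (g : Polynomial (MvPowerSeries (Fin 2) ℂ)) : Prop :=
  match k with
  | 0 => True
  | k + 1 => ∀ a : MvPowerSeries (Fin 2) ℂ, Ex dz (sz N ν) h (coeff (N * k + ν - 1)
      (θ (a * g.eval (MvPowerSeries.C (sz N ν))) * Jac θ dz * (D.W k : K⟦X⟧)))

/-- Low coefficients of multiples of `θ F` and the Jacobian. -/
theorem ArcDat.low (D : ArcDat θ dz F N ν h) (hN : 0 < N) (hν : 0 < ν) (A B : K⟦X⟧) :
    coeff (ν - 1) (A * θ F * Jac θ dz * B) = 0 := by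
  have : X ^ ν ∣ A * θ F * Jac θ dz * B := by
    rw [D.hF, D.hJ]
    refine Dvd.dvd.mul_right ?_ _
    have h1 : A * (X ^ N * (D.F1 : K⟦X⟧)) * (X ^ (ν - 1) * D.J1) =
        X ^ (N + (ν - 1)) * (A * (D.F1 : K⟦X⟧) * D.J1) := by
      rw [pow_add]; ring
    rw [h1]
    exact (pow_dvd_pow _ (by omega)).mul_right _
  exact X_pow_dvd_iff.1 this _ (by omega)

/-- Shift of the coefficient. -/
theorem ArcDat.shift (D : ArcDat θ dz F N ν h) (hν : 0 < ν) (k : ℕ) (A : K⟦X⟧) :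
    coeff (N * (k + 1) + ν - 1) (A * θ F * (D.W (k + 1) : K⟦X⟧)) =
      coeff (N * k + ν - 1) (A * (D.W k : K⟦X⟧)) := by
  have h1 : A * θ F * (D.W (k + 1) : K⟦X⟧) = X ^ N * (A * (D.W k : K⟦X⟧)) := by
    rw [D.hF, ← D.W_succ k]
    ring
  have h2 : N * (k + 1) + ν - 1 = (N * k + ν - 1) + N := by
    rw [Nat.mul_succ]
    omega
  rw [h1, h2, coeff_X_pow_mul]

theorem PP_of_inPs (D : ArcDat θ dz F N ν h) (hh : h ≠ 0) (hN : 0 < N) (hν : 0 < ν)
    {k : ℕ} {g : Polynomial (MvPowerSeries (Fin 2) ℂ)} (hg : InPs F k g) : PP D k g := by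
  induction hg with
  | base => trivial
  | @add k g₁ g₂ _ _ ih1 ih2 =>
    rcases k with _ | k
    · trivial
    · intro a
      have := (ih1 a).add (ih2 a)
      rw [← map_add] at this
      rw [Polynomial.eval_add, mul_add, map_add, add_mul, add_mul]
      exact this
  | @mul k g c _ ih =>
    rcases k with _ | k
    · trivial
    · intro a
      rw [Polynomial.eval_mul, ← mul_assoc]
      exact ih _
  | @deriv k g i _ ih =>
    intro a
    set e := g.eval (MvPowerSeries.C (sz N ν)) with he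
    have h1 := D.deriv_mem hh hN hν k i (a * e)
    have h2 : a * Polynomial.eval (MvPowerSeries.C (sz N ν)) (Polynomial.C F * derivC i g +
        (Polynomial.X + 1 - (k : Polynomial (MvPowerSeries (Fin 2) ℂ))) *
          Polynomial.C (MvPowerSeries.pderiv ℂ i F) * g) =
        (F * MvPowerSeries.pderiv ℂ i (a * e) +
        MvPowerSeries.C (sz N ν + 1 - k) * MvPowerSeries.pderiv ℂ i F * (a * e)) -
        MvPowerSeries.pderiv ℂ i a * e * F := by
      simp only [Polynomial.eval_add, Polynomial.eval_mul, Polynomial.eval_C, Polynomial.eval_sub,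
        Polynomial.eval_X, Polynomial.eval_one, Polynomial.eval_natCast, eval_derivC', ← he]
      rw [Derivation.leibniz, smul_eq_mul, smul_eq_mul, map_sub, map_add, map_one, map_natCast]
      ring
    rw [h2, map_sub, sub_mul, sub_mul, map_sub]
    refine h1.sub ?_
    rcases k with _ | k
    · rw [Nat.mul_zero, Nat.zero_add, map_mul θ _ F, D.low hN hν]
      exact Ex.zero _ _ _
    · have h3 := ih (MvPowerSeries.pderiv ℂ i a)
      rw [map_mul θ (MvPowerSeries.pderiv ℂ i a * e) F,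
        show θ (MvPowerSeries.pderiv ℂ i a * e) * θ F * Jac θ dz * (D.W (k + 1) : K⟦X⟧) =
          θ (MvPowerSeries.pderiv ℂ i a * e) * Jac θ dz * θ F * (D.W (k + 1) : K⟦X⟧) by ring,
        D.shift hν]
      exact h3
  | @raise k g _ ih =>
    intro a
    rw [Polynomial.eval_mul, Polynomial.eval_C]
    set e := g.eval (MvPowerSeries.C (sz N ν)) with he
    rcases k with _ | k
    · rw [Nat.mul_zero, Nat.zero_add, show a * (F * e) = a * e * F by ring, map_mul θ (a * e) F,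
        D.low hN hν]
      exact Ex.zero _ _ _
    · have h3 := ih a
      rw [show a * (F * e) = a * e * F by ring, map_mul θ (a * e) F,
        show θ (a * e) * θ F * Jac θ dz * (D.W (k + 1) : K⟦X⟧) =
          θ (a * e) * Jac θ dz * θ F * (D.W (k + 1) : K⟦X⟧) by ring,
        D.shift hν]
      exact h3
  | @lower k g _ ih =>
    rcases k with _ | k
    · trivial
    · intro a
      have h3 := ih a
      rw [Polynomial.eval_mul, Polynomial.eval_C] at h3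
      set e := g.eval (MvPowerSeries.C (sz N ν)) with he
      rw [show a * (F * e) = a * e * F by ring, map_mul θ (a * e) F,
        show θ (a * e) * θ F * Jac θ dz * (D.W (k + 1) : K⟦X⟧) =
          θ (a * e) * Jac θ dz * θ F * (D.W (k + 1) : K⟦X⟧) by ring,
        D.shift hν] at h3
      exact h3

/-- The residue lemma. -/
theorem ArcDat.residue (D : ArcDat θ dz F N ν h) (hh : h ≠ 0) (hN : 0 < N) (hν : 0 < ν)
    {b : Polynomial ℂ} (hb : InPs F 1 (b.map (MvPowerSeries.C (σ := Fin 2) (R := ℂ))))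
    (hb0 : b.eval (sz N ν) ≠ 0) : Ex dz (sz N ν) h (constantCoeff D.J1) := by
  have h1 := PP_of_inPs D hh hN hν hb 1
  rw [Nat.mul_zero, Nat.zero_add, one_mul, Polynomial.eval_map_apply, theta_C, D.hJ] at h1
  have h2 : cc (b.eval (sz N ν)) * (X ^ (ν - 1) * D.J1) * (D.W 0 : K⟦X⟧) =
      X ^ (ν - 1) * (C (algebraMap ℂ K (b.eval (sz N ν))) * (D.J1 * (D.W 0 : K⟦X⟧))) := by
    rw [cc]
    ring
  rw [h2, coeff_X_pow_mul'] at h1
  rw [if_pos le_rfl, Nat.sub_self, coeff_C_mul, coeff_zero_eq_constantCoeff_apply, map_mul,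
    D.W_zero, mul_one] at h1
  have h3 := h1.smul (b.eval (sz N ν))⁻¹
  rwa [← mul_assoc, ← map_mul, inv_mul_cancel₀ hb0, map_one, one_mul] at h3

/-- Every divisor has arc data. -/
theorem exists_arcDat (θ : MvPowerSeries (Fin 2) ℂ →ₐ[ℂ] K⟦X⟧)
    (hθ : ∀ i, X ∣ θ (MvPowerSeries.X i)) (dz : Derivation ℂ K K) (F : MvPowerSeries (Fin 2) ℂ)
    {N ν : ℕ} (hN : 0 < N) {h : K} (hh : h ≠ 0) (F1 J1 : K⟦X⟧) (hF : θ F = X ^ N * F1)
    (hF1 : constantCoeff F1 = h) (hJ : Jac θ dz = X ^ (ν - 1) * J1) :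
    ∃ D : ArcDat θ dz F N ν h, D.J1 = J1 := by
  obtain ⟨H, hH1, hH⟩ := exists_root N hN F1 h hh hF1
  have uF : IsUnit F1 := by
    rw [PowerSeries.isUnit_iff_constantCoeff, hF1]
    exact isUnit_iff_ne_zero.2 hh
  have uH : IsUnit H := by
    rw [PowerSeries.isUnit_iff_constantCoeff, hH1]
    exact isUnit_one
  obtain ⟨uF, rfl⟩ := uF
  obtain ⟨uH, rfl⟩ := uH
  exact ⟨⟨⟨uF, uH, hF1, hH1, hH⟩, hθ, hF, J1, hJ⟩, rfl⟩

/-- The residue lemma: if a formal Bernstein–Sato polynomial does not vanish at `-ν/N`, then the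
residue of `F^s dx dy` at `s = -ν/N` along the divisor is exact. -/
theorem residue (θ : MvPowerSeries (Fin 2) ℂ →ₐ[ℂ] K⟦X⟧)
    (hθ : ∀ i, X ∣ θ (MvPowerSeries.X i)) (dz : Derivation ℂ K K) (F : MvPowerSeries (Fin 2) ℂ)
    {N ν : ℕ} (hN : 0 < N) (hν : 0 < ν) {h : K} (hh : h ≠ 0) (F1 J1 : K⟦X⟧)
    (hF : θ F = X ^ N * F1)
    (hF1 : constantCoeff F1 = h) (hJ : Jac θ dz = X ^ (ν - 1) * J1) {b : Polynomial ℂ}
    (hb : InPs F 1 (b.map (MvPowerSeries.C (σ := Fin 2) (R := ℂ))))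
    (hb0 : b.eval (-((ν : ℂ) / N)) ≠ 0) :
    ∃ r : K, dz r + algebraMap ℂ K (-((ν : ℂ) / N)) * (dz h / h) * r = constantCoeff J1 := by
  obtain ⟨D, rfl⟩ := exists_arcDat θ hθ dz F hN hh F1 J1 hF hF1 hJ
  exact D.residue hh hN hν hb hb0

end MPb07157.Res
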