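import Pool.Agent.Lib.MP_b07157_agV.R1
import Pool.Agent.Lib.MP_b07157_agV.Res

/-!
# The residue lemma
-/

noncomputable section

namespace MPb07157

open MvPolynomial

namespace PC

/-- The derivation of `K[[u]]` which applies `δ` to the coefficients. -/
def dz {K : Type} [Field K] [Algebra ℂ K] (δ : Derivation ℂ K K) :
    Derivation ℂ (PowerSeries K) (PowerSeries K) :=
  Derivation.mk' { toFun := fun h => PowerSeries.mk fun n => δ (PowerSeries.coeff n h)
                   map_add' := fun a b => by ext; simp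
                   map_smul' := fun c a => by ext; simp }
    (by
      intro a b
      ext n
      simp only [LinearMap.coe_mk, AddHom.coe_mk, PowerSeries.coeff_mk, smul_eq_mul, map_add,
        PowerSeries.coeff_mul, map_sum, Derivation.leibniz]
      rw [Finset.sum_add_distrib]
      congr 1
      rw [← Finset.Nat.sum_antidiagonal_swap]
      rfl)

theorem coeff_dz {K : Type} [Field K] [Algebra ℂ K] (δ : Derivation ℂ K K) (h : PowerSeries K)
    (n : ℕ) : PowerSeries.coeff n (dz δ h) = δ (PowerSeries.coeff n h) :=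
  PowerSeries.coeff_mk n (fun k => δ (PowerSeries.coeff k h))

/-- The Jacobian determinant of `Θ` with respect to `(u, z)`. -/
def jacK {K : Type} [Field K] [Algebra ℂ K] (δ : Derivation ℂ K K)
    (Θ : Fin 2 → PowerSeries K) : PowerSeries K :=
  PowerSeries.derivative K (Θ 0) * dz δ (Θ 1) - dz δ (Θ 0) * PowerSeries.derivative K (Θ 1)

/-- **Residue lemma.** If `s₀ = -ν/N` is not a root of `b`, the leading form of the residue of
`f^{s₀} dx dy` along the divisor `u = 0` is exact. -/
theorem residue_exact {K : Type} [Field K] [CharZero K] [Algebra ℂ K] (δ : Derivation ℂ K K)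
    {f : P2} {Θ : Fin 2 → PowerSeries K} (h0 : ∀ i, PowerSeries.constantCoeff (Θ i) = 0)
    {ν N : ℕ} (hν : 0 < ν) (hN : 0 < N) {J₀ f₀ : K} (hf₀ : f₀ ≠ 0) {J₁ F₁ : PowerSeries K}
    (hJ : jacK δ Θ = PowerSeries.X ^ (ν - 1) * (PowerSeries.C J₀ + PowerSeries.X * J₁))
    (hF : (MvPowerSeries.subst (Θ : Fin 2 → MvPowerSeries Unit K) f : PowerSeries K) =
      PowerSeries.X ^ N * (PowerSeries.C f₀ + PowerSeries.X * F₁))
    {b : Polynomial ℂ} (hb : IsB f b) (hb₀ : b.eval (-((ν : ℂ) / N)) ≠ 0) :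
    ∃ r : K, J₀ = δ r - ((ν : K) / N) * (δ f₀ / f₀) * r := by
  have hs : MvPowerSeries.HasSubst (Θ : Fin 2 → MvPowerSeries Unit K) :=
    MvPowerSeries.hasSubst_of_constantCoeff_zero h0
  let θ : MvPowerSeries (Fin 2) ℂ →ₐ[ℂ] PowerSeries K := MvPowerSeries.substAlgHom hs
  have hθ : ∀ g : P2, θ g =
      (MvPowerSeries.subst (Θ : Fin 2 → MvPowerSeries Unit K) g : PowerSeries K) :=
    fun g => by rw [← MvPowerSeries.coe_substAlgHom hs]
  have hX : ∀ i, θ (MvPowerSeries.X i) = Θ i := fun i => by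
    rw [hθ, MvPowerSeries.subst_X hs]
  have hdz : ∀ g : PowerSeries K, Res.cd δ g = dz δ g := fun g => by
    ext n
    rw [Res.coeff_cd, coeff_dz]
  have hJac : Res.Jac θ δ = jacK δ Θ := by
    rw [Res.Jac, jacK, hX, hX, hdz, hdz]
    rfl
  obtain ⟨r, hr⟩ := Res.residue θ (fun i => by
    rw [hX]
    exact PowerSeries.X_dvd_iff.2 (h0 i)) δ f hN hν hf₀
    (PowerSeries.C f₀ + PowerSeries.X * F₁) (PowerSeries.C J₀ + PowerSeries.X * J₁)
    ((hθ f).trans hF) (by simp) (hJac.trans hJ) hb hb₀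
  refine ⟨r, ?_⟩
  have h1 : PowerSeries.constantCoeff (PowerSeries.C J₀ + PowerSeries.X * J₁) = J₀ := by simp
  rw [h1] at hr
  rw [← hr]
  have h2 : algebraMap ℂ K (-((ν : ℂ) / N)) = -((ν : K) / N) := by
    rw [map_neg, map_div₀, map_natCast, map_natCast]
  rw [h2]
  ring

end PC

end MPb07157
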