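import Pool.Agent.Lib.MP_b07157_agV.R1
import Pool.Agent.Lib.MP_b07157_agV.N2

/-!
# Stages
-/

noncomputable section

namespace MPb07157

open MvPolynomial

namespace PC

namespace S1aux

theorem constantCoeff_subst' {κ : Fin 2 → P2} (h0 : ∀ i, MvPowerSeries.constantCoeff (κ i) = 0)
    (W : P2) : MvPowerSeries.constantCoeff (MvPowerSeries.subst κ W) =
      MvPowerSeries.constantCoeff W := by
  have hs : MvPowerSeries.HasSubst κ := MvPowerSeries.hasSubst_of_constantCoeff_zero h0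
  have h1 : W = MvPowerSeries.C (MvPowerSeries.constantCoeff W) +
      (W - MvPowerSeries.C (MvPowerSeries.constantCoeff W)) := by ring
  have h2 : MvPowerSeries.constantCoeff (W - MvPowerSeries.C (MvPowerSeries.constantCoeff W)) =
      0 := by
    rw [map_sub, MvPowerSeries.constantCoeff_C, sub_self]
  conv_lhs => rw [h1]
  rw [MvPowerSeries.subst_add hs, MvPowerSeries.subst_C, map_add,
    MvPowerSeries.constantCoeff_subst_eq_zero hs h0 h2, MvPowerSeries.constantCoeff_C, add_zero]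

theorem pderiv_subst_X {i j : Fin 2} (hij : i ≠ j) (φ : PowerSeries ℂ) :
    MvPowerSeries.pderiv ℂ j (PowerSeries.subst (MvPowerSeries.X i : P2) φ) = 0 := by
  classical
  ext v
  rw [MvPowerSeries.coeff_pderiv, PowerSeries.coeff_subst_single, if_neg, zero_mul, map_zero]
  intro h
  have h1 := DFunLike.congr_fun h j
  rw [Finsupp.add_apply, Finsupp.single_eq_same, Finsupp.single_eq_of_ne hij.symm] at h1
  omega

theorem constantCoeff_subst_X (i : Fin 2) {φ : PowerSeries ℂ}
    (hφ : PowerSeries.constantCoeff φ = 0) :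
    MvPowerSeries.constantCoeff (PowerSeries.subst (MvPowerSeries.X i : P2) φ) = 0 := by
  classical
  rw [← MvPowerSeries.coeff_zero_eq_constantCoeff_apply, PowerSeries.coeff_subst_single]
  split_ifs with h
  · simpa using hφ
  · rfl

theorem shY_const {φ : PowerSeries ℂ} (hφ : PowerSeries.constantCoeff φ = 0) (i : Fin 2) :
    MvPowerSeries.constantCoeff (shY φ i) = 0 := by
  fin_cases i
  · exact MvPowerSeries.constantCoeff_X _
  · change MvPowerSeries.constantCoeff (MvPowerSeries.X 1 +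
      PowerSeries.subst (MvPowerSeries.X 0 : P2) φ) = 0
    rw [map_add, MvPowerSeries.constantCoeff_X, constantCoeff_subst_X 0 hφ, add_zero]

theorem shX_const {ψ : PowerSeries ℂ} (hψ : PowerSeries.constantCoeff ψ = 0) (i : Fin 2) :
    MvPowerSeries.constantCoeff (shX ψ i) = 0 := by
  fin_cases i
  · change MvPowerSeries.constantCoeff (MvPowerSeries.X 0 +
      PowerSeries.subst (MvPowerSeries.X 1 : P2) ψ) = 0
    rw [map_add, MvPowerSeries.constantCoeff_X, constantCoeff_subst_X 1 hψ, add_zero]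
  · exact MvPowerSeries.constantCoeff_X _

theorem jac_shY (φ : PowerSeries ℂ) : jac (shY φ) = 1 := by
  have e0 : shY φ 0 = MvPowerSeries.X 0 := rfl
  have e1 : shY φ 1 = MvPowerSeries.X 1 + PowerSeries.subst (MvPowerSeries.X 0 : P2) φ := rfl
  unfold jac
  rw [e0, e1, map_add, pderiv_subst_X (by decide), MvPowerSeries.pderiv_X_self,
    MvPowerSeries.pderiv_X_self, MvPowerSeries.pderiv_X_of_ne (i := 1) (j := 0) (by decide)]
  ring

theorem jac_shX (ψ : PowerSeries ℂ) : jac (shX ψ) = 1 := by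
  have e0 : shX ψ 0 = MvPowerSeries.X 0 + PowerSeries.subst (MvPowerSeries.X 1 : P2) ψ := rfl
  have e1 : shX ψ 1 = MvPowerSeries.X 1 := rfl
  unfold jac
  rw [e0, e1, map_add, pderiv_subst_X (by decide), MvPowerSeries.pderiv_X_self,
    MvPowerSeries.pderiv_X_self, MvPowerSeries.pderiv_X_of_ne (i := 0) (j := 1) (by decide)]
  ring

theorem kap_const {p q : ℕ} (hp : 0 < p) (hq : 0 < q) (α β : ℕ) (c : ℂ) (i : Fin 2) :
    MvPowerSeries.constantCoeff (kap p q α β c i) = 0 := by
  fin_cases i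
  · change MvPowerSeries.constantCoeff (MvPowerSeries.X 0 ^ p * _ : P2) = 0
    rw [map_mul, map_pow, MvPowerSeries.constantCoeff_X, zero_pow hp.ne', zero_mul]
  · change MvPowerSeries.constantCoeff (MvPowerSeries.X 0 ^ q * _ : P2) = 0
    rw [map_mul, map_pow, MvPowerSeries.constantCoeff_X, zero_pow hq.ne', zero_mul]

theorem jac_kap {p q α β : ℕ} (hp : 0 < p) (hq : 0 < q) (hab : p * α = q * β + 1) (c : ℂ) :
    jac (kap p q α β c) = MvPowerSeries.X 0 ^ (p + q - 1) *
      (MvPowerSeries.X 1 + MvPowerSeries.C c) ^ (α + β - 1) := by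
  have e0 : kap p q α β c 0 = MvPowerSeries.X 0 ^ p * (MvPowerSeries.X 1 + MvPowerSeries.C c) ^ β :=
    rfl
  have e1 : kap p q α β c 1 = MvPowerSeries.X 0 ^ q * (MvPowerSeries.X 1 + MvPowerSeries.C c) ^ α :=
    rfl
  have hα : 0 < α := by
    rcases Nat.eq_zero_or_pos α with h | h
    · rw [h, mul_zero] at hab
      omega
    · exact h
  unfold jac
  rw [e0, e1]
  set V : P2 := MvPowerSeries.X 1 + MvPowerSeries.C c with hV
  have d0 : MvPowerSeries.pderiv ℂ 0 V = 0 := by
    rw [hV, map_add, MvPowerSeries.pderiv_X_of_ne (by decide), MvPowerSeries.pderiv_C, add_zero]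
  have d1 : MvPowerSeries.pderiv ℂ 1 V = 1 := by
    rw [hV, map_add, MvPowerSeries.pderiv_X_self, MvPowerSeries.pderiv_C, add_zero]
  have d2 : MvPowerSeries.pderiv ℂ 1 (MvPowerSeries.X 0 : P2) = 0 :=
    MvPowerSeries.pderiv_X_of_ne (by decide)
  have d3 : MvPowerSeries.pderiv ℂ 0 (MvPowerSeries.X 0 : P2) = 1 :=
    MvPowerSeries.pderiv_X_self
  simp only [Derivation.leibniz, MvPowerSeries.pderiv_pow, d0, d1, d2, d3, smul_eq_mul, mul_zero,
    mul_one, add_zero, zero_add]
  obtain ⟨p, rfl⟩ : ∃ b, p = b + 1 := ⟨p - 1, by omega⟩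
  obtain ⟨q, rfl⟩ : ∃ b, q = b + 1 := ⟨q - 1, by omega⟩
  obtain ⟨α, rfl⟩ : ∃ b, α = b + 1 := ⟨α - 1, by omega⟩
  have hab' : ((p : P2) + 1) * ((α : P2) + 1) = ((q : P2) + 1) * (β : P2) + 1 := by
    have := congrArg (Nat.cast : ℕ → P2) hab
    push_cast at this
    exact this
  rcases Nat.eq_zero_or_pos β with hβ | hβ
  · subst hβ
    simp only [Nat.cast_zero, zero_mul, mul_zero, sub_zero, pow_zero, add_zero,
      Nat.add_sub_cancel, Nat.cast_add, Nat.cast_one, zero_add] at hab' ⊢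
    rw [show p + 1 + (q + 1) - 1 = p + q + 1 by omega]
    linear_combination (MvPowerSeries.X 0 ^ (p + q + 1) * V ^ α) * hab'
  · obtain ⟨β, rfl⟩ : ∃ b, β = b + 1 := ⟨β - 1, by omega⟩
    simp only [Nat.add_sub_cancel, Nat.cast_add, Nat.cast_one] at hab' ⊢
    rw [show p + 1 + (q + 1) - 1 = p + q + 1 by omega,
      show α + 1 + (β + 1) - 1 = α + β + 1 by omega]
    linear_combination (MvPowerSeries.X 0 ^ (p + q + 1) * V ^ (α + β + 1)) * hab'

end S1aux

theorem isStage_id (f : P2) : IsStage f MvPowerSeries.X f 1 := by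
  refine ⟨fun i => MvPowerSeries.constantCoeff_X i, ?_, le_rfl, 1, ?_, ?_⟩
  · rw [MvPowerSeries.subst_self]
    rfl
  · rw [map_one]
    exact one_ne_zero
  · unfold jac
    rw [MvPowerSeries.pderiv_X_self, MvPowerSeries.pderiv_X_self,
      MvPowerSeries.pderiv_X_of_ne (i := 1) (j := 0) (by decide)]
    simp

theorem IsStage.shY {f : P2} {θ : Fin 2 → P2} {F : P2} {a : ℕ} (h : IsStage f θ F a)
    {φ : PowerSeries ℂ} (hφ : PowerSeries.constantCoeff φ = 0) :
    IsStage f (fun i => MvPowerSeries.subst (shY φ) (θ i)) (MvPowerSeries.subst (shY φ) F) a := by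
  have hk := S1aux.shY_const hφ
  have hs : MvPowerSeries.HasSubst (PC.shY φ) := MvPowerSeries.hasSubst_of_constantCoeff_zero hk
  have hθ : MvPowerSeries.HasSubst θ := MvPowerSeries.hasSubst_of_constantCoeff_zero h.h0
  obtain ⟨W, hW, hj⟩ := h.hjac
  refine ⟨fun i => MvPowerSeries.constantCoeff_subst_eq_zero hs hk (h.h0 i), ?_, h.ha,
    MvPowerSeries.subst (PC.shY φ) W, ?_, ?_⟩
  · rw [h.hF, MvPowerSeries.subst_comp_subst_apply hθ hs]
  · rwa [S1aux.constantCoeff_subst' hk]
  · rw [jac_comp h.h0 hk, hj, S1aux.jac_shY, mul_one, MvPowerSeries.subst_mul hs,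
      MvPowerSeries.subst_pow hs, MvPowerSeries.subst_X hs]
    rfl

theorem IsStage.shX {f : P2} {θ : Fin 2 → P2} {F : P2} (h : IsStage f θ F 1)
    {ψ : PowerSeries ℂ} (hψ : PowerSeries.constantCoeff ψ = 0) :
    IsStage f (fun i => MvPowerSeries.subst (shX ψ) (θ i)) (MvPowerSeries.subst (shX ψ) F) 1 := by
  have hk := S1aux.shX_const hψ
  have hs : MvPowerSeries.HasSubst (PC.shX ψ) := MvPowerSeries.hasSubst_of_constantCoeff_zero hk
  have hθ : MvPowerSeries.HasSubst θ := MvPowerSeries.hasSubst_of_constantCoeff_zero h.h0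
  obtain ⟨W, hW, hj⟩ := h.hjac
  refine ⟨fun i => MvPowerSeries.constantCoeff_subst_eq_zero hs hk (h.h0 i), ?_, h.ha,
    MvPowerSeries.subst (PC.shX ψ) W, ?_, ?_⟩
  · rw [h.hF, MvPowerSeries.subst_comp_subst_apply hθ hs]
  · rwa [S1aux.constantCoeff_subst' hk]
  · rw [jac_comp h.h0 hk, hj, S1aux.jac_shX, mul_one, MvPowerSeries.subst_mul hs,
      MvPowerSeries.subst_pow hs, Nat.sub_self, pow_zero, pow_zero]

theorem IsStage.sub {f : P2} {θ : Fin 2 → P2} {F : P2} {a : ℕ} (h : IsStage f θ F a)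
    {p q α β : ℕ} (hp : 0 < p) (hq : 0 < q) (hab : p * α = q * β + 1) {c : ℂ} (hc : c ≠ 0) :
    IsStage f (fun i => MvPowerSeries.subst (kap p q α β c) (θ i))
      (MvPowerSeries.subst (kap p q α β c) F) (a * p + q) := by
  have hk := S1aux.kap_const hp hq α β c
  have hs : MvPowerSeries.HasSubst (kap p q α β c) :=
    MvPowerSeries.hasSubst_of_constantCoeff_zero hk
  have hθ : MvPowerSeries.HasSubst θ := MvPowerSeries.hasSubst_of_constantCoeff_zero h.h0
  obtain ⟨W, hW, hj⟩ := h.hjac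
  refine ⟨fun i => MvPowerSeries.constantCoeff_subst_eq_zero hs hk (h.h0 i), ?_, by omega,
    (MvPowerSeries.X 1 + MvPowerSeries.C c) ^ (β * (a - 1)) *
      MvPowerSeries.subst (kap p q α β c) W *
      (MvPowerSeries.X 1 + MvPowerSeries.C c) ^ (α + β - 1), ?_, ?_⟩
  · rw [h.hF, MvPowerSeries.subst_comp_subst_apply hθ hs]
  · rw [map_mul, map_mul, S1aux.constantCoeff_subst' hk, map_pow, map_pow, map_add,
      MvPowerSeries.constantCoeff_X, MvPowerSeries.constantCoeff_C, zero_add]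
    exact mul_ne_zero (mul_ne_zero (pow_ne_zero _ hc) hW) (pow_ne_zero _ hc)
  · have e0 : kap p q α β c 0 = MvPowerSeries.X 0 ^ p *
        (MvPowerSeries.X 1 + MvPowerSeries.C c) ^ β := rfl
    rw [jac_comp h.h0 hk, hj, S1aux.jac_kap hp hq hab, MvPowerSeries.subst_mul hs,
      MvPowerSeries.subst_pow hs, MvPowerSeries.subst_X hs, e0]
    have h1 := h.ha
    obtain ⟨b, rfl⟩ : ∃ b, a = b + 1 := ⟨a - 1, by omega⟩
    have e1 : (b + 1) * p + q - 1 = p * b + (p + q - 1) := by
      rw [add_mul, one_mul, mul_comm b p]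
      omega
    rw [Nat.add_sub_cancel, mul_pow, ← pow_mul, ← pow_mul, e1, pow_add]
    ring

end PC

end MPb07157
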